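import Pool.Agent.H697R3.Space

set_option autoImplicit false

namespace Pool.Agent.H697R3.CombDual

open Finset

/-- sign selection in an inner product space -/
theorem exists_signs {H : Type*} [NormedAddCommGroup H] [InnerProductSpace ℝ H] (β : ℕ → H)
    (N : ℕ) : ∃ ε : ℕ → ℝ, (∀ i, |ε i| = 1) ∧
      ‖∑ i ∈ range N, ε i • β i‖ ^ 2 ≤ ∑ i ∈ range N, ‖β i‖ ^ 2 := by
  induction N with
  | zero => exact ⟨fun _ => 1, fun _ => by simp, by simp⟩
  | succ N ih =>
    obtain ⟨ε, hε, h⟩ := ih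
    set u := ∑ i ∈ range N, ε i • β i with hu
    have hpar := parallelogram_law_with_norm ℝ u (β N)
    have hupd : ∀ (δ : ℝ), ∑ i ∈ range (N + 1), (Function.update ε N δ) i • β i = u + δ • β N := by
      intro δ
      rw [Finset.sum_range_succ, Function.update_self]
      congr 1
      apply Finset.sum_congr rfl
      intro i hi
      rw [Function.update_of_ne (by have := mem_range.1 hi; omega)]
    by_cases hc : ‖u + β N‖ ^ 2 ≤ ‖u‖ ^ 2 + ‖β N‖ ^ 2
    · refine ⟨Function.update ε N 1, ?_, ?_⟩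
      · intro i
        by_cases hi : i = N
        · subst hi; simp
        · rw [Function.update_of_ne hi]; exact hε i
      · rw [hupd, one_smul, Finset.sum_range_succ]
        linarith
    · refine ⟨Function.update ε N (-1), ?_, ?_⟩
      · intro i
        by_cases hi : i = N
        · subst hi; simp
        · rw [Function.update_of_ne hi]; exact hε i
      · rw [hupd, neg_one_smul, ← sub_eq_add_neg, Finset.sum_range_succ]
        have := not_le.1 hc
        nlinarith

/-- evaluation functional on the ambient space -/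
noncomputable def evA (𝓕 : Set (Finset ℕ)) (p : Idx 𝓕) : Amb 𝓕 →L[ℝ] ℝ :=
  LinearMap.mkContinuous
    { toFun := fun x => x p
      map_add' := fun x y => by rw [lp.coeFn_add]; rfl
      map_smul' := fun c x => by rw [lp.coeFn_smul]; rfl } 1 (by
    intro x
    rw [one_mul]
    exact lp.norm_apply_le_norm ENNReal.top_ne_zero x p)

theorem evA_apply (𝓕 : Set (Finset ℕ)) (p : Idx 𝓕) (x : Amb 𝓕) : evA 𝓕 p x = x p := rfl

section

variable (D : TreeData)

theorem single_mem (t : ℕ) : ({t} : Finset ℕ) ∈ Fam D := by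
  constructor
  · intro s hs s' hs' hne
    simp only [mem_singleton] at hs hs'
    exact absurd (hs.trans hs'.symm) hne
  · intro s _
    calc (({t} : Finset ℕ).image D.L).card ≤ ({t} : Finset ℕ).card := card_image_le
      _ = 1 := by simp
      _ ≤ 4 ^ D.L s := Nat.one_le_pow _ _ (by norm_num)

end

/-- abstract presentation of the combinatorial space attached to `D` -/
structure CSpace (D : TreeData) (E : Type) [NormedAddCommGroup E] [NormedSpace ℝ E] where
  e : ℕ → E
  coord : ℕ → (E →L[ℝ] ℝ)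
  hcoord : ∀ t i, coord t (e i) = if i = t then 1 else 0
  hdense : Dense (Submodule.span ℝ (Set.range e) : Set E)
  hnorm : ∀ (n : ℕ) (a : ℕ → ℝ), ‖∑ i ∈ Finset.range n, a i • e i‖ =
      sSup ((fun F : Finset ℕ => ∑ i ∈ F ∩ Finset.range n, |a i|) '' (Fam D))
  hone : ∀ (N : ℕ) (s : ℕ → ℕ) (σ : ℕ → ℝ), (∀ n, |σ n| = 1) →
      (∀ A ∈ Fam D, ((range N).filter (fun n => s n ∈ A)).card ≤ 1) →
      ‖∑ n ∈ range N, σ n • e (s n)‖ ≤ 1

section

variable {D : TreeData} {E : Type} [NormedAddCommGroup E] [NormedSpace ℝ E] (X : CSpace D E)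

/-- the functionals `y_n` -/
noncomputable def yf (n : ℕ) : E →L[ℝ] ℝ :=
  ∑ t ∈ (D.fin n).toFinset, D.v t • X.coord t

theorem yf_ee (n i : ℕ) : yf X n (X.e i) = if D.L i = n then D.v i else 0 := by
  unfold yf
  rw [_root_.sum_apply]
  simp only [smul_apply, X.hcoord, smul_eq_mul, mul_ite, mul_one, mul_zero]
  rw [Finset.sum_ite_eq]
  simp only [Set.Finite.mem_toFinset]
  rfl

theorem yf_sum (n N : ℕ) (a : ℕ → ℝ) : yf X n (∑ i ∈ range N, a i • X.e i)
    = ∑ i ∈ (range N).filter (fun i => D.L i = n), D.v i * a i := by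
  rw [map_sum, Finset.sum_filter]
  apply Finset.sum_congr rfl
  intro i _
  rw [map_smul, yf_ee, smul_eq_mul]
  split_ifs <;> ring

theorem yf_bound_sum (s : Finset ℕ) (N : ℕ) (a : ℕ → ℝ) :
    ∑ n ∈ s, (yf X n (∑ i ∈ range N, a i • X.e i)) ^ 2
      ≤ 35 ^ 2 * ‖∑ i ∈ range N, a i • X.e i‖ ^ 2 := by
  classical
  have hnorm := X.hnorm N a
  have h := heart3 D (range N) (fun t => |a t|) (fun t => abs_nonneg _)
    ‖∑ i ∈ range N, a i • X.e i‖ (norm_nonneg _) (by
      intro F hF hFF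
      rw [hnorm]
      refine le_csSup_of_le (bdd_img _ N a) ⟨F, hFF, rfl⟩ ?_
      show ∑ t ∈ F, |a t| ≤ ∑ i ∈ F ∩ range N, |a i|
      rw [Finset.inter_eq_left.2 hF])
  refine le_trans ?_ h
  have h1 : ∀ n, (yf X n (∑ i ∈ range N, a i • X.e i)) ^ 2
      ≤ (∑ t ∈ (range N).filter (fun t => D.L t = n), D.v t * |a t|) ^ 2 := by
    intro n
    rw [yf_sum, ← sq_abs]
    apply pow_le_pow_left₀ (abs_nonneg _)
    refine le_trans (Finset.abs_sum_le_sum_abs _ _) ?_
    apply Finset.sum_le_sum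
    intro i _
    rw [abs_mul, abs_of_nonneg (D.v_nonneg i)]
  calc ∑ n ∈ s, (yf X n (∑ i ∈ range N, a i • X.e i)) ^ 2
      ≤ ∑ n ∈ s, (∑ t ∈ (range N).filter (fun t => D.L t = n), D.v t * |a t|) ^ 2 :=
        Finset.sum_le_sum fun n _ => h1 n
    _ ≤ ∑ n ∈ s ∪ (range N).image D.L,
          (∑ t ∈ (range N).filter (fun t => D.L t = n), D.v t * |a t|) ^ 2 :=
        Finset.sum_le_sum_of_subset_of_nonneg subset_union_left (fun _ _ _ => sq_nonneg _)
    _ = ∑ n ∈ (range N).image D.L,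
          (∑ t ∈ (range N).filter (fun t => D.L t = n), D.v t * |a t|) ^ 2 := by
        symm
        apply Finset.sum_subset subset_union_right
        intro n _ hn
        have : (range N).filter (fun t => D.L t = n) = ∅ := by
          apply Finset.filter_eq_empty_iff.2
          intro t ht hL
          exact hn (mem_image.2 ⟨t, ht, hL⟩)
        rw [this]; simp

theorem span_form (x : E) (hx : x ∈ Submodule.span ℝ (Set.range X.e)) :
    ∃ (N : ℕ) (a : ℕ → ℝ), x = ∑ i ∈ range N, a i • X.e i := by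
  obtain ⟨c, rfl⟩ := (Finsupp.mem_span_range_iff_exists_finsupp).1 hx
  refine ⟨c.support.sup id + 1, c, ?_⟩
  rw [Finsupp.sum]
  apply Finset.sum_subset
  · intro i hi
    have : i ≤ c.support.sup id := Finset.le_sup (f := id) hi
    exact mem_range.2 (by omega)
  · intro i _ hi
    rw [Finsupp.notMem_support_iff.1 hi, zero_smul]

theorem yf_bound (s : Finset ℕ) (x : E) :
    ∑ n ∈ s, (yf X n x) ^ 2 ≤ 35 ^ 2 * ‖x‖ ^ 2 := by
  have hclosed : IsClosed {x : E | ∑ n ∈ s, (yf X n x) ^ 2 ≤ 35 ^ 2 * ‖x‖ ^ 2} := by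
    apply isClosed_le
    · apply continuous_finsetSum
      intro n _
      exact (yf X n).continuous.pow 2
    · exact continuous_const.mul (continuous_norm.pow 2)
  have hsub : (Submodule.span ℝ (Set.range X.e) : Set E)
      ⊆ {x : E | ∑ n ∈ s, (yf X n x) ^ 2 ≤ 35 ^ 2 * ‖x‖ ^ 2} := by
    intro x hx
    obtain ⟨N, a, rfl⟩ := span_form X x hx
    exact yf_bound_sum X s N a
  have hall := X.hdense.closure_eq ▸ (closure_minimal hsub hclosed)
  exact hall (Set.mem_univ x)

abbrev l2 : Type := lp (fun _ : ℕ => ℝ) 2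

theorem memlp_yf (x : E) : Memℓp (E := fun _ : ℕ => ℝ) (fun n => yf X n x) 2 := by
  apply memℓp_gen' (C := 35 ^ 2 * ‖x‖ ^ 2)
  intro s
  have := yf_bound X s x
  refine le_trans (le_of_eq ?_) this
  apply Finset.sum_congr rfl
  intro n _
  simp

/-- the quotient map onto `ℓ²` -/
noncomputable def Ql : E →ₗ[ℝ] l2 where
  toFun x := (⟨fun n => yf X n x, memlp_yf X x⟩ : l2)
  map_add' x y := by
    ext n
    show yf X n (x + y) = yf X n x + yf X n y
    rw [map_add]
  map_smul' c x := by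
    ext n
    show yf X n (c • x) = c • yf X n x
    rw [map_smul]

theorem Ql_bound (x : E) : ‖Ql X x‖ ≤ 35 * ‖x‖ := by
  apply lp.norm_le_of_forall_sum_le (by norm_num) (by positivity)
  intro s
  have h := yf_bound X s x
  have h2 : (35 * ‖x‖) ^ (2 : ENNReal).toReal = 35 ^ 2 * ‖x‖ ^ 2 := by
    simp [mul_pow]
  rw [h2]
  refine le_trans (le_of_eq ?_) h
  apply Finset.sum_congr rfl
  intro n _
  show ‖yf X n x‖ ^ (2 : ENNReal).toReal = _
  simp

noncomputable def Qm : E →L[ℝ] l2 := (Ql X).mkContinuous 35 (Ql_bound X)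

theorem Qm_apply (x : E) (n : ℕ) : (Qm X x : l2) n = yf X n x := rfl

theorem Qm_norm (x : E) : ‖Qm X x‖ ≤ 35 * ‖x‖ := Ql_bound X x

theorem Qm_ee (t : ℕ) : Qm X (X.e t) = D.v t • (lp.single 2 (D.L t) (1 : ℝ) : l2) := by
  ext n
  rw [Qm_apply, yf_ee, lp.coeFn_smul, Pi.smul_apply]
  by_cases h : D.L t = n
  · subst h
    simp
  · rw [if_neg h]
    simp [Ne.symm h]

/-- the adjoint -/
noncomputable def Jl : l2 →ₗ[ℝ] (E →L[ℝ] ℝ) where
  toFun b := (innerSL ℝ b).comp (Qm X)
  map_add' b c := by ext x; simp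
  map_smul' r b := by ext x; simp

theorem Jl_apply (b : l2) (x : E) : Jl X b x = inner ℝ b (Qm X x) := rfl

theorem Jl_bound (b : l2) : ‖Jl X b‖ ≤ 35 * ‖b‖ := by
  apply ContinuousLinearMap.opNorm_le_bound _ (by positivity)
  intro x
  rw [Jl_apply]
  calc ‖inner ℝ b (Qm X x)‖ ≤ ‖b‖ * ‖Qm X x‖ := norm_inner_le_norm _ _
    _ ≤ ‖b‖ * (35 * ‖x‖) := mul_le_mul_of_nonneg_left (Qm_norm X x) (norm_nonneg _)
    _ = 35 * ‖b‖ * ‖x‖ := by ring

theorem Jl_ee (b : l2) (t : ℕ) : Jl X b (X.e t) = D.v t * b (D.L t) := by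
  rw [Jl_apply, Qm_ee, inner_smul_right, lp.inner_single_right]
  simp

theorem Jl_lower_N (b : l2) (N : ℕ) :
    ∑ n ∈ range N, b n ^ 2 ≤ (2 * ‖Jl X b‖) ^ 2 := by
  classical
  set S : ℝ := ∑ n ∈ range N, b n ^ 2 with hS
  have hS0 : 0 ≤ S := Finset.sum_nonneg fun n _ => sq_nonneg _
  rcases hS0.eq_or_lt with h0 | hpos
  · rw [← h0]; positivity
  have hr : 0 < Real.sqrt S := Real.sqrt_pos.2 hpos
  have hrr : Real.sqrt S ^ 2 = S := Real.sq_sqrt hS0
  obtain ⟨s, hs1, hs2⟩ := D.branch (fun n => b n / Real.sqrt S) N (by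
    simp only [div_pow]
    rw [← Finset.sum_div, hrr]
    exact (div_self hpos.ne').le)
  -- the test vector
  set sgn : ℕ → ℝ := fun n => if b n < 0 then -1 else 1 with hsgn
  have hsgn1 : ∀ n, |sgn n| = 1 := by intro n; simp only [hsgn]; split_ifs <;> simp
  have hsgn2 : ∀ n, sgn n * b n = |b n| := by
    intro n; simp only [hsgn]
    split_ifs with h
    · rw [abs_of_neg h]; ring
    · rw [abs_of_nonneg (not_lt.1 h)]; ring
  set x : E := ∑ n ∈ range N, sgn n • X.e (s n) with hx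
  have hxnorm : ‖x‖ ≤ 1 := by
    apply X.hone N s sgn hsgn1
    intro A hA
    rw [Finset.card_le_one]
    intro m hm n hn
    simp only [mem_filter, mem_range] at hm hn
    by_contra hne
    have hanti := hA.1
    rcases Nat.lt_or_gt_of_ne hne with hlt | hgt
    · refine hanti _ hm.2 _ hn.2 ?_ (hs2 m n hlt.le hn.1)
      intro heq
      have := (hs1 m hm.1).1
      rw [heq, (hs1 n hn.1).1] at this
      exact hne this.symm
    · refine hanti _ hn.2 _ hm.2 ?_ (hs2 n m hgt.le hm.1)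
      intro heq
      have := (hs1 n hn.1).1
      rw [heq, (hs1 m hm.1).1] at this
      exact hne this
  have hJx : Jl X b x = ∑ n ∈ range N, |b n| * D.v (s n) := by
    rw [hx, map_sum]
    apply Finset.sum_congr rfl
    intro n hn
    rw [map_smul, Jl_ee, (hs1 n (mem_range.1 hn)).1, smul_eq_mul, ← hsgn2 n]
    ring
  have hlow : Real.sqrt S / 2 ≤ Jl X b x := by
    rw [hJx]
    have h1 : ∀ n ∈ range N, b n ^ 2 / (2 * Real.sqrt S) ≤ |b n| * D.v (s n) := by
      intro n hn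
      have h2 := (hs1 n (mem_range.1 hn)).2
      rw [abs_div, abs_of_pos hr] at h2
      have h3 : |b n| / Real.sqrt S / 2 ≤ D.v (s n) := by linarith
      calc b n ^ 2 / (2 * Real.sqrt S) = |b n| * (|b n| / Real.sqrt S / 2) := by
            rw [← sq_abs]; field_simp
        _ ≤ _ := mul_le_mul_of_nonneg_left h3 (abs_nonneg _)
    calc Real.sqrt S / 2 = S / (2 * Real.sqrt S) := by
          rw [div_eq_div_iff (by norm_num) (by positivity)]
          nlinarith
      _ = ∑ n ∈ range N, b n ^ 2 / (2 * Real.sqrt S) := by rw [← Finset.sum_div]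
      _ ≤ _ := Finset.sum_le_sum h1
  have hup : Jl X b x ≤ ‖Jl X b‖ := by
    calc Jl X b x ≤ ‖Jl X b x‖ := le_abs_self _
      _ ≤ ‖Jl X b‖ * ‖x‖ := (Jl X b).le_opNorm x
      _ ≤ ‖Jl X b‖ * 1 := mul_le_mul_of_nonneg_left hxnorm (norm_nonneg _)
      _ = _ := mul_one _
  calc S = Real.sqrt S ^ 2 := hrr.symm
    _ ≤ (2 * ‖Jl X b‖) ^ 2 := pow_le_pow_left₀ hr.le (by linarith) 2

theorem Jl_lower (b : l2) : ‖b‖ ≤ 2 * ‖Jl X b‖ := by
  apply lp.norm_le_of_forall_sum_le (by norm_num) (by positivity)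
  intro s
  obtain ⟨N, hN⟩ : ∃ N, s ⊆ range N := ⟨s.sup id + 1, fun i hi => by
    have : i ≤ s.sup id := Finset.le_sup (f := id) hi
    exact mem_range.2 (by omega)⟩
  have h := Jl_lower_N X b N
  have h2 : (2 * ‖Jl X b‖) ^ (2 : ENNReal).toReal = (2 * ‖Jl X b‖) ^ 2 := by simp
  rw [h2]
  refine le_trans ?_ h
  calc ∑ i ∈ s, ‖b i‖ ^ (2 : ENNReal).toReal = ∑ i ∈ s, b i ^ 2 := by
        apply Finset.sum_congr rfl; intro n _; simp
    _ ≤ _ := Finset.sum_le_sum_of_subset_of_nonneg hN (fun _ _ _ => sq_nonneg _)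

theorem Jl_inj : Function.Injective (Jl X) := by
  intro b c h
  have h1 := Jl_lower X (b - c)
  rw [map_sub, h, sub_self, norm_zero, mul_zero] at h1
  exact sub_eq_zero.1 (norm_le_zero_iff.1 h1)

theorem range_closed : IsClosed ((LinearMap.range (Jl X) : Submodule ℝ (E →L[ℝ] ℝ)) :
    Set (E →L[ℝ] ℝ)) := by
  let J : l2 →L[ℝ] (E →L[ℝ] ℝ) := (Jl X).mkContinuous 35 (Jl_bound X)
  have hanti : AntilipschitzWith 2 J := by
    apply ContinuousLinearMap.antilipschitz_of_bound
    intro b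
    exact Jl_lower X b
  have := hanti.isClosed_range J.uniformContinuous
  exact this

theorem not_finite_l2 : ¬ FiniteDimensional ℝ l2 := by
  intro hfd
  have hli : LinearIndependent ℝ (fun n : ℕ => (lp.single 2 n (1 : ℝ) : l2)) := by
    rw [linearIndependent_iff']
    intro s g hg i hi
    have := congrArg (fun z : l2 => z i) hg
    simp only [lp.coeFn_sum, Finset.sum_apply, lp.coeFn_smul, Pi.smul_apply, smul_eq_mul] at this
    rw [Finset.sum_eq_single i] at this
    · simpa using this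
    · intro j _ hj
      simp [Ne.symm hj]
    · intro h; exact absurd hi h
  have := hli.finite
  exact not_finite ℕ

theorem range_not_fd : ¬ FiniteDimensional ℝ (LinearMap.range (Jl X)) := by
  intro h
  have e := LinearEquiv.ofInjective (Jl X) (Jl_inj X)
  exact not_finite_l2 (Module.Finite.equiv e.symm)

theorem no_l1 (f : ℕ → (E →L[ℝ] ℝ)) (c : ℝ) (hc : 0 < c)
    (hf : ∀ i, f i ∈ LinearMap.range (Jl X) ∧ ‖f i‖ ≤ 1)
    (h : ∀ (n : ℕ) (a : ℕ → ℝ),
      c * ∑ i ∈ Finset.range n, |a i| ≤ ‖∑ i ∈ Finset.range n, a i • f i‖) : False := by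
  choose β hβ using fun i => (hf i).1
  have hβn : ∀ i, ‖β i‖ ≤ 2 := by
    intro i
    have := Jl_lower X (β i)
    rw [hβ i] at this
    linarith [(hf i).2]
  obtain ⟨N, hN⟩ := exists_nat_gt (4900 / c ^ 2)
  obtain ⟨ε, hε, hs⟩ := exists_signs β N
  have h1 := h N ε
  have h2 : ∑ i ∈ range N, |ε i| = N := by simp [hε]
  rw [h2] at h1
  have h3 : ∑ i ∈ range N, ε i • f i = Jl X (∑ i ∈ range N, ε i • β i) := by
    rw [map_sum]
    apply Finset.sum_congr rfl
    intro i _
    rw [map_smul, hβ i]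
  rw [h3] at h1
  have h4 := Jl_bound X (∑ i ∈ range N, ε i • β i)
  have h5 : ∑ i ∈ range N, ‖β i‖ ^ 2 ≤ 4 * N := by
    calc ∑ i ∈ range N, ‖β i‖ ^ 2 ≤ ∑ _i ∈ range N, (4 : ℝ) := by
          apply Finset.sum_le_sum
          intro i _
          have := hβn i
          nlinarith [norm_nonneg (β i)]
      _ = 4 * N := by simp [mul_comm]
  have h6 : c * N ≤ 35 * ‖∑ i ∈ range N, ε i • β i‖ := h1.trans h4
  have hNpos : (0 : ℝ) < N := lt_of_le_of_lt (by positivity) hN
  have h7 : (c * N) ^ 2 ≤ (35 * ‖∑ i ∈ range N, ε i • β i‖) ^ 2 :=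
    pow_le_pow_left₀ (by positivity) h6 2
  have h8 : (c * N) ^ 2 ≤ 4900 * N := by nlinarith
  have h9 : c ^ 2 * N ≤ 4900 := by
    have : (c ^ 2 * N) * N ≤ 4900 * N := by nlinarith
    exact le_of_mul_le_mul_right this hNpos
  rw [div_lt_iff₀ (by positivity)] at hN
  linarith

end

/-- The concrete space. -/
noncomputable def concrete (D : TreeData) : CSpace D (Sp (Fam D)) where
  e := ee (Fam D)
  coord t := (evA (Fam D) (⟨{t}, single_mem D t⟩, ∅)).comp (Sp (Fam D)).subtypeL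
  hcoord t i := by
    show (e0 (Fam D) i : Amb (Fam D)) (⟨{t}, single_mem D t⟩, ∅) = _
    rw [e0_apply]
    simp [sg]
  hdense := dense_ee (Fam D)
  hnorm n a := norm_sum_ee (Fam D) ⟨{0}, single_mem D 0⟩ n a
  hone N s σ hσ hA := by
    have hval : ((∑ n ∈ range N, σ n • ee (Fam D) (s n) : Sp (Fam D)) : Amb (Fam D))
        = ∑ n ∈ range N, σ n • e0 (Fam D) (s n) := by
      rw [Submodule.coe_sum]; rfl
    have hn : ‖(∑ n ∈ range N, σ n • ee (Fam D) (s n) : Sp (Fam D))‖
      = ‖((∑ n ∈ range N, σ n • ee (Fam D) (s n) : Sp (Fam D)) : Amb (Fam D))‖ := rfl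
    rw [hn, hval]
    apply lp.norm_le_of_forall_le (by norm_num)
    intro p
    rw [sum_apply' (Fam D) (range N) s σ p, Real.norm_eq_abs]
    refine le_trans (Finset.abs_sum_le_sum_abs _ _) ?_
    have h1 : ∀ n ∈ range N, |σ n * (if s n ∈ p.1.1 then sg p.2 (s n) else 0)|
        = if s n ∈ p.1.1 then 1 else 0 := by
      intro n _
      rw [abs_mul, hσ, one_mul]
      split_ifs
      · exact abs_sg _ _
      · simp
    rw [Finset.sum_congr rfl h1, ← Finset.sum_filter, Finset.sum_const, nsmul_eq_mul, mul_one]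
    exact_mod_cast hA p.1.1 p.1.2

theorem fam_hereditary (D : TreeData) : ∀ A ∈ Fam D, ∀ B : Finset ℕ, B ⊆ A → B ∈ Fam D := by
  intro A hA B hBA
  refine ⟨fun s hs t ht => hA.1 s (hBA hs) t (hBA ht), ?_⟩
  intro s hs
  exact (card_le_card (image_subset_image hBA)).trans (hA.2 s (hBA hs))

theorem fam_compact (D : TreeData) :
    ∀ M : Set ℕ, M.Infinite → ∃ A : Finset ℕ, (↑A : Set ℕ) ⊆ M ∧ A ∉ Fam D := by
  intro M hM
  by_contra hcon
  push Not at hcon
  obtain ⟨s, hs⟩ := hM.nonempty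
  -- the level set of M is infinite
  have hLinf : (D.L '' M).Infinite := by
    intro hfin
    apply hM
    have hsub : M ⊆ ⋃ n ∈ D.L '' M, {t | D.L t = n} := by
      intro t ht
      simp only [Set.mem_iUnion]
      exact ⟨D.L t, ⟨t, ht, rfl⟩, rfl⟩
    exact (hfin.biUnion (fun n _ => D.fin n)).subset hsub
  obtain ⟨S, hS, hScard⟩ := hLinf.exists_subset_card_eq (4 ^ D.L s + 1)
  -- choose preimages
  have hch : ∀ n ∈ S, ∃ t ∈ M, D.L t = n := by
    intro n hn
    obtain ⟨t, ht, h⟩ := hS (Finset.mem_coe.2 hn)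
    exact ⟨t, ht, h⟩
  choose! g hg1 hg2 using hch
  set A : Finset ℕ := insert s (S.image g) with hA
  have hAM : (↑A : Set ℕ) ⊆ M := by
    intro t ht
    simp only [hA, Finset.coe_insert, Set.mem_insert_iff, Finset.mem_coe, mem_image] at ht
    rcases ht with rfl | ⟨n, hn, rfl⟩
    · exact hs
    · exact hg1 n hn
  have h := (hcon A hAM).2 s (mem_insert_self _ _)
  have hSA : S ⊆ A.image D.L := by
    intro n hn
    exact mem_image.2 ⟨g n, mem_insert_of_mem (mem_image_of_mem g hn), hg2 n hn⟩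
  have := card_le_card hSA
  omega

end Pool.Agent.H697R3.CombDual
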