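import Pool.Agent.H697R3.Sampling

set_option autoImplicit false

namespace Pool.Agent.H697R3.CombDual

open Finset

open Classical in
theorem level_le (D : TreeData) (U : Finset ℕ) (w : ℕ → ℝ)
    (hF : ∀ F ⊆ U, F ∈ Fam D → ∑ t ∈ F, w t ≤ 1) (n : ℕ) :
    ∑ t ∈ U.filter (fun t => D.L t = n), w t ≤ 1 := by
  apply hF _ (filter_subset _ _)
  constructor
  · intro s hs t ht hst hR
    simp only [mem_filter] at hs ht
    exact hst (D.inj s t t hR (D.refl t) (by rw [hs.2, ht.2]))
  · intro s _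
    have hsub : (U.filter (fun t => D.L t = n)).image D.L ⊆ {n} := by
      intro m hm
      simp only [mem_image, mem_filter] at hm
      obtain ⟨t, ⟨_, h⟩, rfl⟩ := hm
      simp [h]
    calc ((U.filter (fun t => D.L t = n)).image D.L).card ≤ ({n} : Finset ℕ).card :=
          card_le_card hsub
      _ = 1 := by simp
      _ ≤ 4 ^ D.L s := Nat.one_le_pow _ _ (by norm_num)

open Classical in
theorem layer (D : TreeData) (U : Finset ℕ) (w : ℕ → ℝ) (hw : ∀ t, 0 ≤ w t)
    (hF : ∀ F ⊆ U, F ∈ Fam D → ∑ t ∈ F, w t ≤ 1)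
    (b : ℕ → ℝ) (hb : ∀ n, 0 ≤ b n) (hbs : ∑ n ∈ U.image D.L, b n ^ 2 = 1)
    (i : ℕ) (hi : 1 ≤ i) (T' : Finset ℕ) (hT : T' ⊆ U)
    (h1 : ∀ t ∈ T', 2 ^ (i - 1) * b (D.L t) ≤ D.v t)
    (h2 : ∀ t ∈ T', D.v t ≤ 2 ^ i * b (D.L t))
    (h3 : ∀ t ∈ T', i ≤ D.L t) :
    ∑ t ∈ T', b (D.L t) * D.v t * w t ≤ 32 * (1 / 2) ^ i := by
  have hsamp := sampling D (U.image D.L) (fun n => b n ^ 2) (fun n => sq_nonneg _) hbs T'
    (fun t ht => mem_image_of_mem _ (hT ht)) w hw (8 / 4 ^ i) (4 ^ (i - 2))
    (Nat.one_le_pow _ _ (by norm_num)) ?_ ?_ ?_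
  · -- conclude
    have hq : (0 : ℝ) < ((4 ^ (i - 2) : ℕ) : ℝ) := by positivity
    have hS : ∑ t ∈ T', b (D.L t) ^ 2 * w t ≤ 2 / ((4 ^ (i - 2) : ℕ) : ℝ) := by
      rw [le_div_iff₀ hq]; linarith
    have hle : ∑ t ∈ T', b (D.L t) * D.v t * w t ≤ 2 ^ i * ∑ t ∈ T', b (D.L t) ^ 2 * w t := by
      rw [Finset.mul_sum]
      apply Finset.sum_le_sum
      intro t ht
      have := mul_le_mul_of_nonneg_left (h2 t ht) (hb (D.L t))
      have h4 := mul_le_mul_of_nonneg_right this (hw t)
      calc b (D.L t) * D.v t * w t ≤ b (D.L t) * (2 ^ i * b (D.L t)) * w t := h4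
        _ = _ := by ring
    have h5 : (2 : ℝ) ^ i * (2 / ((4 ^ (i - 2) : ℕ) : ℝ)) ≤ 32 * (1 / 2) ^ i := by
      rcases Nat.lt_or_ge i 2 with hlt | hge
      · have : i = 1 := by omega
        subst this; norm_num
      · obtain ⟨j, rfl⟩ := Nat.exists_eq_add_of_le hge
        have : 2 + j - 2 = j := by omega
        rw [this]
        push_cast
        have h4 : (4 : ℝ) ^ j = 2 ^ j * 2 ^ j := by
          rw [← mul_pow]; norm_num
        rw [h4, pow_add, pow_add, one_div, inv_pow, inv_pow]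
        have : (2 : ℝ) ^ j ≠ 0 := by positivity
        apply le_of_eq
        field_simp
        norm_num
    calc _ ≤ _ := hle
      _ ≤ 2 ^ i * (2 / ((4 ^ (i - 2) : ℕ) : ℝ)) :=
          mul_le_mul_of_nonneg_left hS (by positivity)
      _ ≤ _ := h5
  · intro t ht
    rw [Finset.sum_image]
    · have hsq := D.sq t (T'.filter (fun s => D.R s t)) (fun s hs => (mem_filter.1 hs).2)
      have hle : ∀ s ∈ T'.filter (fun s => D.R s t),
          b (D.L s) ^ 2 ≤ (4 / 4 ^ i) * D.v s ^ 2 := by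
        intro s hs
        have hs' := h1 s (mem_filter.1 hs).1
        have hp : (0 : ℝ) < 2 ^ (i - 1) := by positivity
        have h6 : (2 ^ (i - 1) * b (D.L s)) ^ 2 ≤ D.v s ^ 2 := by
          apply pow_le_pow_left₀ _ hs'
          exact mul_nonneg hp.le (hb _)
        obtain ⟨j, rfl⟩ := Nat.exists_eq_add_of_le hi
        have h7 : 1 + j - 1 = j := by omega
        rw [h7] at h6
        have h8 : (4 : ℝ) / 4 ^ (1 + j) = 1 / (2 ^ j * 2 ^ j) := by
          rw [← mul_pow, pow_add]
          have : (4 : ℝ) ^ j ≠ 0 := by positivity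
          norm_num
          field_simp
        rw [h8]
        rw [one_div, inv_mul_eq_div, le_div_iff₀ (by positivity)]
        calc b (D.L s) ^ 2 * (2 ^ j * 2 ^ j) = (2 ^ j * b (D.L s)) ^ 2 := by ring
          _ ≤ _ := h6
      calc ∑ s ∈ T'.filter (fun s => D.R s t), b (D.L s) ^ 2
          ≤ ∑ s ∈ T'.filter (fun s => D.R s t), (4 / 4 ^ i) * D.v s ^ 2 :=
            Finset.sum_le_sum hle
        _ = (4 / 4 ^ i) * ∑ s ∈ T'.filter (fun s => D.R s t), D.v s ^ 2 := by
            rw [Finset.mul_sum]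
        _ ≤ (4 / 4 ^ i) * 2 := mul_le_mul_of_nonneg_left hsq (by positivity)
        _ = 8 / 4 ^ i := by ring
    · intro s hs s' hs' hL
      have hs1 := (mem_filter.1 hs).2
      have hs2 := (mem_filter.1 hs').2
      exact D.inj s s' t hs1 hs2 hL
  · rcases Nat.lt_or_ge i 2 with hlt | hge
    · have : i = 1 := by omega
      subst this; norm_num
    · obtain ⟨j, rfl⟩ := Nat.exists_eq_add_of_le hge
      have : 2 + j - 2 = j := by omega
      rw [this]
      push_cast
      rw [pow_add]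
      have h4 : (0 : ℝ) < 4 ^ j := by positivity
      have : ((4 : ℝ) ^ j - 1) * (8 / (4 ^ 2 * 4 ^ j)) = 1 / 2 - 1 / (2 * 4 ^ j) := by
        field_simp
        ring
      rw [this]
      have : 0 ≤ 1 / (2 * (4 : ℝ) ^ j) := by positivity
      linarith
  · intro F hFT hanti hcard
    apply hF F (hFT.trans hT)
    refine ⟨hanti, ?_⟩
    intro s hs
    calc (F.image D.L).card ≤ 4 ^ (i - 2) := hcard
      _ ≤ 4 ^ (D.L s) := Nat.pow_le_pow_right (by norm_num) (by have := h3 s (hFT hs); omega)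

open Classical in
theorem heart (D : TreeData) (U : Finset ℕ) (w : ℕ → ℝ) (hw : ∀ t, 0 ≤ w t)
    (hF : ∀ F ⊆ U, F ∈ Fam D → ∑ t ∈ F, w t ≤ 1)
    (b : ℕ → ℝ) (hb : ∀ n, 0 ≤ b n) (hbs : ∑ n ∈ U.image D.L, b n ^ 2 = 1) :
    ∑ t ∈ U, b (D.L t) * D.v t * w t ≤ 35 := by
  set Uc := U.filter (fun t => b (D.L t) < D.v t ∧ (1 / 2 : ℝ) ^ (D.L t) < b (D.L t)) with hUc
  have hsplit : ∀ t ∈ U, b (D.L t) * D.v t * w t ≤ b (D.L t) ^ 2 * w t
      + (1 / 2 : ℝ) ^ (D.L t) * w t
      + (if (b (D.L t) < D.v t ∧ (1 / 2 : ℝ) ^ (D.L t) < b (D.L t)) then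
          b (D.L t) * D.v t * w t else 0) := by
    intro t _
    have hwt := hw t
    have hbt := hb (D.L t)
    have hvt := D.v_nonneg t
    have hv1 := D.v_le_one t
    have hp : (0 : ℝ) ≤ (1 / 2 : ℝ) ^ (D.L t) := by positivity
    by_cases h1 : b (D.L t) < D.v t
    · by_cases h2 : (1 / 2 : ℝ) ^ (D.L t) < b (D.L t)
      · rw [if_pos ⟨h1, h2⟩]
        have : 0 ≤ b (D.L t) ^ 2 * w t := by positivity
        have : 0 ≤ (1 / 2 : ℝ) ^ (D.L t) * w t := by positivity
        linarith
      · rw [if_neg (fun h => h2 h.2)]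
        have h3 : b (D.L t) * D.v t ≤ (1 / 2 : ℝ) ^ (D.L t) := by
          calc b (D.L t) * D.v t ≤ b (D.L t) * 1 := mul_le_mul_of_nonneg_left hv1 hbt
            _ = b (D.L t) := mul_one _
            _ ≤ _ := not_lt.1 h2
        have h4 := mul_le_mul_of_nonneg_right h3 hwt
        have : 0 ≤ b (D.L t) ^ 2 * w t := by positivity
        linarith
    · rw [if_neg (fun h => h1 h.1)]
      have h3 : b (D.L t) * D.v t ≤ b (D.L t) ^ 2 := by
        rw [sq]; exact mul_le_mul_of_nonneg_left (not_lt.1 h1) hbt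
      have h4 := mul_le_mul_of_nonneg_right h3 hwt
      have : 0 ≤ (1 / 2 : ℝ) ^ (D.L t) * w t := by positivity
      linarith
  have hA : ∑ t ∈ U, b (D.L t) ^ 2 * w t ≤ 1 := by
    rw [← Finset.sum_fiberwise_of_maps_to (s := U) (t := U.image D.L) (g := D.L)
      (fun t ht => mem_image_of_mem _ ht)]
    calc ∑ n ∈ U.image D.L, ∑ t ∈ U.filter (fun t => D.L t = n), b (D.L t) ^ 2 * w t
        = ∑ n ∈ U.image D.L, b n ^ 2 * ∑ t ∈ U.filter (fun t => D.L t = n), w t := by
          apply Finset.sum_congr rfl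
          intro n _
          rw [Finset.mul_sum]
          apply Finset.sum_congr rfl
          intro t ht
          rw [(mem_filter.1 ht).2]
      _ ≤ ∑ n ∈ U.image D.L, b n ^ 2 * 1 := by
          apply Finset.sum_le_sum
          intro n _
          exact mul_le_mul_of_nonneg_left (level_le D U w hF n) (sq_nonneg _)
      _ = 1 := by simp [hbs]
  have hB : ∑ t ∈ U, (1 / 2 : ℝ) ^ (D.L t) * w t ≤ 2 := by
    rw [← Finset.sum_fiberwise_of_maps_to (s := U) (t := U.image D.L) (g := D.L)
      (fun t ht => mem_image_of_mem _ ht)]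
    calc ∑ n ∈ U.image D.L, ∑ t ∈ U.filter (fun t => D.L t = n), (1 / 2 : ℝ) ^ (D.L t) * w t
        = ∑ n ∈ U.image D.L, (1 / 2 : ℝ) ^ n * ∑ t ∈ U.filter (fun t => D.L t = n), w t := by
          apply Finset.sum_congr rfl
          intro n _
          rw [Finset.mul_sum]
          apply Finset.sum_congr rfl
          intro t ht
          rw [(mem_filter.1 ht).2]
      _ ≤ ∑ n ∈ U.image D.L, (1 / 2 : ℝ) ^ n * 1 := by
          apply Finset.sum_le_sum
          intro n _
          exact mul_le_mul_of_nonneg_left (level_le D U w hF n) (by positivity)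
      _ = ∑ n ∈ U.image D.L, (1 / 2 : ℝ) ^ n := by simp
      _ ≤ ∑' n : ℕ, (1 / 2 : ℝ) ^ n :=
          summable_geometric_two.sum_le_tsum _ (fun n _ => by positivity)
      _ = 2 := tsum_geometric_two
  have hC : ∑ t ∈ Uc, b (D.L t) * D.v t * w t ≤ 32 := by
    -- index of a node
    have hex : ∀ t ∈ Uc, ∃ i : ℕ, D.v t ≤ 2 ^ i * b (D.L t) := by
      intro t ht
      simp only [hUc, mem_filter] at ht
      refine ⟨D.L t, ?_⟩
      have h1 := ht.2.2
      have h2 : (2 : ℝ) ^ (D.L t) * (1 / 2) ^ (D.L t) ≤ 2 ^ (D.L t) * b (D.L t) :=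
        mul_le_mul_of_nonneg_left h1.le (by positivity)
      have h3 : (2 : ℝ) ^ (D.L t) * (1 / 2) ^ (D.L t) = 1 := by
        rw [← mul_pow]; norm_num
      linarith [D.v_le_one t]
    set idx : ℕ → ℕ := fun t => if h : ∃ i : ℕ, D.v t ≤ 2 ^ i * b (D.L t) then Nat.find h else 0
      with hidx
    have hidx1 : ∀ t ∈ Uc, D.v t ≤ 2 ^ (idx t) * b (D.L t) := by
      intro t ht
      have h := hex t ht
      simp only [hidx, dif_pos h]
      exact Nat.find_spec h
    have hidx2 : ∀ t ∈ Uc, ∀ j < idx t, 2 ^ j * b (D.L t) < D.v t := by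
      intro t ht j hj
      have h := hex t ht
      simp only [hidx, dif_pos h] at hj
      exact not_le.1 (Nat.find_min h hj)
    have hidx3 : ∀ t ∈ Uc, 1 ≤ idx t := by
      intro t ht
      by_contra hcon
      have h0 : idx t = 0 := by omega
      have := hidx1 t ht
      rw [h0] at this
      simp only [hUc, mem_filter] at ht
      simp at this
      linarith [ht.2.1]
    have hidx4 : ∀ t ∈ Uc, idx t ≤ D.L t := by
      intro t ht
      by_contra hcon
      have hlt : D.L t < idx t := not_le.1 hcon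
      have h1 := hidx2 t ht _ hlt
      simp only [hUc, mem_filter] at ht
      have h2 : (2 : ℝ) ^ (D.L t) * (1 / 2) ^ (D.L t) ≤ 2 ^ (D.L t) * b (D.L t) :=
        mul_le_mul_of_nonneg_left ht.2.2.le (by positivity)
      have h3 : (2 : ℝ) ^ (D.L t) * (1 / 2) ^ (D.L t) = 1 := by
        rw [← mul_pow]; norm_num
      linarith [D.v_le_one t]
    rw [← Finset.sum_fiberwise_of_maps_to (s := Uc) (t := Uc.image idx) (g := idx)
      (fun t ht => mem_image_of_mem _ ht)]
    calc ∑ i ∈ Uc.image idx, ∑ t ∈ Uc.filter (fun t => idx t = i), b (D.L t) * D.v t * w t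
        ≤ ∑ i ∈ Uc.image idx, 16 * (if i = 0 then 0 else (1 / 2 : ℝ) ^ (i - 1)) := by
          apply Finset.sum_le_sum
          intro i hi
          have hi1 : 1 ≤ i := by
            obtain ⟨t, ht, rfl⟩ := mem_image.1 hi
            exact hidx3 t ht
          have hl := layer D U w hw hF b hb hbs i hi1 (Uc.filter (fun t => idx t = i))
            ((filter_subset _ _).trans (filter_subset _ _)) ?_ ?_ ?_
          · rw [if_neg (by omega)]
            obtain ⟨j, rfl⟩ := Nat.exists_eq_add_of_le hi1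
            have : 1 + j - 1 = j := by omega
            rw [this]
            rw [pow_add] at hl
            linarith
          · intro t ht
            have ht' := mem_filter.1 ht
            exact (hidx2 t ht'.1 (i - 1) (by omega)).le
          · intro t ht
            have ht' := mem_filter.1 ht
            rw [← ht'.2]; exact hidx1 t ht'.1
          · intro t ht
            have ht' := mem_filter.1 ht
            rw [← ht'.2]; exact hidx4 t ht'.1
      _ = 16 * ∑ i ∈ Uc.image idx, (if i = 0 then 0 else (1 / 2 : ℝ) ^ (i - 1)) := by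
          rw [Finset.mul_sum]
      _ ≤ 16 * 2 := by
          apply mul_le_mul_of_nonneg_left _ (by norm_num)
          have hinj : ∑ i ∈ Uc.image idx, (if i = 0 then 0 else (1 / 2 : ℝ) ^ (i - 1))
              = ∑ j ∈ (Uc.image idx).image (fun i => i - 1), (1 / 2 : ℝ) ^ j := by
            symm
            rw [Finset.sum_image]
            · apply Finset.sum_congr rfl
              intro i hi
              have hi1 : 1 ≤ i := by
                obtain ⟨t, ht, rfl⟩ := mem_image.1 hi
                exact hidx3 t ht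
              rw [if_neg (by omega)]
            · intro i hi j hj hij
              have hi1 : 1 ≤ i := by
                obtain ⟨t, ht, rfl⟩ := mem_image.1 (Finset.mem_coe.1 hi)
                exact hidx3 t ht
              have hj1 : 1 ≤ j := by
                obtain ⟨t, ht, rfl⟩ := mem_image.1 (Finset.mem_coe.1 hj)
                exact hidx3 t ht
              simp only at hij
              omega
          rw [hinj]
          calc _ ≤ ∑' n : ℕ, (1 / 2 : ℝ) ^ n :=
                summable_geometric_two.sum_le_tsum _ (fun n _ => by positivity)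
            _ = 2 := tsum_geometric_two
      _ = 32 := by norm_num
  calc ∑ t ∈ U, b (D.L t) * D.v t * w t
      ≤ ∑ t ∈ U, (b (D.L t) ^ 2 * w t + (1 / 2 : ℝ) ^ (D.L t) * w t
      + (if (b (D.L t) < D.v t ∧ (1 / 2 : ℝ) ^ (D.L t) < b (D.L t)) then
          b (D.L t) * D.v t * w t else 0)) := Finset.sum_le_sum hsplit
    _ = ∑ t ∈ U, b (D.L t) ^ 2 * w t + ∑ t ∈ U, (1 / 2 : ℝ) ^ (D.L t) * w t
        + ∑ t ∈ Uc, b (D.L t) * D.v t * w t := by
        rw [Finset.sum_add_distrib, Finset.sum_add_distrib, hUc, Finset.sum_filter]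
    _ ≤ 35 := by linarith

end Pool.Agent.H697R3.CombDual
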