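import Pool.Agent.H697R3.NS2Riesz

set_option autoImplicit false

open scoped ComplexOrder ComplexConjugate InnerProductSpace
open Finset

noncomputable section

namespace H697R3.NS2

open H697R3.NS (PD BN BN_translate BN_one local_inv BN_inv_large spec_eq)

/-- the model group -/
abbrev Y (q : ℕ) : Type := ℕ →₀ ZMod q

section model
variable {q : ℕ} [NeZero q]

/-- vectors supported below `k` -/
def Fk (q : ℕ) [NeZero q] (k : ℕ) : Finset (Y q) := (range k).finsupp fun _ => Finset.univ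

lemma mem_Fk {k : ℕ} {x : Y q} : x ∈ Fk q k ↔ ∀ i, k ≤ i → x i = 0 := by
  unfold Fk
  rw [Finset.mem_finsupp_iff]
  constructor
  · rintro ⟨h, -⟩ i hi
    by_contra hne
    have := h (Finsupp.mem_support_iff.mpr hne)
    rw [Finset.mem_range] at this
    omega
  · intro h
    refine ⟨fun i hi => ?_, fun i _ => Finset.mem_univ _⟩
    rw [Finset.mem_range]
    by_contra hcon
    exact (Finsupp.mem_support_iff.mp hi) (h i (by omega))

lemma card_Fk (k : ℕ) : (Fk q k).card = q ^ k := by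
  unfold Fk
  rw [Finset.card_finsupp]
  simp [ZMod.card]

lemma Fk_mono {j k : ℕ} (h : j ≤ k) : Fk q j ⊆ Fk q k := fun x hx =>
  mem_Fk.mpr fun i hi => mem_Fk.mp hx i (h.trans hi)

/-- truncation -/
def tr (K : ℕ) (x : Y q) : Y q := x.filter (fun i => i < K)

lemma tr_apply (K : ℕ) (x : Y q) (i : ℕ) : tr K x i = if i < K then x i else 0 := by
  unfold tr; rw [Finsupp.filter_apply]

lemma tr_mem (K : ℕ) (x : Y q) : tr K x ∈ Fk q K :=
  mem_Fk.mpr fun i hi => by rw [tr_apply, if_neg (by omega)]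

lemma tr_self {K : ℕ} {x : Y q} (hx : x ∈ Fk q K) : tr K x = x := by
  ext i
  rw [tr_apply]
  split_ifs with h
  · rfl
  · exact (mem_Fk.mp hx i (by omega)).symm

lemma exists_Fk (x : Y q) : ∃ J, ∀ j, J ≤ j → x ∈ Fk q j := by
  refine ⟨x.support.sup id + 1, fun j hj => mem_Fk.mpr fun i hi => ?_⟩
  by_contra hne
  have := Finset.le_sup (f := id) (Finsupp.mem_support_iff.mpr hne)
  simp only [id] at this
  omega

/-- vanishing below `K` -/
def SK (q : ℕ) (K : ℕ) : AddSubgroup (Y q) where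
  carrier := {x | ∀ i, i < K → x i = 0}
  zero_mem' := fun i _ => rfl
  add_mem' := fun {a b} ha hb i hi => by
    rw [Finsupp.add_apply, ha i hi, hb i hi, add_zero]
  neg_mem' := fun {a} ha i hi => by
    rw [Finsupp.neg_apply, ha i hi, neg_zero]

lemma mem_SK {K : ℕ} {x : Y q} : x ∈ SK q K ↔ ∀ i, i < K → x i = 0 := Iff.rfl

lemma sub_mem_SK {K : ℕ} {x v : Y q} (hv : v ∈ Fk q K) : x - v ∈ SK q K ↔ v = tr K x := by
  rw [mem_SK]
  constructor
  · intro h
    ext i
    rw [tr_apply]
    split_ifs with hi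
    · have := h i hi
      rw [Finsupp.sub_apply, sub_eq_zero] at this
      exact this.symm
    · exact mem_Fk.mp hv i (by omega)
  · rintro rfl i hi
    rw [Finsupp.sub_apply, tr_apply, if_pos hi, sub_self]

/-- vanishing at `j` -/
def ZJ (q : ℕ) (j : ℕ) : AddSubgroup (Y q) where
  carrier := {x | x j = 0}
  zero_mem' := rfl
  add_mem' := fun {a b} ha hb => by
    change (a + b) j = 0
    have ha' : a j = 0 := ha
    have hb' : b j = 0 := hb
    rw [Finsupp.add_apply, ha', hb', add_zero]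
  neg_mem' := fun {a} ha => by
    change (-a) j = 0
    have ha' : a j = 0 := ha
    rw [Finsupp.neg_apply, ha', neg_zero]

lemma mem_ZJ {j : ℕ} {x : Y q} : x ∈ ZJ q j ↔ x j = 0 := Iff.rfl

variable {G : Type} [Group G] (ι : Multiplicative (Y q) →* G) (hinj : Function.Injective (em ι))

include hinj

lemma BN_ext_one : BN (ext ι (fun _ => (1 : ℂ))) 2 := by
  classical
  have := BN_coset ι hinj (⊤ : AddSubgroup (Y q)) 0
  simpa using this

/-- function of the first `K` coordinates -/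
lemma BN_cyl (K : ℕ) (c : Y q → ℂ) :
    BN (ext ι (fun x => c (tr K x))) (∑ v ∈ Fk q K, 2 * ‖c v‖ * 2) := by
  classical
  have h1 : BN (fun x => ∑ v ∈ Fk q K, c v *
      ext ι (fun n => if n - v ∈ SK q K then (1 : ℂ) else 0) x) (∑ v ∈ Fk q K, 2 * ‖c v‖ * 2) :=
    BN.sum _ fun v _ => (BN_coset ι hinj _ v).cmul _
  convert h1 using 1
  funext x
  have e : (fun x => c (tr K x)) = fun x => ∑ v ∈ Fk q K, c v *
      (if x - v ∈ SK q K then (1 : ℂ) else 0) := by
    funext x
    rw [Finset.sum_eq_single (tr K x)]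
    · rw [if_pos ((sub_mem_SK (tr_mem K x)).mpr rfl), mul_one]
    · intro v hv hne
      rw [if_neg, mul_zero]
      exact fun h => hne ((sub_mem_SK hv).mp h)
    · intro h; exact absurd (tr_mem K x) h
  rw [e, ext_sum ι hinj]
  refine Finset.sum_congr rfl fun v _ => ?_
  exact ext_mul_left ι hinj _ _ x

/-- the algebra of summable perturbations of limits of locally constant functions -/
def InA (ι : Multiplicative (Y q) →* G) (ψ : Y q → ℂ) : Prop :=
  ∃ α : Y q → ℂ, (Summable fun x => ‖α x‖) ∧ ∀ κ : ℝ, 0 < κ → ∃ K : ℕ, ∃ c : Y q → ℂ,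
    BN (ext ι (fun x => ψ x - α x - c (tr K x))) κ

omit hinj in
lemma tr_tr {j k : ℕ} (h : j ≤ k) (x : Y q) : tr j (tr k x) = tr j x := by
  ext i
  rw [tr_apply, tr_apply, tr_apply]
  split_ifs with h1 h2
  · rfl
  · omega
  · rfl

lemma ext_sub (a b : Y q → ℂ) (x : G) :
    ext ι (fun n => a n - b n) x = ext ι a x - ext ι b x := by
  revert x
  refine ext_cases ι ?_ ?_
  · intro n; simp only [ext_apply ι hinj]
  · intro x hx; simp only [ext_out ι _ hx, sub_zero]

lemma InA.sub_mul {ψ χ : Y q → ℂ} (h1 : InA ι ψ) (h2 : InA ι χ) (z : ℂ) :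
    InA ι (fun x => ψ x - z * χ x) := by
  obtain ⟨α, hα, h1⟩ := h1
  obtain ⟨β, hβ, h2⟩ := h2
  refine ⟨fun x => α x - z * β x, ?_, ?_⟩
  · refine Summable.of_nonneg_of_le (fun x => norm_nonneg _) (fun x => ?_)
      (hα.add (hβ.mul_left ‖z‖))
    calc ‖α x - z * β x‖ ≤ ‖α x‖ + ‖z * β x‖ := norm_sub_le _ _
      _ = _ := by rw [norm_mul]
  · intro κ hκ
    have hz : 0 < 4 * (‖z‖ + 1) := by positivity
    obtain ⟨K1, c1, hc1⟩ := h1 (κ / 2) (by positivity)
    obtain ⟨K2, c2, hc2⟩ := h2 (κ / (4 * (‖z‖ + 1))) (by positivity)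
    refine ⟨max K1 K2, fun x => c1 (tr K1 x) - z * c2 (tr K2 x), ?_⟩
    have h3 := hc1.add (hc2.cmul (-z))
    have h4 : κ / 2 + 2 * ‖-z‖ * (κ / (4 * (‖z‖ + 1))) ≤ κ := by
      rw [norm_neg]
      have : 2 * ‖z‖ * (κ / (4 * (‖z‖ + 1))) ≤ κ / 2 := by
        rw [mul_div_assoc', div_le_div_iff₀ hz (by norm_num)]
        nlinarith [norm_nonneg z]
      linarith
    refine BN.mono ?_ h4
    convert h3 using 1
    funext x
    revert x
    refine ext_cases ι ?_ ?_
    · intro n
      simp only [ext_apply ι hinj]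
      rw [tr_tr (le_max_left _ _), tr_tr (le_max_right _ _)]
      ring
    · intro x hx
      simp only [ext_out ι _ hx]
      ring

/-- elements of the algebra have natural spectrum -/
lemma natA {ψ : Y q → ℂ} (hψ : InA ι ψ) {lam : ℂ} {δ : ℝ} (hδ : 0 < δ)
    (hb : ∀ x, δ ≤ ‖ψ x - lam‖) (hq1 : 1 < q) : ∃ C', BN (ext ι (fun x => (ψ x - lam)⁻¹)) C' := by
  classical
  obtain ⟨α, hα, h1⟩ := hψ
  obtain ⟨K, c, hs⟩ := h1 (δ / 16) (by positivity)
  set s : Y q → ℂ := fun x => ψ x - α x - c (tr K x) with hsd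
  have hsn : ∀ n, ‖s n‖ ≤ δ / 16 := fun n => by
    have := hs.bound (em ι n)
    rwa [ext_apply ι hinj] at this
  -- the constants are bounded below
  have hc : ∀ w ∈ Fk q K, δ / 2 ≤ ‖c w - lam‖ := by
    intro w hw
    have hinj2 : Function.Injective fun n : ℕ => w + Finsupp.single (K + n) (1 : ZMod q) := by
      intro a b hab
      have h2 : Finsupp.single (K + a) (1 : ZMod q) = Finsupp.single (K + b) 1 :=
        add_left_cancel hab
      have h3 := DFunLike.congr_fun h2 (K + a)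
      rw [Finsupp.single_eq_same, Finsupp.single_apply] at h3
      by_contra hne
      rw [if_neg (by omega)] at h3
      have : (1 : ZMod q) ≠ 0 := by
        have : Fact (1 < q) := ⟨hq1⟩
        exact one_ne_zero
      exact this h3
    have h2 := (hα.comp_injective hinj2).tendsto_atTop_zero
    obtain ⟨n, hn⟩ := (h2.eventually (gt_mem_nhds (show (0 : ℝ) < δ / 4 by positivity))).exists
    simp only [Function.comp_apply] at hn
    set x := w + Finsupp.single (K + n) (1 : ZMod q) with hx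
    have htr : tr K x = w := by
      ext i
      rw [tr_apply, hx]
      split_ifs with hi
      · rw [Finsupp.add_apply, Finsupp.single_apply, if_neg (by omega), add_zero]
      · exact (mem_Fk.mp hw i (by omega)).symm
    have h3 := hb x
    have h4 : ψ x - lam = (c w - lam) + (α x + s x) := by
      simp only [hsd]; rw [htr]; ring
    rw [h4] at h3
    have h5 := norm_add_le (c w - lam) (α x + s x)
    have h6 := norm_add_le (α x) (s x)
    have h7 := hsn x
    linarith
  -- local inverses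
  set u : Y q → G → ℂ := fun w => ext ι (fun n => if n - w ∈ SK q K then (1 : ℂ) else 0) with hu
  have hBu : ∀ w, BN (u w) 2 := fun w => BN_coset ι hinj _ w
  have hcinv : ∀ w ∈ Fk q K, ‖-(c w - lam)⁻¹‖ ≤ 2 / δ := by
    intro w hw
    rw [norm_neg, norm_inv]
    have := inv_anti₀ (by positivity) (hc w hw)
    refine this.trans (le_of_eq ?_)
    rw [inv_div]
  have ht : ∀ w ∈ Fk q K, BN (fun x => -(c w - lam)⁻¹ * (ext ι s x * u w x)) (1 / 2) := by
    intro w hw
    have h2 := (hs.mul (hBu w)).cmul (-(c w - lam)⁻¹)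
    refine h2.mono ?_
    have h3 := hcinv w hw
    have h4 : 2 * ‖-(c w - lam)⁻¹‖ * (δ / 16 * 2) ≤ 2 * (2 / δ) * (δ / 16 * 2) := by
      refine mul_le_mul_of_nonneg_right ?_ (by positivity)
      linarith
    refine h4.trans (le_of_eq ?_)
    field_simp
    norm_num
  have hN : ∀ w ∈ Fk q K,
      BN (fun x => (1 - -(c w - lam)⁻¹ * (ext ι s x * u w x))⁻¹) (1 * (1 - 1 / 2)⁻¹) := by
    intro w hw
    refine BN.neumann (A := 1) (ρ := 1 / 2) (by norm_num) (by norm_num)
      (fun n => by rw [one_mul]; exact (ht w hw).pow n)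
  have hterm : ∀ w ∈ Fk q K, BN (fun x => (c w - lam)⁻¹ *
      (u w x * (1 - -(c w - lam)⁻¹ * (ext ι s x * u w x))⁻¹))
      (2 * ‖(c w - lam)⁻¹‖ * (2 * (1 * (1 - 1 / 2)⁻¹))) :=
    fun w hw => ((hBu w).mul (hN w hw)).cmul _
  have hH := BN.sum _ hterm
  have h1Y := BN_ext_one ι hinj
  have hH' := hH.add ((BN_one (G := G)).add h1Y.neg)
  -- the pointwise value
  have hval : ∀ n : Y q, (∑ w ∈ Fk q K, (c w - lam)⁻¹ *
      (u w (em ι n) * (1 - -(c w - lam)⁻¹ * (ext ι s (em ι n) * u w (em ι n)))⁻¹)) =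
      (c (tr K n) - lam)⁻¹ * (1 - -(c (tr K n) - lam)⁻¹ * s n)⁻¹ := by
    intro n
    rw [Finset.sum_eq_single (tr K n)]
    · simp only [hu, ext_apply ι hinj]
      rw [if_pos ((sub_mem_SK (tr_mem K n)).mpr rfl), one_mul, mul_one]
    · intro v hv hne
      simp only [hu, ext_apply ι hinj]
      rw [if_neg, zero_mul, mul_zero]
      exact fun h => hne ((sub_mem_SK hv).mp h)
    · intro h; exact absurd (tr_mem K n) h
  set F : G → ℂ := fun x => ext ι (fun n => ψ n - lam) x + (1 - ext ι (fun _ => (1 : ℂ)) x) with hF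
  have hloc : ∃ C', BN (fun x => (F x)⁻¹) C' := by
    refine local_inv hH' ?_
    have hsum := ext_summable ι hinj (a := α) hα
    refine Summable.of_nonneg_of_le (fun x => norm_nonneg _) (fun x => ?_)
      (hsum.mul_left (2 / δ * 2))
    revert x
    refine ext_cases ι ?_ ?_
    · intro n
      rw [hval]
      simp only [hF, ext_apply ι hinj]
      have hcw := hc _ (tr_mem K n)
      have hne : c (tr K n) - lam ≠ 0 := by
        intro h0
        rw [h0, norm_zero] at hcw
        linarith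
      set a := c (tr K n) - lam with ha
      have hta : ‖a⁻¹ * s n‖ ≤ 1 / 2 := by
        rw [norm_mul, norm_inv]
        have h2 : ‖a‖⁻¹ ≤ 2 / δ := by
          refine (inv_anti₀ (by positivity) hcw).trans (le_of_eq ?_)
          rw [inv_div]
        calc ‖a‖⁻¹ * ‖s n‖ ≤ 2 / δ * (δ / 16) :=
              mul_le_mul h2 (hsn n) (norm_nonneg _) (by positivity)
          _ ≤ 1 / 2 := by
              have : 2 / δ * (δ / 16) = 1 / 8 := by field_simp; norm_num
              rw [this]; norm_num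
      have hN0 : 1 - -a⁻¹ * s n ≠ 0 := by
        intro h0
        have h2 : a⁻¹ * s n = -1 := by linear_combination h0
        rw [h2] at hta
        norm_num at hta
      have hNn : ‖(1 - -a⁻¹ * s n)⁻¹‖ ≤ 2 := by
        rw [norm_inv]
        have h2 : 1 / 2 ≤ ‖1 - -a⁻¹ * s n‖ := by
          have h3 : (1 : ℂ) - -a⁻¹ * s n = 1 + a⁻¹ * s n := by ring
          rw [h3]
          have h4 := norm_sub_le (1 + a⁻¹ * s n) (a⁻¹ * s n)
          rw [add_sub_cancel_right, norm_one] at h4
          linarith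
        calc _ ≤ (1 / 2 : ℝ)⁻¹ := inv_anti₀ (by norm_num) h2
          _ = 2 := by norm_num
      have hpsi : ψ n - lam = a + s n + α n := by
        simp only [hsd, ha]; ring
      have e1 : (ψ n - lam + (1 - 1)) * (a⁻¹ * (1 - -a⁻¹ * s n)⁻¹ + (1 + -1)) - 1 =
          α n * (a⁻¹ * (1 - -a⁻¹ * s n)⁻¹) := by
        rw [hpsi]
        have e2 : a * a⁻¹ = 1 := mul_inv_cancel₀ hne
        have e3 : (1 - -a⁻¹ * s n) * (1 - -a⁻¹ * s n)⁻¹ = 1 := mul_inv_cancel₀ hN0
        linear_combination (1 - -a⁻¹ * s n)⁻¹ * e2 + e3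
      rw [e1, norm_mul, norm_mul]
      have h2 : ‖a⁻¹‖ ≤ 2 / δ := by
        rw [norm_inv]
        refine (inv_anti₀ (by positivity) hcw).trans (le_of_eq ?_)
        rw [inv_div]
      have h3 : ‖a⁻¹‖ * ‖(1 - -a⁻¹ * s n)⁻¹‖ ≤ 2 / δ * 2 :=
        mul_le_mul h2 hNn (norm_nonneg _) (by positivity)
      calc _ ≤ ‖α n‖ * (2 / δ * 2) := mul_le_mul_of_nonneg_left h3 (norm_nonneg _)
        _ = _ := by ring
    · intro x hx
      simp only [hF, hu, ext_out ι _ hx]
      simp
  obtain ⟨C', hC'⟩ := hloc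
  have h2 := h1Y.mul hC'
  refine ⟨_, (?_ : BN _ (2 * C'))⟩
  convert h2 using 1
  funext x
  revert x
  refine ext_cases ι ?_ ?_
  · intro n
    simp only [hF, ext_apply ι hinj]
    rw [one_mul]
    congr 1
    ring
  · intro x hx
    simp only [ext_out ι _ hx, zero_mul]

end model

end H697R3.NS2
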