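import Pool.Agent.H697R3.NSErg

set_option autoImplicit false

open scoped ComplexConjugate InnerProductSpace Topology
open Filter

noncomputable section

namespace H697R3.NS2

open H697R3.NS (exists_ulim exists_wlim)

variable {A : Type} [AddCommGroup A]

section idem
attribute [local instance] Ultrafilter.add Ultrafilter.addSemigroup

theorem exists_idem [Infinite A] : ∃ p : Ultrafilter A,
    (∀ s : Set A, s.Finite → ∀ᶠ a in (p : Filter A), a ∉ s) ∧ ∀ P : A → Prop,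
    (∀ᶠ c in (p : Filter A), P c) ↔
      ∀ᶠ a in (p : Filter A), ∀ᶠ b in (p : Filter A), P (a + b) := by
  let S : Set (Ultrafilter A) := {p | ∀ s : Set A, s.Finite → sᶜ ∈ p}
  have hne : S.Nonempty := ⟨Filter.hyperfilter A, fun s hs =>
    Filter.compl_mem_hyperfilter_of_finite hs⟩
  have hcl : IsClosed S := by
    have : S = ⋂ s ∈ {s : Set A | s.Finite}, {p : Ultrafilter A | sᶜ ∈ p} := by
      ext p
      simp [S]
    rw [this]
    exact isClosed_biInter fun s _ => ultrafilter_isClosed_basic _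
  obtain ⟨p, hpS, hp⟩ := exists_idempotent_in_compact_add_subsemigroup
    (@Ultrafilter.continuous_add_left A _) S hne hcl.isCompact (by
      intro U hU V hV s hs
      have key : ∀ᶠ c in ((U + V : Ultrafilter A) : Filter A), c ∉ s := by
        rw [Ultrafilter.eventually_add]
        refine Filter.Eventually.of_forall fun a => ?_
        have hf : ((fun b => a + b) ⁻¹' s).Finite :=
          hs.preimage (fun x _ y _ h => add_left_cancel h)
        exact hV _ hf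
      exact key)
  refine ⟨p, fun s hs => hpS s hs, fun P => ?_⟩
  have := Ultrafilter.eventually_add p p P
  rw [hp] at this
  exact this

end idem

variable {H : Type} [NormedAddCommGroup H] [InnerProductSpace ℂ H] [CompleteSpace H]

/-- the representation, additively -/
def Ua (u : Multiplicative A →* unitary (H →L[ℂ] H)) (k : A) : H →L[ℂ] H :=
  ((u (Multiplicative.ofAdd k) : unitary (H →L[ℂ] H)) : H →L[ℂ] H)

section U
variable (u : Multiplicative A →* unitary (H →L[ℂ] H))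

lemma Ua_add (k l : A) (v : H) : Ua u (k + l) v = Ua u k (Ua u l v) := by
  unfold Ua; rw [ofAdd_add, map_mul]; rfl

lemma Ua_zero (v : H) : Ua u 0 v = v := by
  unfold Ua; rw [ofAdd_zero, map_one]; rfl

lemma Ua_norm (k : A) (v : H) : ‖Ua u k v‖ = ‖v‖ := Unitary.norm_map _ _

lemma Ua_inner (k : A) (v w : H) : ⟪Ua u k v, Ua u k w⟫_ℂ = ⟪v, w⟫_ℂ := Unitary.inner_map_map _ _ _

lemma Ua_adj (k : A) (v w : H) : ⟪Ua u k v, w⟫_ℂ = ⟪v, Ua u (-k) w⟫_ℂ := by
  have : w = Ua u k (Ua u (-k) w) := by rw [← Ua_add]; simp [Ua_zero]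
  conv_lhs => rw [this]
  rw [Ua_inner]

lemma Ua_iter (k : A) (x : H) (m : ℕ) : ‖Ua u (m • k) x - x‖ ≤ m * ‖Ua u k x - x‖ := by
  induction m with
  | zero => simp [Ua_zero]
  | succ m ih =>
    have e : Ua u ((m + 1) • k) x - x = Ua u k (Ua u (m • k) x - x) + (Ua u k x - x) := by
      rw [map_sub, ← Ua_add]
      have : (m + 1) • k = k + m • k := by rw [succ_nsmul']
      rw [this]; abel
    rw [e]
    calc _ ≤ ‖Ua u k (Ua u (m • k) x - x)‖ + ‖Ua u k x - x‖ := norm_add_le _ _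
      _ ≤ m * ‖Ua u k x - x‖ + ‖Ua u k x - x‖ := by rw [Ua_norm]; linarith
      _ = _ := by push_cast; ring

lemma Ua_iter_int (k : A) (x : H) (m : ℤ) : ‖Ua u (m • k) x - x‖ ≤ |m| * ‖Ua u k x - x‖ := by
  rcases le_total 0 m with h | h
  · obtain ⟨n, rfl⟩ := Int.eq_ofNat_of_zero_le h
    simpa using Ua_iter u k x n
  · obtain ⟨n, hn⟩ := Int.eq_ofNat_of_zero_le (show 0 ≤ -m by linarith)
    have hm : m = -(n : ℤ) := by linarith
    subst hm
    have e : ‖Ua u (-(n : ℤ) • k) x - x‖ = ‖Ua u (n • k) x - x‖ := by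
      have h1 : Ua u (n • k) (Ua u (-(n : ℤ) • k) x - x) = x - Ua u (n • k) x := by
        rw [map_sub, ← Ua_add]
        have : n • k + -(n : ℤ) • k = 0 := by simp
        rw [this, Ua_zero]
      rw [← Ua_norm u (n • k) (Ua u (-(n : ℤ) • k) x - x), h1, norm_sub_rev]
    rw [e]
    simpa using Ua_iter u k x n

end U

section Proj
variable (u : Multiplicative A →* unitary (H →L[ℂ] H)) (p : Ultrafilter A)

lemma exE (n : ℕ) (v : H) : ∃ z : H, ∀ w : H,
    Tendsto (fun a : A => ⟪Ua u (n • a) v, w⟫_ℂ) p (𝓝 ⟪z, w⟫_ℂ) :=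
  exists_wlim p (C := ‖v‖) fun a => by rw [Ua_norm]

/-- weak limit of `u^(n a)` along `p` -/
def E (n : ℕ) (v : H) : H := Classical.choose (exE u p n v)

lemma E_spec (n : ℕ) (v w : H) :
    Tendsto (fun a : A => ⟪Ua u (n • a) v, w⟫_ℂ) p (𝓝 ⟪E u p n v, w⟫_ℂ) :=
  Classical.choose_spec (exE u p n v) w

lemma E_uniq (n : ℕ) (v z : H)
    (h : ∀ w, Tendsto (fun a : A => ⟪Ua u (n • a) v, w⟫_ℂ) p (𝓝 ⟪z, w⟫_ℂ)) :
    E u p n v = z :=
  ext_inner_right ℂ fun w => tendsto_nhds_unique (E_spec u p n v w) (h w)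

lemma E_norm (n : ℕ) (v : H) : ‖E u p n v‖ ≤ ‖v‖ := by
  have h1 := (E_spec u p n v (E u p n v)).norm
  have h2 : ‖⟪E u p n v, E u p n v⟫_ℂ‖ ≤ ‖v‖ * ‖E u p n v‖ := by
    refine le_of_tendsto h1 (Eventually.of_forall fun a => ?_)
    calc _ ≤ ‖Ua u (n • a) v‖ * ‖E u p n v‖ := norm_inner_le_norm _ _
      _ = _ := by rw [Ua_norm]
  rw [inner_self_eq_norm_sq_to_K] at h2
  have h3 : ‖E u p n v‖ ^ 2 ≤ ‖v‖ * ‖E u p n v‖ := by simpa using h2
  by_contra hcon
  push Not at hcon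
  have : 0 < ‖E u p n v‖ := lt_of_le_of_lt (norm_nonneg _) hcon
  nlinarith

lemma E_add (n : ℕ) (v w : H) : E u p n (v + w) = E u p n v + E u p n w := by
  refine E_uniq u p n _ _ fun z => ?_
  simp only [map_add, inner_add_left]
  exact (E_spec u p n v z).add (E_spec u p n w z)

lemma E_smul (n : ℕ) (c : ℂ) (v : H) : E u p n (c • v) = c • E u p n v := by
  refine E_uniq u p n _ _ fun z => ?_
  simp only [map_smul, inner_smul_left]
  exact (E_spec u p n v z).const_mul _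

lemma E_comm (n : ℕ) (k : A) (v : H) : E u p n (Ua u k v) = Ua u k (E u p n v) := by
  refine E_uniq u p n _ _ fun z => ?_
  have h := E_spec u p n v (Ua u (-k) z)
  rw [Ua_adj]
  refine h.congr fun a => ?_
  rw [← Ua_add, Ua_adj, Ua_adj, ← Ua_add]
  congr 2
  abel_nf

variable (hp : ∀ P : A → Prop,
    (∀ᶠ c in (p : Filter A), P c) ↔
      ∀ᶠ a in (p : Filter A), ∀ᶠ b in (p : Filter A), P (a + b))

include hp

lemma E_idem (n : ℕ) (v : H) : E u p n (E u p n v) = E u p n v := by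
  refine E_uniq u p n _ _ fun w => ?_
  have h := E_spec u p n v w
  -- for closed neighbourhoods
  rw [(closed_nhds_basis _).tendsto_right_iff] at h ⊢
  intro s hs
  have h1 := h s hs
  rw [hp] at h1
  filter_upwards [h1] with a ha
  -- limit over b
  have h2 : Tendsto (fun b : A => ⟪Ua u (n • (a + b)) v, w⟫_ℂ) p
      (𝓝 ⟪Ua u (n • a) (E u p n v), w⟫_ℂ) := by
    rw [Ua_adj]
    refine (E_spec u p n v (Ua u (-(n • a)) w)).congr fun b => ?_
    rw [Ua_adj, Ua_adj, ← Ua_add]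
    congr 3
    rw [smul_add]
    abel
  exact hs.2.mem_of_tendsto h2 ha

lemma E_orth (n : ℕ) (x y : H) (hx : E u p n x = x) (hy : E u p n y = 0) : ⟪x, y⟫_ℂ = 0 := by
  -- ‖x‖ ≤ ‖x + t y‖ for all t
  have key : ∀ t : ℂ, ‖x‖ ≤ ‖x + t • y‖ := by
    intro t
    have : E u p n (x + t • y) = x := by rw [E_add, E_smul, hx, hy]; simp
    calc ‖x‖ = ‖E u p n (x + t • y)‖ := by rw [this]
      _ ≤ _ := E_norm u p n _
  by_contra hne
  have hy0 : y ≠ 0 := by rintro rfl; simp at hne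
  have hyn : (0 : ℝ) < ‖y‖ ^ 2 := by positivity
  set c := ⟪y, x⟫_ℂ with hc
  have hc' : c ≠ 0 := by
    intro h0
    apply hne
    rw [← inner_conj_symm, ← hc, h0]; simp
  set t : ℂ := -(c / ((‖y‖ ^ 2 : ℝ) : ℂ)) with ht
  have h1 := key t
  have h2 : ‖x + t • y‖ ^ 2 = ‖x‖ ^ 2 - ‖c‖ ^ 2 / ‖y‖ ^ 2 := by
    rw [@norm_add_sq ℂ, norm_smul, inner_smul_right]
    have e1 : RCLike.re (t * ⟪x, y⟫_ℂ) = -(‖c‖ ^ 2 / ‖y‖ ^ 2) := by
      have : ⟪x, y⟫_ℂ = conj c := by rw [hc, inner_conj_symm]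
      rw [this, ht]
      have : -(c / ((‖y‖ ^ 2 : ℝ) : ℂ)) * conj c = ((-(‖c‖ ^ 2 / ‖y‖ ^ 2) : ℝ) : ℂ) := by
        rw [neg_mul, div_mul_eq_mul_div, Complex.mul_conj, Complex.normSq_eq_norm_sq]
        push_cast
        ring
      rw [this]
      exact Complex.ofReal_re _
    have e2 : ‖t‖ = ‖c‖ / ‖y‖ ^ 2 := by
      rw [ht, norm_neg, norm_div, Complex.norm_real, Real.norm_of_nonneg hyn.le]
    rw [e1, e2]
    field_simp
    ring
  have h3 : ‖x‖ ^ 2 ≤ ‖x + t • y‖ ^ 2 := by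
    have := norm_nonneg x
    nlinarith
  have h4 : 0 < ‖c‖ ^ 2 / ‖y‖ ^ 2 := by
    have := norm_pos_iff.mpr hc'
    positivity
  linarith

lemma E_selfadj (n : ℕ) (v w : H) : ⟪E u p n v, w⟫_ℂ = ⟪v, E u p n w⟫_ℂ := by
  have hsub : ∀ z, E u p n (z - E u p n z) = 0 := by
    intro z
    have : z - E u p n z = z + (-1 : ℂ) • E u p n z := by simp [sub_eq_add_neg]
    rw [this, E_add, E_smul, E_idem u p hp]
    simp
  have h1 : ⟪E u p n v, w - E u p n w⟫_ℂ = 0 :=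
    E_orth u p hp n _ _ (E_idem u p hp n v) (hsub w)
  have h2 : ⟪E u p n w, v - E u p n v⟫_ℂ = 0 :=
    E_orth u p hp n _ _ (E_idem u p hp n w) (hsub v)
  rw [inner_sub_right, sub_eq_zero] at h1 h2
  rw [h1, ← inner_conj_symm v, h2, inner_conj_symm]

omit hp in
lemma E_strong (n : ℕ) (x : H) (hx : E u p n x = x) :
    Tendsto (fun a : A => ‖Ua u (n • a) x - x‖) p (𝓝 0) := by
  have h := E_spec u p n x x
  rw [hx] at h
  have h1 : Tendsto (fun a : A => ‖Ua u (n • a) x - x‖ ^ 2) p (𝓝 0) := by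
    have h2 : Tendsto (fun a : A => 2 * ‖x‖ ^ 2 -
        2 * (⟪Ua u (n • a) x, x⟫_ℂ).re) p (𝓝 (2 * ‖x‖ ^ 2 - 2 * (⟪x, x⟫_ℂ).re)) :=
      (((Complex.continuous_re.tendsto _).comp h).const_mul 2).const_sub _
    have e : 2 * ‖x‖ ^ 2 - 2 * (⟪x, x⟫_ℂ).re = 0 := by
      have : (⟪x, x⟫_ℂ).re = ‖x‖ ^ 2 := by
        rw [inner_self_eq_norm_sq_to_K]; norm_cast
      rw [this]; ring
    rw [e] at h2
    refine h2.congr fun a => ?_
    rw [@norm_sub_sq ℂ, Ua_norm]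
    change _ = ‖x‖ ^ 2 - 2 * (⟪Ua u (n • a) x, x⟫_ℂ).re + ‖x‖ ^ 2
    ring
  have h3 := (Real.continuous_sqrt.tendsto _).comp h1
  simpa [Function.comp_def, Real.sqrt_sq (norm_nonneg _)] using h3

omit hp in
lemma E_of_strong (n : ℕ) (x : H)
    (h : Tendsto (fun a : A => ‖Ua u (n • a) x - x‖) p (𝓝 0)) : E u p n x = x := by
  refine E_uniq u p n _ _ fun w => ?_
  have h1 : Tendsto (fun a : A => Ua u (n • a) x) p (𝓝 x) :=
    tendsto_iff_norm_sub_tendsto_zero.mpr h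
  exact h1.inner tendsto_const_nhds

omit hp in
lemma E_mul (n k : ℕ) (x : H) (hx : E u p n x = x) : E u p (n * k) x = x := by
  refine E_of_strong u p _ _ ?_
  have h := (E_strong u p n x hx).const_mul (k : ℝ)
  rw [mul_zero] at h
  refine squeeze_zero (fun a => norm_nonneg _) (fun a => ?_) h
  have := Ua_iter u (n • a) x k
  refine le_trans (le_of_eq ?_) this
  rw [mul_comm n k, mul_smul]

lemma E_comp (n k : ℕ) (v : H) : E u p (n * k) (E u p n v) = E u p n v :=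
  E_mul u p n k _ (E_idem u p hp n v)

lemma E_pyth (n N : ℕ) (hN : n ∣ N) (v : H) :
    ‖E u p N v - E u p n v‖ ^ 2 = ‖E u p N v‖ ^ 2 - ‖E u p n v‖ ^ 2 := by
  obtain ⟨k, rfl⟩ := hN
  rw [@norm_sub_sq ℂ]
  have : ⟪E u p (n * k) v, E u p n v⟫_ℂ = ⟪E u p n v, E u p n v⟫_ℂ := by
    rw [E_selfadj u p hp, E_comp u p hp, E_selfadj u p hp n v, E_idem u p hp]
  rw [this, inner_self_eq_norm_sq_to_K]
  have : RCLike.re (((‖E u p n v‖ : ℝ) : ℂ) ^ 2) = ‖E u p n v‖ ^ 2 := by norm_cast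
  change ‖E u p (n * k) v‖ ^ 2 - 2 * RCLike.re (((‖E u p n v‖ : ℝ) : ℂ) ^ 2) +
    ‖E u p n v‖ ^ 2 = _
  rw [this]
  ring

lemma E_le (n N : ℕ) (hN : n ∣ N) (v : H) : ‖E u p n v‖ ^ 2 ≤ ‖E u p N v‖ ^ 2 := by
  have := E_pyth u p hp n N hN v
  have h2 : 0 ≤ ‖E u p N v - E u p n v‖ ^ 2 := sq_nonneg _
  linarith

/-- the limit projection -/
lemma exists_zeta (ξ : H) : ∃ ζ : H, ‖ζ‖ ≤ ‖ξ‖ ∧ ∀ δ > (0 : ℝ), ∃ k0 : ℕ, ∀ k ≥ k0, ∀ m : ℕ, 1 ≤ m →
    ‖E u p (m * k.factorial) ξ - ζ‖ < δ := by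
  set x : ℕ → H := fun k => E u p k.factorial ξ with hx
  have hmono : Monotone fun k => ‖x k‖ ^ 2 := fun a b hab =>
    E_le u p hp _ _ (Nat.factorial_dvd_factorial hab) ξ
  have hbdd : BddAbove (Set.range fun k => ‖x k‖ ^ 2) := by
    refine ⟨‖ξ‖ ^ 2, ?_⟩
    rintro _ ⟨k, rfl⟩
    exact pow_le_pow_left₀ (norm_nonneg _) (E_norm u p _ ξ) 2
  have hlim := tendsto_atTop_ciSup hmono hbdd
  set s := ⨆ k, ‖x k‖ ^ 2 with hs
  have hle : ∀ k, ‖x k‖ ^ 2 ≤ s := fun k => le_ciSup hbdd k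
  -- general estimate
  have hest : ∀ k m : ℕ, 1 ≤ m → ‖E u p (m * k.factorial) ξ - x k‖ ^ 2 ≤ s - ‖x k‖ ^ 2 := by
    intro k m hm
    rw [E_pyth u p hp k.factorial (m * k.factorial) (Dvd.intro_left m rfl)]
    have h1 : ‖E u p (m * k.factorial) ξ‖ ^ 2 ≤ s := by
      refine le_trans (E_le u p hp _ (m * k.factorial).factorial ?_ ξ) (hle _)
      exact Nat.dvd_factorial (Nat.mul_pos hm (Nat.factorial_pos _)) le_rfl
    linarith
  have hcau : CauchySeq x := by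
    rw [Metric.cauchySeq_iff']
    intro ε hε
    obtain ⟨N, hN⟩ := (hlim.eventually (lt_mem_nhds (show s - ε ^ 2 < s by nlinarith [hε]))).exists
    refine ⟨N, fun k hk => ?_⟩
    obtain ⟨c, hc⟩ := Nat.factorial_dvd_factorial hk
    have hc1 : 1 ≤ c := by
      rcases Nat.eq_zero_or_pos c with h | h
      · exfalso
        rw [h] at hc
        simp at hc
        exact absurd hc (Nat.factorial_ne_zero _)
      · exact h
    have h1 := hest N c hc1
    rw [mul_comm, ← hc] at h1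
    rw [dist_eq_norm]
    have h2 : ‖x k - x N‖ ^ 2 < ε ^ 2 := by
      calc _ ≤ s - ‖x N‖ ^ 2 := h1
        _ < ε ^ 2 := by linarith
    exact lt_of_pow_lt_pow_left₀ 2 hε.le h2
  obtain ⟨ζ, hζ⟩ := cauchySeq_tendsto_of_complete hcau
  refine ⟨ζ, ?_, ?_⟩
  · exact le_of_tendsto hζ.norm (Eventually.of_forall fun k => E_norm u p _ ξ)
  · intro δ hδ
    have h1 : ∀ᶠ k in atTop, ‖x k - ζ‖ < δ / 2 := by
      have := (tendsto_iff_norm_sub_tendsto_zero.mp hζ).eventually (gt_mem_nhds (half_pos hδ))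
      exact this
    have h2 : ∀ᶠ k in atTop, s - (δ / 2) ^ 2 < ‖x k‖ ^ 2 :=
      hlim.eventually (lt_mem_nhds (by nlinarith [half_pos hδ]))
    obtain ⟨k0, hk0⟩ := eventually_atTop.mp (h1.and h2)
    refine ⟨k0, fun k hk m hm => ?_⟩
    obtain ⟨ha, hb⟩ := hk0 k hk
    have h3 := hest k m hm
    have h4 : ‖E u p (m * k.factorial) ξ - x k‖ < δ / 2 := by
      have : ‖E u p (m * k.factorial) ξ - x k‖ ^ 2 < (δ / 2) ^ 2 := by linarith
      exact lt_of_pow_lt_pow_left₀ 2 (half_pos hδ).le this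
    calc _ = ‖(E u p (m * k.factorial) ξ - x k) + (x k - ζ)‖ := by congr 1; abel
      _ ≤ _ := norm_add_le _ _
      _ < δ := by linarith

end Proj


section core
variable (u : Multiplicative A →* unitary (H →L[ℂ] H)) (p : Ultrafilter A)
variable (hp : ∀ P : A → Prop,
    (∀ᶠ c in (p : Filter A), P c) ↔
      ∀ᶠ a in (p : Filter A), ∀ᶠ b in (p : Filter A), P (a + b))

include hp

theorem rigid_core (ξ η ζ : H) (n M : ℕ) {ε δ : ℝ} (hε : 0 < ε) (hδ0 : 0 < δ)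
    (hδB : δ * (‖η‖ + 1) = ε / 8) (hx1 : ‖E u p n ξ - ζ‖ < δ)
    (hk1 : ∀ m : ℕ, 1 ≤ m → m ≤ M → ‖E u p (m * n) ξ - ζ‖ < δ) (R : Finset A) :
    ∀ᶠ a in (p : Filter A), ∀ w ∈ R, ∀ m : ℤ, m ≠ 0 → |m| ≤ M →
      ‖⟪η, Ua u (w + m • (n • a)) ξ⟫_ℂ - ⟪η, Ua u w ζ⟫_ℂ‖ < ε ∧
      ‖⟪η, Ua u (w + m • (n • a)) ζ⟫_ℂ - ⟪η, Ua u w ζ⟫_ℂ‖ < ε := by
  set B : ℝ := ‖η‖ + 1 with hB
  have hB1 : 0 < B := by positivity
  set x := E u p n ξ with hx
  have hxE : E u p n x = x := E_idem u p hp n ξ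
  -- strong convergence
  have hst : ∀ᶠ a in (p : Filter A), ‖Ua u (n • a) x - x‖ < δ / (M + 1) := by
    exact (E_strong u p n x hxE).eventually (gt_mem_nhds (by positivity))
  have hw1 : ∀ᶠ a in (p : Filter A), ∀ w ∈ R,
      ∀ m ∈ Finset.Icc 1 M,
      ‖⟪Ua u ((m * n) • a) ξ, Ua u (-w) η⟫_ℂ -
        ⟪E u p (m * n) ξ, Ua u (-w) η⟫_ℂ‖ < ε / 4 := by
    rw [Filter.eventually_all_finset]
    intro w _
    rw [Filter.eventually_all_finset]
    intro m _
    have := tendsto_iff_norm_sub_tendsto_zero.mp (E_spec u p (m * n) ξ (Ua u (-w) η))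
    exact this.eventually (gt_mem_nhds (by positivity))
  have hw2 : ∀ᶠ a in (p : Filter A), ∀ w ∈ R,
      ∀ m ∈ Finset.Icc 1 M,
      ‖⟪Ua u ((m * n) • a) η, Ua u w ξ⟫_ℂ -
        ⟪E u p (m * n) η, Ua u w ξ⟫_ℂ‖ < ε / 4 := by
    rw [Filter.eventually_all_finset]
    intro w _
    rw [Filter.eventually_all_finset]
    intro m _
    have := tendsto_iff_norm_sub_tendsto_zero.mp (E_spec u p (m * n) η (Ua u w ξ))
    exact this.eventually (gt_mem_nhds (by positivity))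
  filter_upwards [hst, hw1, hw2] with a ha1 ha2 ha3
  intro w hwmem m hm0 hmM
  have hηB : ‖η‖ ≤ B := by rw [hB]; linarith
  constructor
  · rcases lt_or_gt_of_ne hm0 with hneg | hpos
    · obtain ⟨m', hm'⟩ := Int.eq_ofNat_of_zero_le (show 0 ≤ -m by linarith)
      have hm2 : m = -(m' : ℤ) := by linarith
      have hm'mem : m' ∈ Finset.Icc 1 M := by
        rw [Finset.mem_Icc]
        constructor
        · by_contra hcon
          have : m' = 0 := by omega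
          subst this
          simp at hm2
          exact hm0 hm2
        · rw [hm2, abs_neg, Nat.abs_cast] at hmM
          exact_mod_cast hmM
      have h1 := ha3 w hwmem m' hm'mem
      have h2 := hk1 m' (Finset.mem_Icc.mp hm'mem).1 (Finset.mem_Icc.mp hm'mem).2
      have e1 : ⟪η, Ua u (w + m • (n • a)) ξ⟫_ℂ =
          ⟪Ua u ((m' * n) • a) η, Ua u w ξ⟫_ℂ := by
        rw [Ua_adj, ← Ua_add]
        congr 3
        rw [hm2, mul_smul]
        simp
        abel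
      have e2 : ⟪E u p (m' * n) η, Ua u w ξ⟫_ℂ - ⟪η, Ua u w ζ⟫_ℂ =
          ⟪η, Ua u w (E u p (m' * n) ξ - ζ)⟫_ℂ := by
        rw [E_selfadj u p hp, E_comm, map_sub, inner_sub_right]
      have e3 : ‖⟪η, Ua u w (E u p (m' * n) ξ - ζ)⟫_ℂ‖ ≤ B * δ := by
        calc _ ≤ ‖η‖ * ‖Ua u w (E u p (m' * n) ξ - ζ)‖ := norm_inner_le_norm _ _
          _ ≤ B * δ := by
            rw [Ua_norm]
            exact mul_le_mul hηB h2.le (norm_nonneg _) hB1.le
      rw [e1]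
      calc _ = ‖(⟪Ua u ((m' * n) • a) η, Ua u w ξ⟫_ℂ -
              ⟪E u p (m' * n) η, Ua u w ξ⟫_ℂ) +
              (⟪E u p (m' * n) η, Ua u w ξ⟫_ℂ - ⟪η, Ua u w ζ⟫_ℂ)‖ := by congr 1; ring
        _ ≤ _ := norm_add_le _ _
        _ < ε := by rw [e2]; nlinarith
    · obtain ⟨m', hm'⟩ := Int.eq_ofNat_of_zero_le hpos.le
      have hm2 : m = (m' : ℤ) := hm'
      have hm'mem : m' ∈ Finset.Icc 1 M := by
        rw [Finset.mem_Icc]
        constructor
        · omega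
        · rw [hm2, Nat.abs_cast] at hmM
          exact_mod_cast hmM
      have h1 := ha2 w hwmem m' hm'mem
      have h2 := hk1 m' (Finset.mem_Icc.mp hm'mem).1 (Finset.mem_Icc.mp hm'mem).2
      have e1 : ⟪η, Ua u (w + m • (n • a)) ξ⟫_ℂ =
          conj ⟪Ua u ((m' * n) • a) ξ, Ua u (-w) η⟫_ℂ := by
        rw [inner_conj_symm, Ua_adj, neg_neg, ← Ua_add]
        congr 3
        rw [hm2, mul_smul]
        simp
      have e2 : ⟪η, Ua u w ζ⟫_ℂ = conj ⟪ζ, Ua u (-w) η⟫_ℂ := by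
        rw [inner_conj_symm, Ua_adj, neg_neg]
      have e3 : ‖⟪E u p (m' * n) ξ - ζ, Ua u (-w) η⟫_ℂ‖ ≤ B * δ := by
        calc _ ≤ ‖E u p (m' * n) ξ - ζ‖ * ‖Ua u (-w) η‖ := norm_inner_le_norm _ _
          _ ≤ B * δ := by
            rw [Ua_norm, mul_comm]
            exact mul_le_mul hηB h2.le (norm_nonneg _) hB1.le
      rw [e1, e2, ← map_sub, Complex.norm_conj]
      calc _ = ‖(⟪Ua u ((m' * n) • a) ξ, Ua u (-w) η⟫_ℂ -
              ⟪E u p (m' * n) ξ, Ua u (-w) η⟫_ℂ) +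
              ⟪E u p (m' * n) ξ - ζ, Ua u (-w) η⟫_ℂ‖ := by
            congr 1; rw [inner_sub_left]; ring
        _ ≤ _ := norm_add_le _ _
        _ < ε := by nlinarith
  · have e1 : ⟪η, Ua u (w + m • (n • a)) ζ⟫_ℂ - ⟪η, Ua u w ζ⟫_ℂ =
        ⟪η, Ua u w (Ua u (m • (n • a)) ζ - ζ)⟫_ℂ := by
      rw [map_sub, ← Ua_add, inner_sub_right]
    have e2 : ‖Ua u (m • (n • a)) ζ - ζ‖ ≤ 3 * δ := by
      have h1 := Ua_iter_int u (n • a) x m
      have h2 : (|m| : ℝ) * ‖Ua u (n • a) x - x‖ ≤ δ := by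
        have hm3 : ((|m| : ℤ) : ℝ) ≤ M := by exact_mod_cast hmM
        have hm4 : (|(m : ℝ)|) ≤ M := by simpa using hm3
        calc _ ≤ (M : ℝ) * (δ / (M + 1)) := by
              refine mul_le_mul hm4 ha1.le (norm_nonneg _) (by positivity)
          _ ≤ δ := by
              rw [mul_div_assoc', div_le_iff₀ (by positivity)]
              nlinarith
      have h3 : ‖Ua u (m • (n • a)) x - x‖ ≤ δ := by
        refine h1.trans ?_
        simpa using h2
      calc _ = ‖Ua u (m • (n • a)) (ζ - x) +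
              (Ua u (m • (n • a)) x - x) + (x - ζ)‖ := by
            congr 1; rw [map_sub]; abel
        _ ≤ ‖Ua u (m • (n • a)) (ζ - x)‖ +
              ‖Ua u (m • (n • a)) x - x‖ + ‖x - ζ‖ := norm_add₃_le
        _ ≤ _ := by
            rw [Ua_norm, norm_sub_rev ζ x]
            linarith
    rw [e1]
    calc _ ≤ ‖η‖ * ‖Ua u w (Ua u (m • (n • a)) ζ - ζ)‖ := norm_inner_le_norm _ _
      _ ≤ B * (3 * δ) := by
          rw [Ua_norm]
          exact mul_le_mul hηB e2 (norm_nonneg _) hB1.le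
      _ < ε := by nlinarith

end core

lemma fin_fiber {N : ℕ} (hN : {a : A | N • a = 0}.Finite) (r : A) :
    {a : A | N • a = r}.Finite := by
  by_cases h : ∃ a0 : A, N • a0 = r
  · obtain ⟨a0, ha0⟩ := h
    refine (hN.image (fun t => t + a0)).subset ?_
    intro a ha
    refine ⟨a - a0, ?_, by abel⟩
    change N • (a - a0) = 0
    rw [smul_sub, ha0, ha, sub_self]
  · push Not at h
    have : {a : A | N • a = r} = ∅ := by
      ext a
      simp [h a]
    rw [this]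
    exact Set.finite_empty

/-- finite torsion: closeness along a dissociate direction -/
theorem rigidU [Infinite A] (hfin : ∀ n : ℕ, 0 < n → {a : A | n • a = 0}.Finite)
    (u : Multiplicative A →* unitary (H →L[ℂ] H)) (ξ η : H) :
    ∃ h : A → ℂ, (∀ w, ‖h w‖ ≤ ‖ξ‖ * ‖η‖) ∧
    ∀ (R S : Finset A) (M : ℕ) (ε : ℝ), 0 < ε → ∃ g : A,
      (∀ m : ℤ, m ≠ 0 → |m| ≤ M → m • g ∉ S) ∧
      ∀ w ∈ R, ∀ m : ℤ, m ≠ 0 → |m| ≤ M →
        ‖⟪η, Ua u (w + m • g) ξ⟫_ℂ - h w‖ < ε ∧ ‖h (w + m • g) - h w‖ < ε := by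
  obtain ⟨p, hnp, hp⟩ := exists_idem (A := A)
  obtain ⟨ζ, hζ1, hζ⟩ := exists_zeta u p hp ξ
  refine ⟨fun w => ⟪η, Ua u w ζ⟫_ℂ, fun w => ?_, ?_⟩
  · calc _ ≤ ‖η‖ * ‖Ua u w ζ‖ := norm_inner_le_norm _ _
      _ ≤ ‖ξ‖ * ‖η‖ := by rw [Ua_norm, mul_comm]; exact mul_le_mul_of_nonneg_right hζ1 (norm_nonneg _)
  intro R S M ε hε
  have hB1 : 0 < ‖η‖ + 1 := by positivity
  obtain ⟨k, hk⟩ := hζ (ε / (8 * (‖η‖ + 1))) (by positivity)
  have hk1 := hk k le_rfl
  have h1 := rigid_core u p hp ξ η ζ k.factorial M (ε := ε) (δ := ε / (8 * (‖η‖ + 1))) hε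
    (by positivity) (by field_simp) (by simpa using hk1 1 le_rfl) (fun m hm _ => hk1 m hm) R
  have h2 : ∀ᶠ a in (p : Filter A), ∀ m ∈ Finset.Icc 1 M, (m * k.factorial) • a ∉ S ∧
      -((m * k.factorial) • a) ∉ S := by
    rw [Filter.eventually_all_finset]
    intro m hm
    have hpos : 0 < m * k.factorial :=
      Nat.mul_pos (Finset.mem_Icc.mp hm).1 (Nat.factorial_pos _)
    have hf1 : {a : A | (m * k.factorial) • a ∈ S}.Finite := by
      have : {a : A | (m * k.factorial) • a ∈ S} =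
          ⋃ r ∈ S, {a : A | (m * k.factorial) • a = r} := by
        ext a; simp
      rw [this]
      exact S.finite_toSet.biUnion fun r _ => fin_fiber (hfin _ hpos) r
    have hf2 : {a : A | -((m * k.factorial) • a) ∈ S}.Finite := by
      have : {a : A | -((m * k.factorial) • a) ∈ S} =
          ⋃ r ∈ S, {a : A | (m * k.factorial) • a = -r} := by
        ext a
        simp only [Set.mem_iUnion]
        constructor
        · intro h
          exact ⟨_, h, by change (m * k.factorial) • a = _; rw [neg_neg]⟩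
        · rintro ⟨r, hr, hra⟩
          change -((m * k.factorial) • a) ∈ S
          have : (m * k.factorial) • a = -r := hra
          rw [this, neg_neg]
          exact hr
      rw [this]
      exact S.finite_toSet.biUnion fun r _ => fin_fiber (hfin _ hpos) (-r)
    filter_upwards [hnp _ hf1, hnp _ hf2] with a ha1 ha2
    exact ⟨ha1, ha2⟩
  obtain ⟨a, ha1, ha2⟩ := (h1.and h2).exists
  refine ⟨k.factorial • a, ?_, ha1⟩
  intro m hm0 hmM
  rcases lt_or_gt_of_ne hm0 with hneg | hpos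
  · obtain ⟨m', hm'⟩ := Int.eq_ofNat_of_zero_le (show 0 ≤ -m by linarith)
    have hm2 : m = -(m' : ℤ) := by linarith
    have hm'mem : m' ∈ Finset.Icc 1 M := by
      rw [Finset.mem_Icc]
      constructor
      · omega
      · rw [hm2, abs_neg, Nat.abs_cast] at hmM
        exact_mod_cast hmM
    have := (ha2 m' hm'mem).2
    rw [hm2]
    rw [mul_smul] at this
    simpa using this
  · obtain ⟨m', hm'⟩ := Int.eq_ofNat_of_zero_le hpos.le
    have hm2 : m = (m' : ℤ) := hm'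
    have hm'mem : m' ∈ Finset.Icc 1 M := by
      rw [Finset.mem_Icc]
      constructor
      · omega
      · rw [hm2, Nat.abs_cast] at hmM
        exact_mod_cast hmM
    have := (ha2 m' hm'mem).1
    rw [hm2]
    rw [mul_smul] at this
    simpa using this

/-- prime exponent: closeness along a new direction -/
theorem rigidB [Infinite A] {q : ℕ} (hq : q.Prime) (htor : ∀ a : A, q • a = 0)
    (u : Multiplicative A →* unitary (H →L[ℂ] H)) (ξ η : H) :
    ∃ h : A → ℂ, (∀ w, ‖h w‖ ≤ ‖ξ‖ * ‖η‖) ∧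
    ∀ (R S : Finset A) (ε : ℝ), 0 < ε → ∃ g : A, g ∉ S ∧
      ∀ w ∈ R, ∀ m : ℕ, 1 ≤ m → m < q →
        ‖⟪η, Ua u (w + m • g) ξ⟫_ℂ - h w‖ < ε ∧ ‖h (w + m • g) - h w‖ < ε := by
  obtain ⟨p, hnp, hp⟩ := exists_idem (A := A)
  set ζ := E u p 1 ξ with hζ
  refine ⟨fun w => ⟪η, Ua u w ζ⟫_ℂ, fun w => ?_, ?_⟩
  · calc _ ≤ ‖η‖ * ‖Ua u w ζ‖ := norm_inner_le_norm _ _
      _ ≤ ‖ξ‖ * ‖η‖ := by
        rw [Ua_norm, mul_comm]
        exact mul_le_mul_of_nonneg_right (E_norm u p 1 ξ) (norm_nonneg _)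
  have hE : ∀ m : ℕ, 1 ≤ m → m < q → E u p (m * 1) ξ = ζ := by
    intro m hm1 hmq
    rw [mul_one]
    obtain ⟨m', hm'⟩ : ∃ m' : ℕ, (m * m') % q = 1 := by
      have hcop : Nat.Coprime m q := by
        rw [Nat.coprime_comm, hq.coprime_iff_not_dvd]
        intro hd
        exact absurd (Nat.le_of_dvd hm1 hd) (by omega)
      obtain ⟨m', hm'⟩ := Nat.exists_mul_mod_eq_one_of_coprime hcop hq.one_lt
      exact ⟨m', hm'.2⟩
    have hEE : E u p (m * m') ξ = E u p 1 ξ := by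
      refine E_uniq u p _ _ _ fun w => ?_
      refine (E_spec u p 1 ξ w).congr fun a => ?_
      have : (m * m') • a = 1 • a := by
        rw [← Nat.div_add_mod (m * m') q, hm', add_smul, mul_comm q, mul_smul, htor, smul_zero,
          zero_add]
      rw [this]
    have h1 := E_le u p hp 1 m (one_dvd _) ξ
    have h2 := E_le u p hp m (m * m') (Dvd.intro _ rfl) ξ
    rw [hEE] at h2
    have h3 := E_pyth u p hp 1 m (one_dvd _) ξ
    have h4 : ‖E u p m ξ - E u p 1 ξ‖ ^ 2 ≤ 0 := by rw [h3]; linarith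
    have h5 : ‖E u p m ξ - E u p 1 ξ‖ = 0 := by
      have := sq_nonneg ‖E u p m ξ - E u p 1 ξ‖
      exact pow_eq_zero_iff (two_ne_zero) |>.mp (le_antisymm h4 this)
    rw [hζ]
    exact sub_eq_zero.mp (norm_eq_zero.mp h5)
  intro R S ε hε
  have hB1 : 0 < ‖η‖ + 1 := by positivity
  have hδ : 0 < ε / (8 * (‖η‖ + 1)) := by positivity
  have h1 := rigid_core u p hp ξ η ζ 1 (q - 1) (ε := ε) (δ := ε / (8 * (‖η‖ + 1))) hε
    hδ (by field_simp) (by rw [hζ, sub_self, norm_zero]; exact hδ)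
    (fun m hm hm' => by
      rw [hE m hm (by have := hq.one_lt; omega), sub_self, norm_zero]; exact hδ) R
  obtain ⟨a, ha1, ha2⟩ := (h1.and (hnp _ S.finite_toSet)).exists
  refine ⟨a, ha2, fun w hw m hm1 hmq => ?_⟩
  have := ha1 w hw (m : ℤ) (by exact_mod_cast (by omega : m ≠ 0)) (by
    rw [Nat.abs_cast]; exact_mod_cast (by omega : m ≤ q - 1))
  simpa using this

end H697R3.NS2
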