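import Pool.Agent.H697R3.NS2B
import Pool.Agent.H697R3.NS2Erg

set_option autoImplicit false

open scoped ComplexOrder ComplexConjugate InnerProductSpace
open Finset

noncomputable section

namespace H697R3.NS2

open H697R3.NS (PD BN BN_translate BN_one local_inv BN_inv_large spec_eq isCoef_iff)

section digits

/-- dyadic digits -/
lemma dyadic_nat (n : ℕ) : ∀ k : ℕ, k < 2 ^ (n + 1) →
    ∃ a : Finset ℕ, a ⊆ range (n + 1) ∧ ∑ j ∈ a, (1 / 2 : ℝ) ^ j = k / 2 ^ n := by
  induction n with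
  | zero =>
    intro k hk
    rcases Nat.lt_or_ge k 1 with h | h
    · refine ⟨∅, by simp, ?_⟩
      have : k = 0 := by omega
      subst this; simp
    · refine ⟨{0}, by simp, ?_⟩
      have : k = 1 := by
        have : k < 2 := by simpa using hk
        omega
      subst this; simp
  | succ n ih =>
    intro k hk
    obtain ⟨a, ha, hs⟩ := ih (k / 2) (by rw [pow_succ] at hk; omega)
    have hpow : (0 : ℝ) < 2 ^ n := by positivity
    rcases Nat.mod_two_eq_zero_or_one k with h | h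
    · refine ⟨a, ha.trans (Finset.range_subset_range.mpr (by omega)), ?_⟩
      rw [hs]
      have : (k : ℝ) = 2 * ((k / 2 : ℕ) : ℝ) := by
        have : k = 2 * (k / 2) := by omega
        exact_mod_cast this
      rw [this, pow_succ]
      field_simp
    · refine ⟨insert (n + 1) a, ?_, ?_⟩
      · intro j hj
        rw [Finset.mem_insert] at hj
        rcases hj with rfl | hj
        · simp
        · have := ha hj
          rw [Finset.mem_range] at this ⊢
          omega
      · rw [Finset.sum_insert, hs]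
        · have : (k : ℝ) = 2 * ((k / 2 : ℕ) : ℝ) + 1 := by
            have : k = 2 * (k / 2) + 1 := by omega
            exact_mod_cast this
          rw [this, pow_succ, one_div, inv_pow, pow_succ]
          field_simp
          ring
        · intro hmem
          have := ha hmem
          simp at this

lemma dyadic_real {t : ℝ} (h0 : 0 ≤ t) (h2 : t ≤ 2) {ε : ℝ} (hε : 0 < ε) :
    ∃ a : Finset ℕ, |∑ j ∈ a, (1 / 2 : ℝ) ^ j - t| < ε := by
  obtain ⟨n, hn⟩ := exists_pow_lt_of_lt_one hε (show (1 / 2 : ℝ) < 1 by norm_num)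
  have hpow : (0 : ℝ) < 2 ^ n := by positivity
  have hpow1 : (1 : ℕ) ≤ 2 ^ (n + 1) := Nat.one_le_two_pow
  have hinv : (1 / 2 : ℝ) ^ n = 1 / 2 ^ n := by rw [one_div, inv_pow, one_div]
  set k : ℕ := min ⌊t * 2 ^ n⌋₊ (2 ^ (n + 1) - 1) with hk
  obtain ⟨a, -, ha⟩ := dyadic_nat n k (by omega)
  refine ⟨a, lt_of_le_of_lt ?_ hn⟩
  rw [ha, hinv]
  have hf1 := Nat.floor_le (show 0 ≤ t * 2 ^ n by positivity)
  have hf2 := Nat.lt_floor_add_one (t * 2 ^ n)
  have hk1 : (k : ℝ) ≤ t * 2 ^ n := by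
    refine le_trans ?_ hf1
    exact Nat.cast_le.mpr (min_le_left _ _)
  have hk2 : t * 2 ^ n ≤ k + 1 := by
    rcases le_total ⌊t * 2 ^ n⌋₊ (2 ^ (n + 1) - 1) with h | h
    · rw [hk, min_eq_left h]; exact hf2.le
    · rw [hk, min_eq_right h, Nat.cast_sub hpow1]
      push_cast
      rw [pow_succ]
      nlinarith
  rw [abs_le]
  constructor
  · have : t ≤ (k + 1) / 2 ^ n := by rw [le_div_iff₀ hpow]; exact hk2
    rw [add_div] at this
    linarith
  · have : (k : ℝ) / 2 ^ n ≤ t := by rw [div_le_iff₀ hpow]; exact hk1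
    have : 0 < 1 / (2 : ℝ) ^ n := by positivity
    linarith

end digits

section sigma
variable {q : ℕ} [NeZero q]

/-- digit -/
def dg (m : ZMod q) : ℂ := if m = 0 then 0 else 1

/-- one term -/
def tm (x : Y q) (j : ℕ) : ℂ := (1 / 2 : ℂ) ^ j * (dg (x (2 * j)) + Complex.I * dg (x (2 * j + 1)))

/-- a natural function whose range is dense in a square -/
def sg (x : Y q) : ℂ := ∑' j, tm x j

lemma tm_fin (x : Y q) : ∃ J, ∀ j, J ≤ j → tm x j = 0 := by
  obtain ⟨J, hJ⟩ := exists_Fk x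
  refine ⟨J, fun j hj => ?_⟩
  have h1 := mem_Fk.mp (hJ J le_rfl) (2 * j) (by omega)
  have h2 := mem_Fk.mp (hJ J le_rfl) (2 * j + 1) (by omega)
  simp [tm, h1, h2, dg]

lemma tm_summable (x : Y q) : Summable (tm x) := by
  obtain ⟨J, hJ⟩ := tm_fin x
  exact summable_of_ne_finset_zero (s := range J) fun j hj => hJ j (by simpa using hj)

lemma sg_tr (J : ℕ) (x : Y q) : sg x - sg (tr (2 * J) x) = ∑' i, tm x (i + J) := by
  have h1 := (tm_summable x).sum_add_tsum_nat_add J
  have h2 := (tm_summable (tr (2 * J) x)).sum_add_tsum_nat_add J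
  unfold sg
  rw [← h1, ← h2]
  have e1 : ∑ i ∈ range J, tm (tr (2 * J) x) i = ∑ i ∈ range J, tm x i := by
    refine Finset.sum_congr rfl fun i hi => ?_
    rw [Finset.mem_range] at hi
    unfold tm
    rw [tr_apply, tr_apply, if_pos (by omega), if_pos (by omega)]
  have e2 : ∑' i, tm (tr (2 * J) x) (i + J) = 0 := by
    have : ∀ i, tm (tr (2 * J) x) (i + J) = 0 := by
      intro i
      unfold tm
      rw [tr_apply, tr_apply, if_neg (by omega), if_neg (by omega)]
      simp [dg]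
    simp [this]
  rw [e1, e2]
  ring

/-- prescribed digits -/
lemma exists_digits (hq1 : 1 < q) (a b : Finset ℕ) : ∃ x : Y q,
    sg x = ((∑ j ∈ a, (1 / 2 : ℝ) ^ j : ℝ) : ℂ) + Complex.I * ((∑ j ∈ b, (1 / 2 : ℝ) ^ j : ℝ) : ℂ) := by
  classical
  have : Fact (1 < q) := ⟨hq1⟩
  let x : Y q := Finsupp.onFinset (a.image (fun j => 2 * j) ∪ b.image (fun j => 2 * j + 1))
    (fun n => if (n % 2 = 0 ∧ n / 2 ∈ a) ∨ (n % 2 = 1 ∧ n / 2 ∈ b) then 1 else 0) (by
      intro n hn
      have hn' : (n % 2 = 0 ∧ n / 2 ∈ a) ∨ (n % 2 = 1 ∧ n / 2 ∈ b) := by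
        by_contra hcon
        exact hn (if_neg hcon)
      rw [Finset.mem_union, Finset.mem_image, Finset.mem_image]
      rcases hn' with ⟨h1, h2⟩ | ⟨h1, h2⟩
      · exact Or.inl ⟨_, h2, by omega⟩
      · exact Or.inr ⟨_, h2, by omega⟩)
  have hx1 : ∀ j, x (2 * j) = if j ∈ a then 1 else 0 := by
    intro j
    change (if ((2 * j) % 2 = 0 ∧ (2 * j) / 2 ∈ a) ∨ ((2 * j) % 2 = 1 ∧ (2 * j) / 2 ∈ b)
      then (1 : ZMod q) else 0) = _
    have e : (2 * j) / 2 = j := by omega
    have e1 : (2 * j) % 2 = 0 := by omega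
    rw [e, e1]
    simp
  have hx2 : ∀ j, x (2 * j + 1) = if j ∈ b then 1 else 0 := by
    intro j
    change (if ((2 * j + 1) % 2 = 0 ∧ (2 * j + 1) / 2 ∈ a) ∨
      ((2 * j + 1) % 2 = 1 ∧ (2 * j + 1) / 2 ∈ b) then (1 : ZMod q) else 0) = _
    have e : (2 * j + 1) / 2 = j := by omega
    have e1 : (2 * j + 1) % 2 = 1 := by omega
    rw [e, e1]
    simp
  refine ⟨x, ?_⟩
  have htm : ∀ j, tm x j = (if j ∈ a then (1 / 2 : ℂ) ^ j else 0) +
      Complex.I * (if j ∈ b then (1 / 2 : ℂ) ^ j else 0) := by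
    intro j
    unfold tm
    rw [hx1, hx2]
    unfold dg
    by_cases h1 : j ∈ a <;> by_cases h2 : j ∈ b <;> simp [h1, h2] <;> ring
  unfold sg
  rw [tsum_eq_sum (s := a ∪ b)]
  · simp only [htm]
    rw [Finset.sum_add_distrib, ← Finset.mul_sum]
    congr 1
    · rw [← Finset.sum_filter]
      have : (a ∪ b).filter (fun j => j ∈ a) = a := by
        ext j; simp only [Finset.mem_filter, Finset.mem_union]; tauto
      rw [this]
      push_cast
      rfl
    · congr 1
      rw [← Finset.sum_filter]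
      have : (a ∪ b).filter (fun j => j ∈ b) = b := by
        ext j; simp only [Finset.mem_filter, Finset.mem_union]; tauto
      rw [this]
      push_cast
      rfl
  · intro j hj
    rw [Finset.mem_union, not_or] at hj
    rw [htm, if_neg hj.1, if_neg hj.2]
    simp

lemma sg_dense (hq1 : 1 < q) {z : ℂ} (hz : ‖z‖ ≤ 1) {ε : ℝ} (hε : 0 < ε) :
    ∃ x : Y q, ‖(sg x - (1 + Complex.I)) - z‖ < ε := by
  have h1 := abs_le.mp ((Complex.abs_re_le_norm z).trans hz)
  have h2 := abs_le.mp ((Complex.abs_im_le_norm z).trans hz)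
  obtain ⟨a, ha⟩ := dyadic_real (t := z.re + 1) (by linarith) (by linarith) (half_pos hε)
  obtain ⟨b, hb⟩ := dyadic_real (t := z.im + 1) (by linarith) (by linarith) (half_pos hε)
  obtain ⟨x, hx⟩ := exists_digits hq1 a b
  refine ⟨x, ?_⟩
  have e : (sg x - (1 + Complex.I)) - z =
      ((∑ j ∈ a, (1 / 2 : ℝ) ^ j - (z.re + 1) : ℝ) : ℂ) +
      Complex.I * ((∑ j ∈ b, (1 / 2 : ℝ) ^ j - (z.im + 1) : ℝ) : ℂ) := by
    rw [hx]
    conv_lhs => rw [← Complex.re_add_im z]
    push_cast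
    ring
  rw [e]
  calc _ ≤ ‖((∑ j ∈ a, (1 / 2 : ℝ) ^ j - (z.re + 1) : ℝ) : ℂ)‖ +
      ‖Complex.I * ((∑ j ∈ b, (1 / 2 : ℝ) ^ j - (z.im + 1) : ℝ) : ℂ)‖ := norm_add_le _ _
    _ < ε := by
      rw [norm_mul, Complex.norm_I, one_mul, Complex.norm_real, Complex.norm_real,
        Real.norm_eq_abs, Real.norm_eq_abs]
      linarith

variable {G : Type} [Group G] (ι : Multiplicative (Y q) →* G) (hinj : Function.Injective (em ι))
include hinj

lemma BN_dg (j : ℕ) : BN (ext ι (fun x => dg (x j))) 4 := by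
  classical
  have h1 := (BN_ext_one ι hinj).add (BN_coset ι hinj (ZJ q j) 0).neg
  have e : (2 : ℝ) + 2 = 4 := by norm_num
  rw [e] at h1
  convert h1 using 1
  funext x
  revert x
  refine ext_cases ι ?_ ?_
  · intro n
    simp only [ext_apply ι hinj, sub_zero, mem_ZJ, dg]
    split_ifs <;> ring
  · intro x hx
    simp only [ext_out ι _ hx]
    ring

lemma BN_tm (j : ℕ) : BN (ext ι (fun x => tm x j)) (8 * (1 / 2) ^ j) := by
  have h1 := ((BN_dg ι hinj (2 * j)).add (BN_dg ι hinj (2 * j + 1)).I_mul).real_nonneg_mul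
    (r := (1 / 2) ^ j) (by positivity)
  have e : (1 / 2 : ℝ) ^ j * (4 + 4) = 8 * (1 / 2) ^ j := by ring
  rw [e] at h1
  convert h1 using 1
  funext x
  revert x
  refine ext_cases ι ?_ ?_
  · intro n
    simp only [ext_apply ι hinj, tm]
    push_cast
    ring
  · intro x hx
    simp only [ext_out ι _ hx]
    ring

lemma BN_sg_tail (J : ℕ) : BN (ext ι (fun x => sg x - sg (tr (2 * J) x))) (16 * (1 / 2) ^ J) := by
  have h1 : ∀ i : ℕ, BN (ext ι (fun x => tm x (i + J))) (8 * (1 / 2) ^ J * (1 / 2) ^ i) := by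
    intro i
    refine (BN_tm ι hinj (i + J)).mono (le_of_eq ?_)
    rw [pow_add]; ring
  have h2 := BN.tsum h1 (summable_geometric_two.mul_left _)
  rw [tsum_mul_left, tsum_geometric_two] at h2
  have e : 8 * (1 / 2 : ℝ) ^ J * 2 = 16 * (1 / 2) ^ J := by ring
  rw [e] at h2
  convert h2 using 1
  funext x
  rw [← ext_tsum ι hinj]
  congr 1
  funext n
  exact sg_tr J n

lemma InA_sg : InA ι (fun x => sg x - (1 + Complex.I)) := by
  refine ⟨fun _ => 0, by simpa using summable_zero, fun κ hκ => ?_⟩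
  obtain ⟨J, hJ⟩ := exists_pow_lt_of_lt_one (show 0 < κ / 16 by positivity)
    (show (1 / 2 : ℝ) < 1 by norm_num)
  refine ⟨2 * J, fun x => sg x - (1 + Complex.I), ?_⟩
  have h1 := BN_sg_tail ι hinj J
  have h2 : 16 * (1 / 2 : ℝ) ^ J ≤ κ := by linarith
  refine BN.mono ?_ h2
  convert h1 using 2
  funext n
  ring

lemma BN_sg : ∃ C, BN (ext ι (fun x => sg x - (1 + Complex.I))) C := by
  have h1 := (BN_sg_tail ι hinj 0).add ((BN_ext_one ι hinj).cmul (sg (0 : Y q) - (1 + Complex.I)))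
  suffices e : ext ι (fun x => sg x - (1 + Complex.I)) =
      (fun x => ext ι (fun x => sg x - sg (tr (2 * 0) x)) x +
        (sg (0 : Y q) - (1 + Complex.I)) * ext ι (fun _ => (1 : ℂ)) x) from
    ⟨_, by rw [e]; exact h1⟩
  funext x
  revert x
  refine ext_cases ι ?_ ?_
  · intro n
    simp only [ext_apply ι hinj]
    have : tr (2 * 0) n = 0 := by
      ext i; rw [tr_apply, if_neg (by omega)]; rfl
    rw [this]
    ring
  · intro x hx
    simp only [ext_out ι _ hx]
    ring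

end sigma

section step
variable {q : ℕ} [NeZero q]

/-- tolerance -/
def ep (q : ℕ) (k : ℕ) : ℝ := (1 / 2) ^ k / (q : ℝ) ^ (k + 1)

lemma ep_pos (k : ℕ) : 0 < ep q k := by
  have : (0 : ℝ) < q := by exact_mod_cast Nat.pos_of_ne_zero (NeZero.ne q)
  unfold ep; positivity

lemma card_ep (k : ℕ) : ((Fk q (k + 1)).card : ℝ) * ep q k = (1 / 2) ^ k := by
  have : (0 : ℝ) < q := by exact_mod_cast Nat.pos_of_ne_zero (NeZero.ne q)
  rw [card_Fk]
  unfold ep
  push_cast
  field_simp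

/-- step condition -/
def StepB (φ h : Y q → ℂ) : Prop := ∀ k : ℕ, ∀ w ∈ Fk q k, ∀ m : ZMod q, m ≠ 0 →
  ‖φ (w + Finsupp.single k m) - h w‖ < ep q k ∧ ‖h (w + Finsupp.single k m) - h w‖ < ep q k

variable {φ h : Y q → ℂ}

lemma split_top {k : ℕ} {x : Y q} (hx : x ∈ Fk q (k + 1)) :
    x = tr k x + Finsupp.single k (x k) := by
  ext i
  rw [Finsupp.add_apply, tr_apply, Finsupp.single_apply]
  rcases lt_trichotomy i k with h | h | h
  · rw [if_pos h, if_neg (by omega), add_zero]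
  · subst h; simp
  · rw [if_neg (by omega), if_neg (by omega), add_zero]
    exact mem_Fk.mp hx i (by omega)

lemma top_ne {k : ℕ} {x : Y q} (hx : x ∈ Fk q (k + 1)) (hx' : x ∉ Fk q k) : x k ≠ 0 := by
  intro h0
  apply hx'
  rw [mem_Fk]
  intro i hi
  rcases Nat.eq_or_lt_of_le hi with h | h
  · rw [← h]; exact h0
  · exact mem_Fk.mp hx i (by omega)

lemma sumB_le (hst : StepB φ h) (J : ℕ) :
    ∑ n ∈ Fk q J, ‖φ n - h n‖ ≤ ‖φ 0 - h 0‖ + ∑ j ∈ range J, 2 * (1 / 2 : ℝ) ^ j := by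
  induction J with
  | zero =>
    have : Fk q 0 = {0} := by
      ext x
      rw [mem_Fk, Finset.mem_singleton]
      constructor
      · intro h; ext i; exact h i (Nat.zero_le _)
      · rintro rfl i _; rfl
    rw [this]; simp
  | succ J ih =>
    rw [Finset.sum_range_succ, ← Finset.sum_sdiff (Fk_mono (Nat.le_succ J))]
    have h1 : ∑ n ∈ Fk q (J + 1) \ Fk q J, ‖φ n - h n‖ ≤ 2 * (1 / 2) ^ J := by
      have h2 : ∀ n ∈ Fk q (J + 1) \ Fk q J, ‖φ n - h n‖ ≤ 2 * ep q J := by
        intro n hn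
        rw [Finset.mem_sdiff] at hn
        obtain ⟨e1, e2⟩ := hst J (tr J n) (tr_mem J n) (n J) (top_ne hn.1 hn.2)
        rw [← split_top hn.1] at e1 e2
        calc ‖φ n - h n‖ = ‖(φ n - h (tr J n)) - (h n - h (tr J n))‖ := by congr 1; ring
          _ ≤ _ := norm_sub_le _ _
          _ ≤ _ := by linarith
      have h3 := Finset.sum_le_card_nsmul _ _ _ h2
      refine h3.trans ?_
      rw [nsmul_eq_mul]
      have h4 : ((Fk q (J + 1) \ Fk q J).card : ℝ) ≤ (Fk q (J + 1)).card := by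
        exact_mod_cast Finset.card_le_card Finset.sdiff_subset
      have h5 := card_ep (q := q) J
      have h6 := (ep_pos (q := q) J).le
      nlinarith [mul_le_mul_of_nonneg_right h4 h6]
    linarith

lemma summableB (hst : StepB φ h) : Summable fun n => ‖φ n - h n‖ := by
  refine summable_of_sum_le (c := ‖φ 0 - h 0‖ + 4) (fun n => norm_nonneg _) fun u => ?_
  choose J hJ using exists_Fk (q := q)
  have hsub : u ⊆ Fk q (u.sup J) := fun n hn => hJ n _ (Finset.le_sup hn)
  have h1 := Finset.sum_le_sum_of_subset_of_nonneg (f := fun n => ‖φ n - h n‖) hsub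
    (fun _ _ _ => norm_nonneg _)
  have h2 := sumB_le hst (u.sup J)
  have h3 : ∑ j ∈ range (u.sup J), 2 * (1 / 2 : ℝ) ^ j ≤ 4 := by
    rw [← Finset.mul_sum]
    have h4 := (summable_geometric_two).sum_le_tsum (range (u.sup J)) (fun _ _ => by positivity)
    rw [tsum_geometric_two] at h4
    linarith
  linarith

variable {G : Type} [Group G] (ι : Multiplicative (Y q) →* G) (hinj : Function.Injective (em ι))
include hinj

lemma BN_incr (hst : StepB φ h) (j : ℕ) :
    BN (ext ι (fun x => h (tr (j + 1) x) - h (tr j x))) (4 * (1 / 2) ^ j) := by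
  have h1 := BN_cyl ι hinj (j + 1) (fun v => h v - h (tr j v))
  have h2 : ∑ v ∈ Fk q (j + 1), 2 * ‖h v - h (tr j v)‖ * 2 ≤ 4 * (1 / 2) ^ j := by
    have h3 : ∀ v ∈ Fk q (j + 1), 2 * ‖h v - h (tr j v)‖ * 2 ≤ 4 * ep q j := by
      intro v hv
      by_cases hv' : v ∈ Fk q j
      · rw [tr_self hv', sub_self, norm_zero]
        have := (ep_pos (q := q) j).le
        linarith
      · have e2 := (hst j (tr j v) (tr_mem j v) (v j) (top_ne hv hv')).2
        rw [← split_top hv] at e2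
        linarith
    refine (Finset.sum_le_card_nsmul _ _ _ h3).trans ?_
    rw [nsmul_eq_mul]
    have := card_ep (q := q) j
    nlinarith
  refine BN.mono ?_ h2
  convert h1 using 2
  funext x
  rw [tr_tr (Nat.le_succ j)]

lemma BN_tail (hst : StepB φ h) (K : ℕ) :
    BN (ext ι (fun x => h x - h (tr K x))) (8 * (1 / 2) ^ K) := by
  have h1 : ∀ i : ℕ, BN (ext ι (fun x => h (tr (K + i + 1) x) - h (tr (K + i) x)))
      (4 * (1 / 2) ^ K * (1 / 2) ^ i) := by
    intro i
    refine (BN_incr ι hinj hst (K + i)).mono (le_of_eq ?_)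
    rw [pow_add]; ring
  have h2 := BN.tsum h1 (summable_geometric_two.mul_left _)
  rw [tsum_mul_left, tsum_geometric_two] at h2
  have e : 4 * (1 / 2 : ℝ) ^ K * 2 = 8 * (1 / 2) ^ K := by ring
  rw [e] at h2
  convert h2 using 1
  funext x
  rw [← ext_tsum ι hinj]
  congr 1
  funext n
  obtain ⟨J, hJ⟩ := exists_Fk n
  rw [tsum_eq_sum (s := range J)]
  · have e3 := Finset.sum_range_sub (fun i => h (tr (K + i) n)) J
    simp only [← add_assoc, add_zero] at e3
    rw [e3, tr_self (hJ (K + J) (Nat.le_add_left _ _))]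
  · intro i hi
    rw [Finset.mem_range, not_lt] at hi
    rw [tr_self (hJ _ (by omega)), tr_self (hJ _ (by omega)), sub_self]

lemma InA_phi (hst : StepB φ h) : InA ι φ := by
  refine ⟨fun x => φ x - h x, summableB hst, fun κ hκ => ?_⟩
  obtain ⟨K, hK⟩ := exists_pow_lt_of_lt_one (show 0 < κ / 8 by positivity)
    (show (1 / 2 : ℝ) < 1 by norm_num)
  refine ⟨K, h, ?_⟩
  have h1 := BN_tail ι hinj hst K
  have h2 : 8 * (1 / 2 : ℝ) ^ K ≤ κ := by linarith
  refine BN.mono ?_ h2
  convert h1 using 2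
  funext n
  ring

/-- decomposition when there is an embedded infinite elementary abelian group along which `f` is
controlled -/
theorem decompB (hq1 : 1 < q) {f : G → ℂ} {C : ℝ} (hf : BN f C)
    (hst : StepB (fun y => f (em ι y)) h) (B : Set (G → ℂ)) (hB : ∀ f, f ∈ B ↔ ∃ C, BN f C) :
    ∃ f₁ ∈ B, ∃ f₂ ∈ B,
        {z : ℂ | ¬ ∃ h ∈ B, ∀ g : G, (f₁ g - z) * h g = 1} = closure (Set.range f₁) ∧
        {z : ℂ | ¬ ∃ h ∈ B, ∀ g : G, (f₂ g - z) * h g = 1} = closure (Set.range f₂) ∧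
        f = f₁ + f₂ := by
  have hC := hf.nonneg
  set r : ℝ := C + 1 with hr
  have hr0 : 0 < r := by linarith
  set σ : Y q → ℂ := fun x => sg x - (1 + Complex.I) with hσ
  have hσA : InA ι σ := InA_sg ι hinj
  obtain ⟨Cσ, hCσ⟩ := BN_sg ι hinj
  have h1Y := BN_ext_one ι hinj
  have hout := (BN_one (G := G)).add h1Y.neg
  set ψ : Y q → ℂ := fun x => f (em ι x) - (r : ℂ) * σ x with hψ
  have hψA : InA ι ψ := (InA_phi ι hinj hst).sub_mul ι hinj hσA _
  have h0A : InA ι (fun _ => (0 : ℂ)) :=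
    ⟨fun _ => 0, by simpa using summable_zero, fun κ hκ => ⟨0, fun _ => 0, by
      have : BN (ext ι (fun _ : Y q => (0 : ℂ))) 0 := by
        have h0 := (BN.zero (G := G))
        convert h0 using 1
        funext x
        revert x
        refine ext_cases ι ?_ ?_
        · intro n; simp only [ext_apply ι hinj]
        · intro x hx; simp only [ext_out ι _ hx]
      simpa using this.mono hκ.le⟩⟩
  have hrσA : InA ι (fun x => (0 : ℂ) - (-(r : ℂ)) * σ x) := h0A.sub_mul ι hinj hσA _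
  set f₁ : G → ℂ := fun x => f x * (1 - ext ι (fun _ => (1 : ℂ)) x) + (r : ℂ) * ext ι σ x with hf₁
  set f₂ : G → ℂ := fun x => f x * ext ι (fun _ => (1 : ℂ)) x - (r : ℂ) * ext ι σ x with hf₂
  have hB1 : f₁ ∈ B := (hB _).mpr ⟨_, (hf.mul hout).add (hCσ.real_nonneg_mul hr0.le)⟩
  have hB2' := (hf.mul h1Y).add (hCσ.real_nonneg_mul hr0.le).neg
  have hB2 : f₂ ∈ B := by
    have e0 : f₂ = fun x => f x * ext ι (fun _ => (1 : ℂ)) x + -((r : ℂ) * ext ι σ x) := by
      funext x
      simp only [hf₂]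
      ring
    exact (hB _).mpr ⟨_, by rw [e0]; exact hB2'⟩
  have hf₁Y : ∀ n, f₁ (em ι n) = (r : ℂ) * σ n := fun n => by
    simp only [hf₁, ext_apply ι hinj]; ring
  have hf₂Y : ∀ n, f₂ (em ι n) = ψ n := fun n => by
    simp only [hf₂, hψ, ext_apply ι hinj]; ring
  refine ⟨f₁, hB1, f₂, hB2, ?_, ?_, ?_⟩
  · refine spec_eq B hB fun z hz => ?_
    have hzr : r < ‖z‖ := by
      by_contra hcon
      push Not at hcon
      apply hz
      rw [Metric.mem_closure_iff]
      intro ε hε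
      have h1 : ‖z / r‖ ≤ 1 := by
        rw [norm_div, Complex.norm_real, Real.norm_of_nonneg hr0.le]
        exact (div_le_one hr0).mpr hcon
      obtain ⟨x, hx⟩ := sg_dense (q := q) hq1 h1 (show 0 < ε / r by positivity)
      refine ⟨_, ⟨em ι x, rfl⟩, ?_⟩
      rw [dist_eq_norm, hf₁Y]
      have hrc : (r : ℂ) ≠ 0 := by exact_mod_cast hr0.ne'
      have e : z - (r : ℂ) * σ x = -((r : ℂ) * ((sg x - (1 + Complex.I)) - z / r)) := by
        simp only [hσ]
        field_simp
        ring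
      rw [e, norm_neg, norm_mul, Complex.norm_real, Real.norm_of_nonneg hr0.le]
      rw [lt_div_iff₀ hr0] at hx
      linarith
    obtain ⟨δ, hδ, hsep⟩ : ∃ δ : ℝ, 0 < δ ∧ ∀ x, δ ≤ ‖f₁ x - z‖ := by
      rw [Metric.mem_closure_iff] at hz
      push Not at hz
      obtain ⟨δ, hδ, h1⟩ := hz
      refine ⟨δ, hδ, fun x => ?_⟩
      have := h1 _ ⟨x, rfl⟩
      rwa [dist_comm, dist_eq_norm] at this
    obtain ⟨C1, hC1⟩ := natA ι hinj hrσA (lam := z) hδ (fun x => by
      have := hsep (em ι x)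
      rw [hf₁Y] at this
      have e : (0 : ℂ) - (-(r : ℂ)) * σ x - z = (r : ℂ) * σ x - z := by ring
      rw [e]
      exact this) hq1
    have hP := BN_inv_large (c := z) hf (by linarith)
    have hfin := (hout.mul hP).add hC1
    suffices e0 : (fun x => (f₁ x - z)⁻¹) = (fun x => (1 + -ext ι (fun _ => (1 : ℂ)) x) *
        (f x - z)⁻¹ + ext ι (fun x => ((0 : ℂ) - (-(r : ℂ)) * σ x - z)⁻¹) x) from
      ⟨_, by rw [e0]; exact hfin⟩
    funext x
    revert x
    refine ext_cases ι ?_ ?_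
    · intro n
      rw [hf₁Y]
      simp only [ext_apply ι hinj]
      rw [add_neg_cancel, zero_mul, zero_add]
      congr 1
      ring
    · intro x hx
      simp only [hf₁, ext_out ι _ hx]
      simp
  · refine spec_eq B hB fun z hz => ?_
    obtain ⟨δ, hδ, hsep⟩ : ∃ δ : ℝ, 0 < δ ∧ ∀ x, δ ≤ ‖f₂ x - z‖ := by
      rw [Metric.mem_closure_iff] at hz
      push Not at hz
      obtain ⟨δ, hδ, h1⟩ := hz
      refine ⟨δ, hδ, fun x => ?_⟩
      have := h1 _ ⟨x, rfl⟩
      rwa [dist_comm, dist_eq_norm] at this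
    obtain ⟨C1, hC1⟩ := natA ι hinj hψA (lam := z) hδ (fun x => by
      have := hsep (em ι x)
      rwa [hf₂Y] at this) hq1
    have hfin := (hout.mul (BN.const (G := G) ((0 - z)⁻¹))).add hC1
    suffices e0 : (fun x => (f₂ x - z)⁻¹) = (fun x => (1 + -ext ι (fun _ => (1 : ℂ)) x) *
        (0 - z)⁻¹ + ext ι (fun x => (ψ x - z)⁻¹) x) from
      ⟨_, by rw [e0]; exact hfin⟩
    funext x
    revert x
    refine ext_cases ι ?_ ?_
    · intro n
      rw [hf₂Y]
      simp only [ext_apply ι hinj]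
      rw [add_neg_cancel, zero_mul, zero_add]
    · intro x hx
      simp only [hf₂, ext_out ι _ hx]
      simp
  · funext x
    simp only [Pi.add_apply, hf₁, hf₂]
    ring

end step

end H697R3.NS2
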