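import Pool.Agent.H697R3.NS2C

set_option autoImplicit false

open scoped ComplexOrder ComplexConjugate InnerProductSpace
open Finset

noncomputable section

namespace H697R3.NS2

open H697R3.NS (PD BN BN_translate BN_one local_inv BN_inv_large spec_eq isCoef_iff)

section emb
variable {q : ℕ} [Fact q.Prime] {A : Type} [AddCommGroup A]

/-- state of the construction -/
def stB (q : ℕ) (γ : ℕ → Finset A → A) : ℕ → Finset A
  | 0 => {0}
  | k + 1 => by
    classical
    exact (stB q γ k ×ˢ range q).image (fun p => p.1 + p.2 • γ k (stB q γ k))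

lemma mem_stB (q : ℕ) (γ : ℕ → Finset A → A) (k : ℕ) {w : A} (hw : w ∈ stB q γ k) {m : ℕ}
    (hm : m < q) : w + m • γ k (stB q γ k) ∈ stB q γ (k + 1) := by
  classical
  simp only [stB]
  exact Finset.mem_image.mpr ⟨(w, m), Finset.mem_product.mpr ⟨hw, Finset.mem_range.mpr hm⟩, rfl⟩

lemma zmod_smul [Module (ZMod q) A] (c : ZMod q) (a : A) : c • a = c.val • a := by
  conv_lhs => rw [← ZMod.natCast_zmod_val c]
  rw [Nat.cast_smul_eq_nsmul]

lemma comb_mem [Module (ZMod q) A] (γ : ℕ → Finset A → A) (k : ℕ) : ∀ x : Y q, x ∈ Fk q k →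
    Finsupp.linearCombination (ZMod q) (fun k => γ k (stB q γ k)) x ∈ stB q γ k := by
  induction k with
  | zero =>
    intro x hx
    have : x = 0 := by
      ext i; exact mem_Fk.mp hx i (Nat.zero_le _)
    subst this
    simp [stB]
  | succ k ih =>
    intro x hx
    rw [split_top hx, map_add, Finsupp.linearCombination_single, zmod_smul]
    exact mem_stB q γ k (ih _ (tr_mem k x)) (ZMod.val_lt _)

lemma comb_inj [Module (ZMod q) A] (γ : ℕ → Finset A → A)
    (hγ : ∀ k, γ k (stB q γ k) ∉ stB q γ k) :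
    Function.Injective (Finsupp.linearCombination (ZMod q) (fun k => γ k (stB q γ k))) := by
  rw [injective_iff_map_eq_zero]
  intro x hx
  by_contra hne
  have hne' : x.support.Nonempty := by
    rw [Finset.nonempty_iff_ne_empty]
    intro h
    exact hne (Finsupp.support_eq_empty.mp h)
  set k := x.support.max' hne' with hk
  have hxk : x k ≠ 0 := Finsupp.mem_support_iff.mp (Finset.max'_mem _ _)
  have hxF : x ∈ Fk q (k + 1) := by
    rw [mem_Fk]
    intro i hi
    by_contra hi0
    have := Finset.le_max' _ i (Finsupp.mem_support_iff.mpr hi0)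
    omega
  rw [split_top hxF, map_add, Finsupp.linearCombination_single] at hx
  have h1 : γ k (stB q γ k) = Finsupp.linearCombination (ZMod q) (fun k => γ k (stB q γ k))
      ((x k)⁻¹ • (-(tr k x))) := by
    rw [map_smul, map_neg]
    have h2 : x k • γ k (stB q γ k) =
        -Finsupp.linearCombination (ZMod q) (fun k => γ k (stB q γ k)) (tr k x) := by
      rw [eq_neg_iff_add_eq_zero, add_comm]
      exact hx
    rw [← h2, smul_smul, inv_mul_cancel₀ hxk, one_smul]
  apply hγ k
  rw [h1]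
  apply comb_mem
  rw [mem_Fk]
  intro i hi
  rw [Finsupp.smul_apply, Finsupp.neg_apply, tr_apply, if_neg (by omega)]
  simp

lemma exists_emb [Module (ZMod q) A] (γ : ℕ → Finset A → A)
    (hγ : ∀ k, γ k (stB q γ k) ∉ stB q γ k) : ∃ ell : Y q →+ A, Function.Injective ell ∧
    (∀ k, ∀ x ∈ Fk q k, ell x ∈ stB q γ k) ∧ ∀ (k : ℕ) (w : Y q) (m : ZMod q),
      ell (w + Finsupp.single k m) = ell w + m.val • γ k (stB q γ k) := by
  refine ⟨(Finsupp.linearCombination (ZMod q) (fun k => γ k (stB q γ k))).toAddMonoidHom,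
    comb_inj γ hγ, fun k x hx => comb_mem γ k x hx, fun k w m => ?_⟩
  rw [map_add]
  congr 1
  change Finsupp.linearCombination (ZMod q) (fun k => γ k (stB q γ k)) (Finsupp.single k m) = _
  rw [Finsupp.linearCombination_single, zmod_smul]

end emb

/-- groups with an infinite elementary abelian subgroup -/
theorem caseB {G A : Type} [Group G] [AddCommGroup A] [Infinite A] {q : ℕ} (hq : q.Prime)
    (htor : ∀ a : A, q • a = 0) (ιA : Multiplicative A →* G) (hinjA : Function.Injective (em ιA))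
    (B : Set (G → ℂ))
    (hBd : B = {f : G → ℂ | ∃ (H : Type) (_ : NormedAddCommGroup H) (_ : InnerProductSpace ℂ H)
            (_ : CompleteSpace H) (π : G →* unitary (H →L[ℂ] H)) (ξ η : H),
            ∀ g : G, f g = inner ℂ η ((π g : H →L[ℂ] H) ξ)}) (f : G → ℂ) (hf : f ∈ B) :
    ∃ f₁ ∈ B, ∃ f₂ ∈ B,
        {z : ℂ | ¬ ∃ h ∈ B, ∀ g : G, (f₁ g - z) * h g = 1} = closure (Set.range f₁) ∧
        {z : ℂ | ¬ ∃ h ∈ B, ∀ g : G, (f₂ g - z) * h g = 1} = closure (Set.range f₂) ∧
        f = f₁ + f₂ := by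
  have hB' : ∀ f, f ∈ B ↔ ∃ C, BN f C := by
    intro f
    rw [hBd]
    exact isCoef_iff f
  have : Fact q.Prime := ⟨hq⟩
  have hq1 := hq.one_lt
  rw [hBd] at hf
  obtain ⟨H, i1, i2, i3, π, ξ, η, hfr⟩ := hf
  have hfBN : BN f (‖ξ‖ ^ 2 + ‖η‖ ^ 2) := by
    have := BN.coef π ξ η
    convert this using 1
    funext x; exact hfr x
  obtain ⟨h, hh, hrig⟩ := rigidB hq htor (π.comp ιA) ξ η
  have hfz : ∀ n : A, f (em ιA n) = ⟪η, Ua (π.comp ιA) n ξ⟫_ℂ := fun n => hfr _
  let γ : ℕ → Finset A → A := fun k W => Classical.choose (hrig W W (ep q k) (ep_pos k))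
  have hγ : ∀ k W, γ k W ∉ W ∧ ∀ w ∈ W, ∀ m : ℕ, 1 ≤ m → m < q →
      ‖⟪η, Ua (π.comp ιA) (w + m • γ k W) ξ⟫_ℂ - h w‖ < ep q k ∧
      ‖h (w + m • γ k W) - h w‖ < ep q k := fun k W =>
    Classical.choose_spec (hrig W W (ep q k) (ep_pos k))
  obtain ⟨ell, hinjell, hmem, hadd⟩ := @exists_emb q _ A _ (AddCommGroup.zmodModule htor) γ
    (fun k => (hγ k (stB q γ k)).1)
  let ι : Multiplicative (Y q) →* G := ιA.comp (AddMonoidHom.toMultiplicative ell)
  have hem : ∀ y, em ι y = em ιA (ell y) := fun y => rfl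
  have hinj : Function.Injective (em ι) := by
    intro x y hxy
    rw [hem, hem] at hxy
    exact hinjell (hinjA hxy)
  refine decompB ι hinj (h := fun y => h (ell y)) hq1 hfBN ?_ B hB'
  intro k w hw m hm
  have hmv : 1 ≤ m.val := by
    rw [Nat.one_le_iff_ne_zero]
    intro h0
    exact hm ((ZMod.val_eq_zero m).mp h0)
  have h1 := (hγ k (stB q γ k)).2 (ell w) (hmem k w hw) m.val hmv (ZMod.val_lt m)
  simp only
  rw [hem, hfz, hadd]
  exact h1

end H697R3.NS2
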