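import Pool.Agent.H697R3.NS2Riesz

set_option autoImplicit false

open scoped ComplexOrder ComplexConjugate InnerProductSpace
open Finset

noncomputable section

namespace H697R3.NS2

open H697R3.NS (PD BN kap kap_zero kap_pos BN_translate)

section steps
variable {A : Type} [AddCommGroup A]

open Classical in
/-- one step of the frequency sets -/
def stepW (M : ℕ) (g : A) (W : Finset A) : Finset A :=
  (W ×ˢ Finset.Icc (-(M : ℤ)) M).image fun p => p.1 + p.2 • g

lemma mem_stepW {M : ℕ} {g : A} {W : Finset A} {n : A} :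
    n ∈ stepW M g W ↔ ∃ w ∈ W, ∃ m : ℤ, |m| ≤ M ∧ n = w + m • g := by
  simp only [stepW, Finset.mem_image, Finset.mem_product, Finset.mem_Icc, Prod.exists]
  constructor
  · rintro ⟨w, m, ⟨hw, hm⟩, rfl⟩
    exact ⟨w, hw, m, abs_le.mpr hm, rfl⟩
  · rintro ⟨w, hw, m, hm, rfl⟩
    exact ⟨w, m, ⟨hw, abs_le.mp hm⟩, rfl⟩

lemma sub_stepW {M : ℕ} {g : A} {W : Finset A} : W ⊆ stepW M g W := fun w hw =>
  mem_stepW.mpr ⟨w, hw, 0, by simp, by simp⟩

lemma card_stepW {M : ℕ} {g : A} {W : Finset A} :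
    (stepW M g W).card ≤ W.card * (2 * M + 1) := by
  classical
  have h1 : (stepW M g W).card ≤ (W ×ˢ Finset.Icc (-(M : ℤ)) M).card := by
    unfold stepW
    exact Finset.card_image_le
  refine h1.trans ?_
  rw [Finset.card_product, Int.card_Icc]
  apply le_of_eq
  congr 1
  omega

/-- frequency sets from stage `K` on -/
def Wf (M : ℕ → ℕ) (g : ℕ → A) (K : ℕ) : ℕ → Finset A
  | 0 => {0}
  | j + 1 => stepW (M (K + j)) (g (K + j)) (Wf M g K j)

/-- recursion -/
def stU (M : ℕ → ℕ) (γ : ℕ → Finset A → A) : ℕ → Finset A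
  | 0 => {0}
  | k + 1 => stepW (M k) (γ k (stU M γ k)) (stU M γ k)

end steps

/-- parameters of a generalised Riesz product on an abelian group -/
structure Dat (A : Type) [AddCommGroup A] where
  M : ℕ → ℕ
  θ : ℕ → ℂ
  g : ℕ → A
  hM : ∀ k, 0 < M k
  hθ : ∀ k, ‖θ k‖ = 1
  diss : ∀ k, ∀ w ∈ Wf M g 0 k, ∀ w' ∈ Wf M g 0 k, ∀ m : ℤ, m ≠ 0 → |m| ≤ 2 * M k →
    w + m • g k ≠ w'

theorem exists_dat {A : Type} [AddCommGroup A] (M : ℕ → ℕ) (θ : ℕ → ℂ) (hM : ∀ k, 0 < M k)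
    (hθ : ∀ k, ‖θ k‖ = 1) (P : ℕ → Finset A → A → Prop)
    (hP : ∀ (k : ℕ) (W : Finset A), ∃ g : A, (∀ w ∈ W, ∀ w' ∈ W, ∀ m : ℤ, m ≠ 0 →
      |m| ≤ 2 * M k → w + m • g ≠ w') ∧ P k W g) :
    ∃ D : Dat A, D.M = M ∧ D.θ = θ ∧ ∀ k, P k (Wf D.M D.g 0 k) (D.g k) := by
  choose γ hγ using hP
  have hS : ∀ k, Wf M (fun k => γ k (stU M γ k)) 0 k = stU M γ k := by
    intro k
    induction k with
    | zero => rfl
    | succ k ih => simp only [Wf, stU, zero_add, ih]
  refine ⟨⟨M, θ, fun k => γ k (stU M γ k), hM, hθ, fun k => ?_⟩, rfl, rfl, fun k => ?_⟩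
  · rw [hS]; exact (hγ k _).1
  · change P k (Wf M (fun k => γ k (stU M γ k)) 0 k) _
    rw [hS]; exact (hγ k _).2

namespace Dat
variable {A : Type} [AddCommGroup A] (D : Dat A)

/-- frequency sets -/
def W (K j : ℕ) : Finset A := Wf D.M D.g K j

lemma W0 (K : ℕ) : D.W K 0 = {0} := rfl

lemma WS (K j : ℕ) : D.W K (j + 1) = stepW (D.M (K + j)) (D.g (K + j)) (D.W K j) := rfl

lemma W_mono (K : ℕ) {j j' : ℕ} (h : j ≤ j') : D.W K j ⊆ D.W K j' := by
  induction h with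
  | refl => exact fun _ h => h
  | step _ ih => exact ih.trans sub_stepW

lemma zero_mem (K j : ℕ) : (0 : A) ∈ D.W K j :=
  D.W_mono K (Nat.zero_le j) (by rw [W0]; simp)

lemma W_add (K i j : ℕ) {w t : A} (hw : w ∈ D.W K i) (ht : t ∈ D.W (K + i) j) :
    w + t ∈ D.W K (i + j) := by
  induction j generalizing t with
  | zero =>
    rw [W0, Finset.mem_singleton] at ht
    subst ht
    simpa using hw
  | succ j ih =>
    rw [WS] at ht
    obtain ⟨t1, ht1, m, hm, rfl⟩ := mem_stepW.mp ht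
    have e : K + (i + j) = K + i + j := by omega
    change _ ∈ D.W K ((i + j) + 1)
    rw [WS, e]
    exact mem_stepW.mpr ⟨w + t1, ih ht1, m, hm, by abel⟩

lemma W_split (K i j : ℕ) {n : A} (hn : n ∈ D.W K (i + j)) :
    ∃ w ∈ D.W K i, ∃ t ∈ D.W (K + i) j, n = w + t := by
  induction j generalizing n with
  | zero => exact ⟨n, hn, 0, by rw [W0]; simp, by simp⟩
  | succ j ih =>
    have hn' : n ∈ D.W K ((i + j) + 1) := hn
    have e : K + (i + j) = K + i + j := by omega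
    rw [WS, e] at hn'
    obtain ⟨n1, hn1, m, hm, rfl⟩ := mem_stepW.mp hn'
    obtain ⟨w, hw, t, ht, rfl⟩ := ih hn1
    refine ⟨w, hw, t + m • D.g (K + i + j), ?_, by abel⟩
    rw [WS]
    exact mem_stepW.mpr ⟨t, ht, m, hm, rfl⟩

lemma W_sub (K j : ℕ) : D.W K j ⊆ D.W 0 (K + j) := fun t ht => by
  have := D.W_add 0 K j (D.zero_mem 0 K) (t := t) (by rwa [zero_add])
  rwa [zero_add] at this

/-- partial products, starting at stage `K` -/
def N (K : ℕ) : ℕ → A → ℂ
  | 0 => by classical exact fun n => if n = 0 then 1 else 0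
  | j + 1 => Tst (D.M (K + j)) (D.θ (K + j)) (D.g (K + j)) (N K j)

lemma N_zero (K : ℕ) (n : A) [Decidable (n = 0)] : D.N K 0 n = if n = 0 then 1 else 0 := by
  simp only [N]
  split_ifs <;> rfl

lemma N_supp (K j : ℕ) {n : A} (h : D.N K j n ≠ 0) : n ∈ D.W K j := by
  classical
  induction j generalizing n with
  | zero =>
    rw [W0, Finset.mem_singleton]
    by_contra hn
    exact h (by rw [N_zero, if_neg hn])
  | succ j ih =>
    obtain ⟨w, m, hw, hm, rfl⟩ := Tst_supp h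
    rw [WS]
    exact mem_stepW.mpr ⟨w, ih hw, m, hm, rfl⟩

lemma N_eval (K j : ℕ) {w : A} (hw : w ∈ D.W K j) {m : ℤ} (hm : |m| ≤ D.M (K + j)) :
    D.N K (j + 1) (w + m • D.g (K + j)) =
      kap (D.M (K + j)) (D.θ (K + j)) m * D.N K j w :=
  Tst_eval (fun _ h => D.N_supp K j h)
    (fun w hw w' hw' m hm hm' => D.diss (K + j) w (D.W_sub K j hw) w' (D.W_sub K j hw') m hm hm')
    hw hm

lemma N_stab (K : ℕ) {j j' : ℕ} (hjj' : j ≤ j') {n : A} (hn : n ∈ D.W K j) :
    D.N K j' n = D.N K j n := by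
  induction hjj' with
  | refl => rfl
  | @step i hi ih =>
    have h1 := D.N_eval K i (w := n) (D.W_mono K hi hn) (m := 0) (by simp)
    rw [kap_zero (D.hM _) (D.hθ _), one_mul, zero_smul, add_zero] at h1
    rw [h1, ih]

/-- the frequencies of the tail product -/
def V (K : ℕ) : Set A := {n | ∃ j, n ∈ D.W K j}

open Classical in
/-- the infinite product -/
def nu (K : ℕ) (n : A) : ℂ := if h : ∃ j, n ∈ D.W K j then D.N K (Nat.find h) n else 0

lemma nu_eq (K j : ℕ) {n : A} (hn : n ∈ D.W K j) : D.nu K n = D.N K j n := by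
  classical
  have h : ∃ j, n ∈ D.W K j := ⟨j, hn⟩
  unfold nu
  rw [dif_pos h]
  exact (D.N_stab K (Nat.find_le hn) (Nat.find_spec h)).symm

lemma nu_V (K : ℕ) {n : A} (h : D.nu K n ≠ 0) : n ∈ D.V K := by
  by_contra hn
  apply h
  unfold nu
  exact dif_neg hn

lemma nu_zero (K : ℕ) : D.nu K 0 = 1 := by
  classical
  rw [D.nu_eq K 0 (D.zero_mem K 0), N_zero, if_pos rfl]

lemma uniq (K j : ℕ) {w w' t t' : A} (hw : w ∈ D.W 0 K) (hw' : w' ∈ D.W 0 K)
    (ht : t ∈ D.W K j) (ht' : t' ∈ D.W K j) (h : w + t = w' + t') : w = w' ∧ t = t' := by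
  induction j generalizing t t' with
  | zero =>
    rw [W0, Finset.mem_singleton] at ht ht'
    subst ht; subst ht'
    simpa using h
  | succ j ih =>
    rw [WS] at ht ht'
    obtain ⟨t1, ht1, m, hm, rfl⟩ := mem_stepW.mp ht
    obtain ⟨t1', ht1', m', hm', rfl⟩ := mem_stepW.mp ht'
    have hmem : w + t1 ∈ D.W 0 (K + j) := D.W_add 0 K j hw (by rwa [zero_add])
    have hmem' : w' + t1' ∈ D.W 0 (K + j) := D.W_add 0 K j hw' (by rwa [zero_add])
    have h2 : (w + t1) + (m - m') • D.g (K + j) = w' + t1' := by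
      have e : (w + t1) + (m - m') • D.g (K + j) =
          (w + (t1 + m • D.g (K + j))) - m' • D.g (K + j) := by
        rw [sub_smul]; abel
      rw [e, h]; abel
    have hmm : m = m' := by
      by_contra hne
      refine D.diss (K + j) _ hmem _ hmem' (m - m') (sub_ne_zero.mpr hne) ?_ h2
      rw [abs_le] at hm hm' ⊢
      constructor <;> linarith [hm.1, hm.2, hm'.1, hm'.2]
    subst hmm
    rw [sub_self, zero_smul, add_zero] at h2
    obtain ⟨h3, h4⟩ := ih ht1 ht1' h2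
    exact ⟨h3, by rw [h4]⟩

lemma N_fact (K j : ℕ) {w t : A} (hw : w ∈ D.W 0 K) (ht : t ∈ D.W K j) :
    D.N 0 (K + j) (w + t) = D.N 0 K w * D.N K j t := by
  classical
  induction j generalizing t with
  | zero =>
    rw [W0, Finset.mem_singleton] at ht
    subst ht
    rw [N_zero, if_pos rfl, mul_one, add_zero, add_zero]
  | succ j ih =>
    have ht2 := ht
    rw [WS] at ht
    obtain ⟨t1, ht1, m, hm, rfl⟩ := mem_stepW.mp ht
    have hmem : w + t1 ∈ D.W 0 (K + j) := D.W_add 0 K j hw (by rwa [zero_add])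
    have h1 := D.N_eval 0 (K + j) hmem (m := m) (by rwa [zero_add])
    simp only [zero_add] at h1
    have h2 := D.N_eval K j ht1 hm
    have e : w + (t1 + m • D.g (K + j)) = (w + t1) + m • D.g (K + j) := by abel
    rw [h2, e]
    change D.N 0 ((K + j) + 1) _ = _
    rw [h1, ih ht1]
    ring

lemma V_uniq (K : ℕ) {w w' t t' : A} (hw : w ∈ D.W 0 K) (hw' : w' ∈ D.W 0 K)
    (ht : t ∈ D.V K) (ht' : t' ∈ D.V K) (h : w + t = w' + t') : w = w' ∧ t = t' := by
  obtain ⟨j, hj⟩ := ht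
  obtain ⟨j', hj'⟩ := ht'
  exact D.uniq K (max j j') hw hw' (D.W_mono K (le_max_left _ _) hj)
    (D.W_mono K (le_max_right _ _) hj') h

lemma W_uniq (K : ℕ) {w w' : A} (hw : w ∈ D.W 0 K) (hw' : w' ∈ D.W 0 K) {n : A}
    (h : n - w ∈ D.V K) (h' : n - w' ∈ D.V K) : w = w' :=
  (D.V_uniq K hw hw' h h' (by abel)).1

lemma V_step (K i : ℕ) {v t : A} (hv : v ∈ D.W K i) (ht : t ∈ D.V (K + i)) : v + t ∈ D.V K := by
  obtain ⟨j, hj⟩ := ht
  exact ⟨i + j, D.W_add K i j hv hj⟩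

lemma nu_fact (K : ℕ) {w t : A} (hw : w ∈ D.W 0 K) (ht : t ∈ D.V K) :
    D.nu 0 (w + t) = D.nu 0 w * D.nu K t := by
  obtain ⟨j, hj⟩ := ht
  have hmem : w + t ∈ D.W 0 (K + j) := D.W_add 0 K j hw (by rwa [zero_add])
  rw [D.nu_eq 0 _ hmem, D.nu_eq 0 K hw, D.nu_eq K j hj]
  exact D.N_fact K j hw hj

lemma W_mod (K i : ℕ) {n : A} (h : n ∈ D.W 0 (K + i)) : ∃ w ∈ D.W 0 K, n - w ∈ D.V K := by
  obtain ⟨w, hw, t, ht, rfl⟩ := D.W_split 0 K i h
  rw [zero_add] at ht
  exact ⟨w, hw, i, by simpa using ht⟩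

lemma nu_mod (K : ℕ) {n : A} (h : D.nu 0 n ≠ 0) : ∃ w ∈ D.W 0 K, n - w ∈ D.V K := by
  obtain ⟨j, hj⟩ := D.nu_V 0 h
  exact D.W_mod K j (D.W_mono 0 (Nat.le_add_left _ _) hj)

lemma nu_fact' (K : ℕ) {w : A} (hw : w ∈ D.W 0 K) (n : A) [Decidable (n - w ∈ D.V K)] :
    (if n - w ∈ D.V K then D.nu 0 n else 0) = D.nu 0 w * D.nu K (n - w) := by
  split_ifs with h
  · have := D.nu_fact K hw h
    rwa [add_sub_cancel] at this
  · have : D.nu K (n - w) = 0 := by
      by_contra hne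
      exact h (D.nu_V K hne)
    rw [this, mul_zero]

lemma nu_eval (k : ℕ) {w : A} (hw : w ∈ D.W 0 k) {m : ℤ} (hm : |m| ≤ D.M k) :
    D.nu 0 (w + m • D.g k) = kap (D.M k) (D.θ k) m * D.nu 0 w := by
  have hmem : w + m • D.g k ∈ D.W 0 (k + 1) := by
    rw [WS, zero_add]
    exact mem_stepW.mpr ⟨w, hw, m, hm, rfl⟩
  rw [D.nu_eq 0 _ hmem, D.nu_eq 0 k hw]
  have := D.N_eval 0 k hw (m := m) (by rwa [zero_add])
  simpa using this

lemma smul_V (k : ℕ) {m : ℤ} (hm : |m| ≤ D.M k) : m • D.g k ∈ D.V k := by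
  refine ⟨1, ?_⟩
  rw [WS, add_zero]
  exact mem_stepW.mpr ⟨0, D.zero_mem k 0, m, hm, by simp⟩

section PDs
variable {G : Type} [Group G] (ι : Multiplicative A →* G) (hinj : Function.Injective (em ι))
include hinj

lemma PD_N (K j : ℕ) : PD (ext ι (D.N K j)) := by
  classical
  induction j with
  | zero =>
    have h := ext_ind ι hinj (⊥ : AddSubgroup A)
    convert h using 2
    funext n
    rw [N_zero]
    simp only [AddSubgroup.mem_bot]
  | succ j ih => exact PD_ext_Tst ι hinj _ _ ih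

lemma PD_nu (K : ℕ) : PD (ext ι (D.nu K)) := by
  refine PD.limit (l := Filter.atTop) (q := fun j => ext ι (D.N K j))
    (Filter.Eventually.of_forall fun j => D.PD_N ι hinj K j) ?_
  refine ext_cases ι ?_ ?_
  · intro n
    simp only [ext_apply ι hinj]
    by_cases hn : ∃ j, n ∈ D.W K j
    · obtain ⟨j0, hj0⟩ := hn
      refine tendsto_const_nhds.congr' ?_
      filter_upwards [Filter.eventually_ge_atTop j0] with j hj
      rw [D.nu_eq K j0 hj0, D.N_stab K hj hj0]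
    · have e : ∀ j, D.N K j n = D.nu K n := by
        intro j
        have h1 : D.N K j n = 0 := by
          by_contra hne
          exact hn ⟨j, D.N_supp K j hne⟩
        have h2 : D.nu K n = 0 := by
          by_contra hne
          exact hn (D.nu_V K hne)
        rw [h1, h2]
      simp only [e]
      exact tendsto_const_nhds
  · intro x hx
    simp only [ext_out ι _ hx]
    exact tendsto_const_nhds

lemma ext_nu_one (K : ℕ) : ext ι (D.nu K) 1 = 1 := by
  have := ext_apply ι hinj (D.nu K) 0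
  rw [em_zero] at this
  rw [this, D.nu_zero]

lemma nu_norm_le (K : ℕ) (n : A) : ‖D.nu K n‖ ≤ 1 := by
  have h := (D.PD_nu ι hinj K).norm_le (em ι n)
  rw [ext_apply ι hinj, D.ext_nu_one ι hinj] at h
  simpa using h

lemma BN_nu_translate (K : ℕ) (w : A) : BN (ext ι (fun n => D.nu K (n - w))) 2 := by
  have h := BN_translate (D.PD_nu ι hinj K) (em ι w)
  rw [D.ext_nu_one ι hinj] at h
  have e : (2 : ℝ) * (1 : ℂ).re = 2 := by simp
  rw [e] at h
  convert h using 1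
  funext x
  exact ext_translate ι hinj _ w x

lemma BN_nu_pow (K : ℕ) (w : A) (z : ℂ) (n : ℕ) :
    BN (fun x => (z * ext ι (fun n => D.nu K (n - w)) x) ^ n) (4 * ‖z‖ ^ n) := by
  have h := BN_translate ((D.PD_nu ι hinj K).pow n) (em ι w)
  have e : (2 : ℝ) * ((ext ι (D.nu K) 1) ^ n).re = 2 := by
    rw [D.ext_nu_one ι hinj]; simp
  rw [e] at h
  have h2 := h.cmul (z ^ n)
  have e2 : 2 * ‖z ^ n‖ * 2 = 4 * ‖z‖ ^ n := by rw [norm_pow]; ring
  rw [e2] at h2
  convert h2 using 1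
  funext x
  rw [mul_pow, ext_translate ι hinj]

end PDs

end Dat

end H697R3.NS2
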