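import Pool.Agent.H697R3.NS2Sum
import Pool.Agent.H697R3.NS2D

set_option autoImplicit false

open scoped ComplexOrder ComplexConjugate InnerProductSpace
open Finset

noncomputable section

namespace H697R3.NS2

open H697R3.NS (PD BN kap BN_translate CC CC_pos CC_succ eps eps_pos CC_eps eps_le disc_sep
  local_inv BN_inv_gen BN_inv_large spec_eq isCoef_iff exists_targets)

section caseU
variable {A : Type} [AddCommGroup A] {D : Dat A} {fz h : A → ℂ} {m : ℕ → ℕ}

/-- the targets are dense in the disc -/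
def Tg (D : Dat A) (m : ℕ → ℕ) : Prop := (∀ k, 0 < m k ∧ m k < D.M k) ∧
  ∀ z : ℂ, ‖z‖ ≤ 1 → ∀ ε : ℝ, 0 < ε → ∀ K : ℕ, ∃ k ≥ K, ‖kap (D.M k) (D.θ k) (m k) - z‖ < ε

lemma approx (hst : D.Step fz h) (hT : Tg D m)
    (hnu : ∀ n, ‖D.nu 0 n‖ ≤ 1) {K : ℕ} {w : A} (hw : w ∈ D.W 0 K) {z : ℂ} (hz : ‖z‖ ≤ 1)
    {ε : ℝ} (hε : 0 < ε) : ∃ n : A, ‖fz n - h w‖ < ε ∧ ‖D.nu 0 n - D.nu 0 w * z‖ < ε := by
  obtain ⟨K1, hK1⟩ := exists_pow_lt_of_lt_one hε (show (1 / 2 : ℝ) < 1 by norm_num)
  obtain ⟨k, hk, hkz⟩ := hT.2 z hz ε hε (max K K1)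
  obtain ⟨hm0, hmM⟩ := hT.1 k
  have hw' : w ∈ D.W 0 k := D.W_mono 0 ((le_max_left K K1).trans hk) hw
  have hm1 : ((m k : ℕ) : ℤ) ≠ 0 := by exact_mod_cast hm0.ne'
  have hm2 : |((m k : ℕ) : ℤ)| ≤ D.M k := by rw [Nat.abs_cast]; exact_mod_cast hmM.le
  refine ⟨w + (m k : ℤ) • D.g k, ?_, ?_⟩
  · refine lt_of_lt_of_le (hst k w hw' _ hm1 hm2).1 ?_
    refine (eps_le D.M k).trans (le_trans ?_ hK1.le)
    exact pow_le_pow_of_le_one (by norm_num) (by norm_num) ((le_max_right K K1).trans hk)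
  · rw [D.nu_eval k hw' hm2]
    have e : kap (D.M k) (D.θ k) (m k) * D.nu 0 w - D.nu 0 w * z =
        (kap (D.M k) (D.θ k) (m k) - z) * D.nu 0 w := by ring
    rw [e, norm_mul]
    calc _ ≤ ‖kap (D.M k) (D.θ k) (m k) - z‖ * 1 :=
          mul_le_mul_of_nonneg_left (hnu w) (norm_nonneg _)
      _ < ε := by rw [mul_one]; exact hkz

variable {G : Type} [Group G] (ι : Multiplicative A →* G) (hinj : Function.Injective (em ι))
include hinj

theorem inv_f1 (hst : D.Step fz h) (hT : Tg D m) {f : G → ℂ} {C : ℝ} (hf : BN f C)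
    (hfz : ∀ n : A, f (em ι n) = fz n) (hh : ∀ w, ‖h w‖ ≤ C) {r : ℝ} (hr : 2 * C < r) (z : ℂ)
    (hz : z ∉ closure (Set.range fun x => f x + (r : ℂ) * ext ι (D.nu 0) x)) :
    ∃ C', BN (fun x => (f x + (r : ℂ) * ext ι (D.nu 0) x - z)⁻¹) C' := by
  classical
  have hC := hf.nonneg
  have hr0 : 0 < r := by linarith
  have hnu := D.nu_norm_le ι hinj 0
  obtain ⟨δ, hδ, hsep⟩ : ∃ δ : ℝ, 0 < δ ∧ ∀ x, δ ≤ ‖f x + (r : ℂ) * ext ι (D.nu 0) x - z‖ := by
    rw [Metric.mem_closure_iff] at hz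
    push Not at hz
    obtain ⟨δ, hδ, h1⟩ := hz
    refine ⟨δ, hδ, fun x => ?_⟩
    have := h1 _ ⟨x, rfl⟩
    rwa [dist_comm, dist_eq_norm] at this
  have key : ∀ (K : ℕ) (w : A), w ∈ D.W 0 K → ‖(r : ℂ) * D.nu 0 w‖ + δ ≤ ‖z - h w‖ := by
    intro K w hw
    refine disc_sep hδ fun u hu => ?_
    refine le_of_forall_pos_le_add fun ε hε => ?_
    have hε' : 0 < ε / (1 + r) := by positivity
    obtain ⟨n, h1, h2⟩ := approx hst hT hnu hw hu hε'
    have h3 := hsep (em ι n)
    rw [ext_apply ι hinj, hfz] at h3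
    have e : fz n + (r : ℂ) * D.nu 0 n - z = ((r : ℂ) * D.nu 0 w * u - (z - h w)) +
        ((fz n - h w) + (r : ℂ) * (D.nu 0 n - D.nu 0 w * u)) := by ring
    rw [e] at h3
    have h4 := norm_add_le ((r : ℂ) * D.nu 0 w * u - (z - h w))
      ((fz n - h w) + (r : ℂ) * (D.nu 0 n - D.nu 0 w * u))
    have h5 := norm_add_le (fz n - h w) ((r : ℂ) * (D.nu 0 n - D.nu 0 w * u))
    rw [norm_mul, Complex.norm_real, Real.norm_of_nonneg hr0.le] at h5
    have h6 : r * ‖D.nu 0 n - D.nu 0 w * u‖ ≤ r * (ε / (1 + r)) :=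
      mul_le_mul_of_nonneg_left h2.le hr0.le
    have h7 : ε / (1 + r) + r * (ε / (1 + r)) = ε := by field_simp
    linarith
  have hzC : C < ‖z‖ := by
    have h1 := key 0 0 (D.zero_mem 0 0)
    rw [D.nu_zero, mul_one, Complex.norm_real, Real.norm_of_nonneg hr0.le] at h1
    have h2 := norm_sub_le z (h 0)
    have h3 := hh 0
    linarith
  set p0 : ℝ := 4 * (‖z‖ - C)⁻¹ with hp0
  have hp0' : 0 < p0 := by
    have : 0 < ‖z‖ - C := by linarith
    positivity
  have hP : BN (fun x => (f x - z)⁻¹) p0 := BN_inv_large hf hzC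
  obtain ⟨K, hK⟩ := exists_pow_lt_of_lt_one
    (show 0 < 1 / (2 * (8 * r * p0 * (16 / δ))) by positivity) (show (1 / 2 : ℝ) < 1 by norm_num)
  set Wk := D.W 0 K with hWk
  set P : G → ℂ := fun x => (f x - z)⁻¹ with hPd
  set V : G → ℂ := ext ι (D.nu 0) with hV
  -- local objects
  set Q : A → G → ℂ := fun w x => ((r : ℂ) * D.nu 0 w * ext ι (fun n => D.nu K (n - w)) x +
    (h w - z))⁻¹ with hQd
  set S : A → G → ℂ := fun w => ext ι (fun n => if n - w ∈ D.V K then
    D.nu 0 n * (h n - h w) else 0) with hSd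
  set T : A → G → ℂ := fun w x => (r : ℂ) * S w x * P x * Q w x with hTd
  have hQ : ∀ w ∈ Wk, BN (Q w) (16 / δ) := by
    intro w hw
    have hk := key K w hw
    rw [norm_sub_rev] at hk
    have := BN_inv_gen (c := h w - z) (norm_nonneg ((r : ℂ) * D.nu 0 w))
      (fun n => D.BN_nu_pow ι hinj K w ((r : ℂ) * D.nu 0 w) n) (by linarith)
    refine this.mono ?_
    have h2 : (‖h w - z‖ - ‖(r : ℂ) * D.nu 0 w‖)⁻¹ ≤ δ⁻¹ :=
      inv_anti₀ hδ (by linarith)
    rw [div_eq_mul_inv]
    linarith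
  have ht : ∀ w ∈ Wk, BN (T w) (1 / 2) := by
    intro w hw
    have h1 := (((Dat.BN_s ι hinj hst K hw).real_nonneg_mul hr0.le).mul hP).mul (hQ w hw)
    refine h1.mono ?_
    have h3 : 0 < 8 * r * p0 * (16 / δ) := by positivity
    have h4 := mul_le_mul_of_nonneg_right hK.le h3.le
    have h5 : r * (8 * (1 / 2) ^ K) * p0 * (16 / δ) =
        (1 / 2) ^ K * (8 * r * p0 * (16 / δ)) := by ring
    rw [h5]
    refine h4.trans (le_of_eq ?_)
    field_simp
  have hN : ∀ w ∈ Wk, BN (fun x => (1 - T w x)⁻¹) (1 * (1 - 1 / 2)⁻¹) := fun w hw =>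
    BN.neumann (f := T w) (A := 1) (ρ := 1 / 2) (by norm_num) (by norm_num)
      (fun n => by rw [one_mul]; exact (ht w hw).pow n)
  have hterm : ∀ w ∈ Wk, BN (fun x => (h w - z) * (P x * Q w x * (1 - T w x)⁻¹) + -P x)
      (2 * ‖h w - z‖ * (p0 * (16 / δ) * (1 * (1 - 1 / 2)⁻¹)) + p0) := fun w hw =>
    ((((hP.mul (hQ w hw)).mul (hN w hw)).cmul (h w - z)).add hP.neg)
  have hH := hP.add (BN.sum Wk hterm)
  have hne : ∀ w ∈ Wk, h w - z ≠ 0 := by
    intro w hw h0
    have h1 := key K w hw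
    have h2 : z - h w = 0 := by linear_combination -h0
    rw [h2, norm_zero] at h1
    have := norm_nonneg ((r : ℂ) * D.nu 0 w)
    linarith
  -- trivial value of a term
  have htriv : ∀ w ∈ Wk, ∀ x, ext ι (fun n => D.nu K (n - w)) x = 0 → S w x = 0 →
      (h w - z) * (P x * Q w x * (1 - T w x)⁻¹) + -P x = 0 := by
    intro w hw x h1 h2
    have h3 : Q w x = (h w - z)⁻¹ := by simp only [hQd]; rw [h1, mul_zero, zero_add]
    have h4 : T w x = 0 := by simp only [hTd]; rw [h2]; ring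
    rw [h3, h4, sub_zero, inv_one, mul_one]
    have := mul_inv_cancel₀ (hne w hw)
    linear_combination (P x) * this
  refine local_inv hH ?_
  have hsum : Summable fun x => ‖ext ι (fun n => D.nu 0 n * (fz n - h n)) x‖ :=
    ext_summable ι hinj (Dat.summable_alpha hst hnu)
  refine Summable.of_nonneg_of_le (fun x => norm_nonneg _) (fun x => ?_)
    (hsum.mul_left (r * (p0 * (16 / δ) * (1 * (1 - 1 / 2)⁻¹))))
  revert x
  refine ext_cases ι ?_ ?_
  · intro n
    have ha : f (em ι n) - z ≠ 0 := by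
      intro h0
      have h1 : f (em ι n) = z := by linear_combination h0
      have := hf.bound (em ι n)
      rw [h1] at this
      linarith
    by_cases hn : ∃ w ∈ Wk, n - w ∈ D.V K
    · obtain ⟨w, hw, hd⟩ := hn
      have hsumv : ∑ v ∈ Wk, ((h v - z) * (P (em ι n) * Q v (em ι n) *
          (1 - T v (em ι n))⁻¹) + -P (em ι n)) =
          (h w - z) * (P (em ι n) * Q w (em ι n) * (1 - T w (em ι n))⁻¹) + -P (em ι n) := by
        rw [Finset.sum_eq_single w]
        · intro v hv hvw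
          have hnv : n - v ∉ D.V K := fun hd' => hvw (D.W_uniq K hv hw hd' hd)
          refine htriv v hv _ ?_ ?_
          · rw [ext_apply ι hinj]
            by_contra hne0
            exact hnv (D.nu_V K hne0)
          · simp only [hSd, ext_apply ι hinj, if_neg hnv]
        · intro h; exact absurd hw h
      rw [hsumv]
      have hVn : V (em ι n) = D.nu 0 n := by rw [hV, ext_apply ι hinj]
      have hfact : D.nu 0 w * D.nu K (n - w) = D.nu 0 n := by
        have := D.nu_fact' K hw n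
        rw [if_pos hd] at this
        exact this.symm
      have hQn : Q w (em ι n) = ((r : ℂ) * D.nu 0 n + (h w - z))⁻¹ := by
        simp only [hQd, ext_apply ι hinj]
        rw [mul_assoc, hfact]
      have hSn : S w (em ι n) = D.nu 0 n * (h n - h w) := by
        simp only [hSd, ext_apply ι hinj, if_pos hd]
      have hb : (r : ℂ) * D.nu 0 n + (h w - z) ≠ 0 := by
        intro h0
        have h1 : z - h w = (r : ℂ) * D.nu 0 n := by linear_combination -h0
        have h2 := key K w hw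
        rw [h1, ← hfact, norm_mul, norm_mul, norm_mul] at h2
        have h3 := D.nu_norm_le ι hinj K (n - w)
        have h4 : 0 ≤ ‖(r : ℂ)‖ * ‖D.nu 0 w‖ := by positivity
        nlinarith
      have hT0 : 1 - T w (em ι n) ≠ 0 := by
        intro h0
        have h1 : T w (em ι n) = 1 := by linear_combination -h0
        have := (ht w hw).bound (em ι n)
        rw [h1] at this
        norm_num at this
      have hTn : T w (em ι n) = (r : ℂ) * (D.nu 0 n * (h n - h w)) * P (em ι n) *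
          Q w (em ι n) := by
        simp only [hTd]; rw [hSn]
      have hPa : (f (em ι n) - z) * P (em ι n) = 1 := mul_inv_cancel₀ ha
      have hQb : ((r : ℂ) * D.nu 0 n + (h w - z)) * Q w (em ι n) = 1 := by
        rw [hQn]; exact mul_inv_cancel₀ hb
      have hid : (f (em ι n) + (r : ℂ) * V (em ι n) - z) *
          (P (em ι n) + ((h w - z) * (P (em ι n) * Q w (em ι n) *
          (1 - T w (em ι n))⁻¹) + -P (em ι n))) - 1 =
          -((r : ℂ) * (D.nu 0 n * (fz n - h n)) *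
            (P (em ι n) * Q w (em ι n) * (1 - T w (em ι n))⁻¹)) := by
        rw [hVn]
        have e1 : (f (em ι n) + (r : ℂ) * D.nu 0 n - z) * ((h w - z) * P (em ι n) *
            Q w (em ι n)) = 1 - T w (em ι n) -
            (r : ℂ) * (D.nu 0 n * (fz n - h n)) * (P (em ι n) * Q w (em ι n)) := by
          rw [hTn]
          have hfn := hfz n
          rw [← hfn]
          linear_combination (((r : ℂ) * D.nu 0 n + (h w - z)) * Q w (em ι n)) * hPa + hQb
        have e2 := mul_inv_cancel₀ hT0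
        linear_combination ((1 - T w (em ι n))⁻¹) * e1 + e2
      rw [hid, norm_neg, norm_mul, norm_mul, Complex.norm_real, Real.norm_of_nonneg hr0.le,
        ext_apply ι hinj]
      have h1 := ((hP.mul (hQ w hw)).mul (hN w hw)).bound (em ι n)
      have h2 : r * ‖D.nu 0 n * (fz n - h n)‖ *
          ‖P (em ι n) * Q w (em ι n) * (1 - T w (em ι n))⁻¹‖ ≤
          r * ‖D.nu 0 n * (fz n - h n)‖ * (p0 * (16 / δ) * (1 * (1 - 1 / 2)⁻¹)) :=
        mul_le_mul_of_nonneg_left h1 (by positivity)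
      refine h2.trans (le_of_eq ?_)
      ring
    · push Not at hn
      have hV0 : D.nu 0 n = 0 := by
        by_contra hne0
        obtain ⟨w, hw, hd⟩ := D.nu_mod K hne0
        exact hn w hw hd
      have hsumv : ∑ v ∈ Wk, ((h v - z) * (P (em ι n) * Q v (em ι n) *
          (1 - T v (em ι n))⁻¹) + -P (em ι n)) = 0 := by
        refine Finset.sum_eq_zero fun v hv => htriv v hv _ ?_ ?_
        · rw [ext_apply ι hinj]
          by_contra hne0
          exact hn v hv (D.nu_V K hne0)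
        · simp only [hSd, ext_apply ι hinj, if_neg (hn v hv)]
      have hVn : V (em ι n) = 0 := by rw [hV, ext_apply ι hinj, hV0]
      rw [hsumv, hVn, add_zero, mul_zero, add_zero]
      have hPa : (f (em ι n) - z) * P (em ι n) = 1 := mul_inv_cancel₀ ha
      rw [hPa, sub_self, norm_zero]
      have : 0 < 16 / δ := by positivity
      positivity
  · intro x hx
    have ha : f x - z ≠ 0 := by
      intro h0
      have h1 : f x = z := by linear_combination h0
      have := hf.bound x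
      rw [h1] at this
      linarith
    have hsumv : ∑ v ∈ Wk, ((h v - z) * (P x * Q v x * (1 - T v x)⁻¹) + -P x) = 0 := by
      refine Finset.sum_eq_zero fun v hv => htriv v hv _ (ext_out ι _ hx) ?_
      simp only [hSd, ext_out ι _ hx]
    have hVn : V x = 0 := by rw [hV, ext_out ι _ hx]
    rw [hsumv, hVn, add_zero, mul_zero, add_zero]
    have hPa : (f x - z) * P x = 1 := mul_inv_cancel₀ ha
    rw [hPa, sub_self, norm_zero]
    have : 0 < 16 / δ := by positivity
    positivity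

end caseU

/-- groups containing an infinite abelian group with finite `n`-torsion for all `n` -/
theorem caseU {G A : Type} [Group G] [AddCommGroup A] [Infinite A]
    (hfin : ∀ n : ℕ, 0 < n → {a : A | n • a = 0}.Finite)
    (ι : Multiplicative A →* G) (hinj : Function.Injective (em ι))
    (B : Set (G → ℂ))
    (hBd : B = {f : G → ℂ | ∃ (H : Type) (_ : NormedAddCommGroup H) (_ : InnerProductSpace ℂ H)
            (_ : CompleteSpace H) (π : G →* unitary (H →L[ℂ] H)) (ξ η : H),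
            ∀ g : G, f g = inner ℂ η ((π g : H →L[ℂ] H) ξ)}) (f : G → ℂ) (hf : f ∈ B) :
    ∃ f₁ ∈ B, ∃ f₂ ∈ B,
        {z : ℂ | ¬ ∃ h ∈ B, ∀ g : G, (f₁ g - z) * h g = 1} = closure (Set.range f₁) ∧
        {z : ℂ | ¬ ∃ h ∈ B, ∀ g : G, (f₂ g - z) * h g = 1} = closure (Set.range f₂) ∧
        f = f₁ + f₂ := by
  have hB' : ∀ f, f ∈ B ↔ ∃ C, BN f C := by
    intro f
    rw [hBd]
    exact isCoef_iff f
  rw [hBd] at hf
  obtain ⟨H, i1, i2, i3, π, ξ, η, hfr⟩ := hf
  set C : ℝ := ‖ξ‖ ^ 2 + ‖η‖ ^ 2 with hCd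
  have hfBN : BN f C := by
    have := BN.coef π ξ η
    convert this using 1
    funext x; exact hfr x
  obtain ⟨h, hh, hrig⟩ := rigidU hfin (π.comp ι) ξ η
  set fz : A → ℂ := fun n => ⟪η, Ua (π.comp ι) n ξ⟫_ℂ with hfzd
  have hfz : ∀ n : A, f (em ι n) = fz n := fun n => hfr _
  have hhC : ∀ w, ‖h w‖ ≤ C := by
    intro w
    refine (hh w).trans ?_
    rw [hCd]
    nlinarith [sq_nonneg (‖ξ‖ - ‖η‖), norm_nonneg ξ, norm_nonneg η]
  obtain ⟨M, m, θ, hM, hθ, hmM, hdense⟩ := exists_targets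
  obtain ⟨D, rfl, rfl, hst⟩ := exists_dat (A := A) M θ hM hθ
    (fun k W g => ∀ w ∈ W, ∀ m : ℤ, m ≠ 0 → |m| ≤ M k →
      ‖fz (w + m • g) - h w‖ < eps M k ∧ ‖h (w + m • g) - h w‖ < eps M k)
    (fun k W => by
      classical
      obtain ⟨g, h1, h2⟩ := hrig W ((W ×ˢ W).image fun p => p.1 - p.2) (2 * M k) (eps M k)
        (eps_pos M k)
      refine ⟨g, ?_, ?_⟩
      · intro w hw w' hw' m hm0 hmM hww
        refine h1 m hm0 (by exact_mod_cast hmM) ?_
        rw [Finset.mem_image]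
        exact ⟨(w', w), Finset.mem_product.mpr ⟨hw', hw⟩, by
          simp only; rw [← hww]; abel⟩
      · intro w hw m hm0 hmM
        exact h2 w hw m hm0 (by
          have : (M k : ℤ) ≤ ((2 * M k : ℕ) : ℤ) := by push_cast; linarith
          exact hmM.trans this))
  have hstep : D.Step fz h := hst
  have hT : Tg D m := ⟨hmM, hdense⟩
  have hnu := D.nu_norm_le ι hinj 0
  have hC0 := hfBN.nonneg
  set r : ℝ := 2 * C + 1 with hr
  have hr0 : 0 < r := by linarith
  have hV : BN (fun x => (r : ℂ) * ext ι (D.nu 0) x) r := by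
    have h1 := BN.of_PD (D.PD_nu ι hinj 0)
    rw [D.ext_nu_one ι hinj] at h1
    have := h1.real_nonneg_mul hr0.le
    simpa using this
  refine ⟨fun x => f x + (r : ℂ) * ext ι (D.nu 0) x, (hB' _).mpr ⟨_, hfBN.add hV⟩,
    fun x => -((r : ℂ) * ext ι (D.nu 0) x), (hB' _).mpr ⟨_, hV.neg⟩, ?_, ?_, ?_⟩
  · exact spec_eq B hB' fun z hz => inv_f1 ι hinj hstep hT hfBN hfz hhC (by rw [hr]; linarith) z hz
  · refine spec_eq B hB' fun z hz => ?_
    have hzr : r < ‖z‖ := by
      by_contra hcon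
      push Not at hcon
      apply hz
      rw [Metric.mem_closure_iff]
      intro ε hε
      have h1 : ‖-z / r‖ ≤ 1 := by
        rw [norm_div, norm_neg, Complex.norm_real, Real.norm_of_nonneg hr0.le]
        exact (div_le_one hr0).mpr hcon
      obtain ⟨n, -, hn⟩ := approx hstep hT hnu (K := 0) (w := 0) (D.zero_mem 0 0) h1
        (show 0 < ε / r by positivity)
      refine ⟨_, ⟨em ι n, rfl⟩, ?_⟩
      rw [dist_eq_norm]
      simp only [ext_apply ι hinj]
      rw [D.nu_zero, one_mul] at hn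
      have hrc : (r : ℂ) ≠ 0 := by exact_mod_cast hr0.ne'
      have e : z - -((r : ℂ) * D.nu 0 n) = (r : ℂ) * (D.nu 0 n - -z / r) := by
        field_simp
        ring
      rw [e, norm_mul, Complex.norm_real, Real.norm_of_nonneg hr0.le]
      rw [lt_div_iff₀ hr0] at hn
      linarith
    exact ⟨_, BN_inv_large hV.neg hzr⟩
  · funext x
    simp only [Pi.add_apply]
    ring

end H697R3.NS2
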