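import Pool.Agent.H697R3.NS2Final

set_option autoImplicit false

open scoped ComplexOrder ComplexConjugate InnerProductSpace
open Finset

noncomputable section

namespace H697R3.NS2

open H697R3.NS (PD BN BN_summable spec_eq isCoef_iff)

/-- some prime has infinite torsion -/
lemma exists_prime_torsion {A : Type} [AddCommGroup A]
    (h : ¬ ∀ n : ℕ, 0 < n → {a : A | n • a = 0}.Finite) :
    ∃ q : ℕ, q.Prime ∧ {a : A | q • a = 0}.Infinite := by
  classical
  push Not at h
  have h' : ∃ n : ℕ, 0 < n ∧ {a : A | n • a = 0}.Infinite := h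
  set n := Nat.find h' with hn
  obtain ⟨hn0, hninf⟩ := Nat.find_spec h'
  have hmin : ∀ m, m < n → 0 < m → {a : A | m • a = 0}.Finite := by
    intro m hm hm0
    by_contra hcon
    exact Nat.find_min h' hm ⟨hm0, hcon⟩
  have hn1 : n ≠ 1 := by
    intro h1
    apply hninf
    rw [← hn, h1]
    have : {a : A | 1 • a = 0} = {0} := by
      ext a; simp
    rw [this]
    exact Set.finite_singleton 0
  obtain ⟨q, hq, m, hm⟩ := Nat.exists_prime_and_dvd hn1
  refine ⟨q, hq, fun hfin => ?_⟩
  have hm0 : 0 < m := by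
    rcases Nat.eq_zero_or_pos m with h0 | h0
    · rw [h0, mul_zero] at hm
      have : 0 < n := hn0
      omega
    · exact h0
  have hmn : m < n := by
    rw [hm]
    have := hq.one_lt
    nlinarith
  have hfm := hmin m hmn hm0
  apply hninf
  refine (hfin.biUnion (fun r _ => fin_fiber hfm r)).subset ?_
  intro a ha
  rw [Set.mem_iUnion₂]
  refine ⟨m • a, ?_, rfl⟩
  change q • (m • a) = 0
  rw [← mul_smul, ← hm]
  exact ha

/-- the `q`-torsion subgroup -/
def tors (A : Type) [AddCommGroup A] (q : ℕ) : AddSubgroup A where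
  carrier := {a | q • a = 0}
  zero_mem' := smul_zero q
  add_mem' := fun {a b} ha hb => by
    change q • (a + b) = 0
    have ha' : q • a = 0 := ha
    have hb' : q • b = 0 := hb
    rw [smul_add, ha', hb', add_zero]
  neg_mem' := fun {a} ha => by
    change q • (-a) = 0
    have ha' : q • a = 0 := ha
    rw [smul_neg, ha', neg_zero]

theorem main_abelian {G A : Type} [Group G] [AddCommGroup A] [Infinite A]
    (ι : Multiplicative A →* G) (hinj : Function.Injective (em ι))
    (B : Set (G → ℂ))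
    (hBd : B = {f : G → ℂ | ∃ (H : Type) (_ : NormedAddCommGroup H) (_ : InnerProductSpace ℂ H)
            (_ : CompleteSpace H) (π : G →* unitary (H →L[ℂ] H)) (ξ η : H),
            ∀ g : G, f g = inner ℂ η ((π g : H →L[ℂ] H) ξ)}) (f : G → ℂ) (hf : f ∈ B) :
    ∃ f₁ ∈ B, ∃ f₂ ∈ B,
        {z : ℂ | ¬ ∃ h ∈ B, ∀ g : G, (f₁ g - z) * h g = 1} = closure (Set.range f₁) ∧
        {z : ℂ | ¬ ∃ h ∈ B, ∀ g : G, (f₂ g - z) * h g = 1} = closure (Set.range f₂) ∧
        f = f₁ + f₂ := by
  by_cases hfin : ∀ n : ℕ, 0 < n → {a : A | n • a = 0}.Finite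
  · exact caseU hfin ι hinj B hBd f hf
  · obtain ⟨q, hq, hinf⟩ := exists_prime_torsion hfin
    have : Infinite (tors A q) := hinf.to_subtype
    let ι' : Multiplicative (tors A q) →* G :=
      ι.comp (AddMonoidHom.toMultiplicative (tors A q).subtype)
    have hem : ∀ a : tors A q, em ι' a = em ι (a : A) := fun _ => rfl
    refine caseB (A := tors A q) hq (fun a => Subtype.ext a.2) ι' ?_ B hBd f hf
    intro a b hab
    rw [hem, hem] at hab
    exact Subtype.ext (hinj hab)

theorem main_finite {G : Type} [Group G] [Finite G] (B : Set (G → ℂ))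
    (hB : ∀ f, f ∈ B ↔ ∃ C, BN f C) (F : G → ℂ) :
    {z : ℂ | ¬ ∃ h ∈ B, ∀ g : G, (F g - z) * h g = 1} = closure (Set.range F) := by
  refine spec_eq B hB fun z _ => ?_
  exact ⟨_, BN_summable (Summable.of_finite)⟩

theorem main {G : Type} [Group G]
    (hG : Finite G ∨ ∃ A : Subgroup G, Infinite A ∧ ∀ x ∈ A, ∀ y ∈ A, x * y = y * x)
    (B : Set (G → ℂ))
    (hBd : B = {f : G → ℂ | ∃ (H : Type) (_ : NormedAddCommGroup H) (_ : InnerProductSpace ℂ H)
            (_ : CompleteSpace H) (π : G →* unitary (H →L[ℂ] H)) (ξ η : H),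
            ∀ g : G, f g = inner ℂ η ((π g : H →L[ℂ] H) ξ)}) (f : G → ℂ) (hf : f ∈ B) :
    ∃ f₁ ∈ B, ∃ f₂ ∈ B,
        {z : ℂ | ¬ ∃ h ∈ B, ∀ g : G, (f₁ g - z) * h g = 1} = closure (Set.range f₁) ∧
        {z : ℂ | ¬ ∃ h ∈ B, ∀ g : G, (f₂ g - z) * h g = 1} = closure (Set.range f₂) ∧
        f = f₁ + f₂ := by
  have hB : ∀ f, f ∈ B ↔ ∃ C, BN f C := by
    intro f
    rw [hBd]
    exact isCoef_iff f
  rcases hG with hfin | ⟨S, hS, hcomm⟩
  · refine ⟨f, hf, fun _ => 0, (hB _).mpr ⟨0, BN.zero⟩, main_finite B hB _, main_finite B hB _, ?_⟩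
    funext x
    simp
  · let _ : CommGroup S :=
      { (inferInstance : Group S) with
        mul_comm := fun a b => Subtype.ext (hcomm a a.2 b b.2) }
    let ι : Multiplicative (Additive S) →* G :=
      { toFun := fun a => ((Additive.toMul (Multiplicative.toAdd a) : S) : G)
        map_one' := rfl
        map_mul' := fun _ _ => rfl }
    have : Infinite (Additive S) := hS
    refine main_abelian (A := Additive S) ι ?_ B hBd f hf
    intro a b hab
    have h1 : ((Additive.toMul a : S) : G) = ((Additive.toMul b : S) : G) := hab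
    exact Additive.toMul.injective (Subtype.ext h1)

end H697R3.NS2
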