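import Pool.Agent.H697R3.NSLoc

set_option autoImplicit false

open scoped ComplexOrder ComplexConjugate InnerProductSpace
open Finset

noncomputable section

namespace H697R3.NS2

open H697R3.NS (PD BN kap kap_zero kap_pos BN_translate)

variable {A : Type} [AddCommGroup A]

/-! ### one step of the Riesz product -/

/-- Fejer step -/
def Tst (M : ℕ) (θ : ℂ) (g : A) (q : A → ℂ) : A → ℂ := fun n =>
  ((1 / M : ℝ) : ℂ) * ∑ a ∈ range M, ∑ b ∈ range M,
    star ((conj θ) ^ a) * (conj θ) ^ b * q (-(a • g) + n + b • g)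

lemma Tst_eval {M : ℕ} {θ : ℂ} {g : A} {q : A → ℂ} {W : Finset A}
    (hq : ∀ n : A, q n ≠ 0 → n ∈ W)
    (hd : ∀ w ∈ W, ∀ w' ∈ W, ∀ m : ℤ, m ≠ 0 → |m| ≤ 2 * M → w + m • g ≠ w')
    {w : A} (hw : w ∈ W) {m : ℤ} (hm : |m| ≤ M) :
    Tst M θ g q (w + m • g) = kap M θ m * q w := by
  unfold Tst kap
  rw [mul_assoc]
  congr 1
  rw [Finset.sum_mul]
  refine Finset.sum_congr rfl fun a ha => ?_
  rw [Finset.sum_mul]
  refine Finset.sum_congr rfl fun b hb => ?_
  rw [Finset.mem_range] at ha hb
  have e : -(a • g) + (w + m • g) + b • g = w + (m - a + b) • g := by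
    rw [add_smul, sub_smul]
    simp only [natCast_zsmul]
    abel
  rw [e]
  by_cases h : m - a + b = 0
  · rw [if_pos h, mul_one, h, zero_smul, add_zero]
  · rw [if_neg h, mul_zero, zero_mul]
    have : q (w + (m - a + b) • g) = 0 := by
      by_contra hne
      refine hd w hw _ (hq _ hne) (m - a + b) h ?_ rfl
      rw [abs_le] at hm ⊢
      constructor <;> omega
    rw [this, mul_zero]

lemma Tst_supp {M : ℕ} {θ : ℂ} {g : A} {q : A → ℂ} {n : A} (h : Tst M θ g q n ≠ 0) :
    ∃ (w : A) (m : ℤ), q w ≠ 0 ∧ |m| ≤ M ∧ n = w + m • g := by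
  unfold Tst at h
  have h1 := right_ne_zero_of_mul h
  obtain ⟨a, ha, h2⟩ := Finset.exists_ne_zero_of_sum_ne_zero h1
  obtain ⟨b, hb, h3⟩ := Finset.exists_ne_zero_of_sum_ne_zero h2
  refine ⟨-(a • g) + n + b • g, (a : ℤ) - b, right_ne_zero_of_mul h3, ?_, ?_⟩
  · rw [Finset.mem_range] at ha hb
    rw [abs_le]
    constructor <;> omega
  · rw [sub_smul]
    simp only [natCast_zsmul]
    abel

/-! ### extension from `A` to `G` -/

section ext
variable {G : Type} [Group G] (ι : Multiplicative A →* G)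

/-- the embedding, additively -/
def em (a : A) : G := ι (Multiplicative.ofAdd a)

lemma em_add (a b : A) : em ι (a + b) = em ι a * em ι b := by
  unfold em; rw [ofAdd_add, map_mul]

lemma em_zero : em ι (0 : A) = 1 := by
  unfold em; rw [ofAdd_zero, map_one]

lemma em_neg (a : A) : em ι (-a) = (em ι a)⁻¹ := by
  unfold em; rw [ofAdd_neg, map_inv]

open Classical in
/-- extension by zero of a function on `A` -/
def ext (q : A → ℂ) : G → ℂ := fun x =>
  if h : ∃ n : A, em ι n = x then q (Classical.choose h) else 0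

lemma ext_out (q : A → ℂ) {x : G} (hx : ¬ ∃ n : A, em ι n = x) : ext ι q x = 0 := by
  unfold ext; rw [dif_neg hx]

lemma ext_cases {P : G → Prop} (h1 : ∀ n : A, P (em ι n))
    (h2 : ∀ x, (¬ ∃ n : A, em ι n = x) → P x) (x : G) : P x := by
  by_cases hx : ∃ n : A, em ι n = x
  · obtain ⟨n, rfl⟩ := hx; exact h1 n
  · exact h2 x hx

variable (hinj : Function.Injective (em ι))

include hinj

lemma ext_apply (q : A → ℂ) (n : A) : ext ι q (em ι n) = q n := by
  unfold ext
  have h : ∃ m : A, em ι m = em ι n := ⟨n, rfl⟩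
  rw [dif_pos h]
  congr 1
  exact hinj (Classical.choose_spec h)

lemma PD_ext_Tst {M : ℕ} (θ : ℂ) (g : A) {q : A → ℂ} (hq : PD (ext ι q)) :
    PD (ext ι (Tst M θ g q)) := by
  have h := (hq.conv (range M) (fun a => (conj θ) ^ a) (fun a => em ι (a • g))).const
    (r := 1 / M) (by positivity)
  convert h using 1
  funext x
  refine ext_cases ι (P := fun x => ext ι (Tst M θ g q) x = ((1 / M : ℝ) : ℂ) *
    ∑ a ∈ range M, ∑ b ∈ range M, star ((conj θ) ^ a) * (conj θ) ^ b *
      ext ι q ((em ι (a • g))⁻¹ * x * em ι (b • g))) ?_ ?_ x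
  · intro n
    rw [ext_apply ι hinj]
    unfold Tst
    congr 1
    refine Finset.sum_congr rfl fun a _ => Finset.sum_congr rfl fun b _ => ?_
    have : (em ι (a • g))⁻¹ * em ι n * em ι (b • g) = em ι (-(a • g) + n + b • g) := by
      rw [em_add, em_add, em_neg]
    rw [this, ext_apply ι hinj]
  · intro x hx
    rw [ext_out ι _ hx]
    symm
    rw [Finset.sum_eq_zero, mul_zero]
    intro a _
    refine Finset.sum_eq_zero fun b _ => ?_
    rw [ext_out ι q, mul_zero]
    rintro ⟨n, hn⟩
    apply hx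
    refine ⟨a • g + n - b • g, ?_⟩
    rw [sub_eq_add_neg, em_add, em_neg, em_add, hn]
    group

lemma ext_ind (S : AddSubgroup A) [DecidablePred (· ∈ S)] :
    PD (ext ι (fun n => if n ∈ S then (1 : ℂ) else 0)) := by
  classical
  have h := PD.subgroup (G := G) ((AddSubgroup.toSubgroup S).map ι)
  convert h using 1
  funext x
  refine ext_cases ι (P := fun x => ext ι (fun n => if n ∈ S then (1 : ℂ) else 0) x =
    if x ∈ (AddSubgroup.toSubgroup S).map ι then (1 : ℂ) else 0) ?_ ?_ x
  · intro n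
    rw [ext_apply ι hinj]
    have : n ∈ S ↔ em ι n ∈ (AddSubgroup.toSubgroup S).map ι := by
      rw [Subgroup.mem_map]
      constructor
      · intro hn
        exact ⟨Multiplicative.ofAdd n, hn, rfl⟩
      · rintro ⟨y, hy, hyn⟩
        have : Multiplicative.toAdd y = n := hinj hyn
        rw [← this]
        exact hy
    simp only [this]
  · intro x hx
    rw [ext_out ι _ hx, if_neg]
    rw [Subgroup.mem_map]
    rintro ⟨y, -, rfl⟩
    exact hx ⟨Multiplicative.toAdd y, rfl⟩

lemma ext_translate (q : A → ℂ) (w : A) (x : G) :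
    ext ι (fun n => q (n - w)) x = ext ι q ((em ι w)⁻¹ * x) := by
  revert x
  refine ext_cases ι ?_ ?_
  · intro n
    have : (em ι w)⁻¹ * em ι n = em ι (n - w) := by
      rw [← em_neg, ← em_add]; congr 1; abel
    rw [this, ext_apply ι hinj, ext_apply ι hinj]
  · intro x hx
    rw [ext_out ι _ hx, ext_out]
    rintro ⟨n, hn⟩
    apply hx
    refine ⟨w + n, ?_⟩
    rw [em_add, hn]
    group

lemma ext_sum {κ : Type} (s : Finset κ) (q : κ → A → ℂ) (x : G) :
    ext ι (fun n => ∑ i ∈ s, q i n) x = ∑ i ∈ s, ext ι (q i) x := by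
  revert x
  refine ext_cases ι ?_ ?_
  · intro n
    simp only [ext_apply ι hinj]
  · intro x hx
    simp only [ext_out ι _ hx, Finset.sum_const_zero]

lemma ext_mul_left (c : ℂ) (q : A → ℂ) (x : G) :
    ext ι (fun n => c * q n) x = c * ext ι q x := by
  revert x
  refine ext_cases ι ?_ ?_
  · intro n
    simp only [ext_apply ι hinj]
  · intro x hx
    simp only [ext_out ι _ hx, mul_zero]

lemma ext_tsum {κ : Type} (q : κ → A → ℂ) (x : G) :
    ext ι (fun n => ∑' i, q i n) x = ∑' i, ext ι (q i) x := by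
  revert x
  refine ext_cases ι ?_ ?_
  · intro n
    simp only [ext_apply ι hinj]
  · intro x hx
    simp only [ext_out ι _ hx, tsum_zero]

lemma ext_summable {a : A → ℂ} (h1 : Summable fun n => ‖a n‖) :
    Summable fun x => ‖ext ι a x‖ := by
  have h2 : Summable ((fun x => ‖ext ι a x‖) ∘ em ι) := by
    refine h1.congr fun n => ?_
    simp only [Function.comp_apply, ext_apply ι hinj]
  refine (hinj.summable_iff ?_).mp h2
  intro x hx
  have hx' : ¬ ∃ n : A, em ι n = x := fun ⟨n, hn⟩ => hx ⟨n, hn⟩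
  simp only [ext_out ι _ hx', norm_zero]

/-- indicator of a coset -/
lemma BN_coset (S : AddSubgroup A) [DecidablePred (· ∈ S)] (w : A) :
    BN (ext ι (fun n => if n - w ∈ S then (1 : ℂ) else 0)) 2 := by
  have h := BN_translate (ext_ind ι hinj S) (em ι w)
  have h1 : ext ι (fun n => if n ∈ S then (1 : ℂ) else 0) 1 = 1 := by
    have := ext_apply ι hinj (fun n => if n ∈ S then (1 : ℂ) else 0) 0
    rw [em_zero] at this
    rw [this, if_pos S.zero_mem]
  rw [h1] at h
  have e : (2 : ℝ) * (1 : ℂ).re = 2 := by simp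
  rw [e] at h
  convert h using 1
  funext x
  exact ext_translate ι hinj (fun n => if n ∈ S then (1 : ℂ) else 0) w x

end ext

end H697R3.NS2
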