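import Pool.Agent.H697R3.NSLoc

set_option autoImplicit false

open scoped ComplexOrder ComplexConjugate InnerProductSpace
open Finset

noncomputable section

namespace H697R3.NS

/-- cardinality bound -/
def CC (M : ℕ → ℕ) (k : ℕ) : ℕ := ∏ j ∈ range k, (2 * M j + 1)

lemma CC_pos (M : ℕ → ℕ) (k : ℕ) : 0 < CC M k := Finset.prod_pos fun _ _ => by positivity

lemma CC_succ (M : ℕ → ℕ) (k : ℕ) : CC M (k + 1) = CC M k * (2 * M k + 1) :=
  Finset.prod_range_succ _ _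

lemma CC_mono (M : ℕ → ℕ) : Monotone (CC M) := monotone_nat_of_le_succ fun k => by
  rw [CC_succ]
  exact Nat.le_mul_of_pos_right _ (by positivity)

/-- the tolerances -/
def eps (M : ℕ → ℕ) (k : ℕ) : ℝ := (1 / 2) ^ k / (CC M (k + 1) : ℝ) ^ 2

lemma eps_pos (M : ℕ → ℕ) (k : ℕ) : 0 < eps M k := by
  have : (0 : ℝ) < CC M (k + 1) := by exact_mod_cast CC_pos M (k + 1)
  unfold eps
  positivity

lemma CC_eps (M : ℕ → ℕ) (k : ℕ) : (CC M (k + 1) : ℝ) * eps M k ≤ (1 / 2) ^ k := by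
  have h : (1 : ℝ) ≤ CC M (k + 1) := by exact_mod_cast CC_pos M (k + 1)
  unfold eps
  rw [mul_div_assoc', div_le_iff₀ (by positivity)]
  have : (0 : ℝ) < (1 / 2) ^ k := by positivity
  nlinarith [mul_le_mul_of_nonneg_left h this.le, sq_nonneg ((CC M (k + 1) : ℝ) - 1)]

lemma CC_eps' (M : ℕ → ℕ) {K k : ℕ} (hK : K ≤ k) :
    (CC M (k + 1) : ℝ) * eps M k ≤ (1 / 2) ^ k / CC M K := by
  have h0 : (0 : ℝ) < CC M K := by exact_mod_cast CC_pos M K
  have h1 : (CC M K : ℝ) ≤ CC M (k + 1) := by exact_mod_cast CC_mono M (by omega)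
  have h2 : (CC M (k + 1) : ℝ) * eps M k = (1 / 2) ^ k / CC M (k + 1) := by
    unfold eps
    have : (CC M (k + 1) : ℝ) ≠ 0 := by linarith
    field_simp
  rw [h2]
  exact div_le_div_of_nonneg_left (by positivity) h0 h1

lemma eps_le (M : ℕ → ℕ) (k : ℕ) : eps M k ≤ (1 / 2) ^ k := by
  have h : (1 : ℝ) ≤ CC M (k + 1) := by exact_mod_cast CC_pos M (k + 1)
  refine le_trans ?_ (CC_eps M k)
  have := (eps_pos M k).le
  nlinarith

namespace Dat
variable (D : Dat)

lemma W_CC (j : ℕ) : ((D.W j).card : ℝ) ≤ CC D.M j := by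
  have : (D.W j).card ≤ CC D.M j := by
    induction j with
    | zero => simp [W, CC]
    | succ j ih =>
      rw [CC_succ]
      exact (D.W_card j).trans (Nat.mul_le_mul_right _ ih)
  exact_mod_cast this

/-- the step condition -/
def Step (fz h : ℤ → ℂ) : Prop := ∀ k : ℕ, ∀ w : ℤ, |w| ≤ D.R k → ∀ m : ℤ, m ≠ 0 → |m| ≤ D.M k →
  ‖fz (w + m * D.g k) - h w‖ < eps D.M k ∧ ‖h (w + m * D.g k) - h w‖ < eps D.M k

variable {D} {fz h : ℤ → ℂ}

section basic
variable (D)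

lemma mem_W_of_le {n : ℤ} (h : D.nu 0 n ≠ 0) {j : ℕ} (hj : n.natAbs ≤ j) : n ∈ D.W j := by
  refine D.nu_W j ?_ h
  refine (D.abs_le_R 0 n).trans ?_
  exact_mod_cast D.R_mono (by omega)

lemma W_mod (K i : ℕ) {n : ℤ} (h : n ∈ D.W (K + i)) : ∃ w ∈ D.W K, (D.L K : ℤ) ∣ n - w := by
  induction i generalizing n with
  | zero => exact ⟨n, h, by simp⟩
  | succ i ih =>
    obtain ⟨v, hv, m, -, rfl⟩ := (D.mem_W_succ (K + i) n).mp h
    obtain ⟨w, hw, hd⟩ := ih hv
    refine ⟨w, hw, ?_⟩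
    have e : v + m * (D.g (K + i) : ℤ) - w = (v - w) + m * D.g (K + i) := by ring
    rw [e]
    exact dvd_add hd (Dvd.dvd.mul_left (D.L_dvd_g (Nat.le_add_right K i)) m)

lemma nu_mod (K : ℕ) {n : ℤ} (h : D.nu 0 n ≠ 0) : ∃ w ∈ D.W K, (D.L K : ℤ) ∣ n - w :=
  D.W_mod K n.natAbs (D.mem_W_of_le h (Nat.le_add_left _ _))

lemma W_uniq (K : ℕ) {w w' : ℤ} (hw : w ∈ D.W K) (hw' : w' ∈ D.W K) {n : ℤ}
    (h : (D.L K : ℤ) ∣ n - w) (h' : (D.L K : ℤ) ∣ n - w') : w = w' := by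
  have h1 : (D.L K : ℤ) ∣ w - w' := by
    have := dvd_sub h' h
    have e : n - w' - (n - w) = w - w' := by ring
    rwa [e] at this
  have h2 : |w - w'| < D.L K := by
    have a := D.W_R K hw
    have b := D.W_R K hw'
    have c : (2 * D.R K + 1 : ℤ) ≤ D.L K := by exact_mod_cast D.L_ge K
    have d := abs_sub w w'
    linarith
  have := Int.eq_zero_of_abs_lt_dvd h1 h2
  linarith

/-- `h` made locally constant at level `K` -/
def hk (h : ℤ → ℂ) (K : ℕ) (n : ℤ) : ℂ :=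
  ∑ w ∈ D.W K, if (D.L K : ℤ) ∣ n - w then h w else 0

lemma hk_eq (h : ℤ → ℂ) (K : ℕ) {n w : ℤ} (hw : w ∈ D.W K) (hd : (D.L K : ℤ) ∣ n - w) :
    D.hk h K n = h w := by
  unfold hk
  rw [Finset.sum_eq_single w]
  · rw [if_pos hd]
  · intro v hv hvw
    rw [if_neg]
    intro hd'
    exact hvw (D.W_uniq K hv hw hd' hd)
  · intro h; exact absurd hw h

lemma hk_zero (h : ℤ → ℂ) (K : ℕ) {n : ℤ} (hn : ∀ w ∈ D.W K, ¬ (D.L K : ℤ) ∣ n - w) :
    D.hk h K n = 0 :=
  Finset.sum_eq_zero fun w hw => if_neg (hn w hw)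

end basic

/-! ### summability -/

lemma sum_W_le (hst : D.Step fz h) (hnu : ∀ n, ‖D.nu 0 n‖ ≤ 1) (J : ℕ) :
    ∑ n ∈ D.W J, ‖D.nu 0 n * (fz n - h n)‖ ≤ ‖D.nu 0 0 * (fz 0 - h 0)‖ +
      ∑ j ∈ range J, 2 * (1 / 2) ^ j := by
  induction J with
  | zero => simp [W]
  | succ J ih =>
    rw [Finset.sum_range_succ, ← Finset.sum_sdiff (D.W_succ J)]
    have h1 : ∑ n ∈ D.W (J + 1) \ D.W J, ‖D.nu 0 n * (fz n - h n)‖ ≤ 2 * (1 / 2) ^ J := by
      have h2 : ∀ n ∈ D.W (J + 1) \ D.W J, ‖D.nu 0 n * (fz n - h n)‖ ≤ 2 * eps D.M J := by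
        intro n hn
        rw [Finset.mem_sdiff] at hn
        obtain ⟨w, hw, m, hm, rfl⟩ := (D.mem_W_succ J n).mp hn.1
        have hm0 : m ≠ 0 := by
          rintro rfl
          apply hn.2
          simpa using hw
        obtain ⟨e1, e2⟩ := hst J w (D.W_R J hw) m hm0 hm
        have e3 : ‖fz (w + m * D.g J) - h (w + m * D.g J)‖ ≤ 2 * eps D.M J := by
          calc ‖fz (w + m * D.g J) - h (w + m * D.g J)‖
              = ‖(fz (w + m * D.g J) - h w) - (h (w + m * D.g J) - h w)‖ := by congr 1; ring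
            _ ≤ _ := norm_sub_le _ _
            _ ≤ _ := by linarith
        rw [norm_mul]
        calc _ ≤ 1 * (2 * eps D.M J) := mul_le_mul (hnu _) e3 (norm_nonneg _) zero_le_one
          _ = _ := one_mul _
      have h3 := Finset.sum_le_card_nsmul _ _ _ h2
      refine h3.trans ?_
      rw [nsmul_eq_mul]
      have h4 : ((D.W (J + 1) \ D.W J).card : ℝ) ≤ CC D.M (J + 1) := by
        refine le_trans ?_ (D.W_CC (J + 1))
        exact_mod_cast Finset.card_le_card Finset.sdiff_subset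
      have h5 := CC_eps D.M J
      have h6 := (eps_pos D.M J).le
      nlinarith [mul_le_mul_of_nonneg_right h4 h6]
    linarith

lemma summable_alpha (hst : D.Step fz h) (hnu : ∀ n, ‖D.nu 0 n‖ ≤ 1) :
    Summable fun n => ‖D.nu 0 n * (fz n - h n)‖ := by
  refine summable_of_sum_le (c := ‖D.nu 0 0 * (fz 0 - h 0)‖ + 4) (fun n => norm_nonneg _)
    fun u => ?_
  set J : ℕ := u.sup Int.natAbs with hJ
  have h1 : ∑ n ∈ u, ‖D.nu 0 n * (fz n - h n)‖ ≤ ∑ n ∈ D.W J, ‖D.nu 0 n * (fz n - h n)‖ := by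
    rw [← Finset.sum_filter_ne_zero (s := u)]
    refine Finset.sum_le_sum_of_subset_of_nonneg ?_ (fun _ _ _ => norm_nonneg _)
    intro n hn
    rw [Finset.mem_filter] at hn
    have h2 : D.nu 0 n ≠ 0 := by
      intro h0
      apply hn.2
      rw [h0, zero_mul, norm_zero]
    exact D.mem_W_of_le h2 (Finset.le_sup (f := Int.natAbs) hn.1)
  have h2 := sum_W_le hst hnu J
  have h3 : ∑ j ∈ range J, 2 * (1 / 2 : ℝ) ^ j ≤ 4 := by
    rw [← Finset.mul_sum]
    have h4 := (summable_geometric_two).sum_le_tsum (range J) (fun _ _ => by positivity)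
    rw [tsum_geometric_two] at h4
    linarith
  linarith

/-! ### locally constant approximation -/

section PDs
variable {G : Type} [Group G] (g0 : G) (hinj : Function.Injective fun n : ℤ => g0 ^ n)

lemma ext_translate (hinj : Function.Injective fun n : ℤ => g0 ^ n) (q : ℤ → ℂ) (w : ℤ) (x : G) :
    ext g0 (fun n => q (n - w)) x = ext g0 q ((g0 ^ w)⁻¹ * x) := by
  revert x
  refine ext_cases g0 ?_ ?_
  · intro n
    have : (g0 ^ w)⁻¹ * g0 ^ n = g0 ^ (n - w) := by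
      rw [← zpow_neg, ← zpow_add]; congr 1; ring
    rw [this, ext_apply g0 hinj, ext_apply g0 hinj]
  · intro x hx
    rw [ext_out g0 _ hx, ext_out]
    rintro ⟨n, hn⟩
    apply hx
    refine ⟨w + n, ?_⟩
    rw [zpow_add, hn]
    group

include hinj

lemma BN_nu_translate (D : Dat) (K : ℕ) (w : ℤ) : BN (ext g0 (fun n => D.nu K (n - w))) 2 := by
  have h := BN_translate (D.PD_nu g0 hinj K) (g0 ^ w)
  have h1 : ext g0 (D.nu K) 1 = 1 := by
    have := ext_apply g0 hinj (D.nu K) 0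
    rw [zpow_zero] at this
    rw [this, D.nu_zero]
  rw [h1] at h
  have e : (2 : ℝ) * (1 : ℂ).re = 2 := by simp
  rw [e] at h
  convert h using 1
  funext x
  exact ext_translate g0 hinj _ w x

lemma BN_nu_pow (D : Dat) (K : ℕ) (w : ℤ) (z : ℂ) (n : ℕ) :
    BN (fun x => (z * ext g0 (fun n => D.nu K (n - w)) x) ^ n) (4 * ‖z‖ ^ n) := by
  have h := BN_translate ((D.PD_nu g0 hinj K).pow n) (g0 ^ w)
  have h1 : ext g0 (D.nu K) 1 = 1 := by
    have := ext_apply g0 hinj (D.nu K) 0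
    rw [zpow_zero] at this
    rw [this, D.nu_zero]
  have e : (2 : ℝ) * ((ext g0 (D.nu K) 1) ^ n).re = 2 := by rw [h1]; simp
  rw [e] at h
  have h2 := h.cmul (z ^ n)
  have e2 : 2 * ‖z ^ n‖ * 2 = 4 * ‖z‖ ^ n := by rw [norm_pow]; ring
  rw [e2] at h2
  convert h2 using 1
  funext x
  rw [mul_pow, ext_translate g0 hinj]

lemma BN_ind (L : ℤ) (w : ℤ) :
    BN (ext g0 (fun n => if L ∣ n - w then (1 : ℂ) else 0)) 2 := by
  classical
  have h := BN_translate (PD.subgroup (Subgroup.zpowers (g0 ^ L))) (g0 ^ w)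
  have e : (2 : ℝ) * ((if (1 : G) ∈ Subgroup.zpowers (g0 ^ L) then (1 : ℂ) else 0)).re = 2 := by
    rw [if_pos (Subgroup.one_mem _)]; simp
  rw [e] at h
  convert h using 1
  funext x
  rw [ext_translate g0 hinj (fun n => if L ∣ n then (1 : ℂ) else 0) w x]
  generalize (g0 ^ w)⁻¹ * x = y
  revert y
  refine ext_cases g0 ?_ ?_
  · intro n
    rw [ext_apply g0 hinj]
    have : L ∣ n ↔ g0 ^ n ∈ Subgroup.zpowers (g0 ^ L) := by
      rw [Subgroup.mem_zpowers_iff]
      constructor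
      · rintro ⟨k, rfl⟩
        exact ⟨k, by rw [← zpow_mul]⟩
      · rintro ⟨k, hk⟩
        rw [← zpow_mul] at hk
        exact ⟨k, (hinj hk).symm⟩
    simp only [this]
  · intro y hy
    rw [ext_out g0 _ hy, if_neg]
    rw [Subgroup.mem_zpowers_iff]
    rintro ⟨k, hk⟩
    rw [← zpow_mul] at hk
    exact hy ⟨_, hk⟩

lemma ext_sum {ι : Type} (s : Finset ι) (q : ι → ℤ → ℂ) (x : G) :
    ext g0 (fun n => ∑ i ∈ s, q i n) x = ∑ i ∈ s, ext g0 (q i) x := by
  revert x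
  refine ext_cases g0 ?_ ?_
  · intro n
    simp only [ext_apply g0 hinj]
  · intro x hx
    simp only [ext_out g0 _ hx, Finset.sum_const_zero]

lemma ext_mul_left (c : ℂ) (q : ℤ → ℂ) (x : G) :
    ext g0 (fun n => c * q n) x = c * ext g0 q x := by
  revert x
  refine ext_cases g0 ?_ ?_
  · intro n
    simp only [ext_apply g0 hinj]
  · intro x hx
    simp only [ext_out g0 _ hx, mul_zero]

lemma ext_tsum {ι : Type} (q : ι → ℤ → ℂ) (x : G) :
    ext g0 (fun n => ∑' i, q i n) x = ∑' i, ext g0 (q i) x := by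
  revert x
  refine ext_cases g0 ?_ ?_
  · intro n
    simp only [ext_apply g0 hinj]
  · intro x hx
    simp only [ext_out g0 _ hx, tsum_zero]

omit hinj in
lemma nu_hk_step (n : ℤ) (j : ℕ) :
    D.nu 0 n * (D.hk h (j + 1) n - D.hk h j n) =
      ∑ v ∈ D.W (j + 1), ((h v - D.hk h j v) * D.nu 0 v) * D.nu (j + 1) (n - v) := by
  have e1 : ∀ v ∈ D.W (j + 1), ((h v - D.hk h j v) * D.nu 0 v) * D.nu (j + 1) (n - v) =
      (h v - D.hk h j v) * (if (D.L (j + 1) : ℤ) ∣ n - v then D.nu 0 n else 0) := by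
    intro v hv
    rw [D.nu_fact' (j + 1) (D.W_R _ hv) n]
    ring
  rw [Finset.sum_congr rfl e1]
  by_cases hn : D.nu 0 n = 0
  · rw [hn, zero_mul]
    symm
    refine Finset.sum_eq_zero fun v _ => ?_
    simp
  · obtain ⟨v, hv, hd⟩ := D.nu_mod (j + 1) hn
    rw [Finset.sum_eq_single v]
    · rw [if_pos hd, D.hk_eq h (j + 1) hv hd]
      obtain ⟨w, hw, hd'⟩ := D.W_mod j 1 hv
      have hd2 : (D.L j : ℤ) ∣ n - w := by
        have h1 : (D.L j : ℤ) ∣ n - v :=
          dvd_trans (by exact_mod_cast D.L_dvd (Nat.le_succ j)) hd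
        have e : n - w = (n - v) + (v - w) := by ring
        rw [e]
        exact dvd_add h1 hd'
      rw [D.hk_eq h j hw hd2, D.hk_eq h j hw hd']
      ring
    · intro u hu huv
      rw [if_neg, mul_zero]
      intro hd'
      exact huv (D.W_uniq (j + 1) hu hv hd' hd)
    · intro h; exact absurd hv h

omit hinj in
lemma hk_close (hst : D.Step fz h) (j : ℕ) {v : ℤ} (hv : v ∈ D.W (j + 1)) :
    ‖h v - D.hk h j v‖ ≤ eps D.M j := by
  obtain ⟨w, hw, m, hm, rfl⟩ := (D.mem_W_succ j v).mp hv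
  have hd : (D.L j : ℤ) ∣ w + m * D.g j - w := by
    have e : w + m * (D.g j : ℤ) - w = m * D.g j := by ring
    rw [e]
    exact Dvd.dvd.mul_left (D.L_dvd_g le_rfl) m
  rw [D.hk_eq h j hw hd]
  by_cases hm0 : m = 0
  · subst hm0
    simp only [zero_mul, add_zero, sub_self, norm_zero]
    exact (eps_pos D.M j).le
  · exact (hst j w (D.W_R j hw) m hm0 hm).2.le

lemma BN_step (hst : D.Step fz h) {K j : ℕ} (hKj : K ≤ j) :
    BN (ext g0 (fun n => D.nu 0 n * (D.hk h (j + 1) n - D.hk h j n)))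
      (4 * (1 / 2) ^ j / CC D.M K) := by
  have h1 : BN (fun x => ∑ v ∈ D.W (j + 1), ((h v - D.hk h j v) * D.nu 0 v) *
      ext g0 (fun n => D.nu (j + 1) (n - v)) x)
      (∑ v ∈ D.W (j + 1), 2 * ‖(h v - D.hk h j v) * D.nu 0 v‖ * 2) :=
    BN.sum _ fun v _ => (BN_nu_translate g0 hinj D (j + 1) v).cmul _
  have h2 : ∑ v ∈ D.W (j + 1), 2 * ‖(h v - D.hk h j v) * D.nu 0 v‖ * 2 ≤
      4 * (1 / 2) ^ j / CC D.M K := by
    have h3 : ∀ v ∈ D.W (j + 1), 2 * ‖(h v - D.hk h j v) * D.nu 0 v‖ * 2 ≤ 4 * eps D.M j := by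
      intro v hv
      have := hk_close hst j hv
      rw [norm_mul]
      have h4 := D.nu_norm_le g0 hinj 0 v
      have h5 : ‖h v - D.hk h j v‖ * ‖D.nu 0 v‖ ≤ eps D.M j * 1 :=
        mul_le_mul this h4 (norm_nonneg _) (eps_pos D.M j).le
      linarith
    refine (Finset.sum_le_card_nsmul _ _ _ h3).trans ?_
    rw [nsmul_eq_mul]
    have h6 := D.W_CC (j + 1)
    have h7 := CC_eps' D.M hKj
    have h8 := (eps_pos D.M j).le
    have h9 : 4 * (1 / 2 : ℝ) ^ j / CC D.M K = 4 * ((1 / 2) ^ j / CC D.M K) := by ring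
    rw [h9]
    nlinarith [mul_le_mul_of_nonneg_right h6 h8]
  refine BN.mono ?_ h2
  convert h1 using 1
  funext x
  have e : (fun n => D.nu 0 n * (D.hk h (j + 1) n - D.hk h j n)) =
      fun n => ∑ v ∈ D.W (j + 1), ((h v - D.hk h j v) * D.nu 0 v) * D.nu (j + 1) (n - v) := by
    funext n; exact nu_hk_step n j
  rw [e, ext_sum g0 hinj]
  refine Finset.sum_congr rfl fun v _ => ?_
  exact ext_mul_left g0 hinj _ _ x

lemma BN_s (hst : D.Step fz h) (K : ℕ) :
    BN (ext g0 (fun n => D.nu 0 n * (h n - D.hk h K n))) (8 * (1 / 2) ^ K / CC D.M K) := by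
  have h1 : ∀ i : ℕ, BN (ext g0 (fun n => D.nu 0 n * (D.hk h (K + i + 1) n - D.hk h (K + i) n)))
      (4 * (1 / 2) ^ K / CC D.M K * (1 / 2) ^ i) := by
    intro i
    have := BN_step g0 hinj hst (Nat.le_add_right K i)
    refine this.mono (le_of_eq ?_)
    rw [pow_add]; ring
  have h2 := BN.tsum h1 (summable_geometric_two.mul_left _)
  rw [tsum_mul_left, tsum_geometric_two] at h2
  have e : 4 * (1 / 2 : ℝ) ^ K / CC D.M K * 2 = 8 * (1 / 2) ^ K / CC D.M K := by ring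
  rw [e] at h2
  convert h2 using 1
  funext x
  rw [← ext_tsum g0 hinj]
  congr 1
  funext n
  by_cases hn : D.nu 0 n = 0
  · simp [hn]
  · rw [tsum_eq_sum (s := range n.natAbs)]
    · rw [← Finset.mul_sum]
      congr 1
      have e3 := Finset.sum_range_sub (fun i => D.hk h (K + i) n) n.natAbs
      simp only [← add_assoc, add_zero] at e3
      rw [e3]
      congr 1
      rw [D.hk_eq h (K + n.natAbs) (w := n) (D.mem_W_of_le hn (Nat.le_add_left _ _)) (by simp)]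
    · intro i hi
      rw [Finset.mem_range, not_lt] at hi
      rw [D.hk_eq h (K + i + 1) (w := n) (D.mem_W_of_le hn (by omega)) (by simp),
        D.hk_eq h (K + i) (w := n) (D.mem_W_of_le hn (by omega)) (by simp)]
      simp

lemma BN_hk (D : Dat) (h : ℤ → ℂ) (K : ℕ) : ∃ C, BN (ext g0 (D.hk h K)) C := by
  have h1 : BN (fun x => ∑ w ∈ D.W K, h w *
      ext g0 (fun n => if (D.L K : ℤ) ∣ n - w then (1 : ℂ) else 0) x)
      (∑ w ∈ D.W K, 2 * ‖h w‖ * 2) :=
    BN.sum _ fun w _ => (BN_ind g0 hinj _ w).cmul _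
  suffices e0 : ext g0 (D.hk h K) = (fun x => ∑ w ∈ D.W K, h w *
      ext g0 (fun n => if (D.L K : ℤ) ∣ n - w then (1 : ℂ) else 0) x) from
    ⟨_, by rw [e0]; exact h1⟩
  · funext x
    have e : D.hk h K = fun n => ∑ w ∈ D.W K, h w *
        (if (D.L K : ℤ) ∣ n - w then (1 : ℂ) else 0) := by
      funext n
      unfold hk
      refine Finset.sum_congr rfl fun w _ => ?_
      split_ifs <;> simp
    rw [e, ext_sum g0 hinj]
    refine Finset.sum_congr rfl fun v _ => ?_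
    exact ext_mul_left g0 hinj _ _ x

end PDs

end Dat

end H697R3.NS
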