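import Pool.Agent.H697R3.NS2Data
import Pool.Agent.H697R3.NSSum

set_option autoImplicit false

open scoped ComplexOrder ComplexConjugate InnerProductSpace
open Finset

noncomputable section

namespace H697R3.NS2

open H697R3.NS (PD BN kap BN_translate CC CC_pos CC_succ eps eps_pos CC_eps eps_le)

namespace Dat
variable {A : Type} [AddCommGroup A] {D : Dat A} {fz h : A → ℂ}

lemma W_CC (D : Dat A) (j : ℕ) : ((D.W 0 j).card : ℝ) ≤ CC D.M j := by
  have : (D.W 0 j).card ≤ CC D.M j := by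
    induction j with
    | zero => rw [W0]; simp [CC]
    | succ j ih =>
      rw [CC_succ, WS, zero_add]
      exact card_stepW.trans (Nat.mul_le_mul_right _ ih)
  exact_mod_cast this

/-- the step condition -/
def Step (D : Dat A) (fz h : A → ℂ) : Prop :=
  ∀ k : ℕ, ∀ w ∈ D.W 0 k, ∀ m : ℤ, m ≠ 0 → |m| ≤ D.M k →
  ‖fz (w + m • D.g k) - h w‖ < eps D.M k ∧ ‖h (w + m • D.g k) - h w‖ < eps D.M k

open Classical in
/-- `h` made locally constant at level `K` -/
def hk (D : Dat A) (h : A → ℂ) (K : ℕ) (n : A) : ℂ :=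
  ∑ w ∈ D.W 0 K, if n - w ∈ D.V K then h w else 0

lemma hk_eq (h : A → ℂ) (K : ℕ) {n w : A} (hw : w ∈ D.W 0 K) (hd : n - w ∈ D.V K) :
    D.hk h K n = h w := by
  unfold hk
  rw [Finset.sum_eq_single w]
  · rw [if_pos hd]
  · intro v hv hvw
    rw [if_neg]
    intro hd'
    exact hvw (D.W_uniq K hv hw hd' hd)
  · intro h; exact absurd hw h

lemma zero_V (D : Dat A) (K : ℕ) : (0 : A) ∈ D.V K := ⟨0, D.zero_mem K 0⟩

lemma hk_self (h : A → ℂ) {K : ℕ} {n : A} (hn : n ∈ D.W 0 K) : D.hk h K n = h n :=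
  hk_eq h K hn (by rw [sub_self]; exact D.zero_V K)

lemma sum_W_le (hst : D.Step fz h) (hnu : ∀ n, ‖D.nu 0 n‖ ≤ 1) (J : ℕ) :
    ∑ n ∈ D.W 0 J, ‖D.nu 0 n * (fz n - h n)‖ ≤ ‖D.nu 0 0 * (fz 0 - h 0)‖ +
      ∑ j ∈ range J, 2 * (1 / 2) ^ j := by
  classical
  induction J with
  | zero => rw [W0]; simp
  | succ J ih =>
    rw [Finset.sum_range_succ, ← Finset.sum_sdiff (D.W_mono 0 (Nat.le_succ J))]
    have h1 : ∑ n ∈ D.W 0 (J + 1) \ D.W 0 J, ‖D.nu 0 n * (fz n - h n)‖ ≤ 2 * (1 / 2) ^ J := by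
      have h2 : ∀ n ∈ D.W 0 (J + 1) \ D.W 0 J, ‖D.nu 0 n * (fz n - h n)‖ ≤ 2 * eps D.M J := by
        intro n hn
        rw [Finset.mem_sdiff, WS, zero_add] at hn
        obtain ⟨w, hw, m, hm, rfl⟩ := mem_stepW.mp hn.1
        have hm0 : m ≠ 0 := by
          rintro rfl
          apply hn.2
          simpa using hw
        obtain ⟨e1, e2⟩ := hst J w hw m hm0 hm
        have e3 : ‖fz (w + m • D.g J) - h (w + m • D.g J)‖ ≤ 2 * eps D.M J := by
          calc ‖fz (w + m • D.g J) - h (w + m • D.g J)‖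
              = ‖(fz (w + m • D.g J) - h w) - (h (w + m • D.g J) - h w)‖ := by congr 1; ring
            _ ≤ _ := norm_sub_le _ _
            _ ≤ _ := by linarith
        rw [norm_mul]
        calc _ ≤ 1 * (2 * eps D.M J) := mul_le_mul (hnu _) e3 (norm_nonneg _) zero_le_one
          _ = _ := one_mul _
      have h3 := Finset.sum_le_card_nsmul _ _ _ h2
      refine h3.trans ?_
      rw [nsmul_eq_mul]
      have h4 : ((D.W 0 (J + 1) \ D.W 0 J).card : ℝ) ≤ CC D.M (J + 1) := by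
        refine le_trans ?_ (D.W_CC (J + 1))
        exact_mod_cast Finset.card_le_card Finset.sdiff_subset
      have h5 := CC_eps D.M J
      have h6 := (eps_pos D.M J).le
      nlinarith [mul_le_mul_of_nonneg_right h4 h6]
    linarith

lemma exists_level (D : Dat A) (n : A) : ∃ J, D.nu 0 n ≠ 0 → ∀ j, J ≤ j → n ∈ D.W 0 j := by
  by_cases h : D.nu 0 n = 0
  · exact ⟨0, fun h' => absurd h h'⟩
  · obtain ⟨J, hJ⟩ := D.nu_V 0 h
    exact ⟨J, fun _ j hj => D.W_mono 0 hj hJ⟩

lemma summable_alpha (hst : D.Step fz h) (hnu : ∀ n, ‖D.nu 0 n‖ ≤ 1) :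
    Summable fun n => ‖D.nu 0 n * (fz n - h n)‖ := by
  refine summable_of_sum_le (c := ‖D.nu 0 0 * (fz 0 - h 0)‖ + 4) (fun n => norm_nonneg _)
    fun u => ?_
  choose lv hlv using D.exists_level
  set J : ℕ := u.sup lv with hJ
  have h1 : ∑ n ∈ u, ‖D.nu 0 n * (fz n - h n)‖ ≤ ∑ n ∈ D.W 0 J, ‖D.nu 0 n * (fz n - h n)‖ := by
    rw [← Finset.sum_filter_ne_zero (s := u)]
    refine Finset.sum_le_sum_of_subset_of_nonneg ?_ (fun _ _ _ => norm_nonneg _)
    intro n hn
    rw [Finset.mem_filter] at hn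
    have h2 : D.nu 0 n ≠ 0 := by
      intro h0
      apply hn.2
      rw [h0, zero_mul, norm_zero]
    exact hlv n h2 _ (Finset.le_sup hn.1)
  have h2 := sum_W_le hst hnu J
  have h3 : ∑ j ∈ range J, 2 * (1 / 2 : ℝ) ^ j ≤ 4 := by
    rw [← Finset.mul_sum]
    have h4 := (summable_geometric_two).sum_le_tsum (range J) (fun _ _ => by positivity)
    rw [tsum_geometric_two] at h4
    linarith
  linarith

lemma hk_close (hst : D.Step fz h) (j : ℕ) {v : A} (hv : v ∈ D.W 0 (j + 1)) :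
    ‖h v - D.hk h j v‖ ≤ eps D.M j := by
  rw [WS, zero_add] at hv
  obtain ⟨w, hw, m, hm, rfl⟩ := mem_stepW.mp hv
  have hd : w + m • D.g j - w ∈ D.V j := by
    rw [add_sub_cancel_left]
    exact D.smul_V j hm
  rw [hk_eq h j hw hd]
  by_cases hm0 : m = 0
  · subst hm0
    simp only [zero_smul, add_zero, sub_self, norm_zero]
    exact (eps_pos D.M j).le
  · exact (hst j w hw m hm0 hm).2.le

open Classical in
lemma nu_hk_step (K j : ℕ) (hKj : K ≤ j) {w0 : A} (hw0 : w0 ∈ D.W 0 K) (n : A) :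
    (if n - w0 ∈ D.V K then D.nu 0 n * (D.hk h (j + 1) n - D.hk h j n) else 0) =
      ∑ v ∈ D.W 0 (j + 1), ((if v - w0 ∈ D.V K then h v - D.hk h j v else 0) * D.nu 0 v) *
        D.nu (j + 1) (n - v) := by
  have e1 : ∀ v ∈ D.W 0 (j + 1), ((if v - w0 ∈ D.V K then h v - D.hk h j v else 0) * D.nu 0 v) *
      D.nu (j + 1) (n - v) =
      (if v - w0 ∈ D.V K then h v - D.hk h j v else 0) *
        (if n - v ∈ D.V (j + 1) then D.nu 0 n else 0) := by
    intro v hv
    rw [D.nu_fact' (j + 1) hv n]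
    ring
  rw [Finset.sum_congr rfl e1]
  by_cases hn : D.nu 0 n = 0
  · rw [hn, zero_mul, ite_self]
    symm
    refine Finset.sum_eq_zero fun v _ => ?_
    simp
  · obtain ⟨v, hv, hd⟩ := D.nu_mod (j + 1) hn
    rw [Finset.sum_eq_single v]
    · rw [if_pos hd, D.hk_eq h (j + 1) hv hd]
      -- levels `j` and `K` of `v`
      have hlev : ∀ i, i ≤ j + 1 → ∃ w ∈ D.W 0 i, v - w ∈ D.V i ∧ n - w ∈ D.V i := by
        intro i hi
        have hv' : v ∈ D.W 0 (i + (j + 1 - i)) := by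
          rw [Nat.add_sub_cancel' hi]; exact hv
        obtain ⟨w, hw, t, ht, hvt⟩ := D.W_split 0 i _ hv'
        rw [zero_add] at ht
        refine ⟨w, hw, ?_, ?_⟩
        · rw [hvt, add_sub_cancel_left]
          exact ⟨_, ht⟩
        · have e : n - w = t + (n - v) := by rw [hvt]; abel
          rw [e]
          refine D.V_step i (j + 1 - i) ht ?_
          rw [Nat.add_sub_cancel' hi]
          exact hd
      obtain ⟨w, hw, hvw, hnw⟩ := hlev j (Nat.le_succ j)
      obtain ⟨w1, hw1, hvw1, hnw1⟩ := hlev K (by omega)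
      rw [hk_eq h j hw hnw, hk_eq h j hw hvw]
      by_cases hc : n - w0 ∈ D.V K
      · have : w0 = w1 := D.W_uniq K hw0 hw1 hc hnw1
        subst this
        rw [if_pos hc, if_pos hvw1]
        ring
      · rw [if_neg hc, if_neg, zero_mul]
        intro hc'
        have : w0 = w1 := D.W_uniq K hw0 hw1 hc' hvw1
        subst this
        exact hc hnw1
    · intro u hu huv
      rw [if_neg (show ¬ n - u ∈ D.V (j + 1) from fun hd' =>
        huv (D.W_uniq (j + 1) hu hv hd' hd)), mul_zero]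
    · intro h; exact absurd hv h

section PDs
variable {G : Type} [Group G] (ι : Multiplicative A →* G) (hinj : Function.Injective (em ι))
include hinj

open Classical in
lemma BN_step (hst : D.Step fz h) {K j : ℕ} (hKj : K ≤ j) {w0 : A} (hw0 : w0 ∈ D.W 0 K) :
    BN (ext ι (fun n => if n - w0 ∈ D.V K then D.nu 0 n * (D.hk h (j + 1) n - D.hk h j n) else 0))
      (4 * (1 / 2) ^ j) := by
  have h1 : BN (fun x => ∑ v ∈ D.W 0 (j + 1),
      ((if v - w0 ∈ D.V K then h v - D.hk h j v else 0) * D.nu 0 v) *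
      ext ι (fun n => D.nu (j + 1) (n - v)) x)
      (∑ v ∈ D.W 0 (j + 1),
        2 * ‖(if v - w0 ∈ D.V K then h v - D.hk h j v else 0) * D.nu 0 v‖ * 2) :=
    BN.sum _ fun v _ => (D.BN_nu_translate ι hinj (j + 1) v).cmul _
  have h2 : ∑ v ∈ D.W 0 (j + 1),
      2 * ‖(if v - w0 ∈ D.V K then h v - D.hk h j v else 0) * D.nu 0 v‖ * 2 ≤
      4 * (1 / 2) ^ j := by
    have h3 : ∀ v ∈ D.W 0 (j + 1),
        2 * ‖(if v - w0 ∈ D.V K then h v - D.hk h j v else 0) * D.nu 0 v‖ * 2 ≤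
          4 * eps D.M j := by
      intro v hv
      have h6 : ‖(if v - w0 ∈ D.V K then h v - D.hk h j v else 0)‖ ≤ eps D.M j := by
        split_ifs
        · exact hk_close hst j hv
        · rw [norm_zero]; exact (eps_pos D.M j).le
      rw [norm_mul]
      have h4 := D.nu_norm_le ι hinj 0 v
      have h5 : ‖(if v - w0 ∈ D.V K then h v - D.hk h j v else 0)‖ * ‖D.nu 0 v‖ ≤
          eps D.M j * 1 :=
        mul_le_mul h6 h4 (norm_nonneg _) (eps_pos D.M j).le
      linarith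
    refine (Finset.sum_le_card_nsmul _ _ _ h3).trans ?_
    rw [nsmul_eq_mul]
    have h6 := D.W_CC (j + 1)
    have h7 := CC_eps D.M j
    have h8 := (eps_pos D.M j).le
    nlinarith [mul_le_mul_of_nonneg_right h6 h8]
  refine BN.mono ?_ h2
  convert h1 using 1
  funext x
  have e : (fun n => if n - w0 ∈ D.V K then
      D.nu 0 n * (D.hk h (j + 1) n - D.hk h j n) else 0) =
      fun n => ∑ v ∈ D.W 0 (j + 1),
        ((if v - w0 ∈ D.V K then h v - D.hk h j v else 0) * D.nu 0 v) *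
          D.nu (j + 1) (n - v) := by
    funext n; exact nu_hk_step K j hKj hw0 n
  rw [e, ext_sum ι hinj]
  refine Finset.sum_congr rfl fun v _ => ?_
  exact ext_mul_left ι hinj _ _ x

open Classical in
lemma BN_s (hst : D.Step fz h) (K : ℕ) {w0 : A} (hw0 : w0 ∈ D.W 0 K) :
    BN (ext ι (fun n => if n - w0 ∈ D.V K then D.nu 0 n * (h n - h w0) else 0))
      (8 * (1 / 2) ^ K) := by
  have h1 : ∀ i : ℕ, BN (ext ι (fun n => if n - w0 ∈ D.V K then
      D.nu 0 n * (D.hk h (K + i + 1) n - D.hk h (K + i) n) else 0))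
      (4 * (1 / 2) ^ K * (1 / 2) ^ i) := by
    intro i
    have := BN_step ι hinj hst (Nat.le_add_right K i) hw0
    refine this.mono (le_of_eq ?_)
    rw [pow_add]; ring
  have h2 := BN.tsum h1 (summable_geometric_two.mul_left _)
  rw [tsum_mul_left, tsum_geometric_two] at h2
  have e : 4 * (1 / 2 : ℝ) ^ K * 2 = 8 * (1 / 2) ^ K := by ring
  rw [e] at h2
  convert h2 using 1
  funext x
  rw [← ext_tsum ι hinj]
  congr 1
  funext n
  by_cases hc : n - w0 ∈ D.V K
  · simp only [if_pos hc]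
    by_cases hn : D.nu 0 n = 0
    · simp [hn]
    · obtain ⟨J, hJ⟩ := D.exists_level n
      have hJ' := hJ hn
      rw [tsum_eq_sum (s := range J)]
      · rw [← Finset.mul_sum]
        congr 1
        have e3 := Finset.sum_range_sub (fun i => D.hk h (K + i) n) J
        simp only [← add_assoc, add_zero] at e3
        rw [e3, hk_self h (hJ' (K + J) (Nat.le_add_left _ _)), hk_eq h K hw0 hc]
      · intro i hi
        rw [Finset.mem_range, not_lt] at hi
        rw [hk_self h (hJ' _ (by omega)), hk_self h (hJ' _ (by omega))]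
        simp
  · simp only [if_neg hc, tsum_zero]

end PDs

end Dat

end H697R3.NS2
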