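import Pool.Agent.H697R3.NSPD

set_option autoImplicit false

open scoped ComplexOrder ComplexConjugate InnerProductSpace

noncomputable section

namespace H697R3.NS

variable {G : Type} [Group G]

/-- positive definite functions on a group -/
def PD (q : G → ℂ) : Prop := (Matrix.of fun x y : G => q (x⁻¹ * y)).PosSemidef

/-- coefficient functions of unitary representations -/
def IsCoef (f : G → ℂ) : Prop :=
  ∃ (H : Type) (_ : NormedAddCommGroup H) (_ : InnerProductSpace ℂ H)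
    (_ : CompleteSpace H) (π : G →* unitary (H →L[ℂ] H)) (ξ η : H),
    ∀ g : G, f g = inner ℂ η ((π g : H →L[ℂ] H) ξ)

lemma inner_self_c {H : Type} [NormedAddCommGroup H] [InnerProductSpace ℂ H] (x : H) :
    ⟪x, x⟫_ℂ = ((‖x‖ ^ 2 : ℝ) : ℂ) := by
  rw [inner_self_eq_norm_sq_to_K]
  push_cast
  rfl

theorem posSemidef_of_gram {X H : Type} [NormedAddCommGroup H] [InnerProductSpace ℂ H]
    (w : X → H) : (Matrix.of fun x y : X => ⟪w x, w y⟫_ℂ).PosSemidef := by
  refine ⟨?_, fun f => ?_⟩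
  · ext x y
    simp [Matrix.conjTranspose, inner_conj_symm]
  · have : (f.sum fun i xi => f.sum fun j xj =>
        star xi * (Matrix.of fun x y : X => ⟪w x, w y⟫_ℂ) i j * xj) =
        ⟪(f.sum fun i xi => xi • w i), (f.sum fun i xi => xi • w i)⟫_ℂ := by
      unfold Finsupp.sum
      rw [sum_inner]
      refine Finset.sum_congr rfl fun i _ => ?_
      rw [inner_sum]
      refine Finset.sum_congr rfl fun j _ => ?_
      rw [inner_smul_left, inner_smul_right]
      simp
      ring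
    rw [this, inner_self_c]
    exact Complex.zero_le_real.mpr (sq_nonneg _)

lemma unitary_inner {H : Type} [NormedAddCommGroup H] [InnerProductSpace ℂ H] [CompleteSpace H]
    (π : G →* unitary (H →L[ℂ] H)) (x y : G) (ξ η : H) :
    ⟪(π x : H →L[ℂ] H) ξ, (π y : H →L[ℂ] H) η⟫_ℂ = ⟪ξ, (π (x⁻¹ * y) : H →L[ℂ] H) η⟫_ℂ := by
  have h : (π y : H →L[ℂ] H) η = (π x : H →L[ℂ] H) ((π (x⁻¹ * y) : H →L[ℂ] H) η) := by
    have : π y = π x * π (x⁻¹ * y) := by rw [← map_mul]; simp
    rw [this]; rfl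
  rw [h, Unitary.inner_map_map]

theorem PD_of_rep {H : Type} [NormedAddCommGroup H] [InnerProductSpace ℂ H] [CompleteSpace H]
    (π : G →* unitary (H →L[ℂ] H)) (ξ : H) : PD fun x => ⟪ξ, (π x : H →L[ℂ] H) ξ⟫_ℂ := by
  have := posSemidef_of_gram (fun x : G => (π x : H →L[ℂ] H) ξ)
  unfold PD
  convert this using 1
  ext x y
  simp only [Matrix.of_apply]
  rw [unitary_inner]

theorem PD.gns {q : G → ℂ} (hq : PD q) : ∃ (H : Type) (_ : NormedAddCommGroup H)
    (_ : InnerProductSpace ℂ H) (_ : CompleteSpace H) (π : G →* unitary (H →L[ℂ] H)) (ξ : H),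
    ∀ x, q x = ⟪ξ, (π x : H →L[ℂ] H) ξ⟫_ℂ := by
  obtain ⟨H, i1, i2, i3, π, v, hv, hπ⟩ := gns_kernel (G := G) _ hq (fun g x y => by
    simp [Matrix.of_apply, mul_assoc])
  refine ⟨H, i1, i2, i3, π, v 1, fun x => ?_⟩
  rw [hπ, hv]
  simp

theorem PD.one_re {q : G → ℂ} (hq : PD q) : q 1 = ((q 1).re : ℂ) ∧ 0 ≤ (q 1).re := by
  obtain ⟨H, i1, i2, i3, π, ξ, h⟩ := hq.gns
  have h1 : q 1 = ((‖ξ‖ ^ 2 : ℝ) : ℂ) := by
    rw [h 1, map_one]
    change ⟪ξ, ξ⟫_ℂ = _
    rw [inner_self_eq_norm_sq_to_K]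
    push_cast
    rfl
  rw [h1]
  constructor
  · rw [Complex.ofReal_re]
  · rw [Complex.ofReal_re]; positivity

theorem PD.norm_le {q : G → ℂ} (hq : PD q) (x : G) : ‖q x‖ ≤ (q 1).re := by
  obtain ⟨H, i1, i2, i3, π, ξ, h⟩ := hq.gns
  have h1 : (q 1).re = ‖ξ‖ ^ 2 := by
    rw [h 1, map_one]
    change (⟪ξ, ξ⟫_ℂ).re = _
    rw [inner_self_eq_norm_sq_to_K]
    norm_cast
  rw [h1, h x]
  calc _ ≤ ‖ξ‖ * ‖(π x : H →L[ℂ] H) ξ‖ := norm_inner_le_norm _ _
    _ = ‖ξ‖ ^ 2 := by rw [Unitary.norm_map]; ring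

theorem PD.add {p q : G → ℂ} (hp : PD p) (hq : PD q) : PD fun x => p x + q x := by
  have h := Matrix.PosSemidef.add hp hq
  have e : (Matrix.of fun x y : G => p (x⁻¹ * y) + q (x⁻¹ * y)) =
      (Matrix.of fun x y : G => p (x⁻¹ * y)) + (Matrix.of fun x y : G => q (x⁻¹ * y)) := by
    ext x y; rfl
  unfold PD
  rw [e]
  exact h

theorem PD.mul {p q : G → ℂ} (hp : PD p) (hq : PD q) : PD fun x => p x * q x := by
  have h := Matrix.PosSemidef.hadamard hp hq
  have e : (Matrix.of fun x y : G => p (x⁻¹ * y) * q (x⁻¹ * y)) =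
      Matrix.hadamard (Matrix.of fun x y : G => p (x⁻¹ * y))
        (Matrix.of fun x y : G => q (x⁻¹ * y)) := by
    ext x y; rfl
  unfold PD
  rw [e]
  exact h

theorem PD.zero : PD (fun _ : G => (0 : ℂ)) := by
  have h := Matrix.PosSemidef.zero (n := G) (R := ℂ)
  have e : (Matrix.of fun _ _ : G => (0 : ℂ)) = 0 := by
    ext x y; rfl
  unfold PD
  rw [e]
  exact h

theorem PD.const {r : ℝ} (hr : 0 ≤ r) {q : G → ℂ} (hq : PD q) : PD fun x => (r : ℂ) * q x := by
  have h := Matrix.PosSemidef.smul hq (a := (r : ℂ)) (by exact_mod_cast hr)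
  have e : (Matrix.of fun x y : G => (r : ℂ) * q (x⁻¹ * y)) =
      (r : ℂ) • (Matrix.of fun x y : G => q (x⁻¹ * y)) := by
    ext x y; rfl
  unfold PD
  rw [e]
  exact h

theorem PD.one : PD (fun _ : G => (1 : ℂ)) := by
  have := posSemidef_of_gram (fun _ : G => (1 : ℂ))
  unfold PD
  convert this using 1
  ext x y
  simp

theorem PD.pow {q : G → ℂ} (hq : PD q) (n : ℕ) : PD fun x => q x ^ n := by
  induction n with
  | zero => simpa using PD.one
  | succ n ih => simpa [pow_succ] using ih.mul hq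

theorem PD.sum {ι : Type} (s : Finset ι) {q : ι → G → ℂ} (hq : ∀ i ∈ s, PD (q i)) :
    PD fun x => ∑ i ∈ s, q i x := by
  classical
  induction s using Finset.induction_on with
  | empty => simpa using PD.zero
  | insert i s hi ih =>
    simp only [Finset.sum_insert hi]
    exact (hq i (by simp)).add (ih fun j hj => hq j (by simp [hj]))

theorem PD.limit {ι : Type} {l : Filter ι} [l.NeBot] {q : ι → G → ℂ} {q0 : G → ℂ}
    (hq : ∀ᶠ i in l, PD (q i)) (hl : ∀ x, Filter.Tendsto (fun i => q i x) l (nhds (q0 x))) :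
    PD q0 := by
  refine ⟨?_, fun f => ?_⟩
  · ext x y
    have h1 : Filter.Tendsto (fun i => star (q i (y⁻¹ * x))) l (nhds (star (q0 (y⁻¹ * x)))) :=
      (continuous_star.tendsto _).comp (hl _)
    have h2 := hl (x⁻¹ * y)
    have h3 : (fun i => star (q i (y⁻¹ * x))) =ᶠ[l] fun i => q i (x⁻¹ * y) := by
      filter_upwards [hq] with i hi
      exact hi.1.apply x y
    have := tendsto_nhds_unique (h1.congr' h3) h2
    simpa using this
  · have h1 : Filter.Tendsto (fun i => f.sum fun x a => f.sum fun y b =>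
        star a * (Matrix.of fun x y : G => q i (x⁻¹ * y)) x y * b) l
        (nhds (f.sum fun x a => f.sum fun y b =>
        star a * (Matrix.of fun x y : G => q0 (x⁻¹ * y)) x y * b)) := by
      unfold Finsupp.sum
      refine tendsto_finsetSum _ fun x _ => tendsto_finsetSum _ fun y _ => ?_
      simp only [Matrix.of_apply]
      exact ((hl _).const_mul _).mul_const _
    refine ge_of_tendsto h1 ?_
    filter_upwards [hq] with i hi
    exact hi.2 f

theorem PD.conv {q : G → ℂ} (hq : PD q) {ι : Type} (s : Finset ι) (c : ι → ℂ) (γ : ι → G) :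
    PD fun x => ∑ a ∈ s, ∑ b ∈ s, star (c a) * c b * q ((γ a)⁻¹ * x * γ b) := by
  obtain ⟨H, i1, i2, i3, π, ξ, h⟩ := hq.gns
  have := PD_of_rep π (∑ a ∈ s, c a • (π (γ a) : H →L[ℂ] H) ξ)
  convert this using 1
  funext x
  rw [map_sum, sum_inner]
  refine Finset.sum_congr rfl fun a _ => ?_
  rw [inner_sum]
  refine Finset.sum_congr rfl fun b _ => ?_
  rw [map_smul, inner_smul_left, inner_smul_right, h]
  have h2 : (π x : H →L[ℂ] H) ((π (γ b) : H →L[ℂ] H) ξ) = (π (x * γ b) : H →L[ℂ] H) ξ := by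
    rw [map_mul]; rfl
  rw [h2, unitary_inner]
  simp [mul_assoc]

theorem PD.subgroup (S : Subgroup G) [DecidablePred (· ∈ S)] :
    PD fun x : G => if x ∈ S then (1 : ℂ) else 0 := by
  classical
  have h := (Matrix.PosSemidef.one (n := G ⧸ S) (R := ℂ)).submatrix
    (fun x : G => (QuotientGroup.mk x : G ⧸ S))
  unfold PD
  convert h using 1
  ext x y
  simp only [Matrix.of_apply, Matrix.submatrix_apply, Matrix.one_apply, QuotientGroup.eq]

/-! ### the norm predicate -/

/-- `f` is in the Fourier-Stieltjes algebra with decomposition norm at most `C` -/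
def BN (f : G → ℂ) (C : ℝ) : Prop :=
  ∃ a b c d : G → ℂ, PD a ∧ PD b ∧ PD c ∧ PD d ∧
    (∀ x, f x = a x - b x + Complex.I * (c x - d x)) ∧
    (a 1).re + (b 1).re + (c 1).re + (d 1).re ≤ C

theorem BN.mono {f : G → ℂ} {C D : ℝ} (h : BN f C) (hCD : C ≤ D) : BN f D := by
  obtain ⟨a, b, c, d, ha, hb, hc, hd, h1, h2⟩ := h
  exact ⟨a, b, c, d, ha, hb, hc, hd, h1, h2.trans hCD⟩

theorem BN.nonneg {f : G → ℂ} {C : ℝ} (h : BN f C) : 0 ≤ C := by
  obtain ⟨a, b, c, d, ha, hb, hc, hd, h1, h2⟩ := h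
  linarith [ha.one_re.2, hb.one_re.2, hc.one_re.2, hd.one_re.2]

theorem BN.bound {f : G → ℂ} {C : ℝ} (h : BN f C) (x : G) : ‖f x‖ ≤ C := by
  obtain ⟨a, b, c, d, ha, hb, hc, hd, h1, h2⟩ := h
  rw [h1]
  calc ‖a x - b x + Complex.I * (c x - d x)‖ ≤ ‖a x - b x‖ + ‖Complex.I * (c x - d x)‖ :=
        norm_add_le _ _
    _ = ‖a x - b x‖ + ‖c x - d x‖ := by rw [norm_mul, Complex.norm_I, one_mul]
    _ ≤ (‖a x‖ + ‖b x‖) + (‖c x‖ + ‖d x‖) := add_le_add (norm_sub_le _ _) (norm_sub_le _ _)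
    _ ≤ C := by linarith [ha.norm_le x, hb.norm_le x, hc.norm_le x, hd.norm_le x]

theorem BN.add {f g : G → ℂ} {C D : ℝ} (hf : BN f C) (hg : BN g D) :
    BN (fun x => f x + g x) (C + D) := by
  obtain ⟨a, b, c, d, ha, hb, hc, hd, h1, h2⟩ := hf
  obtain ⟨a', b', c', d', ha', hb', hc', hd', h1', h2'⟩ := hg
  refine ⟨_, _, _, _, ha.add ha', hb.add hb', hc.add hc', hd.add hd', fun x => ?_, ?_⟩
  · simp only [h1, h1']; ring
  · simp only [Complex.add_re]; linarith

theorem BN.mul {f g : G → ℂ} {C D : ℝ} (hf : BN f C) (hg : BN g D) :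
    BN (fun x => f x * g x) (C * D) := by
  have hC := hf.nonneg
  have hD := hg.nonneg
  obtain ⟨a, b, c, d, ha, hb, hc, hd, h1, h2⟩ := hf
  obtain ⟨a', b', c', d', ha', hb', hc', hd', h1', h2'⟩ := hg
  refine ⟨_, _, _, _, ((ha.mul ha').add (hb.mul hb')).add ((hc.mul hd').add (hd.mul hc')),
    ((ha.mul hb').add (hb.mul ha')).add ((hc.mul hc').add (hd.mul hd')),
    ((ha.mul hc').add (hc.mul ha')).add ((hb.mul hd').add (hd.mul hb')),
    ((ha.mul hd').add (hd.mul ha')).add ((hb.mul hc').add (hc.mul hb')), fun x => ?_, ?_⟩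
  · simp only [h1, h1']
    linear_combination (c x - d x) * (c' x - d' x) * Complex.I_sq
  · have key : ∀ {p q : G → ℂ}, PD p → PD q → (p 1 * q 1).re = (p 1).re * (q 1).re := by
      intro p q hp hq
      rw [hp.one_re.1, hq.one_re.1, ← Complex.ofReal_mul, Complex.ofReal_re]
      simp
    simp only [Complex.add_re]
    rw [key ha ha', key hb hb', key hc hd', key hd hc', key ha hb', key hb ha', key hc hc',
      key hd hd', key ha hc', key hc ha', key hb hd', key hd hb', key ha hd', key hd ha',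
      key hb hc', key hc hb']
    have e : ((a 1).re + (b 1).re + (c 1).re + (d 1).re) *
        ((a' 1).re + (b' 1).re + (c' 1).re + (d' 1).re) ≤ C * D :=
      mul_le_mul h2 h2' (by linarith [ha'.one_re.2, hb'.one_re.2, hc'.one_re.2, hd'.one_re.2]) hC
    linarith

theorem BN.of_PD {q : G → ℂ} (hq : PD q) : BN q (q 1).re :=
  ⟨q, _, _, _, hq, PD.zero, PD.zero, PD.zero, fun x => by simp, by simp⟩

theorem BN.neg {f : G → ℂ} {C : ℝ} (hf : BN f C) : BN (fun x => -f x) C := by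
  obtain ⟨a, b, c, d, ha, hb, hc, hd, h1, h2⟩ := hf
  exact ⟨b, a, d, c, hb, ha, hd, hc, fun x => by simp only [h1]; ring, by linarith⟩

theorem BN.I_mul {f : G → ℂ} {C : ℝ} (hf : BN f C) : BN (fun x => Complex.I * f x) C := by
  obtain ⟨a, b, c, d, ha, hb, hc, hd, h1, h2⟩ := hf
  exact ⟨d, c, a, b, hd, hc, ha, hb, fun x => by
    simp only [h1]; linear_combination (c x - d x) * Complex.I_sq, by linarith⟩

theorem BN.real_nonneg_mul {f : G → ℂ} {C : ℝ} (hf : BN f C) {r : ℝ} (hr : 0 ≤ r) :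
    BN (fun x => (r : ℂ) * f x) (r * C) := by
  obtain ⟨a, b, c, d, ha, hb, hc, hd, h1, h2⟩ := hf
  refine ⟨_, _, _, _, ha.const hr, hb.const hr, hc.const hr, hd.const hr, fun x => ?_, ?_⟩
  · simp only [h1]; ring
  · have : ∀ p : G → ℂ, ((r : ℂ) * p 1).re = r * (p 1).re := fun p => by simp
    simp only [this]
    nlinarith [mul_le_mul_of_nonneg_left h2 hr]

theorem BN.real_mul {f : G → ℂ} {C : ℝ} (hf : BN f C) (r : ℝ) :
    BN (fun x => (r : ℂ) * f x) (|r| * C) := by
  rcases le_total 0 r with h | h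
  · rw [abs_of_nonneg h]; exact hf.real_nonneg_mul h
  · rw [abs_of_nonpos h]
    have := (hf.real_nonneg_mul (r := -r) (by linarith)).neg
    convert this using 1
    funext x; push_cast; ring

theorem BN.cmul {f : G → ℂ} {C : ℝ} (hf : BN f C) (z : ℂ) :
    BN (fun x => z * f x) (2 * ‖z‖ * C) := by
  have h := (hf.real_mul z.re).add ((hf.real_mul z.im).I_mul)
  have h2 : |z.re| * C + |z.im| * C ≤ 2 * ‖z‖ * C := by
    have := Complex.abs_re_le_norm z
    have := Complex.abs_im_le_norm z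
    have := hf.nonneg
    nlinarith
  refine BN.mono ?_ h2
  convert h using 1
  funext x
  conv_lhs => rw [← Complex.re_add_im z]
  ring

theorem BN.const (z : ℂ) : BN (fun _ : G => z) (2 * ‖z‖) := by
  have := (BN.of_PD (PD.one (G := G))).cmul z
  simpa using this

theorem BN.pow {f : G → ℂ} {C : ℝ} (hf : BN f C) (n : ℕ) : BN (fun x => f x ^ n) (C ^ n) := by
  induction n with
  | zero => simpa using BN.of_PD (PD.one (G := G))
  | succ n ih => simpa [pow_succ] using ih.mul hf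

theorem BN.zero : BN (fun _ : G => (0 : ℂ)) 0 := by
  simpa using BN.of_PD (PD.zero (G := G))

theorem BN.sum {ι : Type} (s : Finset ι) {f : ι → G → ℂ} {C : ι → ℝ}
    (h : ∀ i ∈ s, BN (f i) (C i)) : BN (fun x => ∑ i ∈ s, f i x) (∑ i ∈ s, C i) := by
  classical
  induction s using Finset.induction_on with
  | empty => simpa using BN.zero
  | insert i s hi ih =>
    simp only [Finset.sum_insert hi]
    exact (h i (by simp)).add (ih fun j hj => h j (by simp [hj]))

theorem PD.tsum {ι : Type} {q : ι → G → ℂ} (hq : ∀ i, PD (q i))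
    (hs : Summable fun i => (q i 1).re) :
    PD (fun x => ∑' i, q i x) ∧ (∀ x, Summable fun i => q i x) ∧
      (∑' i, q i 1).re = ∑' i, (q i 1).re := by
  have hs' : ∀ x, Summable fun i => q i x := fun x =>
    Summable.of_norm_bounded hs (fun i => (hq i).norm_le x)
  refine ⟨?_, hs', ?_⟩
  · exact PD.limit (l := Filter.atTop) (q := fun (s : Finset ι) x => ∑ i ∈ s, q i x)
      (Filter.Eventually.of_forall fun s => PD.sum s fun i _ => hq i)
      (fun x => (hs' x).hasSum)
  · rw [Complex.re_tsum (hs' 1)]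

theorem BN.tsum {ι : Type} {f : ι → G → ℂ} {C : ι → ℝ} (h : ∀ i, BN (f i) (C i))
    (hs : Summable C) : BN (fun x => ∑' i, f i x) (∑' i, C i) := by
  choose a b c d ha hb hc hd h1 h2 using h
  have e : ∀ i, (a i 1).re ≤ C i ∧ (b i 1).re ≤ C i ∧ (c i 1).re ≤ C i ∧ (d i 1).re ≤ C i := by
    intro i
    have := (ha i).one_re.2
    have := (hb i).one_re.2
    have := (hc i).one_re.2
    have := (hd i).one_re.2
    have := h2 i
    refine ⟨?_, ?_, ?_, ?_⟩ <;> linarith
  have sa := Summable.of_nonneg_of_le (fun i => (ha i).one_re.2) (fun i => (e i).1) hs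
  have sb := Summable.of_nonneg_of_le (fun i => (hb i).one_re.2) (fun i => (e i).2.1) hs
  have sc := Summable.of_nonneg_of_le (fun i => (hc i).one_re.2) (fun i => (e i).2.2.1) hs
  have sd := Summable.of_nonneg_of_le (fun i => (hd i).one_re.2) (fun i => (e i).2.2.2) hs
  obtain ⟨pa, qa, ra⟩ := PD.tsum ha sa
  obtain ⟨pb, qb, rb⟩ := PD.tsum hb sb
  obtain ⟨pc, qc, rc⟩ := PD.tsum hc sc
  obtain ⟨pd, qd, rd⟩ := PD.tsum hd sd
  refine ⟨_, _, _, _, pa, pb, pc, pd, fun x => ?_, ?_⟩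
  · simp only [h1]
    rw [Summable.tsum_add ((qa x).sub (qb x)) (((qc x).sub (qd x)).mul_left _),
      Summable.tsum_sub (qa x) (qb x), tsum_mul_left, Summable.tsum_sub (qc x) (qd x)]
  · rw [ra, rb, rc, rd, ← Summable.tsum_add sa sb, ← Summable.tsum_add (sa.add sb) sc,
      ← Summable.tsum_add ((sa.add sb).add sc) sd]
    exact Summable.tsum_le_tsum h2 (((sa.add sb).add sc).add sd) hs

theorem BN.neumann {f : G → ℂ} {A ρ : ℝ} (hρ : 0 ≤ ρ) (hρ1 : ρ < 1)
    (h : ∀ n : ℕ, BN (fun x => f x ^ n) (A * ρ ^ n)) :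
    BN (fun x => (1 - f x)⁻¹) (A * (1 - ρ)⁻¹) := by
  have hs : Summable fun n : ℕ => A * ρ ^ n :=
    (summable_geometric_of_lt_one hρ hρ1).mul_left A
  have h1 := BN.tsum h hs
  rw [tsum_mul_left, tsum_geometric_of_lt_one hρ hρ1] at h1
  convert h1 using 1
  funext x
  have hx : ‖f x‖ < 1 := by
    by_contra hcon
    push Not at hcon
    have hlim : Filter.Tendsto (fun n : ℕ => A * ρ ^ n) Filter.atTop (nhds 0) := by
      simpa using (tendsto_pow_atTop_nhds_zero_of_lt_one hρ hρ1).const_mul A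
    obtain ⟨n, hn⟩ := (hlim.eventually (gt_mem_nhds (show (0 : ℝ) < 1 by norm_num))).exists
    have := (h n).bound x
    rw [norm_pow] at this
    have h3 : (1 : ℝ) ≤ ‖f x‖ ^ n := one_le_pow₀ hcon
    linarith
  exact (tsum_geometric_of_norm_lt_one hx).symm

theorem BN.coef {H : Type} [NormedAddCommGroup H] [InnerProductSpace ℂ H] [CompleteSpace H]
    (π : G →* unitary (H →L[ℂ] H)) (ξ η : H) :
    BN (fun x => ⟪η, (π x : H →L[ℂ] H) ξ⟫_ℂ) (‖ξ‖ ^ 2 + ‖η‖ ^ 2) := by
  have h4 : (0 : ℝ) ≤ 1 / 4 := by norm_num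
  refine ⟨_, _, _, _, (PD_of_rep π (ξ + η)).const h4, (PD_of_rep π (ξ - η)).const h4,
    (PD_of_rep π (ξ + Complex.I • η)).const h4, (PD_of_rep π (ξ - Complex.I • η)).const h4,
    fun x => ?_, ?_⟩
  · simp only [map_add, map_sub, inner_add_left, inner_add_right, inner_sub_left, inner_sub_right,
      map_smul, inner_smul_left, inner_smul_right, Complex.conj_I]
    push_cast
    linear_combination ((1 / 2 : ℂ) * ⟪η, (π x : H →L[ℂ] H) ξ⟫_ℂ
      - (1 / 2 : ℂ) * ⟪ξ, (π x : H →L[ℂ] H) η⟫_ℂ) * Complex.I_sq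
  · have e1 : ∀ ζ : H, (((1 / 4 : ℝ) : ℂ) * ⟪ζ, ((π 1 : unitary (H →L[ℂ] H)) : H →L[ℂ] H) ζ⟫_ℂ).re
        = 1 / 4 * ‖ζ‖ ^ 2 := by
      intro ζ
      rw [map_one]
      change (((1 / 4 : ℝ) : ℂ) * ⟪ζ, ζ⟫_ℂ).re = _
      rw [inner_self_c, ← Complex.ofReal_mul, Complex.ofReal_re]
    simp only [e1]
    have p1 := parallelogram_law_with_norm ℂ ξ η
    have p2 := parallelogram_law_with_norm ℂ ξ (Complex.I • η)
    rw [norm_smul, Complex.norm_I, one_mul] at p2
    nlinarith

theorem isCoef_iff (f : G → ℂ) : IsCoef f ↔ ∃ C, BN f C := by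
  constructor
  · rintro ⟨H, i1, i2, i3, π, ξ, η, h⟩
    refine ⟨‖ξ‖ ^ 2 + ‖η‖ ^ 2, ?_⟩
    have := BN.coef π ξ η
    convert this using 1
    funext x
    exact h x
  · rintro ⟨C, a, b, c, d, ha, hb, hc, hd, h1, -⟩
    classical
    let p : Fin 4 → G → ℂ := ![a, b, c, d]
    have hp : ∀ k, PD (p k) := by
      intro k
      fin_cases k
      · exact ha
      · exact hb
      · exact hc
      · exact hd
    choose H i1 i2 i3 π ξ hξ using fun k => (hp k).gns
    let w : G × Fin 4 → PiLp 2 (fun k => H k) := fun x =>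
      WithLp.toLp 2 (Pi.single x.2 ((π x.2 x.1 : H x.2 →L[ℂ] H x.2) (ξ x.2)))
    have hw := posSemidef_of_gram w
    have hval : ∀ x y : G, ∀ k l : Fin 4,
        ⟪w (x, k), w (y, l)⟫_ℂ = if k = l then p k (x⁻¹ * y) else 0 := by
      intro x y k l
      by_cases hkl : k = l
      · subst hkl
        rw [if_pos rfl, PiLp.inner_apply, Finset.sum_eq_single k]
        · simp only [w, Pi.single_eq_same]
          rw [unitary_inner, hξ]
        · intro j _ hj
          simp only [w, Pi.single_eq_of_ne hj, inner_zero_left]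
        · simp
      · rw [if_neg hkl, PiLp.inner_apply]
        refine Finset.sum_eq_zero fun j _ => ?_
        by_cases hj : j = k
        · subst hj
          simp only [w, Pi.single_eq_of_ne hkl, inner_zero_right]
        · simp only [w, Pi.single_eq_of_ne hj, inner_zero_left]
    let _ : MulAction G (G × Fin 4) :=
      { smul := fun g x => (g * x.1, x.2)
        one_smul := fun x => by
          change (1 * x.1, x.2) = x
          rw [one_mul]
        mul_smul := fun g h x => by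
          change (g * h * x.1, x.2) = (g * (h * x.1), x.2)
          rw [mul_assoc] }
    have hsm : ∀ (g : G) (x : G × Fin 4), g • x = (g * x.1, x.2) := fun _ _ => rfl
    obtain ⟨H', j1, j2, j3, π', v, hv, hπ⟩ := gns_kernel (G := G) _ hw (fun g x y => by
      simp only [Matrix.of_apply, hsm]
      rw [show w x = w (x.1, x.2) from rfl, show w y = w (y.1, y.2) from rfl, hval, hval]
      simp [mul_assoc])
    refine ⟨H', j1, j2, j3, π', v (1, 0) - v (1, 1) + Complex.I • (v (1, 2) - v (1, 3)),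
      v (1, 0) + v (1, 1) + v (1, 2) + v (1, 3), fun x => ?_⟩
    simp only [map_add, map_sub, map_smul, hπ, hsm, inner_add_left, inner_add_right,
      inner_sub_right, inner_smul_right, hv, Matrix.of_apply, hval, mul_one, inv_one, one_mul]
    rw [h1]
    simp [p]

end H697R3.NS
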