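import Pool.Agent.H697R3.NSRiesz

set_option autoImplicit false

open scoped ComplexOrder ComplexConjugate InnerProductSpace
open Finset

noncomputable section

namespace H697R3.NS

/-- parameters of a generalised Riesz product -/
structure Dat where
  M : ℕ → ℕ
  θ : ℕ → ℂ
  g : ℕ → ℕ
  R : ℕ → ℕ
  L : ℕ → ℕ
  R0 : R 0 = 0
  RS : ∀ k, R (k + 1) = R k + M k * g k
  L0 : L 0 = 1
  LS : ∀ k, L (k + 1) = L k * (2 * R (k + 1) + 1)
  hM : ∀ k, 0 < M k
  hθ : ∀ k, ‖θ k‖ = 1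
  hg : ∀ k, 0 < g k
  hLg : ∀ k, L k ∣ g k

/-- state recursion -/
def stt (M : ℕ → ℕ) (γ : ℕ → ℕ → ℕ → ℕ) : ℕ → ℕ × ℕ
  | 0 => (0, 1)
  | k + 1 =>
    let s := stt M γ k
    let R' := s.1 + M k * γ k s.1 s.2
    (R', s.2 * (2 * R' + 1))

theorem exists_dat (M : ℕ → ℕ) (θ : ℕ → ℂ) (hM : ∀ k, 0 < M k) (hθ : ∀ k, ‖θ k‖ = 1)
    (P : ℕ → ℕ → ℕ → Prop)
    (hP : ∀ k R L : ℕ, 0 < L → ∃ g : ℕ, 0 < g ∧ L ∣ g ∧ P k R g) :
    ∃ D : Dat, D.M = M ∧ D.θ = θ ∧ ∀ k, P k (D.R k) (D.g k) := by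
  have hP' : ∀ k R L : ℕ, ∃ g : ℕ, 0 < L → 0 < g ∧ L ∣ g ∧ P k R g := by
    intro k R L
    by_cases h : 0 < L
    · obtain ⟨g, hg⟩ := hP k R L h
      exact ⟨g, fun _ => hg⟩
    · exact ⟨0, fun h' => absurd h' h⟩
  choose γ hγ using hP'
  have hpos : ∀ k, 0 < (stt M γ k).2 := by
    intro k
    induction k with
    | zero => simp [stt]
    | succ k ih => simp only [stt]; positivity
  refine ⟨⟨M, θ, fun k => γ k (stt M γ k).1 (stt M γ k).2, fun k => (stt M γ k).1,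
    fun k => (stt M γ k).2, rfl, fun k => rfl, rfl, fun k => rfl, hM, hθ,
    fun k => (hγ k _ _ (hpos k)).1, fun k => (hγ k _ _ (hpos k)).2.1⟩, rfl, rfl, fun k => ?_⟩
  exact (hγ k _ _ (hpos k)).2.2

namespace Dat
variable (D : Dat)

lemma L_pos (k : ℕ) : 0 < D.L k := by
  induction k with
  | zero => rw [D.L0]; norm_num
  | succ k ih => rw [D.LS]; positivity

lemma L_ge (k : ℕ) : 2 * D.R k + 1 ≤ D.L k := by
  cases k with
  | zero => rw [D.L0, D.R0]
  | succ k => rw [D.LS]; exact Nat.le_mul_of_pos_left _ (D.L_pos k)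

lemma L_dvd {j k : ℕ} (h : j ≤ k) : D.L j ∣ D.L k := by
  induction h with
  | refl => exact dvd_rfl
  | step _ ih => rw [D.LS]; exact Dvd.dvd.mul_right ih _

lemma L_dvd_g {j k : ℕ} (h : j ≤ k) : (D.L j : ℤ) ∣ (D.g k : ℤ) := by
  exact_mod_cast (D.L_dvd h).trans (D.hLg k)

lemma g_ge (k : ℕ) : 2 * D.R k + 1 ≤ D.g k :=
  (D.L_ge k).trans (Nat.le_of_dvd (D.hg k) (D.hLg k))

lemma R_succ_ge (k : ℕ) : D.R k + 1 ≤ D.R (k + 1) := by
  rw [D.RS]
  have := Nat.mul_pos (D.hM k) (D.hg k)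
  omega

lemma R_mono : Monotone D.R := monotone_nat_of_le_succ fun k => by
  have := D.R_succ_ge k; omega

lemma R_ge (k : ℕ) : k ≤ D.R k := by
  induction k with
  | zero => simp
  | succ k ih => have := D.R_succ_ge k; omega

/-- partial products, starting at stage `K` -/
def N (K : ℕ) : ℕ → ℤ → ℂ
  | 0 => fun n => if n = 0 then 1 else 0
  | j + 1 => Tst (D.M (K + j)) (D.θ (K + j)) (D.g (K + j)) (N K j)

lemma N_supp (K j : ℕ) {n : ℤ} (h : D.N K j n ≠ 0) : |n| ≤ D.R (K + j) := by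
  induction j generalizing n with
  | zero =>
    have : n = 0 := by
      by_contra hn
      exact h (by simp [N, hn])
    subst this; simp
  | succ j ih =>
    obtain ⟨w, m, hw, hm, rfl⟩ := Tst_supp h
    have h1 := ih hw
    have e : D.R (K + (j + 1)) = D.R (K + j) + D.M (K + j) * D.g (K + j) := D.RS (K + j)
    rw [e]
    push_cast
    calc |w + m * (D.g (K + j) : ℤ)| ≤ |w| + |m * (D.g (K + j) : ℤ)| := abs_add_le _ _
      _ = |w| + |m| * (D.g (K + j) : ℤ) := by rw [abs_mul, Nat.abs_cast]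
      _ ≤ _ := by
        have : (0 : ℤ) ≤ D.g (K + j) := by positivity
        nlinarith

lemma N_dvd (K j : ℕ) {n : ℤ} (h : D.N K j n ≠ 0) : (D.L K : ℤ) ∣ n := by
  induction j generalizing n with
  | zero =>
    have : n = 0 := by
      by_contra hn
      exact h (by simp [N, hn])
    subst this; simp
  | succ j ih =>
    obtain ⟨w, m, hw, hm, rfl⟩ := Tst_supp h
    exact dvd_add (ih hw) (Dvd.dvd.mul_left (D.L_dvd_g (Nat.le_add_right K j)) m)

lemma N_eval (K j : ℕ) {w : ℤ} (hw : |w| ≤ D.R (K + j)) (m : ℤ) :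
    D.N K (j + 1) (w + m * D.g (K + j)) =
      kap (D.M (K + j)) (D.θ (K + j)) m * D.N K j w :=
  Tst_eval (D.g_ge (K + j)) (fun _ h => D.N_supp K j h) hw m

lemma N_step (K j : ℕ) {n : ℤ} (hn : |n| ≤ D.R (K + j)) : D.N K (j + 1) n = D.N K j n := by
  have := D.N_eval K j hn 0
  rw [kap_zero (D.hM _) (D.hθ _), one_mul] at this
  simpa using this

lemma N_stab (K : ℕ) {j j' : ℕ} (hjj' : j ≤ j') {n : ℤ} (hn : |n| ≤ D.R (K + j)) :
    D.N K j' n = D.N K j n := by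
  induction hjj' with
  | refl => rfl
  | @step i hi ih =>
    rw [D.N_step K i, ih]
    refine hn.trans ?_
    exact_mod_cast D.R_mono (Nat.add_le_add_left hi K)

/-- the infinite product -/
def nu (K : ℕ) (n : ℤ) : ℂ := D.N K n.natAbs n

lemma abs_le_R (K : ℕ) (n : ℤ) : |n| ≤ D.R (K + n.natAbs) := by
  rw [← Int.natCast_natAbs]
  have h1 := D.R_ge n.natAbs
  have h2 := D.R_mono (show n.natAbs ≤ K + n.natAbs by omega)
  exact_mod_cast h1.trans h2

lemma nu_eq (K j : ℕ) {n : ℤ} (hn : |n| ≤ D.R (K + j)) : D.nu K n = D.N K j n := by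
  unfold nu
  rcases le_total j n.natAbs with h | h
  · exact D.N_stab K h hn
  · exact (D.N_stab K h (D.abs_le_R K n)).symm

lemma nu_zero (K : ℕ) : D.nu K 0 = 1 := by
  simp [nu, N]

lemma nu_dvd (K : ℕ) {n : ℤ} (h : D.nu K n ≠ 0) : (D.L K : ℤ) ∣ n := D.N_dvd K _ h

lemma N_fact (K j : ℕ) {w t : ℤ} (hw : |w| ≤ D.R K) (ht : (D.L K : ℤ) ∣ t) :
    D.N 0 (K + j) (w + t) = D.N 0 K w * D.N K j t := by
  induction j generalizing t with
  | zero =>
    by_cases h : t = 0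
    · subst h; simp [N]
    · have e1 : D.N K 0 t = 0 := by simp [N, h]
      rw [e1, mul_zero, add_zero]
      by_contra hne
      have h1 := D.N_supp 0 K hne
      rw [zero_add] at h1
      have h2 : (D.L K : ℤ) ≤ |t| := Int.le_of_dvd (abs_pos.mpr h) ((dvd_abs _ _).mpr ht)
      have h3 : |t| ≤ |w + t| + |w| := by
        calc |t| = |(w + t) - w| := by congr 1; ring
          _ ≤ _ := abs_sub _ _
      have h4 : (2 * D.R K + 1 : ℤ) ≤ D.L K := by exact_mod_cast D.L_ge K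
      linarith
  | succ j ih =>
    have e : D.N 0 (K + (j + 1)) = Tst (D.M (K + j)) (D.θ (K + j)) (D.g (K + j))
        (D.N 0 (K + j)) := by
      change D.N 0 ((K + j) + 1) = _
      simp only [N, zero_add]
    rw [e]
    change _ = _ * Tst (D.M (K + j)) (D.θ (K + j)) (D.g (K + j)) (D.N K j) t
    unfold Tst
    rw [mul_left_comm]
    congr 1
    rw [Finset.mul_sum]
    refine Finset.sum_congr rfl fun a _ => ?_
    rw [Finset.mul_sum]
    refine Finset.sum_congr rfl fun b _ => ?_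
    have hd : (D.L K : ℤ) ∣ -(a * (D.g (K + j) : ℤ)) + t + b * (D.g (K + j) : ℤ) := by
      have hg := D.L_dvd_g (Nat.le_add_right K j)
      exact dvd_add (dvd_add (dvd_neg.mpr (Dvd.dvd.mul_left hg _)) ht) (Dvd.dvd.mul_left hg _)
    have e2 : -(a * (D.g (K + j) : ℤ)) + (w + t) + b * (D.g (K + j) : ℤ) =
        w + (-(a * (D.g (K + j) : ℤ)) + t + b * (D.g (K + j) : ℤ)) := by ring
    rw [e2, ih hd]
    ring

lemma nu_fact (K : ℕ) {w t : ℤ} (hw : |w| ≤ D.R K) (ht : (D.L K : ℤ) ∣ t) :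
    D.nu 0 (w + t) = D.nu 0 w * D.nu K t := by
  have h1 : |w + t| ≤ D.R (0 + (K + ((w + t).natAbs + t.natAbs))) := by
    refine (D.abs_le_R 0 (w + t)).trans ?_
    exact_mod_cast D.R_mono (by omega)
  have h2 : |t| ≤ D.R (K + ((w + t).natAbs + t.natAbs)) := by
    refine (D.abs_le_R K t).trans ?_
    exact_mod_cast D.R_mono (by omega)
  rw [D.nu_eq 0 _ h1, D.nu_eq 0 K (n := w) (by simpa using hw), D.nu_eq K _ h2]
  exact D.N_fact K _ hw ht

lemma nu_fact' (K : ℕ) {w : ℤ} (hw : |w| ≤ D.R K) (n : ℤ) [Decidable ((D.L K : ℤ) ∣ n - w)] :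
    (if (D.L K : ℤ) ∣ n - w then D.nu 0 n else 0) = D.nu 0 w * D.nu K (n - w) := by
  split_ifs with h
  · have := D.nu_fact K hw h
    rwa [add_sub_cancel] at this
  · have : D.nu K (n - w) = 0 := by
      by_contra hne
      exact h (D.nu_dvd K hne)
    rw [this, mul_zero]

lemma nu_eval (k : ℕ) {w : ℤ} (hw : |w| ≤ D.R k) {m : ℤ} (hm : |m| ≤ D.M k) :
    D.nu 0 (w + m * D.g k) = kap (D.M k) (D.θ k) m * D.nu 0 w := by
  have h1 : |w + m * (D.g k : ℤ)| ≤ D.R (0 + (k + 1)) := by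
    rw [zero_add, D.RS]
    push_cast
    calc |w + m * (D.g k : ℤ)| ≤ |w| + |m * (D.g k : ℤ)| := abs_add_le _ _
      _ = |w| + |m| * (D.g k : ℤ) := by rw [abs_mul, Nat.abs_cast]
      _ ≤ _ := by
        have : (0 : ℤ) ≤ D.g k := by positivity
        nlinarith
  rw [D.nu_eq 0 (k + 1) h1, D.nu_eq 0 k (n := w) (by simpa using hw)]
  have := D.N_eval 0 k (w := w) (by simpa using hw) m
  simpa using this

section PDs
variable {G : Type} [Group G] (g0 : G) (hinj : Function.Injective fun n : ℤ => g0 ^ n)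
include hinj

lemma PD_N (K j : ℕ) : PD (ext g0 (D.N K j)) := by
  induction j with
  | zero => exact PD_ext_delta g0 hinj
  | succ j ih => exact PD_ext_Tst g0 hinj _ _ ih

lemma PD_nu (K : ℕ) : PD (ext g0 (D.nu K)) := by
  refine PD.limit (l := Filter.atTop) (q := fun j => ext g0 (D.N K j))
    (Filter.Eventually.of_forall fun j => D.PD_N g0 hinj K j) ?_
  refine ext_cases g0 ?_ ?_
  · intro n
    simp only [ext_apply g0 hinj]
    refine tendsto_const_nhds.congr' ?_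
    filter_upwards [Filter.eventually_ge_atTop n.natAbs] with j hj
    exact (D.N_stab K hj (D.abs_le_R K n)).symm
  · intro x hx
    simp only [ext_out g0 _ hx]
    exact tendsto_const_nhds

lemma nu_norm_le (K : ℕ) (n : ℤ) : ‖D.nu K n‖ ≤ 1 := by
  have h := (D.PD_nu g0 hinj K).norm_le (g0 ^ n)
  rw [ext_apply g0 hinj] at h
  have h1 : ext g0 (D.nu K) 1 = 1 := by
    have := ext_apply g0 hinj (D.nu K) 0
    rw [zpow_zero] at this
    rw [this, D.nu_zero]
  rw [h1] at h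
  simpa using h

end PDs

/-- the frequencies reached after `j` steps -/
def W : ℕ → Finset ℤ
  | 0 => {0}
  | j + 1 => (W j ×ˢ Finset.Icc (-(D.M j : ℤ)) (D.M j)).image fun p => p.1 + p.2 * D.g j

lemma mem_W_succ (j : ℕ) (n : ℤ) :
    n ∈ D.W (j + 1) ↔ ∃ w ∈ D.W j, ∃ m : ℤ, |m| ≤ D.M j ∧ n = w + m * D.g j := by
  simp only [W, Finset.mem_image, Finset.mem_product, Finset.mem_Icc, Prod.exists]
  constructor
  · rintro ⟨w, m, ⟨hw, hm⟩, rfl⟩
    exact ⟨w, hw, m, abs_le.mpr hm, rfl⟩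
  · rintro ⟨w, hw, m, hm, rfl⟩
    exact ⟨w, m, ⟨hw, abs_le.mp hm⟩, rfl⟩

lemma W_R (j : ℕ) {w : ℤ} (hw : w ∈ D.W j) : |w| ≤ D.R j := by
  induction j generalizing w with
  | zero => simp [W] at hw; subst hw; simp
  | succ j ih =>
    obtain ⟨v, hv, m, hm, rfl⟩ := (D.mem_W_succ j w).mp hw
    have h1 := ih hv
    rw [D.RS]
    push_cast
    calc |v + m * (D.g j : ℤ)| ≤ |v| + |m * (D.g j : ℤ)| := abs_add_le _ _
      _ = |v| + |m| * (D.g j : ℤ) := by rw [abs_mul, Nat.abs_cast]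
      _ ≤ _ := by
        have : (0 : ℤ) ≤ D.g j := by positivity
        nlinarith

lemma W_succ (j : ℕ) : D.W j ⊆ D.W (j + 1) := fun w hw =>
  (D.mem_W_succ j w).mpr ⟨w, hw, 0, by simp, by simp⟩

lemma W_mono : Monotone D.W := monotone_nat_of_le_succ D.W_succ

lemma W_card (j : ℕ) : (D.W (j + 1)).card ≤ (D.W j).card * (2 * D.M j + 1) := by
  refine Finset.card_image_le.trans ?_
  rw [Finset.card_product, Int.card_Icc]
  apply le_of_eq
  congr 1
  omega

lemma N_W (j : ℕ) {n : ℤ} (h : D.N 0 j n ≠ 0) : n ∈ D.W j := by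
  induction j generalizing n with
  | zero =>
    have : n = 0 := by
      by_contra hn
      exact h (by simp [N, hn])
    subst this; simp [W]
  | succ j ih =>
    obtain ⟨w, m, hw, hm, rfl⟩ := Tst_supp h
    rw [zero_add] at hm ⊢
    exact (D.mem_W_succ j _).mpr ⟨w, ih hw, m, by exact_mod_cast hm, rfl⟩

lemma nu_W (j : ℕ) {n : ℤ} (hn : |n| ≤ D.R j) (h : D.nu 0 n ≠ 0) : n ∈ D.W j := by
  rw [D.nu_eq 0 j (by simpa using hn)] at h
  exact D.N_W j h

end Dat

end H697R3.NS
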