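import Mathlib

set_option autoImplicit false

open scoped ComplexConjugate InnerProductSpace Topology
open Filter

noncomputable section

namespace H697R3.NS

section idem
attribute [local instance] Ultrafilter.add Ultrafilter.addSemigroup

theorem exists_idem : ∃ p : Ultrafilter ℕ+, ∀ P : ℕ+ → Prop,
    (∀ᶠ c in (p : Filter ℕ+), P c) ↔
      ∀ᶠ a in (p : Filter ℕ+), ∀ᶠ b in (p : Filter ℕ+), P (a + b) := by
  obtain ⟨p, hp⟩ := exists_idempotent_of_compact_t2_of_continuous_add_left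
    (@Ultrafilter.continuous_add_left ℕ+ _)
  refine ⟨p, fun P => ?_⟩
  have := Ultrafilter.eventually_add p p P
  rw [hp] at this
  exact this

end idem

variable {H : Type} [NormedAddCommGroup H] [InnerProductSpace ℂ H] [CompleteSpace H]

/-- existence of bounded ultrafilter limits -/
lemma exists_ulim {I : Type} (p : Ultrafilter I) {φ : I → ℂ} {C : ℝ} (h : ∀ i, ‖φ i‖ ≤ C) :
    ∃ z, Tendsto φ p (𝓝 z) := by
  have hc : IsCompact (Metric.closedBall (0 : ℂ) C) := isCompact_closedBall _ _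
  obtain ⟨x, -, hx⟩ := hc.ultrafilter_le_nhds (p.map φ) (by
    rw [Filter.le_principal_iff]
    change ∀ᶠ i in (p : Filter I), φ i ∈ Metric.closedBall (0 : ℂ) C
    exact Filter.Eventually.of_forall fun i => by simpa using h i)
  exact ⟨x, hx⟩

lemma exists_wlim {I : Type} (p : Ultrafilter I) {V : I → H} {C : ℝ} (h : ∀ i, ‖V i‖ ≤ C) :
    ∃ z : H, ∀ w : H, Tendsto (fun i => ⟪V i, w⟫_ℂ) p (𝓝 ⟪z, w⟫_ℂ) := by
  have hb : ∀ w : H, ∀ i, ‖⟪V i, w⟫_ℂ‖ ≤ C * ‖w‖ := fun w i =>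
    (norm_inner_le_norm _ _).trans (mul_le_mul_of_nonneg_right (h i) (norm_nonneg _))
  choose L hL using fun w => exists_ulim p (hb w)
  have hadd : ∀ v w, L (v + w) = L v + L w := fun v w => by
    refine tendsto_nhds_unique (hL (v + w)) ?_
    simpa only [inner_add_right] using (hL v).add (hL w)
  have hsmul : ∀ (c : ℂ) w, L (c • w) = c * L w := fun c w => by
    refine tendsto_nhds_unique (hL (c • w)) ?_
    simpa only [inner_smul_right] using (hL w).const_mul c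
  have hn : ∀ w, ‖L w‖ ≤ C * ‖w‖ := fun w =>
    le_of_tendsto (hL w).norm (Eventually.of_forall (hb w))
  let F : H →ₗ[ℂ] ℂ := { toFun := L, map_add' := hadd, map_smul' := by simpa using hsmul }
  refine ⟨(InnerProductSpace.toDual ℂ H).symm (F.mkContinuous C hn), fun w => ?_⟩
  rw [InnerProductSpace.toDual_symm_apply]
  exact hL w

/-- powers of a unitary -/
def Ua (u : unitary (H →L[ℂ] H)) (k : ℤ) : H →L[ℂ] H := ((u ^ k : unitary (H →L[ℂ] H)) : H →L[ℂ] H)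

section U
variable (u : unitary (H →L[ℂ] H))

lemma Ua_add (k l : ℤ) (v : H) : Ua u (k + l) v = Ua u k (Ua u l v) := by
  unfold Ua; rw [zpow_add]; rfl

lemma Ua_zero (v : H) : Ua u 0 v = v := by
  unfold Ua; rw [zpow_zero]; rfl

lemma Ua_norm (k : ℤ) (v : H) : ‖Ua u k v‖ = ‖v‖ := Unitary.norm_map _ _

lemma Ua_inner (k : ℤ) (v w : H) : ⟪Ua u k v, Ua u k w⟫_ℂ = ⟪v, w⟫_ℂ := Unitary.inner_map_map _ _ _

lemma Ua_adj (k : ℤ) (v w : H) : ⟪Ua u k v, w⟫_ℂ = ⟪v, Ua u (-k) w⟫_ℂ := by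
  have : w = Ua u k (Ua u (-k) w) := by rw [← Ua_add]; simp [Ua_zero]
  conv_lhs => rw [this]
  rw [Ua_inner]

lemma Ua_iter (k : ℤ) (x : H) (m : ℕ) : ‖Ua u (m * k) x - x‖ ≤ m * ‖Ua u k x - x‖ := by
  induction m with
  | zero => simp [Ua_zero]
  | succ m ih =>
    have e : Ua u ((m + 1 : ℕ) * k) x - x = Ua u k (Ua u (m * k) x - x) + (Ua u k x - x) := by
      rw [map_sub, ← Ua_add]
      have : ((m + 1 : ℕ) : ℤ) * k = k + m * k := by push_cast; ring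
      rw [this]; abel
    rw [e]
    calc _ ≤ ‖Ua u k (Ua u (m * k) x - x)‖ + ‖Ua u k x - x‖ := norm_add_le _ _
      _ ≤ m * ‖Ua u k x - x‖ + ‖Ua u k x - x‖ := by rw [Ua_norm]; linarith
      _ = _ := by push_cast; ring

lemma Ua_iter_int (k : ℤ) (x : H) (m : ℤ) : ‖Ua u (m * k) x - x‖ ≤ |m| * ‖Ua u k x - x‖ := by
  rcases le_total 0 m with h | h
  · obtain ⟨n, rfl⟩ := Int.eq_ofNat_of_zero_le h
    simpa using Ua_iter u k x n
  · obtain ⟨n, hn⟩ := Int.eq_ofNat_of_zero_le (show 0 ≤ -m by linarith)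
    have hm : m = -(n : ℤ) := by linarith
    subst hm
    have e : ‖Ua u (-(n : ℤ) * k) x - x‖ = ‖Ua u (n * k) x - x‖ := by
      have h1 : Ua u (n * k) (Ua u (-(n : ℤ) * k) x - x) = x - Ua u (n * k) x := by
        rw [map_sub, ← Ua_add]
        have : (n : ℤ) * k + -(n : ℤ) * k = 0 := by ring
        rw [this, Ua_zero]
      rw [← Ua_norm u (n * k) (Ua u (-(n : ℤ) * k) x - x), h1, norm_sub_rev]
    rw [e]
    simpa using Ua_iter u k x n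

end U

section Proj
variable (u : unitary (H →L[ℂ] H)) (p : Ultrafilter ℕ+)

lemma exE (n : ℕ) (v : H) : ∃ z : H, ∀ w : H,
    Tendsto (fun a : ℕ+ => ⟪Ua u ((n : ℤ) * (a : ℕ)) v, w⟫_ℂ) p (𝓝 ⟪z, w⟫_ℂ) :=
  exists_wlim p (C := ‖v‖) fun a => by rw [Ua_norm]

/-- weak limit of `u^(n a)` along `p` -/
def E (n : ℕ) (v : H) : H := Classical.choose (exE u p n v)

lemma E_spec (n : ℕ) (v w : H) :
    Tendsto (fun a : ℕ+ => ⟪Ua u ((n : ℤ) * (a : ℕ)) v, w⟫_ℂ) p (𝓝 ⟪E u p n v, w⟫_ℂ) :=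
  Classical.choose_spec (exE u p n v) w

lemma E_uniq (n : ℕ) (v z : H)
    (h : ∀ w, Tendsto (fun a : ℕ+ => ⟪Ua u ((n : ℤ) * (a : ℕ)) v, w⟫_ℂ) p (𝓝 ⟪z, w⟫_ℂ)) :
    E u p n v = z :=
  ext_inner_right ℂ fun w => tendsto_nhds_unique (E_spec u p n v w) (h w)

lemma E_norm (n : ℕ) (v : H) : ‖E u p n v‖ ≤ ‖v‖ := by
  have h1 := (E_spec u p n v (E u p n v)).norm
  have h2 : ‖⟪E u p n v, E u p n v⟫_ℂ‖ ≤ ‖v‖ * ‖E u p n v‖ := by
    refine le_of_tendsto h1 (Eventually.of_forall fun a => ?_)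
    calc _ ≤ ‖Ua u ((n : ℤ) * (a : ℕ)) v‖ * ‖E u p n v‖ := norm_inner_le_norm _ _
      _ = _ := by rw [Ua_norm]
  rw [inner_self_eq_norm_sq_to_K] at h2
  have h3 : ‖E u p n v‖ ^ 2 ≤ ‖v‖ * ‖E u p n v‖ := by simpa using h2
  by_contra hcon
  push Not at hcon
  have : 0 < ‖E u p n v‖ := lt_of_le_of_lt (norm_nonneg _) hcon
  nlinarith

lemma E_add (n : ℕ) (v w : H) : E u p n (v + w) = E u p n v + E u p n w := by
  refine E_uniq u p n _ _ fun z => ?_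
  simp only [map_add, inner_add_left]
  exact (E_spec u p n v z).add (E_spec u p n w z)

lemma E_smul (n : ℕ) (c : ℂ) (v : H) : E u p n (c • v) = c • E u p n v := by
  refine E_uniq u p n _ _ fun z => ?_
  simp only [map_smul, inner_smul_left]
  exact (E_spec u p n v z).const_mul _

lemma E_comm (n : ℕ) (k : ℤ) (v : H) : E u p n (Ua u k v) = Ua u k (E u p n v) := by
  refine E_uniq u p n _ _ fun z => ?_
  have h := E_spec u p n v (Ua u (-k) z)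
  rw [Ua_adj]
  refine h.congr fun a => ?_
  rw [← Ua_add, Ua_adj, Ua_adj, ← Ua_add]
  congr 2
  ring_nf

variable (hp : ∀ P : ℕ+ → Prop,
    (∀ᶠ c in (p : Filter ℕ+), P c) ↔
      ∀ᶠ a in (p : Filter ℕ+), ∀ᶠ b in (p : Filter ℕ+), P (a + b))

include hp

lemma E_idem (n : ℕ) (v : H) : E u p n (E u p n v) = E u p n v := by
  refine E_uniq u p n _ _ fun w => ?_
  have h := E_spec u p n v w
  -- for closed neighbourhoods
  rw [(closed_nhds_basis _).tendsto_right_iff] at h ⊢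
  intro s hs
  have h1 := h s hs
  rw [hp] at h1
  filter_upwards [h1] with a ha
  -- limit over b
  have h2 : Tendsto (fun b : ℕ+ => ⟪Ua u ((n : ℤ) * ((a + b : ℕ+) : ℕ)) v, w⟫_ℂ) p
      (𝓝 ⟪Ua u ((n : ℤ) * (a : ℕ)) (E u p n v), w⟫_ℂ) := by
    rw [Ua_adj]
    refine (E_spec u p n v (Ua u (-((n : ℤ) * (a : ℕ))) w)).congr fun b => ?_
    rw [Ua_adj, Ua_adj, ← Ua_add]
    congr 3
    push_cast
    ring
  exact hs.2.mem_of_tendsto h2 ha

lemma E_orth (n : ℕ) (x y : H) (hx : E u p n x = x) (hy : E u p n y = 0) : ⟪x, y⟫_ℂ = 0 := by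
  -- ‖x‖ ≤ ‖x + t y‖ for all t
  have key : ∀ t : ℂ, ‖x‖ ≤ ‖x + t • y‖ := by
    intro t
    have : E u p n (x + t • y) = x := by rw [E_add, E_smul, hx, hy]; simp
    calc ‖x‖ = ‖E u p n (x + t • y)‖ := by rw [this]
      _ ≤ _ := E_norm u p n _
  by_contra hne
  have hy0 : y ≠ 0 := by rintro rfl; simp at hne
  have hyn : (0 : ℝ) < ‖y‖ ^ 2 := by positivity
  set c := ⟪y, x⟫_ℂ with hc
  have hc' : c ≠ 0 := by
    intro h0
    apply hne
    rw [← inner_conj_symm, ← hc, h0]; simp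
  set t : ℂ := -(c / ((‖y‖ ^ 2 : ℝ) : ℂ)) with ht
  have h1 := key t
  have h2 : ‖x + t • y‖ ^ 2 = ‖x‖ ^ 2 - ‖c‖ ^ 2 / ‖y‖ ^ 2 := by
    rw [@norm_add_sq ℂ, norm_smul, inner_smul_right]
    have e1 : RCLike.re (t * ⟪x, y⟫_ℂ) = -(‖c‖ ^ 2 / ‖y‖ ^ 2) := by
      have : ⟪x, y⟫_ℂ = conj c := by rw [hc, inner_conj_symm]
      rw [this, ht]
      have : -(c / ((‖y‖ ^ 2 : ℝ) : ℂ)) * conj c = ((-(‖c‖ ^ 2 / ‖y‖ ^ 2) : ℝ) : ℂ) := by
        rw [neg_mul, div_mul_eq_mul_div, Complex.mul_conj, Complex.normSq_eq_norm_sq]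
        push_cast
        ring
      rw [this]
      exact Complex.ofReal_re _
    have e2 : ‖t‖ = ‖c‖ / ‖y‖ ^ 2 := by
      rw [ht, norm_neg, norm_div, Complex.norm_real, Real.norm_of_nonneg hyn.le]
    rw [e1, e2]
    field_simp
    ring
  have h3 : ‖x‖ ^ 2 ≤ ‖x + t • y‖ ^ 2 := by
    have := norm_nonneg x
    nlinarith
  have h4 : 0 < ‖c‖ ^ 2 / ‖y‖ ^ 2 := by
    have := norm_pos_iff.mpr hc'
    positivity
  linarith

lemma E_selfadj (n : ℕ) (v w : H) : ⟪E u p n v, w⟫_ℂ = ⟪v, E u p n w⟫_ℂ := by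
  have hsub : ∀ z, E u p n (z - E u p n z) = 0 := by
    intro z
    have : z - E u p n z = z + (-1 : ℂ) • E u p n z := by simp [sub_eq_add_neg]
    rw [this, E_add, E_smul, E_idem u p hp]
    simp
  have h1 : ⟪E u p n v, w - E u p n w⟫_ℂ = 0 :=
    E_orth u p hp n _ _ (E_idem u p hp n v) (hsub w)
  have h2 : ⟪E u p n w, v - E u p n v⟫_ℂ = 0 :=
    E_orth u p hp n _ _ (E_idem u p hp n w) (hsub v)
  rw [inner_sub_right, sub_eq_zero] at h1 h2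
  rw [h1, ← inner_conj_symm v, h2, inner_conj_symm]

omit hp in
lemma E_strong (n : ℕ) (x : H) (hx : E u p n x = x) :
    Tendsto (fun a : ℕ+ => ‖Ua u ((n : ℤ) * (a : ℕ)) x - x‖) p (𝓝 0) := by
  have h := E_spec u p n x x
  rw [hx] at h
  have h1 : Tendsto (fun a : ℕ+ => ‖Ua u ((n : ℤ) * (a : ℕ)) x - x‖ ^ 2) p (𝓝 0) := by
    have h2 : Tendsto (fun a : ℕ+ => 2 * ‖x‖ ^ 2 -
        2 * (⟪Ua u ((n : ℤ) * (a : ℕ)) x, x⟫_ℂ).re) p (𝓝 (2 * ‖x‖ ^ 2 - 2 * (⟪x, x⟫_ℂ).re)) :=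
      (((Complex.continuous_re.tendsto _).comp h).const_mul 2).const_sub _
    have e : 2 * ‖x‖ ^ 2 - 2 * (⟪x, x⟫_ℂ).re = 0 := by
      have : (⟪x, x⟫_ℂ).re = ‖x‖ ^ 2 := by
        rw [inner_self_eq_norm_sq_to_K]; norm_cast
      rw [this]; ring
    rw [e] at h2
    refine h2.congr fun a => ?_
    rw [@norm_sub_sq ℂ, Ua_norm]
    change _ = ‖x‖ ^ 2 - 2 * (⟪Ua u ((n : ℤ) * (a : ℕ)) x, x⟫_ℂ).re + ‖x‖ ^ 2
    ring
  have h3 := (Real.continuous_sqrt.tendsto _).comp h1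
  simpa [Function.comp_def, Real.sqrt_sq (norm_nonneg _)] using h3

omit hp in
lemma E_of_strong (n : ℕ) (x : H)
    (h : Tendsto (fun a : ℕ+ => ‖Ua u ((n : ℤ) * (a : ℕ)) x - x‖) p (𝓝 0)) : E u p n x = x := by
  refine E_uniq u p n _ _ fun w => ?_
  have h1 : Tendsto (fun a : ℕ+ => Ua u ((n : ℤ) * (a : ℕ)) x) p (𝓝 x) :=
    tendsto_iff_norm_sub_tendsto_zero.mpr h
  exact h1.inner tendsto_const_nhds

omit hp in
lemma E_mul (n k : ℕ) (x : H) (hx : E u p n x = x) : E u p (n * k) x = x := by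
  refine E_of_strong u p _ _ ?_
  have h := (E_strong u p n x hx).const_mul (k : ℝ)
  rw [mul_zero] at h
  refine squeeze_zero (fun a => norm_nonneg _) (fun a => ?_) h
  have := Ua_iter u ((n : ℤ) * (a : ℕ)) x k
  refine le_trans (le_of_eq ?_) this
  congr 2
  push_cast
  ring_nf

lemma E_comp (n k : ℕ) (v : H) : E u p (n * k) (E u p n v) = E u p n v :=
  E_mul u p n k _ (E_idem u p hp n v)

lemma E_pyth (n N : ℕ) (hN : n ∣ N) (v : H) :
    ‖E u p N v - E u p n v‖ ^ 2 = ‖E u p N v‖ ^ 2 - ‖E u p n v‖ ^ 2 := by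
  obtain ⟨k, rfl⟩ := hN
  rw [@norm_sub_sq ℂ]
  have : ⟪E u p (n * k) v, E u p n v⟫_ℂ = ⟪E u p n v, E u p n v⟫_ℂ := by
    rw [E_selfadj u p hp, E_comp u p hp, E_selfadj u p hp n v, E_idem u p hp]
  rw [this, inner_self_eq_norm_sq_to_K]
  have : RCLike.re (((‖E u p n v‖ : ℝ) : ℂ) ^ 2) = ‖E u p n v‖ ^ 2 := by norm_cast
  change ‖E u p (n * k) v‖ ^ 2 - 2 * RCLike.re (((‖E u p n v‖ : ℝ) : ℂ) ^ 2) +
    ‖E u p n v‖ ^ 2 = _
  rw [this]
  ring

lemma E_le (n N : ℕ) (hN : n ∣ N) (v : H) : ‖E u p n v‖ ^ 2 ≤ ‖E u p N v‖ ^ 2 := by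
  have := E_pyth u p hp n N hN v
  have h2 : 0 ≤ ‖E u p N v - E u p n v‖ ^ 2 := sq_nonneg _
  linarith

/-- the limit projection -/
lemma exists_zeta (ξ : H) : ∃ ζ : H, ‖ζ‖ ≤ ‖ξ‖ ∧ ∀ δ > (0 : ℝ), ∃ k0 : ℕ, ∀ k ≥ k0, ∀ m : ℕ, 1 ≤ m →
    ‖E u p (m * k.factorial) ξ - ζ‖ < δ := by
  set x : ℕ → H := fun k => E u p k.factorial ξ with hx
  have hmono : Monotone fun k => ‖x k‖ ^ 2 := fun a b hab =>
    E_le u p hp _ _ (Nat.factorial_dvd_factorial hab) ξ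
  have hbdd : BddAbove (Set.range fun k => ‖x k‖ ^ 2) := by
    refine ⟨‖ξ‖ ^ 2, ?_⟩
    rintro _ ⟨k, rfl⟩
    exact pow_le_pow_left₀ (norm_nonneg _) (E_norm u p _ ξ) 2
  have hlim := tendsto_atTop_ciSup hmono hbdd
  set s := ⨆ k, ‖x k‖ ^ 2 with hs
  have hle : ∀ k, ‖x k‖ ^ 2 ≤ s := fun k => le_ciSup hbdd k
  -- general estimate
  have hest : ∀ k m : ℕ, 1 ≤ m → ‖E u p (m * k.factorial) ξ - x k‖ ^ 2 ≤ s - ‖x k‖ ^ 2 := by
    intro k m hm
    rw [E_pyth u p hp k.factorial (m * k.factorial) (Dvd.intro_left m rfl)]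
    have h1 : ‖E u p (m * k.factorial) ξ‖ ^ 2 ≤ s := by
      refine le_trans (E_le u p hp _ (m * k.factorial).factorial ?_ ξ) (hle _)
      exact Nat.dvd_factorial (Nat.mul_pos hm (Nat.factorial_pos _)) le_rfl
    linarith
  have hcau : CauchySeq x := by
    rw [Metric.cauchySeq_iff']
    intro ε hε
    obtain ⟨N, hN⟩ := (hlim.eventually (lt_mem_nhds (show s - ε ^ 2 < s by nlinarith [hε]))).exists
    refine ⟨N, fun k hk => ?_⟩
    obtain ⟨c, hc⟩ := Nat.factorial_dvd_factorial hk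
    have hc1 : 1 ≤ c := by
      rcases Nat.eq_zero_or_pos c with h | h
      · exfalso
        rw [h] at hc
        simp at hc
        exact absurd hc (Nat.factorial_ne_zero _)
      · exact h
    have h1 := hest N c hc1
    rw [mul_comm, ← hc] at h1
    rw [dist_eq_norm]
    have h2 : ‖x k - x N‖ ^ 2 < ε ^ 2 := by
      calc _ ≤ s - ‖x N‖ ^ 2 := h1
        _ < ε ^ 2 := by linarith
    exact lt_of_pow_lt_pow_left₀ 2 hε.le h2
  obtain ⟨ζ, hζ⟩ := cauchySeq_tendsto_of_complete hcau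
  refine ⟨ζ, ?_, ?_⟩
  · exact le_of_tendsto hζ.norm (Eventually.of_forall fun k => E_norm u p _ ξ)
  · intro δ hδ
    have h1 : ∀ᶠ k in atTop, ‖x k - ζ‖ < δ / 2 := by
      have := (tendsto_iff_norm_sub_tendsto_zero.mp hζ).eventually (gt_mem_nhds (half_pos hδ))
      exact this
    have h2 : ∀ᶠ k in atTop, s - (δ / 2) ^ 2 < ‖x k‖ ^ 2 :=
      hlim.eventually (lt_mem_nhds (by nlinarith [half_pos hδ]))
    obtain ⟨k0, hk0⟩ := eventually_atTop.mp (h1.and h2)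
    refine ⟨k0, fun k hk m hm => ?_⟩
    obtain ⟨ha, hb⟩ := hk0 k hk
    have h3 := hest k m hm
    have h4 : ‖E u p (m * k.factorial) ξ - x k‖ < δ / 2 := by
      have : ‖E u p (m * k.factorial) ξ - x k‖ ^ 2 < (δ / 2) ^ 2 := by linarith
      exact lt_of_pow_lt_pow_left₀ 2 (half_pos hδ).le this
    calc _ = ‖(E u p (m * k.factorial) ξ - x k) + (x k - ζ)‖ := by congr 1; abel
      _ ≤ _ := norm_add_le _ _
      _ < δ := by linarith

end Proj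

/-- Key property: along suitable `g`, `f (w + m g)` is close to `h w` for all `m ≠ 0`. -/
theorem rigid (u : unitary (H →L[ℂ] H)) (ξ η : H) : ∃ h : ℤ → ℂ, (∀ w, ‖h w‖ ≤ ‖ξ‖ * ‖η‖) ∧
    ∀ (R M L : ℕ) (ε : ℝ), 0 < ε → 0 < L → ∃ g : ℕ, 0 < g ∧ L ∣ g ∧
      ∀ w : ℤ, |w| ≤ R → ∀ m : ℤ, m ≠ 0 → |m| ≤ M →
        ‖⟪η, Ua u (w + m * g) ξ⟫_ℂ - h w‖ < ε ∧ ‖h (w + m * g) - h w‖ < ε := by
  obtain ⟨p, hp⟩ := exists_idem
  obtain ⟨ζ, hζ1, hζ⟩ := exists_zeta u p hp ξ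
  refine ⟨fun w => ⟪η, Ua u w ζ⟫_ℂ, fun w => ?_, ?_⟩
  · calc _ ≤ ‖η‖ * ‖Ua u w ζ‖ := norm_inner_le_norm _ _
      _ ≤ ‖ξ‖ * ‖η‖ := by rw [Ua_norm, mul_comm]; exact mul_le_mul_of_nonneg_right hζ1 (norm_nonneg _)
  intro R M L ε hε hL
  set B : ℝ := ‖η‖ + 1 with hB
  have hB1 : 0 < B := by positivity
  set δ : ℝ := ε / (8 * B) with hδ
  have hδ0 : 0 < δ := by positivity
  have hδB : δ * B = ε / 8 := by rw [hδ]; field_simp
  obtain ⟨k0, hk0⟩ := hζ δ hδ0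
  set k := max k0 L with hk
  have hk1 := hk0 k (le_max_left _ _)
  set n := k.factorial with hn
  set x := E u p n ξ with hx
  have hx1 : ‖x - ζ‖ < δ := by simpa using hk1 1 le_rfl
  have hxE : E u p n x = x := E_idem u p hp n ξ
  -- strong convergence
  have hst : ∀ᶠ a : ℕ+ in (p : Filter ℕ+), ‖Ua u ((n : ℤ) * (a : ℕ)) x - x‖ < δ / (M + 1) := by
    exact (E_strong u p n x hxE).eventually (gt_mem_nhds (by positivity))
  have hw1 : ∀ᶠ a : ℕ+ in (p : Filter ℕ+), ∀ w ∈ Finset.Icc (-(R : ℤ)) R,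
      ∀ m ∈ Finset.Icc 1 M,
      ‖⟪Ua u (((m * n : ℕ) : ℤ) * (a : ℕ)) ξ, Ua u (-w) η⟫_ℂ -
        ⟪E u p (m * n) ξ, Ua u (-w) η⟫_ℂ‖ < ε / 4 := by
    rw [Filter.eventually_all_finset]
    intro w _
    rw [Filter.eventually_all_finset]
    intro m _
    have := tendsto_iff_norm_sub_tendsto_zero.mp (E_spec u p (m * n) ξ (Ua u (-w) η))
    exact this.eventually (gt_mem_nhds (by positivity))
  have hw2 : ∀ᶠ a : ℕ+ in (p : Filter ℕ+), ∀ w ∈ Finset.Icc (-(R : ℤ)) R,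
      ∀ m ∈ Finset.Icc 1 M,
      ‖⟪Ua u (((m * n : ℕ) : ℤ) * (a : ℕ)) η, Ua u w ξ⟫_ℂ -
        ⟪E u p (m * n) η, Ua u w ξ⟫_ℂ‖ < ε / 4 := by
    rw [Filter.eventually_all_finset]
    intro w _
    rw [Filter.eventually_all_finset]
    intro m _
    have := tendsto_iff_norm_sub_tendsto_zero.mp (E_spec u p (m * n) η (Ua u w ξ))
    exact this.eventually (gt_mem_nhds (by positivity))
  obtain ⟨a, ha1, ha2, ha3⟩ := (hst.and (hw1.and hw2)).exists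
  have hnpos : 0 < n := Nat.factorial_pos _
  refine ⟨n * a, Nat.mul_pos hnpos a.pos, ?_, ?_⟩
  · exact Dvd.dvd.mul_right (Nat.dvd_factorial hL (le_max_right _ _)) _
  intro w hw m hm0 hmM
  have hwmem : w ∈ Finset.Icc (-(R : ℤ)) R := by
    rw [Finset.mem_Icc]; exact abs_le.mp hw
  have hηB : ‖η‖ ≤ B := by rw [hB]; linarith
  constructor
  · rcases lt_or_gt_of_ne hm0 with hneg | hpos
    · obtain ⟨m', hm'⟩ := Int.eq_ofNat_of_zero_le (show 0 ≤ -m by linarith)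
      have hm2 : m = -(m' : ℤ) := by linarith
      have hm'mem : m' ∈ Finset.Icc 1 M := by
        rw [Finset.mem_Icc]
        constructor
        · by_contra hcon
          have : m' = 0 := by omega
          subst this
          simp at hm2
          exact hm0 hm2
        · rw [hm2, abs_neg, Nat.abs_cast] at hmM
          exact_mod_cast hmM
      have h1 := ha3 w hwmem m' hm'mem
      have h2 := hk1 m' (Finset.mem_Icc.mp hm'mem).1
      have e1 : ⟪η, Ua u (w + m * ((n * (a : ℕ) : ℕ) : ℤ)) ξ⟫_ℂ =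
          ⟪Ua u (((m' * n : ℕ) : ℤ) * (a : ℕ)) η, Ua u w ξ⟫_ℂ := by
        rw [Ua_adj, ← Ua_add]
        congr 3
        rw [hm2]; push_cast; ring
      have e2 : ⟪E u p (m' * n) η, Ua u w ξ⟫_ℂ - ⟪η, Ua u w ζ⟫_ℂ =
          ⟪η, Ua u w (E u p (m' * n) ξ - ζ)⟫_ℂ := by
        rw [E_selfadj u p hp, E_comm, map_sub, inner_sub_right]
      have e3 : ‖⟪η, Ua u w (E u p (m' * n) ξ - ζ)⟫_ℂ‖ ≤ B * δ := by
        calc _ ≤ ‖η‖ * ‖Ua u w (E u p (m' * n) ξ - ζ)‖ := norm_inner_le_norm _ _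
          _ ≤ B * δ := by
            rw [Ua_norm]
            exact mul_le_mul hηB h2.le (norm_nonneg _) hB1.le
      rw [e1]
      calc _ = ‖(⟪Ua u (((m' * n : ℕ) : ℤ) * (a : ℕ)) η, Ua u w ξ⟫_ℂ -
              ⟪E u p (m' * n) η, Ua u w ξ⟫_ℂ) +
              (⟪E u p (m' * n) η, Ua u w ξ⟫_ℂ - ⟪η, Ua u w ζ⟫_ℂ)‖ := by congr 1; ring
        _ ≤ _ := norm_add_le _ _
        _ < ε := by rw [e2]; nlinarith
    · obtain ⟨m', hm'⟩ := Int.eq_ofNat_of_zero_le hpos.le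
      have hm2 : m = (m' : ℤ) := hm'
      have hm'mem : m' ∈ Finset.Icc 1 M := by
        rw [Finset.mem_Icc]
        constructor
        · omega
        · rw [hm2, Nat.abs_cast] at hmM
          exact_mod_cast hmM
      have h1 := ha2 w hwmem m' hm'mem
      have h2 := hk1 m' (Finset.mem_Icc.mp hm'mem).1
      have e1 : ⟪η, Ua u (w + m * ((n * (a : ℕ) : ℕ) : ℤ)) ξ⟫_ℂ =
          conj ⟪Ua u (((m' * n : ℕ) : ℤ) * (a : ℕ)) ξ, Ua u (-w) η⟫_ℂ := by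
        rw [inner_conj_symm, Ua_adj, neg_neg, ← Ua_add]
        congr 3
        rw [hm2]; push_cast; ring
      have e2 : ⟪η, Ua u w ζ⟫_ℂ = conj ⟪ζ, Ua u (-w) η⟫_ℂ := by
        rw [inner_conj_symm, Ua_adj, neg_neg]
      have e3 : ‖⟪E u p (m' * n) ξ - ζ, Ua u (-w) η⟫_ℂ‖ ≤ B * δ := by
        calc _ ≤ ‖E u p (m' * n) ξ - ζ‖ * ‖Ua u (-w) η‖ := norm_inner_le_norm _ _
          _ ≤ B * δ := by
            rw [Ua_norm, mul_comm]
            exact mul_le_mul hηB h2.le (norm_nonneg _) hB1.le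
      change ‖⟪η, Ua u (w + m * ((n * (a : ℕ) : ℕ) : ℤ)) ξ⟫_ℂ - ⟪η, Ua u w ζ⟫_ℂ‖ < ε
      rw [e1, e2, ← map_sub, Complex.norm_conj]
      calc _ = ‖(⟪Ua u (((m' * n : ℕ) : ℤ) * (a : ℕ)) ξ, Ua u (-w) η⟫_ℂ -
              ⟪E u p (m' * n) ξ, Ua u (-w) η⟫_ℂ) +
              ⟪E u p (m' * n) ξ - ζ, Ua u (-w) η⟫_ℂ‖ := by
            congr 1; rw [inner_sub_left]; ring
        _ ≤ _ := norm_add_le _ _
        _ < ε := by nlinarith
  · have e1 : ⟪η, Ua u (w + m * ((n * (a : ℕ) : ℕ) : ℤ)) ζ⟫_ℂ - ⟪η, Ua u w ζ⟫_ℂ =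
        ⟪η, Ua u w (Ua u (m * ((n : ℤ) * (a : ℕ))) ζ - ζ)⟫_ℂ := by
      rw [map_sub, ← Ua_add, inner_sub_right]
      push_cast
      rfl
    have e2 : ‖Ua u (m * ((n : ℤ) * (a : ℕ))) ζ - ζ‖ ≤ 3 * δ := by
      have h1 := Ua_iter_int u ((n : ℤ) * (a : ℕ)) x m
      have h2 : (|m| : ℝ) * ‖Ua u ((n : ℤ) * (a : ℕ)) x - x‖ ≤ δ := by
        have hm3 : ((|m| : ℤ) : ℝ) ≤ M := by exact_mod_cast hmM
        have hm4 : (|(m : ℝ)|) ≤ M := by simpa using hm3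
        calc _ ≤ (M : ℝ) * (δ / (M + 1)) := by
              refine mul_le_mul hm4 ha1.le (norm_nonneg _) (by positivity)
          _ ≤ δ := by
              rw [mul_div_assoc', div_le_iff₀ (by positivity)]
              nlinarith
      have h3 : ‖Ua u (m * ((n : ℤ) * (a : ℕ))) x - x‖ ≤ δ := by
        refine h1.trans ?_
        simpa using h2
      calc _ = ‖Ua u (m * ((n : ℤ) * (a : ℕ))) (ζ - x) +
              (Ua u (m * ((n : ℤ) * (a : ℕ))) x - x) + (x - ζ)‖ := by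
            congr 1; rw [map_sub]; abel
        _ ≤ ‖Ua u (m * ((n : ℤ) * (a : ℕ))) (ζ - x)‖ +
              ‖Ua u (m * ((n : ℤ) * (a : ℕ))) x - x‖ + ‖x - ζ‖ := norm_add₃_le
        _ ≤ _ := by
            rw [Ua_norm, norm_sub_rev ζ x]
            linarith
    change ‖⟪η, Ua u (w + m * ((n * (a : ℕ) : ℕ) : ℤ)) ζ⟫_ℂ - ⟪η, Ua u w ζ⟫_ℂ‖ < ε
    rw [e1]
    calc _ ≤ ‖η‖ * ‖Ua u w (Ua u (m * ((n : ℤ) * (a : ℕ))) ζ - ζ)‖ := norm_inner_le_norm _ _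
      _ ≤ B * (3 * δ) := by
          rw [Ua_norm]
          exact mul_le_mul hηB e2 (norm_nonneg _) hB1.le
      _ < ε := by nlinarith

end H697R3.NS
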