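import Pool.Agent.H697R3.NSSum
import Pool.Agent.H697R3.NSErg

set_option autoImplicit false

open scoped ComplexOrder ComplexConjugate InnerProductSpace
open Finset

noncomputable section

namespace H697R3.NS

/-- the targets are dense in the disc -/
def Tg (D : Dat) (m : ℕ → ℕ) : Prop := (∀ k, 0 < m k ∧ m k < D.M k) ∧
  ∀ z : ℂ, ‖z‖ ≤ 1 → ∀ ε : ℝ, 0 < ε → ∀ K : ℕ, ∃ k ≥ K, ‖kap (D.M k) (D.θ k) (m k) - z‖ < ε

lemma approx {D : Dat} {fz h : ℤ → ℂ} {m : ℕ → ℕ} (hst : D.Step fz h) (hT : Tg D m)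
    (hnu : ∀ n, ‖D.nu 0 n‖ ≤ 1) {K : ℕ} {w : ℤ} (hw : |w| ≤ D.R K) {z : ℂ} (hz : ‖z‖ ≤ 1)
    {ε : ℝ} (hε : 0 < ε) : ∃ n : ℤ, ‖fz n - h w‖ < ε ∧ ‖D.nu 0 n - D.nu 0 w * z‖ < ε := by
  obtain ⟨K1, hK1⟩ := exists_pow_lt_of_lt_one hε (show (1 / 2 : ℝ) < 1 by norm_num)
  obtain ⟨k, hk, hkz⟩ := hT.2 z hz ε hε (max K K1)
  obtain ⟨hm0, hmM⟩ := hT.1 k
  have hw' : |w| ≤ D.R k := by
    refine hw.trans ?_
    exact_mod_cast D.R_mono ((le_max_left K K1).trans hk)
  have hm1 : ((m k : ℕ) : ℤ) ≠ 0 := by exact_mod_cast hm0.ne'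
  have hm2 : |((m k : ℕ) : ℤ)| ≤ D.M k := by rw [Nat.abs_cast]; exact_mod_cast hmM.le
  refine ⟨w + (m k : ℤ) * D.g k, ?_, ?_⟩
  · refine lt_of_lt_of_le (hst k w hw' _ hm1 hm2).1 ?_
    refine (eps_le D.M k).trans (le_trans ?_ hK1.le)
    exact pow_le_pow_of_le_one (by norm_num) (by norm_num) ((le_max_right K K1).trans hk)
  · rw [D.nu_eval k hw' hm2]
    have e : kap (D.M k) (D.θ k) (m k) * D.nu 0 w - D.nu 0 w * z =
        (kap (D.M k) (D.θ k) (m k) - z) * D.nu 0 w := by ring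
    rw [e, norm_mul]
    calc _ ≤ ‖kap (D.M k) (D.θ k) (m k) - z‖ * 1 :=
          mul_le_mul_of_nonneg_left (hnu w) (norm_nonneg _)
      _ < ε := by rw [mul_one]; exact hkz

section final
variable {G : Type} [Group G] (g0 : G) (hinj : Function.Injective fun n : ℤ => g0 ^ n)
  {D : Dat} {fz h : ℤ → ℂ} {m : ℕ → ℕ}

include hinj

/-- the local inverses glued together -/
lemma BN_Q (h : ℤ → ℂ) {r δ : ℝ} (hδ : 0 < δ) {z : ℂ} (hz : z ≠ 0) (K : ℕ)
    (key : ∀ w : ℤ, |w| ≤ D.R K → ‖(r : ℂ) * D.nu 0 w‖ + δ ≤ ‖z - h w‖) :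
    BN (fun x => ((r : ℂ) * ext g0 (D.nu 0) x + ext g0 (D.hk h K) x - z)⁻¹)
      (CC D.M K * (2 * (16 / δ + 2 / ‖z‖) + 2 / ‖z‖)) := by
  have hz' : 0 < ‖z‖ := norm_pos_iff.mpr hz
  have h1 : ∀ w ∈ D.W K, BN (fun x => ((r : ℂ) * D.nu 0 w *
      ext g0 (fun n => D.nu K (n - w)) x + (h w - z))⁻¹) (16 / δ) := by
    intro w hw
    have hk := key w (D.W_R K hw)
    rw [norm_sub_rev] at hk
    have := BN_inv_gen (c := h w - z) (norm_nonneg ((r : ℂ) * D.nu 0 w))
      (fun n => Dat.BN_nu_pow g0 hinj D K w ((r : ℂ) * D.nu 0 w) n) (by linarith)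
    refine this.mono ?_
    have h2 : (‖h w - z‖ - ‖(r : ℂ) * D.nu 0 w‖)⁻¹ ≤ δ⁻¹ :=
      inv_anti₀ hδ (by linarith)
    rw [div_eq_mul_inv]
    linarith
  have hcz : BN (fun _ : G => (-z)⁻¹) (2 / ‖z‖) := by
    have := BN.const (G := G) ((-z)⁻¹)
    rw [norm_inv, norm_neg] at this
    rwa [div_eq_mul_inv]
  have h2 : BN (fun x => ∑ w ∈ D.W K, ext g0 (fun n => if (D.L K : ℤ) ∣ n - w then (1 : ℂ) else 0) x
      * (((r : ℂ) * D.nu 0 w * ext g0 (fun n => D.nu K (n - w)) x + (h w - z))⁻¹ + -(-z)⁻¹))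
      (∑ w ∈ D.W K, 2 * (16 / δ + 2 / ‖z‖)) :=
    BN.sum _ fun w hw => (Dat.BN_ind g0 hinj _ w).mul ((h1 w hw).add hcz.neg)
  have h3 := h2.add hcz
  have h4 : ∑ w ∈ D.W K, 2 * (16 / δ + 2 / ‖z‖) + 2 / ‖z‖ ≤
      CC D.M K * (2 * (16 / δ + 2 / ‖z‖) + 2 / ‖z‖) := by
    rw [Finset.sum_const, nsmul_eq_mul]
    have h5 := D.W_CC K
    have h6 : (1 : ℝ) ≤ CC D.M K := by exact_mod_cast CC_pos D.M K
    have h7 : 0 < 2 / ‖z‖ := by positivity
    have h8 : 0 < 2 * (16 / δ + 2 / ‖z‖) := by positivity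
    have h9 := mul_le_mul_of_nonneg_right h5 h8.le
    have h10 := mul_le_mul_of_nonneg_right h6 h7.le
    generalize 2 * (16 / δ + 2 / ‖z‖) = a at *
    generalize 2 / ‖z‖ = b at *
    linarith [mul_add (CC D.M K : ℝ) a b]
  refine BN.mono ?_ h4
  convert h3 using 1
  funext x
  revert x
  refine ext_cases g0 ?_ ?_
  · intro n
    simp only [ext_apply g0 hinj]
    by_cases hn : ∃ w ∈ D.W K, (D.L K : ℤ) ∣ n - w
    · obtain ⟨w, hw, hd⟩ := hn
      rw [Finset.sum_eq_single w]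
      · rw [if_pos hd, D.hk_eq h K hw hd, one_mul, neg_add_cancel_right]
        have := D.nu_fact' K (D.W_R K hw) n
        rw [if_pos hd] at this
        rw [this, ← mul_assoc, add_sub_assoc]
      · intro v hv hvw
        rw [if_neg, zero_mul]
        intro hd'
        exact hvw (D.W_uniq K hv hw hd' hd)
      · intro h; exact absurd hw h
    · push Not at hn
      rw [D.hk_zero h K hn]
      have : D.nu 0 n = 0 := by
        by_contra hne
        obtain ⟨w, hw, hd⟩ := D.nu_mod K hne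
        exact hn w hw hd
      rw [this, Finset.sum_eq_zero, mul_zero, add_zero, zero_sub, zero_add]
      intro w hw
      rw [if_neg (hn w hw), zero_mul]
  · intro x hx
    simp only [ext_out g0 _ hx]
    simp

lemma Q_ne (h : ℤ → ℂ) {r δ : ℝ} (hδ : 0 < δ) {z : ℂ} (hz : z ≠ 0) (K : ℕ)
    (key : ∀ w : ℤ, |w| ≤ D.R K → ‖(r : ℂ) * D.nu 0 w‖ + δ ≤ ‖z - h w‖) (x : G) :
    (r : ℂ) * ext g0 (D.nu 0) x + ext g0 (D.hk h K) x - z ≠ 0 := by
  revert x
  refine ext_cases g0 ?_ ?_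
  · intro n
    simp only [ext_apply g0 hinj]
    by_cases hn : ∃ w ∈ D.W K, (D.L K : ℤ) ∣ n - w
    · obtain ⟨w, hw, hd⟩ := hn
      rw [D.hk_eq h K hw hd]
      have := D.nu_fact' K (D.W_R K hw) n
      rw [if_pos hd] at this
      intro h0
      have h1 : z - h w = (r : ℂ) * D.nu 0 n := by linear_combination -h0
      have h2 := key w (D.W_R K hw)
      rw [h1, this, norm_mul, norm_mul, norm_mul] at h2
      have h3 := D.nu_norm_le g0 hinj K (n - w)
      have h4 : 0 ≤ ‖(r : ℂ)‖ * ‖D.nu 0 w‖ := by positivity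
      nlinarith
    · push Not at hn
      rw [D.hk_zero h K hn]
      have : D.nu 0 n = 0 := by
        by_contra hne
        obtain ⟨w, hw, hd⟩ := D.nu_mod K hne
        exact hn w hw hd
      rw [this]
      simpa using hz
  · intro x hx
    simp only [ext_out g0 _ hx]
    simpa using hz

theorem inv_f1 (hst : D.Step fz h) (hT : Tg D m) {f : G → ℂ} {C : ℝ} (hf : BN f C)
    (hfz : ∀ n : ℤ, f (g0 ^ n) = fz n) (hh : ∀ w, ‖h w‖ ≤ C) {r : ℝ} (hr : 2 * C < r) (z : ℂ)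
    (hz : z ∉ closure (Set.range fun x => f x + (r : ℂ) * ext g0 (D.nu 0) x)) :
    ∃ C', BN (fun x => (f x + (r : ℂ) * ext g0 (D.nu 0) x - z)⁻¹) C' := by
  have hC := hf.nonneg
  have hr0 : 0 < r := by linarith
  have hnu := D.nu_norm_le g0 hinj 0
  obtain ⟨δ, hδ, hsep⟩ : ∃ δ : ℝ, 0 < δ ∧ ∀ x, δ ≤ ‖f x + (r : ℂ) * ext g0 (D.nu 0) x - z‖ := by
    rw [Metric.mem_closure_iff] at hz
    push Not at hz
    obtain ⟨δ, hδ, h1⟩ := hz
    refine ⟨δ, hδ, fun x => ?_⟩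
    have := h1 _ ⟨x, rfl⟩
    rwa [dist_comm, dist_eq_norm] at this
  have key : ∀ (K : ℕ) (w : ℤ), |w| ≤ D.R K → ‖(r : ℂ) * D.nu 0 w‖ + δ ≤ ‖z - h w‖ := by
    intro K w hw
    refine disc_sep hδ fun u hu => ?_
    refine le_of_forall_pos_le_add fun ε hε => ?_
    have hε' : 0 < ε / (1 + r) := by positivity
    obtain ⟨n, h1, h2⟩ := approx hst hT hnu hw hu hε'
    have h3 := hsep (g0 ^ n)
    rw [ext_apply g0 hinj, hfz] at h3
    have e : fz n + (r : ℂ) * D.nu 0 n - z = ((r : ℂ) * D.nu 0 w * u - (z - h w)) +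
        ((fz n - h w) + (r : ℂ) * (D.nu 0 n - D.nu 0 w * u)) := by ring
    rw [e] at h3
    have h4 := norm_add_le ((r : ℂ) * D.nu 0 w * u - (z - h w))
      ((fz n - h w) + (r : ℂ) * (D.nu 0 n - D.nu 0 w * u))
    have h5 := norm_add_le (fz n - h w) ((r : ℂ) * (D.nu 0 n - D.nu 0 w * u))
    rw [norm_mul, Complex.norm_real, Real.norm_of_nonneg hr0.le] at h5
    have h6 : r * ‖D.nu 0 n - D.nu 0 w * u‖ ≤ r * (ε / (1 + r)) :=
      mul_le_mul_of_nonneg_left h2.le hr0.le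
    have h7 : ε / (1 + r) + r * (ε / (1 + r)) = ε := by field_simp
    linarith
  have hzC : C < ‖z‖ := by
    have h1 := key 0 0 (by simp)
    rw [D.nu_zero, mul_one, Complex.norm_real, Real.norm_of_nonneg hr0.le] at h1
    have h2 := norm_sub_le z (h 0)
    have h3 := hh 0
    linarith
  have hz0 : z ≠ 0 := by
    rintro rfl
    rw [norm_zero] at hzC
    linarith
  have hz' : 0 < ‖z‖ := norm_pos_iff.mpr hz0
  set p0 : ℝ := 4 * (‖z‖ - C)⁻¹ with hp0
  have hp0' : 0 < p0 := by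
    have : 0 < ‖z‖ - C := by linarith
    positivity
  have hP : BN (fun x => (f x - z)⁻¹) p0 := BN_inv_large hf hzC
  set q0 : ℝ := 2 * (16 / δ + 2 / ‖z‖) + 2 / ‖z‖ with hq0
  have hq0' : 0 < q0 := by positivity
  obtain ⟨K, hK⟩ := exists_pow_lt_of_lt_one
    (show 0 < 1 / (2 * (8 * r * p0 * q0)) by positivity) (show (1 / 2 : ℝ) < 1 by norm_num)
  have hQ := BN_Q g0 hinj h hδ hz0 K (key K)
  rw [← hq0] at hQ
  have hQne := Q_ne g0 hinj h hδ hz0 K (key K)
  have hs := Dat.BN_s g0 hinj hst K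
  have hCC : (0 : ℝ) < CC D.M K := by exact_mod_cast CC_pos D.M K
  set S : G → ℂ := ext g0 (fun n => D.nu 0 n * (h n - D.hk h K n)) with hS
  set A : G → ℂ := ext g0 (fun n => D.nu 0 n * (fz n - h n)) with hA
  set V : G → ℂ := ext g0 (D.nu 0) with hV
  set E : G → ℂ := ext g0 (D.hk h K) with hE
  set Q : G → ℂ := fun x => ((r : ℂ) * V x + E x - z)⁻¹ with hQd
  set P : G → ℂ := fun x => (f x - z)⁻¹ with hPd
  have ht : BN (fun x => (r : ℂ) * S x * P x * Q x) (1 / 2) := by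
    have h1 := ((hs.real_nonneg_mul hr0.le).mul hP).mul hQ
    refine h1.mono ?_
    have h2 : r * (8 * (1 / 2) ^ K / CC D.M K) * p0 * (CC D.M K * q0) =
        (1 / 2) ^ K * (8 * r * p0 * q0) := by
      field_simp
    rw [h2]
    have h3 : 0 < 8 * r * p0 * q0 := by positivity
    have h4 := mul_le_mul_of_nonneg_right hK.le h3.le
    refine h4.trans (le_of_eq ?_)
    field_simp
  set T : G → ℂ := fun x => (r : ℂ) * S x * P x * Q x with hT'
  have hN := BN.neumann (f := T) (A := 1) (ρ := 1 / 2) (by norm_num) (by norm_num)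
    (fun n => by rw [one_mul]; exact ht.pow n)
  obtain ⟨CE, hCE⟩ := Dat.BN_hk g0 hinj D h K
  have hH := (((hCE.add (BN.const (-z))).mul hP).mul hQ).mul hN
  have hid : ∀ x, (f x + (r : ℂ) * V x - z) * ((E x + -z) * P x * Q x * (1 - T x)⁻¹) - 1 =
      -((r : ℂ) * A x * (P x * Q x * (1 - T x)⁻¹)) := by
    intro x
    have ha : f x - z ≠ 0 := by
      intro h0
      have h1 : f x = z := by linear_combination h0
      have := hf.bound x
      rw [h1] at this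
      linarith
    have hb := hQne x
    have hT0 : 1 - T x ≠ 0 := by
      intro h0
      have h1 : T x = 1 := by linear_combination -h0
      have := ht.bound x
      rw [h1] at this
      norm_num at this
    have hrel : V x * (f x - E x) = A x + S x := by
      rw [hV, hE, hA, hS]
      revert x
      refine ext_cases g0 ?_ ?_
      · intro n _ _ _
        simp only [ext_apply g0 hinj]
        rw [hfz]
        ring
      · intro x hx _ _ _
        simp only [ext_out g0 _ hx]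
        ring
    have e1 : (f x + (r : ℂ) * V x - z) * ((E x + -z) * P x * Q x) =
        1 - T x - (r : ℂ) * A x * (P x * Q x) := by
      have e2 : (f x + (r : ℂ) * V x - z) * (E x + -z) =
          (f x - z) * ((r : ℂ) * V x + E x - z) - (r : ℂ) * A x - (r : ℂ) * S x := by
        linear_combination (-(r : ℂ)) * hrel
      have e3 : (f x - z) * P x = 1 := mul_inv_cancel₀ ha
      have e4 : ((r : ℂ) * V x + E x - z) * Q x = 1 := mul_inv_cancel₀ hb
      have e5 : T x = (r : ℂ) * S x * P x * Q x := rfl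
      rw [e5]
      linear_combination (P x * Q x) * e2 + (((r : ℂ) * V x + E x - z) * Q x) * e3 + e4
    calc (f x + (r : ℂ) * V x - z) * ((E x + -z) * P x * Q x * (1 - T x)⁻¹) - 1
        = ((f x + (r : ℂ) * V x - z) * ((E x + -z) * P x * Q x)) * (1 - T x)⁻¹ - 1 := by ring
      _ = (1 - T x) * (1 - T x)⁻¹ - 1 - ((r : ℂ) * A x * (P x * Q x * (1 - T x)⁻¹)) := by
        rw [e1]; ring
      _ = _ := by rw [mul_inv_cancel₀ hT0]; ring
  refine local_inv hH ?_
  have hsum : Summable fun x => ‖A x‖ := by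
    have h1 := Dat.summable_alpha hst hnu
    have h2 : Summable ((fun x => ‖A x‖) ∘ fun n : ℤ => g0 ^ n) := by
      refine h1.congr fun n => ?_
      simp only [Function.comp_apply, hA, ext_apply g0 hinj]
    refine (hinj.summable_iff ?_).mp h2
    intro x hx
    have hx' : ¬ ∃ n : ℤ, g0 ^ n = x := fun ⟨n, hn⟩ => hx ⟨n, hn⟩
    simp only [hA, ext_out g0 _ hx', norm_zero]
  refine Summable.of_nonneg_of_le (fun x => norm_nonneg _) (fun x => ?_)
    (hsum.mul_left (r * (p0 * (CC D.M K * q0) * (1 * (1 - 1 / 2)⁻¹))))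
  rw [hid, norm_neg, norm_mul, norm_mul, Complex.norm_real, Real.norm_of_nonneg hr0.le]
  have h1 := ((hP.mul hQ).mul hN).bound x
  have h2 : r * ‖A x‖ * ‖P x * Q x * (1 - T x)⁻¹‖ ≤
      r * ‖A x‖ * (p0 * (CC D.M K * q0) * (1 * (1 - 1 / 2)⁻¹)) :=
    mul_le_mul_of_nonneg_left h1 (by positivity)
  refine h2.trans (le_of_eq ?_)
  ring

end final

/-- the main theorem: groups with an element of infinite order -/
theorem main_inf {G : Type} [Group G] (hG : ∃ g : G, orderOf g = 0) (B : Set (G → ℂ))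
    (hB : B = {f : G → ℂ | ∃ (H : Type) (_ : NormedAddCommGroup H) (_ : InnerProductSpace ℂ H)
            (_ : CompleteSpace H) (π : G →* unitary (H →L[ℂ] H)) (ξ η : H),
            ∀ g : G, f g = inner ℂ η ((π g : H →L[ℂ] H) ξ)}) (f : G → ℂ) (hf : f ∈ B) :
    ∃ f₁ ∈ B, ∃ f₂ ∈ B,
        {z : ℂ | ¬ ∃ h ∈ B, ∀ g : G, (f₁ g - z) * h g = 1} = closure (Set.range f₁) ∧
        {z : ℂ | ¬ ∃ h ∈ B, ∀ g : G, (f₂ g - z) * h g = 1} = closure (Set.range f₂) ∧
        f = f₁ + f₂ := by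
  have hB' : ∀ f, f ∈ B ↔ ∃ C, BN f C := by
    intro f
    rw [hB]
    exact isCoef_iff f
  rw [hB] at hf
  obtain ⟨H, i1, i2, i3, π, ξ, η, hfr⟩ := hf
  obtain ⟨g0, hg0⟩ := hG
  have hinj : Function.Injective fun n : ℤ => g0 ^ n :=
    injective_zpow_iff_not_isOfFinOrder.mpr (orderOf_eq_zero_iff.mp hg0)
  set C : ℝ := ‖ξ‖ ^ 2 + ‖η‖ ^ 2 with hCd
  have hfBN : BN f C := by
    have := BN.coef π ξ η
    convert this using 1
    funext x; exact hfr x
  obtain ⟨h, hh, hrig⟩ := rigid (π g0) ξ η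
  set fz : ℤ → ℂ := fun n => ⟪η, Ua (π g0) n ξ⟫_ℂ with hfzd
  have hfz : ∀ n : ℤ, f (g0 ^ n) = fz n := by
    intro n
    rw [hfr, map_zpow]
    rfl
  have hhC : ∀ w, ‖h w‖ ≤ C := by
    intro w
    refine (hh w).trans ?_
    rw [hCd]
    nlinarith [sq_nonneg (‖ξ‖ - ‖η‖), norm_nonneg ξ, norm_nonneg η]
  obtain ⟨M, m, θ, hM, hθ, hmM, hdense⟩ := exists_targets
  obtain ⟨D, rfl, rfl, hst⟩ := exists_dat M θ hM hθ
    (fun k R g => ∀ w : ℤ, |w| ≤ R → ∀ m : ℤ, m ≠ 0 → |m| ≤ M k →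
      ‖fz (w + m * g) - h w‖ < eps M k ∧ ‖h (w + m * g) - h w‖ < eps M k)
    (fun k R L hL => by
      obtain ⟨g, h1, h2, h3⟩ := hrig R (M k) L (eps M k) (eps_pos M k) hL
      exact ⟨g, h1, h2, h3⟩)
  have hstep : D.Step fz h := hst
  have hT : Tg D m := ⟨hmM, hdense⟩
  have hnu := D.nu_norm_le g0 hinj 0
  have hC0 := hfBN.nonneg
  set r : ℝ := 2 * C + 1 with hr
  have hr0 : 0 < r := by linarith
  have hV : BN (fun x => (r : ℂ) * ext g0 (D.nu 0) x) r := by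
    have h1 := BN.of_PD (D.PD_nu g0 hinj 0)
    have h2 : ext g0 (D.nu 0) 1 = 1 := by
      have := ext_apply g0 hinj (D.nu 0) 0
      rw [zpow_zero] at this
      rw [this, D.nu_zero]
    rw [h2] at h1
    have := h1.real_nonneg_mul hr0.le
    simpa using this
  refine ⟨fun x => f x + (r : ℂ) * ext g0 (D.nu 0) x, (hB' _).mpr ⟨_, hfBN.add hV⟩,
    fun x => -((r : ℂ) * ext g0 (D.nu 0) x), (hB' _).mpr ⟨_, hV.neg⟩, ?_, ?_, ?_⟩
  · exact spec_eq B hB' fun z hz => inv_f1 g0 hinj hstep hT hfBN hfz hhC (by rw [hr]; linarith) z hz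
  · refine spec_eq B hB' fun z hz => ?_
    have hzr : r < ‖z‖ := by
      by_contra hcon
      push Not at hcon
      apply hz
      rw [Metric.mem_closure_iff]
      intro ε hε
      have h1 : ‖-z / r‖ ≤ 1 := by
        rw [norm_div, norm_neg, Complex.norm_real, Real.norm_of_nonneg hr0.le]
        exact (div_le_one hr0).mpr hcon
      obtain ⟨n, -, hn⟩ := approx hstep hT hnu (K := 0) (w := 0) (by simp) h1
        (show 0 < ε / r by positivity)
      refine ⟨_, ⟨g0 ^ n, rfl⟩, ?_⟩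
      rw [dist_eq_norm]
      simp only [ext_apply g0 hinj]
      rw [D.nu_zero, one_mul] at hn
      have hrc : (r : ℂ) ≠ 0 := by exact_mod_cast hr0.ne'
      have e : z - -((r : ℂ) * D.nu 0 n) = (r : ℂ) * (D.nu 0 n - -z / r) := by
        field_simp
        ring
      rw [e, norm_mul, Complex.norm_real, Real.norm_of_nonneg hr0.le]
      rw [lt_div_iff₀ hr0] at hn
      linarith
    exact ⟨_, BN_inv_large hV.neg hzr⟩
  · funext x
    simp only [Pi.add_apply]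
    ring

end H697R3.NS
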