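import Pool.Agent.H697R3.NSData

set_option autoImplicit false

open scoped ComplexOrder ComplexConjugate InnerProductSpace
open Finset

noncomputable section

namespace H697R3.NS

section general
variable {G : Type} [Group G]

lemma BN_translate {q : G → ℂ} (hq : PD q) (g : G) :
    BN (fun x => q (g⁻¹ * x)) (2 * (q 1).re) := by
  obtain ⟨H, i1, i2, i3, π, ξ, h⟩ := hq.gns
  have h1 : (q 1).re = ‖ξ‖ ^ 2 := by
    rw [h 1, map_one]
    change (⟪ξ, ξ⟫_ℂ).re = _
    rw [inner_self_eq_norm_sq_to_K]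
    norm_cast
  have h2 := BN.coef π ξ ((π g : H →L[ℂ] H) ξ)
  have h3 : ‖(π g : H →L[ℂ] H) ξ‖ = ‖ξ‖ := Unitary.norm_map _ _
  rw [h3] at h2
  have e : 2 * (q 1).re = ‖ξ‖ ^ 2 + ‖ξ‖ ^ 2 := by rw [h1]; ring
  rw [e]
  convert h2 using 1
  funext x
  rw [unitary_inner, h]

open Classical in
/-- point mass -/
def dl (x : G) : G → ℂ := fun y => if y = x then 1 else 0

lemma dl_self (x : G) : dl x x = 1 := by simp [dl]

lemma dl_ne {x y : G} (h : y ≠ x) : dl x y = 0 := by simp [dl, h]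

lemma BN_dl (x : G) : BN (dl x) 2 := by
  classical
  have h := BN_translate (PD.subgroup (⊥ : Subgroup G)) x
  have e : (2 : ℝ) * ((if (1 : G) ∈ (⊥ : Subgroup G) then (1 : ℂ) else 0)).re = 2 := by
    rw [if_pos (Subgroup.one_mem _)]; simp
  rw [e] at h
  convert h using 1
  funext y
  by_cases hy : y = x
  · subst hy
    rw [dl_self, if_pos (by simp)]
  · rw [dl_ne hy, if_neg]
    rw [Subgroup.mem_bot]
    intro h2
    exact hy (inv_mul_eq_one.mp h2).symm

lemma BN_summable {β : G → ℂ} (hs : Summable fun x => ‖β x‖) : BN β (4 * ∑' x, ‖β x‖) := by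
  have h1 : ∀ x : G, BN (fun y => β x * dl x y) (4 * ‖β x‖) := by
    intro x
    have := (BN_dl x).cmul (β x)
    refine this.mono ?_
    linarith
  have h2 := BN.tsum h1 (hs.mul_left 4)
  rw [tsum_mul_left] at h2
  convert h2 using 1
  funext y
  rw [tsum_eq_single y, dl_self, mul_one]
  intro x hx
  rw [dl_ne (Ne.symm hx), mul_zero]

lemma BN_one : BN (fun _ : G => (1 : ℂ)) 1 := by
  have := BN.of_PD (PD.one (G := G))
  simpa using this

lemma BN_inv_gen {f : G → ℂ} {A ρ : ℝ} {c : ℂ} (hρ : 0 ≤ ρ)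
    (hp : ∀ n : ℕ, BN (fun x => f x ^ n) (A * ρ ^ n)) (h : ρ < ‖c‖) :
    BN (fun x => (f x + c)⁻¹) (4 * A * (‖c‖ - ρ)⁻¹) := by
  have hc : 0 < ‖c‖ := lt_of_le_of_lt hρ h
  have hc0 : c ≠ 0 := norm_pos_iff.mp hc
  have h1 : ∀ n : ℕ, BN (fun x => (-(c⁻¹) * f x) ^ n) (2 * A * (ρ / ‖c‖) ^ n) := by
    intro n
    have := (hp n).cmul ((-(c⁻¹)) ^ n)
    have e1 : 2 * ‖(-(c⁻¹)) ^ n‖ * (A * ρ ^ n) = 2 * A * (ρ / ‖c‖) ^ n := by
      rw [norm_pow, norm_neg, norm_inv, div_pow, inv_pow]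
      field_simp
    rw [e1] at this
    convert this using 1
    funext x
    rw [mul_pow]
  have h2 := BN.neumann (by positivity) ((div_lt_one hc).mpr h) h1
  have h3 := h2.cmul (c⁻¹)
  have e2 : 2 * ‖c⁻¹‖ * (2 * A * (1 - ρ / ‖c‖)⁻¹) = 4 * A * (‖c‖ - ρ)⁻¹ := by
    have : ‖c‖ - ρ ≠ 0 := by linarith
    have h5 : 1 - ρ / ‖c‖ = (‖c‖ - ρ) / ‖c‖ := by field_simp
    rw [h5, norm_inv, inv_div]
    field_simp
    ring
  rw [e2] at h3
  convert h3 using 1
  funext x
  rw [← mul_inv]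
  congr 1
  field_simp
  ring

lemma BN_inv_large {f : G → ℂ} {C : ℝ} {c : ℂ} (hf : BN f C) (h : C < ‖c‖) :
    BN (fun x => (f x - c)⁻¹) (4 * (‖c‖ - C)⁻¹) := by
  have := BN_inv_gen (A := 1) (c := -c) hf.nonneg (fun n => by simpa using hf.pow n)
    (by rwa [norm_neg])
  simpa [sub_eq_add_neg] using this

lemma local_inv {F H : G → ℂ} {CH : ℝ} (hH : BN H CH)
    (hs : Summable fun x => ‖F x * H x - 1‖) : ∃ C', BN (fun x => (F x)⁻¹) C' := by
  classical
  -- a finite set with small tail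
  obtain ⟨S, hS⟩ : ∃ S : Finset G, (∑' x, ‖F x * H x - 1‖) - ∑ x ∈ S, ‖F x * H x - 1‖ < 1 / 8 := by
    have h1 := hs.hasSum
    have h2 := (h1.eventually (lt_mem_nhds (show (∑' x, ‖F x * H x - 1‖) - 1 / 8 <
      (∑' x, ‖F x * H x - 1‖) by linarith))).exists
    obtain ⟨S, hS⟩ := h2
    exact ⟨S, by linarith⟩
  set β : G → ℂ := fun x => if x ∈ S then 0 else F x * H x - 1 with hβ
  have hβn : ∀ x, ‖β x‖ = ‖F x * H x - 1‖ - (if x ∈ S then ‖F x * H x - 1‖ else 0) := by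
    intro x
    simp only [hβ]
    split_ifs <;> simp
  have hs2 : Summable fun x => (if x ∈ S then ‖F x * H x - 1‖ else 0) :=
    summable_of_ne_finset_zero (s := S) (fun x hx => if_neg hx)
  have hsβ : Summable fun x => ‖β x‖ := by
    simp only [hβn]
    exact hs.sub hs2
  have htβ : ∑' x, ‖β x‖ < 1 / 8 := by
    simp only [hβn]
    rw [hs.tsum_sub hs2, tsum_eq_sum (s := S) (fun x hx => if_neg hx)]
    rw [Finset.sum_congr rfl (fun x hx => if_pos hx)]
    exact hS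
  have hBβ : BN (fun x => -β x) (1 / 2) := by
    refine (BN_summable hsβ).neg.mono (by linarith)
  have hinv := BN.neumann (f := fun x => -β x) (A := 1) (ρ := 1 / 2) (by norm_num) (by norm_num)
    (fun n => by rw [one_mul]; exact hBβ.pow n)
  have hH' := hH.mul hinv
  have hcor := BN.sum S (f := fun y x => ((F y)⁻¹ - H y * (1 - -β y)⁻¹) * dl y x)
    (C := fun y => 2 * ‖(F y)⁻¹ - H y * (1 - -β y)⁻¹‖ * 2) (fun y _ => (BN_dl y).cmul _)
  have h3 := hH'.add hcor
  suffices e : (fun x => (F x)⁻¹) = (fun x => H x * (1 - -β x)⁻¹ +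
      ∑ y ∈ S, ((F y)⁻¹ - H y * (1 - -β y)⁻¹) * dl y x) from ⟨_, by rw [e]; exact h3⟩
  · funext x
    by_cases hx : x ∈ S
    · rw [Finset.sum_eq_single x]
      · rw [dl_self]; ring
      · intro y _ hy
        rw [dl_ne (Ne.symm hy), mul_zero]
      · intro h; exact absurd hx h
    · rw [Finset.sum_eq_zero]
      · rw [add_zero]
        have hb : β x = F x * H x - 1 := by simp only [hβ]; rw [if_neg hx]
        have hne : F x * H x ≠ 0 := by
          intro h0
          have := hBβ.bound x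
          rw [hb, h0] at this
          norm_num at this
        rw [hb]
        have e : (1 : ℂ) - -(F x * H x - 1) = F x * H x := by ring
        rw [e]
        have h1 := left_ne_zero_of_mul hne
        have h2 := right_ne_zero_of_mul hne
        field_simp
      · intro y hy
        rw [dl_ne, mul_zero]
        rintro rfl
        exact hx hy

lemma spec_eq (B : Set (G → ℂ)) (hB : ∀ f, f ∈ B ↔ ∃ C, BN f C) {F : G → ℂ}
    (h : ∀ z, z ∉ closure (Set.range F) → ∃ C, BN (fun x => (F x - z)⁻¹) C) :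
    {z : ℂ | ¬ ∃ h ∈ B, ∀ g : G, (F g - z) * h g = 1} = closure (Set.range F) := by
  ext z
  simp only [Set.mem_ofPred_eq]
  constructor
  · intro h1
    by_contra hz
    apply h1
    refine ⟨_, (hB _).mpr (h z hz), fun g => ?_⟩
    refine mul_inv_cancel₀ ?_
    intro h0
    apply hz
    apply subset_closure
    exact ⟨g, by linear_combination h0⟩
  · rintro hz ⟨k, hk, hk1⟩
    obtain ⟨C, hC⟩ := (hB k).mp hk
    have hCpos : 0 < C + 1 := by have := hC.nonneg; linarith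
    obtain ⟨_, ⟨x, rfl⟩, hx⟩ := Metric.mem_closure_iff.mp hz (C + 1)⁻¹ (by positivity)
    have h2 := hk1 x
    have h3 : ‖(F x - z) * k x‖ = 1 := by rw [h2]; simp
    rw [norm_mul] at h3
    have h4 : ‖F x - z‖ < (C + 1)⁻¹ := by rw [dist_comm, dist_eq_norm] at hx; exact hx
    have h5 := hC.bound x
    have h6 : ‖F x - z‖ * ‖k x‖ ≤ (C + 1)⁻¹ * C :=
      mul_le_mul h4.le h5 (norm_nonneg _) (by positivity)
    have h7 : (C + 1)⁻¹ * C < 1 := by
      rw [inv_mul_lt_iff₀ hCpos]; linarith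
    linarith

end general

lemma disc_sep {a d : ℂ} {δ : ℝ} (hδ : 0 < δ) (h : ∀ u : ℂ, ‖u‖ ≤ 1 → δ ≤ ‖a * u - d‖) :
    ‖a‖ + δ ≤ ‖d‖ := by
  rcases le_or_gt ‖d‖ ‖a‖ with hda | hda
  · exfalso
    by_cases ha : a = 0
    · subst ha
      have hd : d = 0 := by simpa using hda
      subst hd
      have := h 0 (by simp)
      simp at this
      linarith
    · have ha' : 0 < ‖a‖ := norm_pos_iff.mpr ha
      have := h (d / a) (by rw [norm_div]; exact (div_le_one ha').mpr hda)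
      rw [mul_div_cancel₀ d ha] at this
      simp at this
      linarith
  · have hd' : 0 < ‖d‖ := lt_of_le_of_lt (norm_nonneg _) hda
    have e : a * (((‖a‖ / ‖d‖ : ℝ) : ℂ) * (d / a)) = ((‖a‖ / ‖d‖ : ℝ) : ℂ) * d := by
      by_cases ha : a = 0
      · subst ha; simp
      · field_simp
    have hu : ‖((‖a‖ / ‖d‖ : ℝ) : ℂ) * (d / a)‖ ≤ 1 := by
      rw [norm_mul, Complex.norm_real, Real.norm_of_nonneg (by positivity), norm_div]
      by_cases ha : a = 0
      · subst ha; simp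
      · have ha' : 0 < ‖a‖ := norm_pos_iff.mpr ha
        apply le_of_eq
        field_simp
    have h1 := h _ hu
    rw [e] at h1
    have h2 : ((‖a‖ / ‖d‖ : ℝ) : ℂ) * d - d = (((‖a‖ / ‖d‖ : ℝ) - 1 : ℝ) : ℂ) * d := by
      push_cast; ring
    rw [h2, norm_mul, Complex.norm_real, Real.norm_eq_abs] at h1
    have h3 : |‖a‖ / ‖d‖ - 1| = 1 - ‖a‖ / ‖d‖ := by
      rw [abs_of_nonpos]
      · ring
      · have := (div_le_one hd').mpr hda.le
        linarith
    rw [h3] at h1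
    have h4 : (1 - ‖a‖ / ‖d‖) * ‖d‖ = ‖d‖ - ‖a‖ := by field_simp
    linarith

lemma exists_kap {z : ℂ} (hz : ‖z‖ ≤ 1) {ε : ℝ} (hε : 0 < ε) :
    ∃ (M m : ℕ) (θ : ℂ), 0 < m ∧ m < M ∧ ‖θ‖ = 1 ∧ ‖kap M θ m - z‖ < ε := by
  obtain ⟨u, hu, hzu⟩ : ∃ u : ℂ, ‖u‖ = 1 ∧ z = (‖z‖ : ℂ) * u := by
    by_cases h0 : z = 0
    · exact ⟨1, by simp, by simp [h0]⟩
    · have : ‖z‖ ≠ 0 := norm_ne_zero_iff.mpr h0
      refine ⟨z / ‖z‖, ?_, ?_⟩
      · rw [norm_div, Complex.norm_real, norm_norm, div_self this]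
      · have : (‖z‖ : ℂ) ≠ 0 := by exact_mod_cast this
        field_simp
  obtain ⟨n, hn⟩ := exists_nat_gt (1 / ε)
  set M : ℕ := n + 2 with hM
  have hMpos : (0 : ℝ) < M := by positivity
  have hMε : 1 / (M : ℝ) < ε := by
    rw [div_lt_comm₀ hMpos hε]
    have : (n : ℝ) < M := by rw [hM]; push_cast; linarith
    linarith
  obtain ⟨p, hp0, hpM, hp⟩ : ∃ p : ℕ, 0 < p ∧ p < M ∧ |(p : ℝ) / M - ‖z‖| ≤ 1 / M := by
    have h0 : 0 ≤ ‖z‖ * M := by positivity
    have hf1 := Nat.floor_le h0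
    have hf2 := Nat.lt_floor_add_one (‖z‖ * M)
    rcases Nat.eq_zero_or_pos ⌊‖z‖ * M⌋₊ with h | h
    · refine ⟨1, one_pos, by omega, ?_⟩
      rw [h] at hf2
      have h1 : ‖z‖ < 1 / M := by
        rw [lt_div_iff₀ hMpos]; simpa using hf2
      rw [abs_le]
      constructor
      · have := norm_nonneg z
        push_cast
        linarith
      · have := norm_nonneg z
        push_cast
        linarith
    · rcases Nat.lt_or_ge ⌊‖z‖ * M⌋₊ M with h' | h'
      · refine ⟨_, h, h', ?_⟩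
        rw [abs_le]
        have h1 : (⌊‖z‖ * M⌋₊ : ℝ) / M ≤ ‖z‖ := by rw [div_le_iff₀ hMpos]; exact hf1
        have h2 : ‖z‖ < (⌊‖z‖ * M⌋₊ : ℝ) / M + 1 / M := by
          rw [← add_div, lt_div_iff₀ hMpos]; exact hf2
        constructor
        · linarith
        · have : (0 : ℝ) ≤ 1 / M := by positivity
          linarith
      · refine ⟨M - 1, by omega, by omega, ?_⟩
        have h1 : (M : ℝ) ≤ ‖z‖ * M := by
          calc (M : ℝ) ≤ ⌊‖z‖ * M⌋₊ := by exact_mod_cast h'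
            _ ≤ _ := hf1
        have h2 : 1 ≤ ‖z‖ := by
          by_contra hcon
          push Not at hcon
          have : ‖z‖ * M < 1 * M := by exact mul_lt_mul_of_pos_right hcon hMpos
          linarith
        have h3 : ‖z‖ = 1 := le_antisymm hz h2
        rw [h3, Nat.cast_sub (by omega)]
        have h4 : ((M : ℝ) - (1 : ℕ)) / M - 1 = -(1 / M) := by
          push_cast
          field_simp
          ring
        rw [h4, abs_neg, abs_of_nonneg (by positivity)]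
  obtain ⟨θ, hθ⟩ := IsAlgClosed.exists_pow_nat_eq u (n := M - p) (by omega)
  have hθ1 : ‖θ‖ = 1 := by
    have : ‖θ‖ ^ (M - p) = 1 := by rw [← norm_pow, hθ, hu]
    exact (pow_eq_one_iff_of_nonneg (norm_nonneg _) (by omega)).mp this
  refine ⟨M, M - p, θ, by omega, by omega, hθ1, ?_⟩
  rw [kap_pos (by omega) hθ1, hθ]
  have e : M - (M - p) = p := by omega
  rw [e]
  have h5 : (((p : ℝ) / M : ℝ) : ℂ) * u - z = (((p : ℝ) / M - ‖z‖ : ℝ) : ℂ) * u := by
    conv_lhs => rw [hzu]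
    push_cast
    ring
  rw [h5, norm_mul, hu, mul_one, Complex.norm_real, Real.norm_eq_abs]
  exact lt_of_le_of_lt hp hMε

/-- a sequence of steps whose Fejer coefficients visit the whole unit disc -/
lemma exists_targets : ∃ (M m : ℕ → ℕ) (θ : ℕ → ℂ), (∀ k, 0 < M k) ∧ (∀ k, ‖θ k‖ = 1) ∧
    (∀ k, 0 < m k ∧ m k < M k) ∧
    ∀ z : ℂ, ‖z‖ ≤ 1 → ∀ ε : ℝ, 0 < ε → ∀ K : ℕ, ∃ k ≥ K, ‖kap (M k) (θ k) (m k) - z‖ < ε := by
  have hne : (Metric.closedBall (0 : ℂ) 1).Nonempty := ⟨0, by simp⟩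
  have : Nonempty (Metric.closedBall (0 : ℂ) 1) := hne.to_subtype
  let d : ℕ → Metric.closedBall (0 : ℂ) 1 := TopologicalSpace.denseSeq _
  have hd : DenseRange d := TopologicalSpace.denseRange_denseSeq _
  have hd1 : ∀ i, ‖(d i : ℂ)‖ ≤ 1 := fun i => mem_closedBall_zero_iff.mp (d i).2
  choose M m θ h1 h2 h3 h4 using fun (i n : ℕ) =>
    exists_kap (hd1 i) (show (0 : ℝ) < 1 / ((n : ℝ) + 1) by positivity)
  refine ⟨fun k => M k.unpair.1 k.unpair.2, fun k => m k.unpair.1 k.unpair.2,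
    fun k => θ k.unpair.1 k.unpair.2, fun k => (h1 _ _).trans (h2 _ _), fun k => h3 _ _,
    fun k => ⟨h1 _ _, h2 _ _⟩, ?_⟩
  intro z hz ε hε K
  obtain ⟨i, hi⟩ := hd.exists_dist_lt (⟨z, by simpa using hz⟩ : Metric.closedBall (0 : ℂ) 1)
    (half_pos hε)
  obtain ⟨n, hn⟩ := exists_nat_gt (2 / ε)
  refine ⟨Nat.pair i (max n K), ?_, ?_⟩
  · exact (le_max_right n K).trans (Nat.right_le_pair _ _)
  · simp only [Nat.unpair_pair]
    have h5 := h4 i (max n K)
    have h6 : 1 / (((max n K : ℕ) : ℝ) + 1) < ε / 2 := by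
      have : (n : ℝ) ≤ ((max n K : ℕ) : ℝ) := by exact_mod_cast le_max_left n K
      rw [div_lt_comm₀ (by positivity) (by positivity)]
      have h7 : 1 / (ε / 2) = 2 / ε := by field_simp
      rw [h7]
      linarith
    have h7 : ‖(d i : ℂ) - z‖ < ε / 2 := by
      have := hi
      rw [Subtype.dist_eq, dist_comm, dist_eq_norm] at this
      exact this
    calc ‖kap (M i (max n K)) (θ i (max n K)) (m i (max n K)) - z‖
        = ‖(kap (M i (max n K)) (θ i (max n K)) (m i (max n K)) - d i) + ((d i : ℂ) - z)‖ := by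
          congr 1; ring
      _ ≤ _ := norm_add_le _ _
      _ < ε := by linarith

end H697R3.NS
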