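import Mathlib

set_option autoImplicit false

open scoped ComplexOrder ComplexConjugate InnerProductSpace

noncomputable section

namespace H697R3.NS

/-! ### Hilbert space of a positive semidefinite kernel -/

section Kernel

variable {X : Type} (K : Matrix X X ℂ)

/-- the pre-Hilbert space of finitely supported functions -/
abbrev Pre (_ : Matrix X X ℂ) : Type := X →₀ ℂ

variable [hK : Fact K.PosSemidef]

instance instCore : PreInnerProductSpace.Core ℂ (Pre K) where
  inner f g := Finsupp.sum (M := ℂ) f fun x a => Finsupp.sum (M := ℂ) g fun y b =>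
    star a * K x y * b
  conj_inner_symm f g := by
    change conj (Finsupp.sum (M := ℂ) g fun x a => Finsupp.sum (M := ℂ) f fun y b =>
      star a * K x y * b) = _
    rw [Finsupp.sum_comm]
    simp only [map_finsuppSum]
    unfold Finsupp.sum
    refine Finset.sum_congr rfl fun x _ => Finset.sum_congr rfl fun y _ => ?_
    change conj (star (g y) * K y x * f x) = star (f x) * K x y * g y
    rw [map_mul, map_mul, ← (Fact.out : K.PosSemidef).1.apply x y]
    simp only [RCLike.star_def, Complex.conj_conj]
    ring
  add_left f g h := by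
    change Finsupp.sum (M := ℂ) (f + g : X →₀ ℂ) _ = _
    rw [Finsupp.sum_add_index'] 
    · intro x; simp
    · intro x a b; simp [← Finsupp.sum_add, add_mul]
  smul_left f g r := by
    change Finsupp.sum (M := ℂ) (r • f : X →₀ ℂ) _ = _
    rw [Finsupp.sum_smul_index]
    · change _ = conj r * (Finsupp.sum (M := ℂ) f _)
      simp [Finsupp.mul_sum, mul_assoc]
    · intro x; simp
  re_inner_nonneg f := by
    have := (Fact.out : K.PosSemidef).2 f
    exact (Complex.nonneg_iff.mp this).1

instance instSN : SeminormedAddCommGroup (Pre K) :=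
  InnerProductSpace.Core.toSeminormedAddCommGroup (𝕜 := ℂ)

instance instIP : InnerProductSpace ℂ (Pre K) := .ofCore _

lemma inner_def (f g : Pre K) : ⟪f, g⟫_ℂ =
    Finsupp.sum (M := ℂ) f fun x a => Finsupp.sum (M := ℂ) g fun y b => star a * K x y * b := rfl

/-- basis vector -/
def bv (x : X) : Pre K := Finsupp.single x (1 : ℂ)

lemma inner_bv (x y : X) : ⟪bv K x, bv K y⟫_ℂ = K x y := by
  rw [inner_def]
  simp [bv]

end Kernel

section Action

variable {G : Type} [Group G] {X : Type} [MulAction G X] (K : Matrix X X ℂ)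
  [hK : Fact K.PosSemidef] 

/-- the translation on the pre-Hilbert space -/
def trans0 (g : G) : Pre K →ₗ[ℂ] Pre K := Finsupp.lmapDomain ℂ ℂ (fun x => g • x)

lemma trans0_bv (g : G) (x : X) : trans0 K g (bv K x) = bv K (g • x) := by
  simp [trans0, bv, Finsupp.lmapDomain, Finsupp.mapDomain_single]

lemma trans0_mul (g h : G) (f : Pre K) : trans0 K (g * h) f = trans0 K g (trans0 K h f) := by
  change Finsupp.mapDomain _ (f : X →₀ ℂ) =
    Finsupp.mapDomain _ (Finsupp.mapDomain _ (f : X →₀ ℂ))
  rw [← Finsupp.mapDomain_comp]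
  congr 1
  funext x
  simp [mul_smul]

lemma trans0_one (f : Pre K) : trans0 K (1 : G) f = f := by
  change Finsupp.mapDomain (fun x : X => (1 : G) • x) (f : X →₀ ℂ) = f
  have : (fun x : X => (1 : G) • x) = id := by funext x; simp
  rw [this, Finsupp.mapDomain_id]

lemma inner_trans0 (hinv : ∀ (g : G) (x y : X), K (g • x) (g • y) = K x y) (g : G)
    (f f' : Pre K) : ⟪trans0 K g f, trans0 K g f'⟫_ℂ = ⟪f, f'⟫_ℂ := by
  rw [inner_def, inner_def]
  have e1 := Finsupp.sum_mapDomain_index (f := fun x : X => g • x) (s := (f : X →₀ ℂ))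
    (h := fun x a => Finsupp.sum (M := ℂ) (Finsupp.mapDomain (fun x : X => g • x) f')
      fun y b => star a * K x y * b) (by intro x; simp)
      (by intro x a b; simp [← Finsupp.sum_add, add_mul])
  refine e1.trans ?_
  unfold Finsupp.sum
  refine Finset.sum_congr rfl fun x _ => ?_
  have e2 := Finsupp.sum_mapDomain_index (f := fun x : X => g • x) (s := (f' : X →₀ ℂ))
    (h := fun y b => star (f x) * K (g • x) y * b) (by intro x; simp)
      (by intro x a b; simp [mul_add])
  refine e2.trans ?_
  unfold Finsupp.sum
  refine Finset.sum_congr rfl fun y _ => ?_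
  change star (f x) * K (g • x) (g • y) * (f' y) = star (f x) * K x y * (f' y)
  rw [hinv]

lemma norm_trans0 (hinv : ∀ (g : G) (x y : X), K (g • x) (g • y) = K x y) (g : G)
    (f : Pre K) : ‖trans0 K g f‖ = ‖f‖ := by
  have h := inner_trans0 K hinv g f f
  rw [inner_self_eq_norm_sq_to_K, inner_self_eq_norm_sq_to_K] at h
  have h2 : ‖trans0 K g f‖ ^ 2 = ‖f‖ ^ 2 := by exact_mod_cast h
  exact (sq_eq_sq₀ (norm_nonneg _) (norm_nonneg _)).mp h2

variable (hinv : ∀ (g : G) (x y : X), K (g • x) (g • y) = K x y)

/-- the translation as a continuous linear map -/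
def trans1 (g : G) : Pre K →L[ℂ] Pre K :=
  (trans0 K g).mkContinuous 1 (fun f => by rw [norm_trans0 K hinv, one_mul])

lemma denseRange_toComplL :
    DenseRange (UniformSpace.Completion.toComplL : Pre K →L[ℂ] UniformSpace.Completion (Pre K)) :=
  UniformSpace.Completion.denseRange_coe

lemma isUI_toComplL : IsUniformInducing
    (UniformSpace.Completion.toComplL : Pre K →L[ℂ] UniformSpace.Completion (Pre K)) :=
  UniformSpace.Completion.isUniformInducing_coe _

/-- the translation on the completion -/
def trans2 (g : G) : UniformSpace.Completion (Pre K) →L[ℂ] UniformSpace.Completion (Pre K) :=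
  ((UniformSpace.Completion.toComplL : Pre K →L[ℂ] UniformSpace.Completion (Pre K)).comp
    (trans1 K hinv g)).extend (UniformSpace.Completion.toComplL)

lemma trans2_coe (g : G) (f : Pre K) :
    trans2 K hinv g (f : UniformSpace.Completion (Pre K)) = ((trans0 K g f : Pre K) :
      UniformSpace.Completion (Pre K)) := by
  have := ContinuousLinearMap.extend_eq
    ((UniformSpace.Completion.toComplL : Pre K →L[ℂ] UniformSpace.Completion (Pre K)).comp
    (trans1 K hinv g)) (denseRange_toComplL K) (isUI_toComplL K) f
  exact this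

lemma inner_trans2 (g : G) (a b : UniformSpace.Completion (Pre K)) :
    ⟪trans2 K hinv g a, trans2 K hinv g b⟫_ℂ = ⟪a, b⟫_ℂ := by
  induction a, b using UniformSpace.Completion.induction_on₂ with
  | hp => exact isClosed_eq (by fun_prop) (by fun_prop)
  | ih a b => rw [trans2_coe, trans2_coe, UniformSpace.Completion.inner_coe,
      UniformSpace.Completion.inner_coe, inner_trans0 K hinv]

lemma trans2_mul (g h : G) : trans2 K hinv (g * h) = trans2 K hinv g * trans2 K hinv h := by
  ext a
  induction a using UniformSpace.Completion.induction_on with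
  | hp => exact isClosed_eq (by fun_prop) (by fun_prop)
  | ih a => 
    change trans2 K hinv (g * h) a = trans2 K hinv g (trans2 K hinv h a)
    rw [trans2_coe, trans2_coe, trans2_coe, trans0_mul]

lemma trans2_one : trans2 K hinv 1 = 1 := by
  ext a
  induction a using UniformSpace.Completion.induction_on with
  | hp => exact isClosed_eq (by fun_prop) (by fun_prop)
  | ih a => 
    change trans2 K hinv 1 a = a
    rw [trans2_coe, trans0_one]

lemma trans2_mem (g : G) : trans2 K hinv g ∈
    unitary (UniformSpace.Completion (Pre K) →L[ℂ] UniformSpace.Completion (Pre K)) := by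
  have h1 : star (trans2 K hinv g) * trans2 K hinv g = 1 := by
    ext a
    refine ext_inner_right ℂ fun b => ?_
    change ⟪(star (trans2 K hinv g)) (trans2 K hinv g a), b⟫_ℂ = ⟪a, b⟫_ℂ
    rw [ContinuousLinearMap.star_eq_adjoint, ContinuousLinearMap.adjoint_inner_left,
      inner_trans2]
  have h2 : trans2 K hinv g * trans2 K hinv g⁻¹ = 1 := by
    rw [← trans2_mul, mul_inv_cancel, trans2_one]
  have h3 : star (trans2 K hinv g) = trans2 K hinv g⁻¹ := by
    calc star (trans2 K hinv g) = star (trans2 K hinv g) * (trans2 K hinv g * trans2 K hinv g⁻¹) := by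
          rw [h2, mul_one]
      _ = trans2 K hinv g⁻¹ := by rw [← mul_assoc, h1, one_mul]
  refine Unitary.mem_iff.mpr ⟨h1, ?_⟩
  rw [h3, h2]

/-- the unitary representation attached to an invariant kernel -/
def urep : G →* unitary (UniformSpace.Completion (Pre K) →L[ℂ] UniformSpace.Completion (Pre K)) where
  toFun g := ⟨trans2 K hinv g, trans2_mem K hinv g⟩
  map_one' := Subtype.ext (trans2_one K hinv)
  map_mul' g h := Subtype.ext (trans2_mul K hinv g h)

end Action

/-- GNS construction for an invariant positive semidefinite kernel on a `G`-set. -/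
theorem gns_kernel {G : Type} [Group G] {X : Type} [MulAction G X] (K : Matrix X X ℂ)
    (hK : K.PosSemidef) (hinv : ∀ (g : G) (x y : X), K (g • x) (g • y) = K x y) :
    ∃ (H : Type) (_ : NormedAddCommGroup H) (_ : InnerProductSpace ℂ H) (_ : CompleteSpace H)
      (π : G →* unitary (H →L[ℂ] H)) (v : X → H),
      (∀ x y, ⟪v x, v y⟫_ℂ = K x y) ∧ ∀ g x, (π g : H →L[ℂ] H) (v x) = v (g • x) := by
  have : Fact K.PosSemidef := ⟨hK⟩
  refine ⟨UniformSpace.Completion (Pre K), inferInstance, inferInstance, inferInstance,
    urep K hinv, fun x => ((bv K x : Pre K) : UniformSpace.Completion (Pre K)), ?_, ?_⟩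
  · intro x y
    rw [UniformSpace.Completion.inner_coe, inner_bv]
  · intro g x
    change trans2 K hinv g (bv K x : Pre K) = _
    rw [trans2_coe, trans0_bv]

end H697R3.NS
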