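import Pool.Agent.H697R3.NSBN

set_option autoImplicit false

open scoped ComplexOrder ComplexConjugate InnerProductSpace
open Finset

noncomputable section

namespace H697R3.NS

/-! ### one step of the Riesz product -/

/-- Fejer step -/
def Tst (M : ℕ) (θ : ℂ) (g : ℤ) (q : ℤ → ℂ) : ℤ → ℂ := fun n =>
  ((1 / M : ℝ) : ℂ) * ∑ a ∈ range M, ∑ b ∈ range M,
    star ((conj θ) ^ a) * (conj θ) ^ b * q (-(a * g) + n + b * g)

/-- Fejer coefficient -/
def kap (M : ℕ) (θ : ℂ) (m : ℤ) : ℂ :=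
  ((1 / M : ℝ) : ℂ) * ∑ a ∈ range M, ∑ b ∈ range M,
    star ((conj θ) ^ a) * (conj θ) ^ b * (if m - a + b = 0 then 1 else 0)

lemma star_conj_pow (θ : ℂ) (a : ℕ) : star ((conj θ) ^ a) = θ ^ a := by
  simp

lemma theta_mul {θ : ℂ} (hθ : ‖θ‖ = 1) (a : ℕ) : θ ^ a * (conj θ) ^ a = 1 := by
  rw [← mul_pow, Complex.mul_conj, Complex.normSq_eq_norm_sq, hθ]
  simp

lemma kap_zero {M : ℕ} (hM : 0 < M) {θ : ℂ} (hθ : ‖θ‖ = 1) : kap M θ 0 = 1 := by
  unfold kap
  have : ∑ a ∈ range M, ∑ b ∈ range M,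
      star ((conj θ) ^ a) * (conj θ) ^ b * (if (0 : ℤ) - a + b = 0 then (1 : ℂ) else 0) = M := by
    have e : ∀ a ∈ range M, ∑ b ∈ range M,
      star ((conj θ) ^ a) * (conj θ) ^ b * (if (0 : ℤ) - a + b = 0 then (1 : ℂ) else 0) = 1 := by
      intro a ha
      rw [Finset.sum_eq_single a]
      · rw [if_pos (by ring), mul_one, star_conj_pow, theta_mul hθ]
      · intro b _ hb
        rw [if_neg (by omega), mul_zero]
      · intro h; exact absurd ha h
    rw [Finset.sum_congr rfl e]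
    simp
  rw [this]
  have hM' : (M : ℂ) ≠ 0 := by exact_mod_cast hM.ne'
  push_cast
  field_simp

lemma kap_pos {M m : ℕ} (hmM : m < M) {θ : ℂ} (hθ : ‖θ‖ = 1) :
    kap M θ m = (((M - m : ℕ) : ℝ) / M : ℝ) * θ ^ m := by
  unfold kap
  have : ∑ a ∈ range M, ∑ b ∈ range M,
      star ((conj θ) ^ a) * (conj θ) ^ b * (if (m : ℤ) - a + b = 0 then (1 : ℂ) else 0)
        = ((M - m : ℕ) : ℂ) * θ ^ m := by
    rw [Finset.sum_comm]
    have e : ∀ b ∈ range M, ∑ a ∈ range M,
      star ((conj θ) ^ a) * (conj θ) ^ b * (if (m : ℤ) - a + b = 0 then (1 : ℂ) else 0) =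
        if b < M - m then θ ^ m else 0 := by
      intro b hb
      split_ifs with h
      · rw [Finset.sum_eq_single (b + m)]
        · rw [if_pos (by push_cast; ring), mul_one, star_conj_pow, pow_add]
          calc θ ^ b * θ ^ m * conj θ ^ b = θ ^ m * (θ ^ b * conj θ ^ b) := by ring
            _ = θ ^ m := by rw [theta_mul hθ, mul_one]
        · intro a _ hab
          rw [if_neg (by omega), mul_zero]
        · intro hn
          exact absurd (Finset.mem_range.mpr (by omega)) hn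
      · refine Finset.sum_eq_zero fun a ha => ?_
        rw [Finset.mem_range] at ha
        rw [if_neg (by omega), mul_zero]
    rw [Finset.sum_congr rfl e, ← Finset.sum_filter]
    have : (range M).filter (fun b => b < M - m) = range (M - m) := by
      ext b; simp only [Finset.mem_filter, Finset.mem_range]; omega
    rw [this]
    simp
  rw [this]
  push_cast
  ring

lemma Tst_eval {M : ℕ} {θ : ℂ} {g R : ℕ} (hg : 2 * R + 1 ≤ g) {q : ℤ → ℂ}
    (hq : ∀ n : ℤ, q n ≠ 0 → |n| ≤ R) {w : ℤ} (hw : |w| ≤ R) (m : ℤ) :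
    Tst M θ g q (w + m * g) = kap M θ m * q w := by
  unfold Tst kap
  rw [mul_assoc]
  congr 1
  rw [Finset.sum_mul]
  refine Finset.sum_congr rfl fun a _ => ?_
  rw [Finset.sum_mul]
  refine Finset.sum_congr rfl fun b _ => ?_
  by_cases h : m - a + b = 0
  · rw [if_pos h, mul_one]
    congr 2
    have : m = a - b := by linarith
    rw [this]; ring
  · rw [if_neg h, mul_zero, zero_mul]
    have : q (-(a * g) + (w + m * g) + b * g) = 0 := by
      by_contra hne
      have h1 := hq _ hne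
      have e : -((a : ℤ) * g) + (w + m * g) + b * g = w + (m - a + b) * g := by ring
      rw [e] at h1
      have h2 : (g : ℤ) ≤ |(m - a + b) * g| := by
        rw [abs_mul, Nat.abs_cast]
        have : 1 ≤ |m - a + b| := Int.one_le_abs h
        nlinarith
      have h3 : |(m - a + b) * (g : ℤ)| ≤ |w + (m - a + b) * g| + |w| := by
        calc |(m - a + b) * (g : ℤ)| = |(w + (m - a + b) * g) - w| := by congr 1; ring
          _ ≤ _ := abs_sub _ _
      have : (2 * R + 1 : ℤ) ≤ g := by exact_mod_cast hg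
      linarith
    rw [this, mul_zero]

lemma Tst_supp {M : ℕ} {θ : ℂ} {g : ℕ} {q : ℤ → ℂ} {n : ℤ} (h : Tst M θ g q n ≠ 0) :
    ∃ w m : ℤ, q w ≠ 0 ∧ |m| ≤ M ∧ n = w + m * g := by
  unfold Tst at h
  have h1 := right_ne_zero_of_mul h
  obtain ⟨a, ha, h2⟩ := Finset.exists_ne_zero_of_sum_ne_zero h1
  obtain ⟨b, hb, h3⟩ := Finset.exists_ne_zero_of_sum_ne_zero h2
  refine ⟨-(a * g) + n + b * g, (a : ℤ) - b, right_ne_zero_of_mul h3, ?_, by ring⟩
  rw [Finset.mem_range] at ha hb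
  rw [abs_le]
  constructor <;> omega

/-! ### extension from `ℤ` to `G` -/

section ext
variable {G : Type} [Group G] (g0 : G)

open Classical in
/-- extension by zero of a function on `ℤ ≅ ⟨g0⟩` -/
def ext (q : ℤ → ℂ) : G → ℂ := fun x =>
  if h : ∃ n : ℤ, g0 ^ n = x then q (Classical.choose h) else 0

variable (hinj : Function.Injective fun n : ℤ => g0 ^ n)

include hinj

lemma ext_apply (q : ℤ → ℂ) (n : ℤ) : ext g0 q (g0 ^ n) = q n := by
  unfold ext
  have h : ∃ m : ℤ, g0 ^ m = g0 ^ n := ⟨n, rfl⟩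
  rw [dif_pos h]
  congr 1
  exact hinj (Classical.choose_spec h)

omit hinj in
lemma ext_out (q : ℤ → ℂ) {x : G} (hx : ¬ ∃ n : ℤ, g0 ^ n = x) : ext g0 q x = 0 := by
  unfold ext; rw [dif_neg hx]

omit hinj in
lemma ext_cases {P : G → Prop} (h1 : ∀ n : ℤ, P (g0 ^ n))
    (h2 : ∀ x, (¬ ∃ n : ℤ, g0 ^ n = x) → P x) (x : G) : P x := by
  by_cases hx : ∃ n : ℤ, g0 ^ n = x
  · obtain ⟨n, rfl⟩ := hx; exact h1 n
  · exact h2 x hx

lemma PD_ext_Tst {M : ℕ} (θ : ℂ) (g : ℤ) {q : ℤ → ℂ} (hq : PD (ext g0 q)) :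
    PD (ext g0 (Tst M θ g q)) := by
  have h := (hq.conv (range M) (fun a => (conj θ) ^ a) (fun a => g0 ^ ((a : ℤ) * g))).const
    (r := 1 / M) (by positivity)
  convert h using 1
  funext x
  refine ext_cases g0 (P := fun x => ext g0 (Tst M θ g q) x = ((1 / M : ℝ) : ℂ) *
    ∑ a ∈ range M, ∑ b ∈ range M, star ((conj θ) ^ a) * (conj θ) ^ b *
      ext g0 q ((g0 ^ ((a : ℤ) * g))⁻¹ * x * g0 ^ ((b : ℤ) * g))) ?_ ?_ x
  · intro n
    rw [ext_apply g0 hinj]
    unfold Tst
    congr 1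
    refine Finset.sum_congr rfl fun a _ => Finset.sum_congr rfl fun b _ => ?_
    have : (g0 ^ ((a : ℤ) * g))⁻¹ * g0 ^ n * g0 ^ ((b : ℤ) * g) = g0 ^ (-(a * g) + n + b * g) := by
      rw [← zpow_neg, ← zpow_add, ← zpow_add]
    rw [this, ext_apply g0 hinj]
  · intro x hx
    rw [ext_out g0 _ hx]
    symm
    rw [Finset.sum_eq_zero, mul_zero]
    intro a _
    refine Finset.sum_eq_zero fun b _ => ?_
    rw [ext_out g0 q, mul_zero]
    rintro ⟨n, hn⟩
    apply hx
    refine ⟨a * g + n - b * g, ?_⟩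
    rw [zpow_sub, zpow_add, hn]
    group

lemma PD_ext_delta : PD (ext g0 (fun n => if n = 0 then (1 : ℂ) else 0)) := by
  classical
  have h := PD.subgroup (⊥ : Subgroup G)
  convert h using 1
  funext x
  refine ext_cases g0 (P := fun x => ext g0 (fun n => if n = 0 then (1 : ℂ) else 0) x =
    if x ∈ (⊥ : Subgroup G) then (1 : ℂ) else 0) ?_ ?_ x
  · intro n
    rw [ext_apply g0 hinj]
    have : n = 0 ↔ g0 ^ n ∈ (⊥ : Subgroup G) := by
      rw [Subgroup.mem_bot]
      constructor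
      · rintro rfl; simp
      · intro h
        have h2 : (fun n : ℤ => g0 ^ n) n = (fun n : ℤ => g0 ^ n) 0 := by simpa using h
        exact hinj h2
    simp only [this]
  · intro x hx
    rw [ext_out g0 _ hx, if_neg]
    rw [Subgroup.mem_bot]
    rintro rfl
    exact hx ⟨0, by simp⟩

end ext

end H697R3.NS
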