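import Mathlib

set_option autoImplicit false

/-! Combinatorial part: a tree with level map, random antichains. -/

namespace Pool.Agent.H697R3.CombDual

open Finset

/-- Abstract tree data on the naturals: `L` is the level, `v` the value of a node,
`R s t` says that `s` is an ancestor of `t` (or equal to it). -/
structure TreeData where
  L : ℕ → ℕ
  v : ℕ → ℝ
  R : ℕ → ℕ → Prop
  v_nonneg : ∀ t, 0 ≤ v t
  v_le_one : ∀ t, v t ≤ 1
  refl : ∀ t, R t t
  fin : ∀ n, {t | L t = n}.Finite
  inj : ∀ s s' t, R s t → R s' t → L s = L s' → s = s'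
  sq : ∀ t (S : Finset ℕ), (∀ s ∈ S, R s t) → ∑ s ∈ S, v s ^ 2 ≤ 2
  branch : ∀ (β : ℕ → ℝ) (N : ℕ), ∑ n ∈ range N, β n ^ 2 ≤ 1 →
    ∃ s : ℕ → ℕ, (∀ n < N, L (s n) = n ∧ |β n| ≤ 2 * v (s n)) ∧
      ∀ m n, m ≤ n → n < N → R (s m) (s n)

/-- The family of finite antichains whose level set is Schreier-like. -/
def Fam (D : TreeData) : Set (Finset ℕ) :=
  {A | (∀ s ∈ A, ∀ t ∈ A, s ≠ t → ¬ D.R s t) ∧ ∀ s ∈ A, (A.image D.L).card ≤ 4 ^ (D.L s)}

open Classical in
theorem sampling (D : TreeData) (V : Finset ℕ) (μ : ℕ → ℝ) (hμ : ∀ n, 0 ≤ μ n)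
    (hsum : ∑ n ∈ V, μ n = 1) (T' : Finset ℕ) (hTV : ∀ t ∈ T', D.L t ∈ V)
    (w : ℕ → ℝ) (hw : ∀ t, 0 ≤ w t) (κ : ℝ) (q : ℕ) (hq : 1 ≤ q)
    (hκ : ∀ t ∈ T', ∑ n ∈ (T'.filter (fun s => D.R s t)).image D.L, μ n ≤ κ)
    (hqκ : ((q : ℝ) - 1) * κ ≤ 1 / 2)
    (hF : ∀ F ⊆ T', (∀ s ∈ F, ∀ t ∈ F, s ≠ t → ¬ D.R s t) → (F.image D.L).card ≤ q →
      ∑ t ∈ F, w t ≤ 1) :
    (q : ℝ) * ∑ t ∈ T', μ (D.L t) * w t ≤ 2 := by
  set Lev : ℕ → Finset ℕ := fun t => (T'.filter (fun s => D.R s t)).image D.L with hLev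
  set Ω : Finset (Fin q → ℕ) := Fintype.piFinset (fun _ : Fin q => V) with hΩ
  set W : (Fin q → ℕ) → ℝ := fun f => ∏ r, μ (f r) with hW
  have hWsum : ∑ f ∈ Ω, W f = 1 := by
    have := Finset.prod_univ_sum (fun _ : Fin q => V) (fun (_ : Fin q) n => μ n)
    rw [hΩ, hW, ← this, hsum]; simp
  have hW0 : ∀ f, 0 ≤ W f := fun f => Finset.prod_nonneg fun r _ => hμ _
  set Ev : Fin q → ℕ → (Fin q → ℕ) → Prop :=
    fun r t f => f r = D.L t ∧ ∀ r', r' ≠ r → f r' ∉ Lev t with hEv
  have hLevself : ∀ t ∈ T', D.L t ∈ Lev t := by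
    intro t ht
    simp only [hLev, mem_image, mem_filter]
    exact ⟨t, ⟨ht, D.refl t⟩, rfl⟩
  have hLevV : ∀ t, Lev t ⊆ V := by
    intro t n hn
    simp only [hLev, mem_image, mem_filter] at hn
    obtain ⟨s, ⟨hs, _⟩, rfl⟩ := hn
    exact hTV s hs
  -- the antichain attached to a sample
  set Fs : (Fin q → ℕ) → Finset ℕ := fun f => T'.filter (fun t => ∃ r, Ev r t f) with hFs
  have hFsle : ∀ f, ∑ t ∈ Fs f, w t ≤ 1 := by
    intro f
    apply hF _ (filter_subset _ _)
    · intro s hs t ht hst hR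
      simp only [hFs, mem_filter, hEv] at hs ht
      obtain ⟨hsT, r, hr, hr2⟩ := hs
      obtain ⟨htT, r1, h1, h2⟩ := ht
      have hLs : D.L s ∈ Lev t := by
        simp only [hLev, mem_image, mem_filter]
        exact ⟨s, ⟨hsT, hR⟩, rfl⟩
      have hrr : r = r1 := by
        by_contra hne
        apply h2 r hne
        rw [hr]; exact hLs
      apply hst
      apply D.inj s t t hR (D.refl t)
      rw [← hr, ← h1, hrr]
    · have hsub : (Fs f).image D.L ⊆ Finset.univ.image f := by
        intro n hn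
        simp only [hFs, mem_image, mem_filter, hEv] at hn
        obtain ⟨t, ⟨_, r, hr, _⟩, rfl⟩ := hn
        simp only [mem_image, mem_univ, true_and]
        exact ⟨r, hr⟩
      calc ((Fs f).image D.L).card ≤ (Finset.univ.image f).card := card_le_card hsub
        _ ≤ (Finset.univ : Finset (Fin q)).card := card_image_le
        _ = q := by simp
  -- probability of each event
  have hprob : ∀ t ∈ T', ∀ r : Fin q,
      μ (D.L t) * (1 / 2) ≤ ∑ f ∈ Ω, (if Ev r t f then W f else 0) := by
    intro t ht r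
    set g : Fin q → ℕ → ℝ := fun r' n =>
      if r' = r then (if n = D.L t then μ n else 0) else (if n ∈ Lev t then 0 else μ n) with hg
    have h1 : ∀ f ∈ Ω, (if Ev r t f then W f else 0) = ∏ r', g r' (f r') := by
      intro f _
      by_cases hE : Ev r t f
      · rw [if_pos hE]
        apply Finset.prod_congr rfl
        intro r' _
        simp only [hg]
        by_cases hr : r' = r
        · rw [if_pos hr, if_pos (by rw [hr]; exact hE.1)]
        · rw [if_neg hr, if_neg (hE.2 r' hr)]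
      · rw [if_neg hE]
        symm
        rw [Finset.prod_eq_zero_iff]
        simp only [hEv] at hE
        by_cases h : f r = D.L t
        · have : ∃ r', r' ≠ r ∧ f r' ∈ Lev t := by
            by_contra hcon
            push Not at hcon
            exact hE ⟨h, hcon⟩
          obtain ⟨r', hr', hmem⟩ := this
          refine ⟨r', mem_univ _, ?_⟩
          simp only [hg]
          rw [if_neg hr', if_pos hmem]
        · refine ⟨r, mem_univ _, ?_⟩
          simp only [hg]
          rw [if_true, if_neg h]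
    rw [Finset.sum_congr rfl h1]
    have h2 := Finset.prod_univ_sum (fun _ : Fin q => V) g
    rw [← hΩ] at h2
    rw [← h2]
    rw [← Finset.mul_prod_erase _ _ (mem_univ r)]
    have h3 : ∑ n ∈ V, g r n = μ (D.L t) := by
      simp only [hg, if_true]
      rw [Finset.sum_ite_eq' V (D.L t)]
      rw [if_pos (hTV t ht)]
    set c : ℝ := ∑ n ∈ V, (if n ∈ Lev t then 0 else μ n) with hc
    have h4 : ∏ r' ∈ Finset.univ.erase r, ∑ n ∈ V, g r' n = c ^ (q - 1) := by
      have : ∀ r' ∈ (Finset.univ : Finset (Fin q)).erase r, ∑ n ∈ V, g r' n = c := by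
        intro r' hr'
        have hne : r' ≠ r := (Finset.mem_erase.1 hr').1
        simp only [hg, if_neg hne, hc]
      rw [Finset.prod_congr rfl this, Finset.prod_const]
      congr 1
      rw [Finset.card_erase_of_mem (mem_univ r)]
      simp
    rw [h3, h4]
    have hc1 : c = 1 - ∑ n ∈ Lev t, μ n := by
      have : ∑ n ∈ V, μ n = ∑ n ∈ Lev t, μ n + ∑ n ∈ V \ Lev t, μ n := by
        rw [add_comm]; exact (Finset.sum_sdiff (hLevV t)).symm
      have h5 : c = ∑ n ∈ V \ Lev t, μ n := by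
        rw [hc, Finset.sdiff_eq_filter, Finset.sum_filter]
        apply Finset.sum_congr rfl
        intro n _
        by_cases hn : n ∈ Lev t <;> simp [hn]
      rw [h5]; linarith
    have hc0 : 0 ≤ c := by
      rw [hc]
      apply Finset.sum_nonneg
      intro n _
      split_ifs
      · exact le_refl _
      · exact hμ n
    set κ' := ∑ n ∈ Lev t, μ n with hκ'
    have hκκ : κ' ≤ κ := hκ t ht
    have hκ1 : κ' ≤ 1 := by linarith
    have hbern := one_add_mul_le_pow (a := -κ') (by linarith) (q - 1)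
    have hqc : ((q - 1 : ℕ) : ℝ) = (q : ℝ) - 1 := by
      rw [Nat.cast_sub hq]; simp
    have hq1 : (0 : ℝ) ≤ (q : ℝ) - 1 := by
      rw [← hqc]; positivity
    have hc2 : (1 : ℝ) / 2 ≤ c ^ (q - 1) := by
      rw [hqc] at hbern
      have h6 : ((q : ℝ) - 1) * κ' ≤ ((q : ℝ) - 1) * κ := mul_le_mul_of_nonneg_left hκκ hq1
      have : c = 1 + -κ' := by rw [hc1]; ring
      rw [this]
      linarith
    exact mul_le_mul_of_nonneg_left hc2 (hμ _)
  -- at most one event happens
  have hone : ∀ f t, t ∈ T' →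
      ∑ r : Fin q, (if Ev r t f then W f else 0) ≤ if (∃ r, Ev r t f) then W f else 0 := by
    intro f t ht
    by_cases h : ∃ r, Ev r t f
    · rw [if_pos h]
      obtain ⟨r0, hr0⟩ := h
      rw [Finset.sum_eq_single r0]
      · rw [if_pos hr0]
      · intro r _ hne
        rw [if_neg]
        intro hE
        apply hE.2 r0 (Ne.symm hne)
        rw [hr0.1]
        exact hLevself t ht
      · intro h; exact absurd (mem_univ _) h
    · rw [if_neg h]
      apply le_of_eq
      apply Finset.sum_eq_zero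
      intro r _
      rw [if_neg]
      intro hE; exact h ⟨r, hE⟩
  have hmain : ∑ t ∈ T', w t * ((q : ℝ) * (μ (D.L t) * (1 / 2))) ≤ 1 := by
    calc ∑ t ∈ T', w t * ((q : ℝ) * (μ (D.L t) * (1 / 2)))
        ≤ ∑ t ∈ T', w t * ∑ f ∈ Ω, (if (∃ r, Ev r t f) then W f else 0) := by
          apply Finset.sum_le_sum
          intro t ht
          apply mul_le_mul_of_nonneg_left _ (hw t)
          calc (q : ℝ) * (μ (D.L t) * (1 / 2)) = ∑ _r : Fin q, μ (D.L t) * (1 / 2) := by simp
            _ ≤ ∑ r : Fin q, ∑ f ∈ Ω, (if Ev r t f then W f else 0) :=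
                Finset.sum_le_sum fun r _ => hprob t ht r
            _ = ∑ f ∈ Ω, ∑ r : Fin q, (if Ev r t f then W f else 0) := Finset.sum_comm
            _ ≤ _ := Finset.sum_le_sum fun f _ => hone f t ht
      _ = ∑ f ∈ Ω, W f * ∑ t ∈ Fs f, w t := by
          simp_rw [Finset.mul_sum]
          rw [Finset.sum_comm]
          apply Finset.sum_congr rfl
          intro f _
          simp only [hFs]
          rw [Finset.sum_filter]
          apply Finset.sum_congr rfl
          intro t _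
          by_cases h : ∃ r, Ev r t f
          · rw [if_pos h, if_pos h]; ring
          · rw [if_neg h, if_neg h]; ring
      _ ≤ ∑ f ∈ Ω, W f * 1 := by
          apply Finset.sum_le_sum
          intro f _
          exact mul_le_mul_of_nonneg_left (hFsle f) (hW0 f)
      _ = 1 := by simp [hWsum]
  have : ∑ t ∈ T', w t * ((q : ℝ) * (μ (D.L t) * (1 / 2)))
      = (1 / 2) * ((q : ℝ) * ∑ t ∈ T', μ (D.L t) * w t) := by
    rw [Finset.mul_sum, Finset.mul_sum]
    apply Finset.sum_congr rfl
    intro t _; ring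
  rw [this] at hmain
  linarith

end Pool.Agent.H697R3.CombDual
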