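import Pool.Agent.H697R3.Sampling

set_option autoImplicit false

namespace Pool.Agent.H697R3.CombDual

open Finset

/-- Nodes of level `n`: sequences of exponents `j_0, …, j_n ≤ n + 1` with
`∑ 4 ^ (-j_k) ≤ 2`. -/
def LNode (n : ℕ) : Type :=
  {f : Fin (n + 1) → Fin (n + 2) // ∑ k, (1 / 4 : ℝ) ^ ((f k : ℕ)) ≤ 2}

instance (n : ℕ) : Finite (LNode n) := by unfold LNode; infer_instance

abbrev Node : Type := Σ n, LNode n

instance : Countable Node := by
  have : ∀ n, Countable (LNode n) := fun n => inferInstance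
  infer_instance

/-- the exponent sequence of a node, extended by zero -/
def ext (t : Node) (k : ℕ) : ℕ := if h : k < t.1 + 1 then (t.2.1 ⟨k, h⟩ : ℕ) else 0

theorem node_ext (s t : Node) (h : s.1 = t.1) (h2 : ∀ k ≤ s.1, ext s k = ext t k) : s = t := by
  rcases s with ⟨n, f, hf⟩
  rcases t with ⟨m, g, hg⟩
  simp only at h
  subst h
  have : f = g := by
    funext k
    apply Fin.ext
    have := h2 k (Nat.lt_succ_iff.1 k.2)
    simp only [ext] at this
    rw [dif_pos k.2, dif_pos k.2] at this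
    exact this
  subst this
  rfl

theorem sum_ext (t : Node) : ∑ k ∈ range (t.1 + 1), (1 / 4 : ℝ) ^ (ext t k) ≤ 2 := by
  rw [Finset.sum_range]
  have : ∀ k : Fin (t.1 + 1), (1 / 4 : ℝ) ^ (ext t k) = (1 / 4 : ℝ) ^ ((t.2.1 k : ℕ)) := by
    intro k
    simp only [ext]
    rw [dif_pos k.2]
  rw [Finset.sum_congr rfl (fun k _ => this k)]
  exact t.2.2

/-- build a node from a sequence -/
def mkNode (j : ℕ → ℕ) (n : ℕ) (hj : ∀ k, j k ≤ k + 1)
    (hs : ∑ k ∈ range (n + 1), (1 / 4 : ℝ) ^ (j k) ≤ 2) : Node :=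
  ⟨n, ⟨fun k => ⟨j k, by have := hj k; have := k.2; omega⟩, by
    rw [Finset.sum_range] at hs
    exact hs⟩⟩

theorem ext_mkNode (j : ℕ → ℕ) (n : ℕ) (hj : ∀ k, j k ≤ k + 1)
    (hs : ∑ k ∈ range (n + 1), (1 / 4 : ℝ) ^ (j k) ≤ 2) (k : ℕ) (hk : k ≤ n) :
    ext (mkNode j n hj hs) k = j k := by
  have h : k < (mkNode j n hj hs).1 + 1 := by
    show k < n + 1
    omega
  unfold ext
  rw [dif_pos h]
  rfl

theorem geom_quarter (n : ℕ) : ∑ k ∈ range n, (1 / 4 : ℝ) ^ (k + 1) ≤ 1 := by
  have : ∀ k ∈ range n, (1 / 4 : ℝ) ^ (k + 1) ≤ (1 / 2) * (1 / 2) ^ k := by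
    intro k _
    rw [← pow_succ']
    exact pow_le_pow_left₀ (by norm_num) (by norm_num) _
  calc _ ≤ ∑ k ∈ range n, (1 / 2 : ℝ) * (1 / 2) ^ k := Finset.sum_le_sum this
    _ = (1 / 2 : ℝ) * ∑ k ∈ range n, (1 / 2 : ℝ) ^ k := by rw [Finset.mul_sum]
    _ ≤ (1 / 2 : ℝ) * ∑' k : ℕ, (1 / 2 : ℝ) ^ k :=
        mul_le_mul_of_nonneg_left
          (summable_geometric_two.sum_le_tsum _ (fun n _ => by positivity)) (by norm_num)
    _ = 1 := by rw [tsum_geometric_two]; norm_num

instance : Infinite Node := by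
  apply Infinite.of_injective (fun n : ℕ => mkNode (fun k => k + 1) n (fun k => le_refl _)
    (by have := geom_quarter (n + 1); linarith))
  intro n m h
  have : (mkNode (fun k => k + 1) n (fun k => le_refl _)
    (by have := geom_quarter (n + 1); linarith)).1 = (mkNode (fun k => k + 1) m (fun k => le_refl _)
    (by have := geom_quarter (m + 1); linarith)).1 := congrArg Sigma.fst h
  exact this

theorem exists_tree : Nonempty TreeData := by
  classical
  obtain ⟨d⟩ := nonempty_denumerable Node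
  let e : Node ≃ ℕ := @Denumerable.eqv Node d
  refine ⟨{
    L := fun i => (e.symm i).1
    v := fun i => (1 / 2 : ℝ) ^ (ext (e.symm i) (e.symm i).1)
    R := fun s t => (e.symm s).1 ≤ (e.symm t).1 ∧
      ∀ k ≤ (e.symm s).1, ext (e.symm s) k = ext (e.symm t) k
    v_nonneg := fun t => by positivity
    v_le_one := fun t => pow_le_one₀ (by norm_num) (by norm_num)
    refl := fun t => ⟨le_refl _, fun _ _ => rfl⟩
    fin := ?_
    inj := ?_
    sq := ?_
    branch := ?_ }⟩
  · intro n
    have hfin : Set.Finite (Set.range (fun f : LNode n => e (⟨n, f⟩ : Node))) :=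
      Set.finite_range _
    apply hfin.subset
    intro i hi
    have hi' : (e.symm i).1 = n := hi
    subst hi'
    exact ⟨(e.symm i).2, e.apply_symm_apply i⟩
  · intro s s' t hs hs' hL
    have : e.symm s = e.symm s' := by
      apply node_ext _ _ hL
      intro k hk
      rw [hs.2 k hk, hs'.2 k (by rw [← hL]; exact hk)]
    exact e.symm.injective this
  · intro t S hS
    have h1 : ∀ s ∈ S, ((1 / 2 : ℝ) ^ (ext (e.symm s) (e.symm s).1)) ^ 2
        = (1 / 4 : ℝ) ^ (ext (e.symm t) (e.symm s).1) := by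
      intro s hs
      rw [(hS s hs).2 _ (le_refl _), ← pow_mul, mul_comm, pow_mul]
      norm_num
    rw [Finset.sum_congr rfl h1]
    have hinj : Set.InjOn (fun s => (e.symm s).1) (S : Set ℕ) := by
      intro s hs s' hs' hL
      have hs := hS s hs
      have hs' := hS s' hs'
      have hL' : (e.symm s).1 = (e.symm s').1 := hL
      have : e.symm s = e.symm s' := by
        apply node_ext _ _ hL'
        intro k hk
        rw [hs.2 k hk, hs'.2 k (by rw [← hL']; exact hk)]
      exact e.symm.injective this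
    have h2 : ∑ s ∈ S, (1 / 4 : ℝ) ^ (ext (e.symm t) (e.symm s).1)
        = ∑ n ∈ S.image (fun s => (e.symm s).1), (1 / 4 : ℝ) ^ (ext (e.symm t) n) := by
      rw [Finset.sum_image hinj]
    rw [h2]
    refine le_trans ?_ (sum_ext (e.symm t))
    apply Finset.sum_le_sum_of_subset_of_nonneg
    · intro n hn
      simp only [mem_image] at hn
      obtain ⟨s, hs, rfl⟩ := hn
      exact mem_range.2 (Nat.lt_succ_of_le (hS s hs).1)
    · intro n _ _
      positivity
  · intro β N hβ
    set β' : ℕ → ℝ := fun k => if k < N then β k else 0 with hβ'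
    have hβ's : ∀ n, ∑ k ∈ range n, β' k ^ 2 ≤ 1 := by
      intro n
      have h1 : ∑ k ∈ range n, β' k ^ 2 ≤ ∑ k ∈ range (max n N), β' k ^ 2 :=
        Finset.sum_le_sum_of_subset_of_nonneg
          (range_subset_range.2 (le_max_left _ _)) (fun _ _ _ => sq_nonneg _)
      have h2 : ∑ k ∈ range (max n N), β' k ^ 2 = ∑ k ∈ range N, β k ^ 2 := by
        have : ∑ k ∈ range N, β k ^ 2 = ∑ k ∈ range N, β' k ^ 2 := by
          apply Finset.sum_congr rfl
          intro k hk
          simp only [hβ']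
          rw [if_pos (mem_range.1 hk)]
        rw [this]
        symm
        apply Finset.sum_subset (range_subset_range.2 (le_max_right _ _))
        intro k _ hk
        simp only [hβ']
        rw [if_neg (by simpa using hk)]
        simp
      linarith
    have hex : ∀ k, (1 / 2 : ℝ) ^ (k + 1) ≤ |β' k| → ∃ j : ℕ, (1 / 2 : ℝ) ^ j ≤ |β' k| :=
      fun k h => ⟨k + 1, h⟩
    set j : ℕ → ℕ := fun k => if h : (1 / 2 : ℝ) ^ (k + 1) ≤ |β' k| then
      Nat.find (hex k h) else k + 1 with hj
    have hj1 : ∀ k, j k ≤ k + 1 := by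
      intro k
      by_cases h : (1 / 2 : ℝ) ^ (k + 1) ≤ |β' k|
      · simp only [hj, dif_pos h]
        exact Nat.find_min' _ h
      · simp only [hj, dif_neg h]
        exact le_refl _
    have hβ1 : ∀ k, |β' k| ≤ 1 := by
      intro k
      have h1 := hβ's (k + 1)
      have h2 : β' k ^ 2 ≤ ∑ k ∈ range (k + 1), β' k ^ 2 :=
        Finset.single_le_sum (f := fun k => β' k ^ 2) (fun _ _ => sq_nonneg _)
          (mem_range.2 (Nat.lt_succ_self k))
      have h3 : |β' k| ^ 2 ≤ 1 := by rw [sq_abs]; linarith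
      nlinarith [abs_nonneg (β' k)]
    have hj2 : ∀ k, |β' k| ≤ 2 * (1 / 2 : ℝ) ^ (j k) := by
      intro k
      by_cases h : (1 / 2 : ℝ) ^ (k + 1) ≤ |β' k|
      · have hjk : j k = Nat.find (hex k h) := by simp only [hj, dif_pos h]
        rcases Nat.eq_zero_or_pos (j k) with h0 | h0
        · rw [h0]
          have := hβ1 k
          norm_num
          linarith
        · have := Nat.find_min (hex k h) (m := j k - 1) (by rw [← hjk]; omega)
          have h3 := (not_le.1 this).le
          obtain ⟨i, hi⟩ := Nat.exists_eq_add_of_le h0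
          have h1 : j k = i + 1 := by omega
          rw [h1] at h3 ⊢
          have h4 : i + 1 - 1 = i := by omega
          rw [h4] at h3
          rw [pow_succ]
          linarith
      · have hjk : j k = k + 1 := by simp only [hj, dif_neg h]
        rw [hjk]
        have h1 := (not_le.1 h).le
        have : (0 : ℝ) < (1 / 2 : ℝ) ^ (k + 1) := by positivity
        linarith
    have hj3 : ∀ k, (1 / 4 : ℝ) ^ (j k) ≤ β' k ^ 2 + (1 / 4 : ℝ) ^ (k + 1) := by
      intro k
      by_cases h : (1 / 2 : ℝ) ^ (k + 1) ≤ |β' k|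
      · have hjk : j k = Nat.find (hex k h) := by simp only [hj, dif_pos h]
        have h1 := Nat.find_spec (hex k h)
        rw [← hjk] at h1
        have h2 : ((1 / 2 : ℝ) ^ (j k)) ^ 2 ≤ |β' k| ^ 2 :=
          pow_le_pow_left₀ (by positivity) h1 2
        rw [sq_abs, ← pow_mul, mul_comm, pow_mul] at h2
        have h3 : ((1 / 2 : ℝ) ^ 2) = 1 / 4 := by norm_num
        rw [h3] at h2
        have : (0 : ℝ) < (1 / 4 : ℝ) ^ (k + 1) := by positivity
        linarith
      · have hjk : j k = k + 1 := by simp only [hj, dif_neg h]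
        rw [hjk]
        have := sq_nonneg (β' k)
        linarith
    have hj4 : ∀ n, ∑ k ∈ range (n + 1), (1 / 4 : ℝ) ^ (j k) ≤ 2 := by
      intro n
      calc ∑ k ∈ range (n + 1), (1 / 4 : ℝ) ^ (j k)
          ≤ ∑ k ∈ range (n + 1), (β' k ^ 2 + (1 / 4 : ℝ) ^ (k + 1)) :=
            Finset.sum_le_sum fun k _ => hj3 k
        _ = ∑ k ∈ range (n + 1), β' k ^ 2 + ∑ k ∈ range (n + 1), (1 / 4 : ℝ) ^ (k + 1) :=
            Finset.sum_add_distrib
        _ ≤ 1 + 1 := add_le_add (hβ's _) (geom_quarter _)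
        _ = 2 := by norm_num
    refine ⟨fun n => e (mkNode j n hj1 (hj4 n)), ?_, ?_⟩
    · intro n hn
      simp only [Equiv.symm_apply_apply]
      have hlev : (mkNode j n hj1 (hj4 n)).1 = n := rfl
      refine ⟨hlev, ?_⟩
      rw [hlev, ext_mkNode j n hj1 (hj4 n) n (le_refl n)]
      have := hj2 n
      simp only [hβ'] at this
      rw [if_pos hn] at this
      exact this
    · intro m n hmn _
      simp only [Equiv.symm_apply_apply]
      have hlev : ∀ n, (mkNode j n hj1 (hj4 n)).1 = n := fun _ => rfl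
      rw [hlev, hlev]
      refine ⟨hmn, ?_⟩
      intro k hk
      rw [ext_mkNode j m hj1 (hj4 m) k hk, ext_mkNode j n hj1 (hj4 n) k (hk.trans hmn)]

end Pool.Agent.H697R3.CombDual
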