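import Pool.Agent.H697R3.Heart
import Pool.Agent.H697R3.Tree

set_option autoImplicit false

namespace Pool.Agent.H697R3.CombDual

open Finset

open Classical in
theorem heart2 (D : TreeData) (U : Finset ℕ) (w : ℕ → ℝ) (hw : ∀ t, 0 ≤ w t)
    (hF : ∀ F ⊆ U, F ∈ Fam D → ∑ t ∈ F, w t ≤ 1) :
    ∑ n ∈ U.image D.L, (∑ t ∈ U.filter (fun t => D.L t = n), D.v t * w t) ^ 2 ≤ 35 ^ 2 := by
  set u : ℕ → ℝ := fun n => ∑ t ∈ U.filter (fun t => D.L t = n), D.v t * w t with hu
  set S : ℝ := ∑ n ∈ U.image D.L, u n ^ 2 with hS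
  have hu0 : ∀ n, 0 ≤ u n := fun n => Finset.sum_nonneg fun t _ => mul_nonneg (D.v_nonneg t) (hw t)
  have hS0 : 0 ≤ S := Finset.sum_nonneg fun n _ => sq_nonneg _
  rcases hS0.eq_or_lt with h0 | hpos
  · rw [← h0]; norm_num
  · have hr : 0 < Real.sqrt S := Real.sqrt_pos.2 hpos
    have hrr : Real.sqrt S ^ 2 = S := Real.sq_sqrt hS0
    have h := heart D U w hw hF (fun n => u n / Real.sqrt S)
      (fun n => div_nonneg (hu0 n) hr.le) (by
        simp only [div_pow]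
        rw [← Finset.sum_div, hrr]
        exact div_self hpos.ne')
    have h2 : ∑ t ∈ U, (u (D.L t) / Real.sqrt S) * D.v t * w t = Real.sqrt S := by
      rw [← Finset.sum_fiberwise_of_maps_to (s := U) (t := U.image D.L) (g := D.L)
        (fun t ht => mem_image_of_mem _ ht)]
      have : ∀ n ∈ U.image D.L, ∑ t ∈ U.filter (fun t => D.L t = n),
          (u (D.L t) / Real.sqrt S) * D.v t * w t = u n ^ 2 / Real.sqrt S := by
        intro n _
        have h3 : ∀ t ∈ U.filter (fun t => D.L t = n),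
            (u (D.L t) / Real.sqrt S) * D.v t * w t = (u n / Real.sqrt S) * (D.v t * w t) := by
          intro t ht
          rw [(mem_filter.1 ht).2]; ring
        rw [Finset.sum_congr rfl h3, ← Finset.mul_sum]
        have : ∑ t ∈ U.filter (fun t => D.L t = n), D.v t * w t = u n := rfl
        rw [this]; ring
      rw [Finset.sum_congr rfl this, ← Finset.sum_div]
      rw [div_eq_iff hr.ne', ← sq, hrr]
    rw [h2] at h
    calc S = Real.sqrt S ^ 2 := hrr.symm
      _ ≤ 35 ^ 2 := pow_le_pow_left₀ hr.le h 2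

open Classical in
theorem heart3 (D : TreeData) (U : Finset ℕ) (w : ℕ → ℝ) (hw : ∀ t, 0 ≤ w t) (M : ℝ)
    (hM : 0 ≤ M) (hF : ∀ F ⊆ U, F ∈ Fam D → ∑ t ∈ F, w t ≤ M) :
    ∑ n ∈ U.image D.L, (∑ t ∈ U.filter (fun t => D.L t = n), D.v t * w t) ^ 2
      ≤ 35 ^ 2 * M ^ 2 := by
  rcases hM.eq_or_lt with h0 | hpos
  · -- all weights vanish on U
    have hwz : ∀ t ∈ U, w t = 0 := by
      intro t ht
      have := hF {t} (by simpa using ht) ⟨by
        intro s hs s' hs' hne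
        simp only [mem_singleton] at hs hs'
        exact absurd (hs.trans hs'.symm) hne, by
        intro s _
        calc (({t} : Finset ℕ).image D.L).card ≤ ({t} : Finset ℕ).card := card_image_le
          _ = 1 := by simp
          _ ≤ 4 ^ D.L s := Nat.one_le_pow _ _ (by norm_num)⟩
      simp only [sum_singleton] at this
      exact le_antisymm (by rw [h0]; exact this) (hw t)
    rw [← h0]
    have : ∀ n ∈ U.image D.L,
        (∑ t ∈ U.filter (fun t => D.L t = n), D.v t * w t) ^ 2 = 0 := by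
      intro n _
      rw [Finset.sum_eq_zero]
      · simp
      · intro t ht
        rw [hwz t (mem_filter.1 ht).1]; simp
    rw [Finset.sum_congr rfl this]
    simp
  · have h := heart2 D U (fun t => w t / M) (fun t => div_nonneg (hw t) hM) (by
      intro F hFU hFF
      rw [← Finset.sum_div, div_le_one hpos]
      exact hF F hFU hFF)
    have h2 : ∀ n ∈ U.image D.L,
        (∑ t ∈ U.filter (fun t => D.L t = n), D.v t * w t) ^ 2
        = (∑ t ∈ U.filter (fun t => D.L t = n), D.v t * (w t / M)) ^ 2 * M ^ 2 := by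
      intro n _
      rw [← mul_pow, Finset.sum_mul]
      congr 1
      apply Finset.sum_congr rfl
      intro t _
      field_simp
    rw [Finset.sum_congr rfl h2, ← Finset.sum_mul]
    exact mul_le_mul_of_nonneg_right h (sq_nonneg _)

/-- index set for the ambient sup-norm space -/
abbrev Idx (𝓕 : Set (Finset ℕ)) : Type := {A : Finset ℕ // A ∈ 𝓕} × Finset ℕ

/-- signs -/
noncomputable def sg (B : Finset ℕ) (i : ℕ) : ℝ := if i ∈ B then -1 else 1

theorem abs_sg (B : Finset ℕ) (i : ℕ) : |sg B i| = 1 := by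
  unfold sg; split_ifs <;> simp

noncomputable def e0fun (𝓕 : Set (Finset ℕ)) (i : ℕ) : Idx 𝓕 → ℝ :=
  fun p => if i ∈ p.1.1 then sg p.2 i else 0

abbrev Amb (𝓕 : Set (Finset ℕ)) : Type := lp (fun _ : Idx 𝓕 => ℝ) ⊤

theorem e0_mem (𝓕 : Set (Finset ℕ)) (i : ℕ) :
    Memℓp (E := fun _ : Idx 𝓕 => ℝ) (e0fun 𝓕 i) ⊤ := by
  rw [memℓp_infty_iff]
  refine ⟨1, ?_⟩
  rintro _ ⟨p, rfl⟩
  simp only [e0fun]
  split_ifs
  · rw [Real.norm_eq_abs, abs_sg]
  · simp

noncomputable def e0 (𝓕 : Set (Finset ℕ)) (i : ℕ) : Amb 𝓕 := ⟨e0fun 𝓕 i, e0_mem 𝓕 i⟩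

theorem e0_apply (𝓕 : Set (Finset ℕ)) (i : ℕ) (p : Idx 𝓕) :
    (e0 𝓕 i : Amb 𝓕) p = if i ∈ p.1.1 then sg p.2 i else 0 := rfl

theorem sum_apply' (𝓕 : Set (Finset ℕ)) (s : Finset ℕ) (g : ℕ → ℕ) (a : ℕ → ℝ) (p : Idx 𝓕) :
    (∑ i ∈ s, a i • e0 𝓕 (g i) : Amb 𝓕) p
      = ∑ i ∈ s, a i * (if g i ∈ p.1.1 then sg p.2 (g i) else 0) := by
  rw [lp.coeFn_sum, Finset.sum_apply]
  apply Finset.sum_congr rfl
  intro i _
  rw [lp.coeFn_smul, Pi.smul_apply, e0_apply, smul_eq_mul]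

theorem bdd_img (𝓕 : Set (Finset ℕ)) (n : ℕ) (a : ℕ → ℝ) :
    BddAbove ((fun F : Finset ℕ => ∑ i ∈ F ∩ Finset.range n, |a i|) '' 𝓕) := by
  refine ⟨∑ i ∈ range n, |a i|, ?_⟩
  rintro _ ⟨F, _, rfl⟩
  exact Finset.sum_le_sum_of_subset_of_nonneg inter_subset_right (fun _ _ _ => abs_nonneg _)

theorem norm_sum_e0 (𝓕 : Set (Finset ℕ)) (hne : 𝓕.Nonempty) (n : ℕ) (a : ℕ → ℝ) :
    ‖(∑ i ∈ Finset.range n, a i • e0 𝓕 i : Amb 𝓕)‖ =
      sSup ((fun F : Finset ℕ => ∑ i ∈ F ∩ Finset.range n, |a i|) '' 𝓕) := by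
  apply le_antisymm
  · apply lp.norm_le_of_forall_le
    · apply Real.sSup_nonneg
      rintro _ ⟨F, _, rfl⟩
      exact Finset.sum_nonneg fun _ _ => abs_nonneg _
    · intro p
      rw [sum_apply' 𝓕 (range n) (fun i => i) a p, Real.norm_eq_abs]
      refine le_trans (Finset.abs_sum_le_sum_abs _ _) ?_
      refine le_trans ?_ (le_csSup (bdd_img 𝓕 n a) ⟨p.1.1, p.1.2, rfl⟩)
      have : ∑ i ∈ p.1.1 ∩ range n, |a i| = ∑ i ∈ range n, if i ∈ p.1.1 then |a i| else 0 := by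
        rw [← Finset.sum_filter]
        apply Finset.sum_congr _ (fun _ _ => rfl)
        ext i; simp only [mem_inter, mem_filter]; tauto
      simp only
      rw [this]
      apply Finset.sum_le_sum
      intro i _
      split_ifs with h
      · rw [abs_mul, abs_sg, mul_one]
      · simp
  · apply csSup_le (hne.image _)
    rintro _ ⟨A, hA, rfl⟩
    simp only
    have h1 := lp.norm_apply_le_norm (p := ⊤) ENNReal.top_ne_zero
      (∑ i ∈ Finset.range n, a i • e0 𝓕 i : Amb 𝓕)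
      ((⟨A, hA⟩, (range n).filter (fun i => a i < 0)) : Idx 𝓕)
    refine le_trans (le_trans ?_ (le_abs_self _)) h1
    rw [sum_apply' 𝓕 (range n) (fun i => i) a]
    have : ∑ i ∈ A ∩ range n, |a i| = ∑ i ∈ range n, if i ∈ A then |a i| else 0 := by
      rw [← Finset.sum_filter]
      apply Finset.sum_congr _ (fun _ _ => rfl)
      ext i; simp only [mem_inter, mem_filter]; tauto
    rw [this]
    apply Finset.sum_le_sum
    intro i hi
    simp only
    split_ifs with h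
    · unfold sg
      by_cases hneg : a i < 0
      · rw [if_pos (mem_filter.2 ⟨hi, hneg⟩), abs_of_neg hneg]; linarith
      · have hnm : i ∉ (range n).filter (fun i => a i < 0) := fun hh => hneg (mem_filter.1 hh).2
        rw [if_neg hnm, abs_of_nonneg (not_lt.1 hneg)]; linarith
    · simp

/-- the combinatorial Banach space -/
noncomputable abbrev Sp (𝓕 : Set (Finset ℕ)) : Submodule ℝ (Amb 𝓕) :=
  (Submodule.span ℝ (Set.range (e0 𝓕))).topologicalClosure

noncomputable def ee (𝓕 : Set (Finset ℕ)) (i : ℕ) : Sp 𝓕 :=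
  ⟨e0 𝓕 i, Submodule.le_topologicalClosure _ (Submodule.subset_span ⟨i, rfl⟩)⟩

theorem dense_ee (𝓕 : Set (Finset ℕ)) :
    Dense (Submodule.span ℝ (Set.range (ee 𝓕)) : Set (Sp 𝓕)) := by
  rw [Subtype.dense_iff]
  have h : (Subtype.val '' (Submodule.span ℝ (Set.range (ee 𝓕)) : Set (Sp 𝓕)))
      = (Submodule.span ℝ (Set.range (e0 𝓕)) : Set (Amb 𝓕)) := by
    have h1 : (Submodule.span ℝ (Set.range (ee 𝓕))).map (Sp 𝓕).subtype
        = Submodule.span ℝ (Set.range (e0 𝓕)) := by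
      rw [Submodule.map_span]
      congr 1
      rw [← Set.range_comp]
      rfl
    rw [← h1]
    rfl
  intro x hx
  have hx' : x ∈ closure (Submodule.span ℝ (Set.range (e0 𝓕)) : Set (Amb 𝓕)) := hx
  rw [← h] at hx'
  exact hx'

theorem norm_sum_ee (𝓕 : Set (Finset ℕ)) (hne : 𝓕.Nonempty) (n : ℕ) (a : ℕ → ℝ) :
    ‖∑ i ∈ Finset.range n, a i • ee 𝓕 i‖ =
      sSup ((fun F : Finset ℕ => ∑ i ∈ F ∩ Finset.range n, |a i|) '' 𝓕) := by
  rw [← norm_sum_e0 𝓕 hne n a]
  have : ((∑ i ∈ Finset.range n, a i • ee 𝓕 i : Sp 𝓕) : Amb 𝓕)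
      = ∑ i ∈ Finset.range n, a i • e0 𝓕 i := by
    rw [Submodule.coe_sum]
    rfl
  rw [← this]
  rfl

end Pool.Agent.H697R3.CombDual
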